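import Mathlib
import Pool.Agent.H12.D8

open CategoryTheory Polynomial TensorProduct NumberField

namespace Pool.Agent.FRC

open Pool.Agent.H12

section Defs

variable (k : Type) [Field k] (ℓ : ℕ) [Fact ℓ.Prime]

/-- Linear representations of `G_k` over `ℚ_ℓ`, without any further condition. -/
abbrev RepG : Type 1 := Rep.{0} ℚ_[ℓ] (GG k)

/-- The ring of all algebraic integers in the algebraic closure of `k`. -/
abbrev Zb : Type := 𝓞 (AlgebraicClosure k)

variable {k}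

/-- `σ y ≡ y ^ q` modulo `𝔓` for all algebraic integers `y`. For `q = 1` this says that `σ` is in
the inertia group of `𝔓`, and for `q = nrm 𝔓` that `σ` is an arithmetic Frobenius at `𝔓`. -/
def FrobAt (𝔓 : Ideal (Zb k)) (q : ℕ) (σ : GG k) : Prop :=
  ∀ y z : Zb k, (z : AlgebraicClosure k) = σ (y : AlgebraicClosure k) → z - y ^ q ∈ 𝔓

/-- The number of elements of the residue field of the place of `k` below `𝔓`. -/
noncomputable def nrm (𝔓 : Ideal (Zb k)) : ℕ :=
  Nat.card (𝓞 k ⧸ 𝔓.comap (algebraMap (𝓞 k) (Zb k)))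

variable {ℓ}

/-- `V` is unramified at every prime that does not contain `N`. -/
def UnramOutside (V : RepG k ℓ) (N : ℕ) : Prop :=
  ∀ 𝔓 : Ideal (Zb k), 𝔓.IsMaximal → (N : Zb k) ∉ 𝔓 → ∀ σ : GG k, FrobAt 𝔓 1 σ →
    ∀ v : V, V.ρ σ v = v

/-- `V` is pure of weight `m`: outside a finite set of primes, `V` is unramified and every
eigenvalue of a geometric Frobenius is an algebraic number all of whose complex absolute values
are `q ^ (m / 2)`, where `q` is the number of elements of the residue field. -/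
def IsPure (V : RepG k ℓ) (m : ℤ) : Prop :=
  ∃ N : ℕ, N ≠ 0 ∧ UnramOutside V N ∧
    ∀ 𝔓 : Ideal (Zb k), 𝔓.IsMaximal → (N : Zb k) ∉ 𝔓 → ∀ σ : GG k, FrobAt 𝔓 (nrm 𝔓) σ →
      ∀ μ : AlgebraicClosure ℚ_[ℓ], aeval μ (minpoly ℚ_[ℓ] (V.ρ σ⁻¹)) = 0 →
        IsWeil (nrm 𝔓) m μ

/-- `P` is isomorphic to `A / B`, where `A` and `B` are stable subspaces of `V`. -/
def IsGr (V : RepG k ℓ) (A B : Submodule ℚ_[ℓ] V) (P : RepG k ℓ) : Prop :=
  ∃ π : V →ₗ[ℚ_[ℓ]] P, (∀ y, ∃ v ∈ A, π v = y) ∧ (∀ v ∈ A, π v = 0 ↔ v ∈ B) ∧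
    ∀ (g : GG k), ∀ v ∈ A, π (V.ρ g v) = P.ρ g (π v)

/-- `V` is mixed: it has a finite increasing filtration by subrepresentations whose `m`-th graded
piece is pure of weight `m`. -/
def IsMixed (V : RepG k ℓ) : Prop :=
  ∃ W : ℤ → Submodule ℚ_[ℓ] V, Monotone W ∧ (∃ a, W a = ⊥) ∧ (∃ b, W b = ⊤) ∧
    (∀ m (g : GG k), ∀ v ∈ W m, V.ρ g v ∈ W m) ∧
    ∀ m, ∃ P : RepG k ℓ, IsPure P m ∧ IsGr V (W m) (W (m - 1)) P

/-- Continuity of a linear representation of a topological group over `ℚ_ℓ` (continuity of all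
matrix coefficients). -/
def IsCont {G : Type} [Group G] [TopologicalSpace G] (V : Rep.{0} ℚ_[ℓ] G) : Prop :=
  ∀ (v : V) (f : Module.Dual ℚ_[ℓ] V), Continuous fun g => f (V.ρ g v)

/-- A finite-dimensional continuous representation `U` of `G_L` is semistable: `B_st ⊗ U` has a
`B_st`-basis of vectors fixed by `G_L`. -/
def IsSemistable (L : IntermediateField ℚ_[ℓ] (PadicAlgCl ℓ))
    (U : Rep.{0} ℚ_[ℓ] L.fixingSubgroup) : Prop :=
  FiniteDimensional ℚ_[ℓ] U ∧ IsCont U ∧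
    ∃ b : Module.Basis (Fin (Module.finrank ℚ_[ℓ] U)) (Bst ℓ) (Bst ℓ ⊗[ℚ_[ℓ]] U),
      ∀ (σ : L.fixingSubgroup) i,
        TensorProduct.map (actBstLin (σ : GalP ℓ)) (U.ρ σ) (b i) = b i

/-- `V` is potentially semistable at every place of `k` above `ℓ`. For every embedding `ι` of the
algebraic closure of `k` into that of `ℚ_ℓ` (each place `v ∣ ℓ` is induced by such an `ι`) there
is a finite extension `L` of `ℚ_ℓ` containing `ι k` (so containing `k_v`) such that the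
restriction of `V` to `G_L` is a subquotient `A / ker π` of a semistable representation `U` of
`G_L`. Here `σ ∈ G_L` acts on `V` through the element `g` of `G_k` induced by `σ`. (By Fontaine,
subquotients of semistable representations are semistable.) -/
def IsPst (V : RepG k ℓ) : Prop :=
  ∀ ι : AlgebraicClosure k →+* PadicAlgCl ℓ,
    ∃ L : IntermediateField ℚ_[ℓ] (PadicAlgCl ℓ), FiniteDimensional ℚ_[ℓ] L ∧
      (∀ x : k, ι (algebraMap k (AlgebraicClosure k) x) ∈ L) ∧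
      ∃ U : Rep.{0} ℚ_[ℓ] L.fixingSubgroup, IsSemistable L U ∧
        ∃ (A : Submodule ℚ_[ℓ] U) (π : A →ₗ[ℚ_[ℓ]] V), Function.Surjective π ∧
          (∀ σ, ∀ a ∈ A, U.ρ σ a ∈ A) ∧
          ∀ (σ : L.fixingSubgroup) (g : GG k), (∀ x, ι (g x) = (σ : GalP ℓ) (ι x)) →
            ∀ a b : A, (b : U) = U.ρ σ a → π b = V.ρ g (π a)

variable (k ℓ)

/-- The objects of the category `C_{k,ℓ}`. -/
def InC : ObjectProperty (RepG k ℓ) := fun V =>
  FiniteDimensional ℚ_[ℓ] V ∧ IsCont V ∧ (∃ N : ℕ, N ≠ 0 ∧ UnramOutside V N) ∧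
    IsMixed V ∧ IsPst V

end Defs

end Pool.Agent.FRC
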