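import Mathlib
import Pool.Agent.FRC.Defs

open CategoryTheory Polynomial TensorProduct NumberField

namespace Pool.Agent.FRC

open Pool.Agent.H12

section Base

variable {k : Type} [Field k] {ℓ : ℕ} [Fact ℓ.Prime]

/-- Polynomial form of mixedness, with one integer `N` for all steps of the filtration `W`. -/
def MixedP (V : RepG k ℓ) (N : ℕ) (W : ℤ → Submodule ℚ_[ℓ] V) : Prop :=
  Monotone W ∧ (∃ a, W a = ⊥) ∧ (∃ b, W b = ⊤) ∧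
    (∀ m (g : GG k), ∀ v ∈ W m, V.ρ g v ∈ W m) ∧
    ∀ 𝔓 : Ideal (Zb k), 𝔓.IsMaximal → (N : Zb k) ∉ 𝔓 → ∀ σ : GG k, FrobAt 𝔓 (nrm 𝔓) σ →
      ∀ m, ∃ p : ℚ_[ℓ][X], p ≠ 0 ∧
        (∀ μ : AlgebraicClosure ℚ_[ℓ], aeval μ p = 0 → IsWeil (nrm 𝔓) m μ) ∧
        ∀ v ∈ W m, aeval (V.ρ σ⁻¹) p v ∈ W (m - 1)

/-- All weights of `V` are at most `a`. -/
def WtLE (V : RepG k ℓ) (a : ℤ) : Prop := ∃ N W, N ≠ 0 ∧ MixedP V N W ∧ W a = ⊤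

/-- All weights of `V` are greater than `a`. -/
def WtGT (V : RepG k ℓ) (a : ℤ) : Prop := ∃ N W, N ≠ 0 ∧ MixedP V N W ∧ W a = ⊥

/-- The local condition at `ι` and `L` in `IsPst`: the restriction of `V` to `G_L` is a
subquotient of a semistable representation. -/
def PstAt (V : RepG k ℓ) (ι : AlgebraicClosure k →+* PadicAlgCl ℓ)
    (L : IntermediateField ℚ_[ℓ] (PadicAlgCl ℓ)) : Prop :=
  ∃ U : Rep.{0} ℚ_[ℓ] L.fixingSubgroup, IsSemistable L U ∧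
    ∃ (A : Submodule ℚ_[ℓ] U) (π : A →ₗ[ℚ_[ℓ]] V), Function.Surjective π ∧
      (∀ σ, ∀ a ∈ A, U.ρ σ a ∈ A) ∧
      ∀ (σ : L.fixingSubgroup) (g : GG k), (∀ x, ι (g x) = (σ : GalP ℓ) (ι x)) →
        ∀ a b : A, (b : U) = U.ρ σ a → π b = V.ρ g (π a)

theorem isPst_iff (V : RepG k ℓ) : IsPst V ↔ ∀ ι : AlgebraicClosure k →+* PadicAlgCl ℓ,
    ∃ L : IntermediateField ℚ_[ℓ] (PadicAlgCl ℓ), FiniteDimensional ℚ_[ℓ] L ∧
      (∀ x : k, ι (algebraMap k (AlgebraicClosure k) x) ∈ L) ∧ PstAt V ι L := Iff.rfl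

theorem MixedP.congr_N {V : RepG k ℓ} {N M : ℕ} {W : ℤ → Submodule ℚ_[ℓ] V} (h : MixedP V N W)
    (hNM : N ∣ M) : MixedP V M W := by
  obtain ⟨h1, h2, h3, h4, h5⟩ := h
  refine ⟨h1, h2, h3, h4, fun 𝔓 hm hN => h5 𝔓 hm ?_⟩
  intro hmem
  apply hN
  obtain ⟨c, rfl⟩ := hNM
  rw [Nat.cast_mul]
  exact Ideal.mul_mem_right _ _ hmem

theorem UnramOutside.congr_N {V : RepG k ℓ} {N M : ℕ} (h : UnramOutside V N)
    (hNM : N ∣ M) : UnramOutside V M := by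
  refine fun 𝔓 hm hN => h 𝔓 hm ?_
  intro hmem
  apply hN
  obtain ⟨c, rfl⟩ := hNM
  rw [Nat.cast_mul]
  exact Ideal.mul_mem_right _ _ hmem

end Base

end Pool.Agent.FRC
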