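import Mathlib
import Pool.Agent.FRC.Base

open CategoryTheory Polynomial NumberField

namespace Pool.Agent.FRC

open Pool.Agent.H12

variable {k : Type} [Field k]

/-- The image of an algebraic integer under `σ`, as an algebraic integer. -/
private theorem frb1_exists (σ : GG k) (y : Zb k) :
    ∃ w : Zb k, (w : AlgebraicClosure k) = σ (y : AlgebraicClosure k) := by
  have h : IsIntegral ℤ (y : AlgebraicClosure k) := RingOfIntegers.isIntegral_coe y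
  have h2 : IsIntegral ℤ (σ (y : AlgebraicClosure k)) :=
    h.map (σ.toAlgHom.toRingHom.toIntAlgHom)
  exact ⟨⟨σ (y : AlgebraicClosure k), h2⟩, rfl⟩

theorem frobAt_one (𝔓 : Ideal (Zb k)) : FrobAt 𝔓 1 (1 : GG k) := by
  intro y z h
  have hz : z = y := by
    apply RingOfIntegers.ext
    rw [h]
    rfl
  rw [hz, pow_one, sub_self]
  exact 𝔓.zero_mem

theorem frobAt_mul {𝔓 : Ideal (Zb k)} {q q' : ℕ} {σ τ : GG k} (hσ : FrobAt 𝔓 q σ)
    (hτ : FrobAt 𝔓 q' τ) : FrobAt 𝔓 (q * q') (σ * τ) := by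
  intro y z h
  obtain ⟨w, hw⟩ := frb1_exists τ y
  have h1 := hτ y w hw
  have h2 : z - w ^ q ∈ 𝔓 := by
    apply hσ w z
    rw [h, hw]
    rfl
  have h3 : w ^ q - (y ^ q') ^ q ∈ 𝔓 := by
    obtain ⟨c, hc⟩ := sub_dvd_pow_sub_pow w (y ^ q') q
    rw [hc]
    exact Ideal.mul_mem_right _ _ h1
  have h4 : z - y ^ (q * q') = (z - w ^ q) + (w ^ q - (y ^ q') ^ q) := by
    rw [← pow_mul, mul_comm q' q]
    ring
  rw [h4]
  exact 𝔓.add_mem h2 h3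

theorem frobAt_pow {𝔓 : Ideal (Zb k)} {q : ℕ} {σ : GG k} (hσ : FrobAt 𝔓 q σ) (n : ℕ) :
    FrobAt 𝔓 (q ^ n) (σ ^ n) := by
  induction n with
  | zero =>
    rw [pow_zero, pow_zero]
    exact frobAt_one 𝔓
  | succ n ih =>
    rw [pow_succ, pow_succ]
    exact frobAt_mul ih hσ

theorem frobAt_stab {𝔓 : Ideal (Zb k)} (h𝔓 : 𝔓.IsPrime) {q : ℕ} (hq : q ≠ 0) {σ : GG k}
    (hσ : FrobAt 𝔓 q σ) (y z : Zb k) (hz : (z : AlgebraicClosure k) = σ (y : AlgebraicClosure k)) :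
    z ∈ 𝔓 ↔ y ∈ 𝔓 := by
  have h := hσ y z hz
  constructor
  · intro hz'
    have h1 : y ^ q ∈ 𝔓 := by
      have := 𝔓.sub_mem hz' h
      rwa [sub_sub_cancel] at this
    exact h𝔓.mem_of_pow_mem q h1
  · intro hy
    have h1 : y ^ q ∈ 𝔓 := Ideal.pow_mem_of_mem 𝔓 hy q (Nat.pos_of_ne_zero hq)
    have := 𝔓.add_mem h h1
    rwa [sub_add_cancel] at this

theorem frobAt_inv_mul {𝔓 : Ideal (Zb k)} (h𝔓 : 𝔓.IsPrime) {q : ℕ} (hq : q ≠ 0) {σ τ : GG k}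
    (hσ : FrobAt 𝔓 q σ) (hτ : FrobAt 𝔓 q τ) : FrobAt 𝔓 1 (σ⁻¹ * τ) := by
  intro y z h
  rw [pow_one]
  -- `σ z = τ y`
  have hσz : σ (z : AlgebraicClosure k) = τ (y : AlgebraicClosure k) := by
    rw [h]
    change σ (σ⁻¹ (τ (y : AlgebraicClosure k))) = _
    exact σ.apply_symm_apply _
  obtain ⟨w, hw⟩ := frb1_exists τ y
  obtain ⟨u, hu⟩ := frb1_exists σ y
  have h1 : w - y ^ q ∈ 𝔓 := hτ y w hw
  have h2 : u - y ^ q ∈ 𝔓 := hσ y u hu
  have h3 : w - u ∈ 𝔓 := by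
    have := 𝔓.sub_mem h1 h2
    rwa [sub_sub_sub_cancel_right] at this
  have h4 : ((w - u : Zb k) : AlgebraicClosure k) = σ ((z - y : Zb k) : AlgebraicClosure k) := by
    have e1 : ((w - u : Zb k) : AlgebraicClosure k) = (w : AlgebraicClosure k) - u := by
      exact map_sub (algebraMap (Zb k) (AlgebraicClosure k)) w u
    have e2 : ((z - y : Zb k) : AlgebraicClosure k) = (z : AlgebraicClosure k) - y := by
      exact map_sub (algebraMap (Zb k) (AlgebraicClosure k)) z y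
    rw [e1, e2, map_sub, hσz, hw, hu]
  exact (frobAt_stab h𝔓 hq hσ (z - y) (w - u) h4).1 h3

/-- If `V` is unramified at `𝔓`, two elements with the same Frobenius exponent act in the same
way. -/
theorem rho_eq_of_frobAt {ℓ : ℕ} [Fact ℓ.Prime] {V : RepG k ℓ} {N : ℕ} (hV : UnramOutside V N)
    {𝔓 : Ideal (Zb k)} (h𝔓 : 𝔓.IsMaximal) (hN : (N : Zb k) ∉ 𝔓) {q : ℕ} (hq : q ≠ 0)
    {σ τ : GG k} (hσ : FrobAt 𝔓 q σ) (hτ : FrobAt 𝔓 q τ) : V.ρ σ = V.ρ τ := by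
  have h1 := frobAt_inv_mul h𝔓.isPrime hq hσ hτ
  ext v
  have h2 := hV 𝔓 h𝔓 hN (σ⁻¹ * τ) h1 v
  have h3 : τ = σ * (σ⁻¹ * τ) := by group
  have h4 : V.ρ τ v = V.ρ σ (V.ρ (σ⁻¹ * τ) v) := by
    conv_lhs => rw [h3, map_mul]
    rfl
  rw [h4, h2]

end Pool.Agent.FRC
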