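import Mathlib
import Pool.Agent.FRC.Base

open CategoryTheory Polynomial NumberField

namespace Pool.Agent.FRC

open Pool.Agent.H12

variable {k k' : Type} [Field k] [Field k']

/-- The isomorphism of rings of algebraic integers induced by an isomorphism of algebraic
closures. -/
noncomputable def zE (e : AlgebraicClosure k ≃+* AlgebraicClosure k') : Zb k ≃+* Zb k' :=
  RingOfIntegers.mapRingEquiv e

theorem zE_coe (e : AlgebraicClosure k ≃+* AlgebraicClosure k') (x : Zb k) :
    ((zE e x : Zb k') : AlgebraicClosure k') = e (x : AlgebraicClosure k) := by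
  rfl

/-- The prime of `Zb k` that corresponds to the prime `𝔓` of `Zb k'`. -/
noncomputable def pull (e : AlgebraicClosure k ≃+* AlgebraicClosure k') (𝔓 : Ideal (Zb k')) :
    Ideal (Zb k) := 𝔓.comap (zE e)

theorem pull_isMaximal (e : AlgebraicClosure k ≃+* AlgebraicClosure k') {𝔓 : Ideal (Zb k')}
    (h : 𝔓.IsMaximal) : (pull e 𝔓).IsMaximal := by
  unfold pull
  haveI := h
  exact Ideal.comap_isMaximal_of_surjective (zE e) (zE e).surjective

theorem natCast_mem_pull (e : AlgebraicClosure k ≃+* AlgebraicClosure k') {𝔓 : Ideal (Zb k')}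
    (N : ℕ) : (N : Zb k) ∈ pull e 𝔓 ↔ (N : Zb k') ∈ 𝔓 := by
  unfold pull
  rw [Ideal.mem_comap, map_natCast]

theorem pull_symm (e : AlgebraicClosure k ≃+* AlgebraicClosure k') (𝔓 : Ideal (Zb k)) :
    pull e (pull e.symm 𝔓) = 𝔓 := by
  ext x
  unfold pull
  rw [Ideal.mem_comap, Ideal.mem_comap]
  have h : zE e.symm (zE e x) = x := by
    apply RingOfIntegers.ext
    rw [zE_coe, zE_coe]
    exact e.symm_apply_apply _
  rw [h]

/-- Transport of the Frobenius condition. -/
theorem frobAt_pull (e : AlgebraicClosure k ≃+* AlgebraicClosure k') {𝔓 : Ideal (Zb k')} {q : ℕ}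
    {σ : GG k} {σ' : GG k'} (h : ∀ x, e (σ x) = σ' (e x)) :
    FrobAt (pull e 𝔓) q σ ↔ FrobAt 𝔓 q σ' := by
  constructor
  · intro H y' z' hz
    obtain ⟨y, rfl⟩ := (zE e).surjective y'
    obtain ⟨z, rfl⟩ := (zE e).surjective z'
    have h1 : (z : AlgebraicClosure k) = σ (y : AlgebraicClosure k) := by
      apply e.injective
      rw [h, ← zE_coe, ← zE_coe]
      exact hz
    have h2 := H y z h1
    unfold pull at h2
    rw [Ideal.mem_comap, map_sub, map_pow] at h2
    exact h2
  · intro H y z hz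
    unfold pull
    rw [Ideal.mem_comap, map_sub, map_pow]
    apply H
    rw [zE_coe, zE_coe, hz, h]

/-- The residue cardinality is invariant if `e` maps `k` onto `k'`. -/
theorem nrm_pull_of_fixes (g : GG k) (𝔓 : Ideal (Zb k)) :
    nrm (pull (g : AlgebraicClosure k ≃+* AlgebraicClosure k) 𝔓) = nrm 𝔓 := by
  unfold nrm
  have h : (pull (g : AlgebraicClosure k ≃+* AlgebraicClosure k) 𝔓).comap
      (algebraMap (𝓞 k) (Zb k)) = 𝔓.comap (algebraMap (𝓞 k) (Zb k)) := by
    ext x
    unfold pull
    rw [Ideal.mem_comap, Ideal.mem_comap, Ideal.mem_comap]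
    have h1 : zE (g : AlgebraicClosure k ≃+* AlgebraicClosure k) (algebraMap (𝓞 k) (Zb k) x) =
        algebraMap (𝓞 k) (Zb k) x := by
      apply RingOfIntegers.ext
      rw [zE_coe]
      exact g.commutes (x : k)
    rw [h1]
  rw [h]

end Pool.Agent.FRC
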