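import Mathlib
import Pool.Agent.FRC.TRA

open CategoryTheory Polynomial NumberField

namespace Pool.Agent.FRC

open Pool.Agent.H12

variable {k : Type} [Field k] [NumberField k]

private theorem FRB2_max {𝔓 : Ideal (Zb k)} (h𝔓 : 𝔓.IsMaximal) :
    (𝔓.comap (algebraMap (𝓞 k) (Zb k))).IsMaximal := by
  have : Algebra.IsIntegral (𝓞 k) (Zb k) := Algebra.IsIntegral.tower_top ℤ
  exact Ideal.isMaximal_comap_of_isIntegral_of_isMaximal 𝔓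

private theorem FRB2_fin {𝔓 : Ideal (Zb k)} (h𝔓 : 𝔓.IsMaximal) :
    Finite (𝓞 k ⧸ 𝔓.comap (algebraMap (𝓞 k) (Zb k))) :=
  Ring.HasFiniteQuotients.finiteQuotient
    (Ring.ne_bot_of_isMaximal_of_not_isField (FRB2_max h𝔓) (RingOfIntegers.not_isField k))

theorem nrm_prime_pow {𝔓 : Ideal (Zb k)} (h𝔓 : 𝔓.IsMaximal) :
    ∃ p f : ℕ, p.Prime ∧ 0 < f ∧ nrm 𝔓 = p ^ f ∧ (p : Zb k) ∈ 𝔓 := by
  have hPm := FRB2_max h𝔓
  have hfin := FRB2_fin h𝔓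
  let _ : Field (𝓞 k ⧸ 𝔓.comap (algebraMap (𝓞 k) (Zb k))) := Ideal.Quotient.field _
  let _ : Fintype (𝓞 k ⧸ 𝔓.comap (algebraMap (𝓞 k) (Zb k))) := Fintype.ofFinite _
  obtain ⟨p, hchar, n, hp, hcard⟩ :=
    FiniteField.card' (𝓞 k ⧸ 𝔓.comap (algebraMap (𝓞 k) (Zb k)))
  refine ⟨p, n, hp, n.pos, ?_, ?_⟩
  · rw [nrm, Nat.card_eq_fintype_card]
    exact hcard
  · have h1 : ((p : ℕ) : 𝓞 k ⧸ 𝔓.comap (algebraMap (𝓞 k) (Zb k))) = 0 :=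
      CharP.cast_eq_zero _ p
    have h2 : (p : 𝓞 k) ∈ 𝔓.comap (algebraMap (𝓞 k) (Zb k)) := by
      rw [← Ideal.Quotient.eq_zero_iff_mem, map_natCast]
      exact h1
    have h3 := Ideal.mem_comap.mp h2
    rwa [map_natCast] at h3

theorem one_lt_nrm {𝔓 : Ideal (Zb k)} (h𝔓 : 𝔓.IsMaximal) : 1 < nrm 𝔓 := by
  obtain ⟨p, f, hp, hf, hn, -⟩ := nrm_prime_pow h𝔓
  rw [hn]
  exact Nat.one_lt_pow hf.ne' hp.one_lt

/-- Over `ℚ` the residue field has `p` elements. -/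
theorem nrm_rat {𝔓 : Ideal (Zb ℚ)} (h𝔓 : 𝔓.IsMaximal) :
    (nrm 𝔓).Prime ∧ ((nrm 𝔓 : ℕ) : Zb ℚ) ∈ 𝔓 := by
  obtain ⟨p, f, hp, hf, hn, hmem⟩ := nrm_prime_pow h𝔓
  have h2 : (p : 𝓞 ℚ) ∈ 𝔓.comap (algebraMap (𝓞 ℚ) (Zb ℚ)) := by
    rw [Ideal.mem_comap, map_natCast]
    exact hmem
  have h3 : ((p : ℕ) : 𝓞 ℚ ⧸ 𝔓.comap (algebraMap (𝓞 ℚ) (Zb ℚ))) = 0 := by
    rw [← Ideal.Quotient.eq_zero_iff_mem, map_natCast] at h2
    exact h2
  have hsurj : Function.Surjective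
      (fun i : Fin p => ((i : ℕ) : 𝓞 ℚ ⧸ 𝔓.comap (algebraMap (𝓞 ℚ) (Zb ℚ)))) := by
    intro x
    obtain ⟨y, rfl⟩ := Ideal.Quotient.mk_surjective x
    set n : ℤ := Rat.ringOfIntegersEquiv y with hndef
    have hy : y = (n : 𝓞 ℚ) := by
      apply Rat.ringOfIntegersEquiv.injective
      rw [map_intCast]
      simp [hndef]
    have hp0 : (p : ℤ) ≠ 0 := by exact_mod_cast hp.ne_zero
    have hnn : 0 ≤ n % p := Int.emod_nonneg _ hp0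
    have hlt : n % p < p := Int.emod_lt_of_pos _ (by exact_mod_cast hp.pos)
    refine ⟨⟨(n % p).toNat, by omega⟩, ?_⟩
    have e1 : (((n % p).toNat : ℕ) : ℤ) = n - p * (n / p) := by
      rw [Int.toNat_of_nonneg hnn, Int.emod_def]
    have e2 : ((((n % p).toNat : ℕ) : ℤ) : 𝓞 ℚ ⧸ 𝔓.comap (algebraMap (𝓞 ℚ) (Zb ℚ))) =
        (n : 𝓞 ℚ ⧸ 𝔓.comap (algebraMap (𝓞 ℚ) (Zb ℚ))) := by
      rw [e1, Int.cast_sub, Int.cast_mul, Int.cast_natCast, h3, zero_mul, sub_zero]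
    rw [Int.cast_natCast] at e2
    change (((n % p).toNat : ℕ) : 𝓞 ℚ ⧸ 𝔓.comap (algebraMap (𝓞 ℚ) (Zb ℚ))) = _
    rw [e2, hy, map_intCast]
  have hle : nrm 𝔓 ≤ p := by
    have h := Nat.card_le_card_of_surjective _ hsurj
    rwa [Nat.card_eq_fintype_card (α := Fin p), Fintype.card_fin] at h
  have hf1 : f = 1 := by
    by_contra hne
    have h2f : 2 ≤ f := by omega
    have h4 : p ^ 2 ≤ p ^ f := Nat.pow_le_pow_right hp.pos h2f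
    have h5 := hp.two_le
    have h6 : p ^ 2 ≤ p := le_trans h4 (hn ▸ hle)
    nlinarith
  rw [hn, hf1, pow_one]
  exact ⟨hp, hmem⟩

theorem prime_unique {𝔓 : Ideal (Zb k)} (h𝔓 : 𝔓.IsMaximal) {p p' : ℕ} (hp : p.Prime)
    (hp' : p'.Prime) (h : (p : Zb k) ∈ 𝔓) (h' : (p' : Zb k) ∈ 𝔓) : p = p' := by
  by_contra hne
  have hc : IsCoprime (p : ℤ) (p' : ℤ) :=
    Nat.isCoprime_iff_coprime.mpr ((Nat.coprime_primes hp hp').mpr hne)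
  obtain ⟨a, b, hab⟩ := hc
  apply h𝔓.ne_top
  rw [Ideal.eq_top_iff_one]
  have h1 : ((a * (p : ℤ) + b * (p' : ℤ) : ℤ) : Zb k) = 1 := by rw [hab, Int.cast_one]
  rw [← h1, Int.cast_add, Int.cast_mul, Int.cast_mul, Int.cast_natCast, Int.cast_natCast]
  exact Ideal.add_mem _ (Ideal.mul_mem_left _ _ h) (Ideal.mul_mem_left _ _ h')

private theorem FRB2_dvd {p f M : ℕ} (hp : 1 < p) (h : p ^ f - 1 ∣ p ^ M - 1) : f ∣ M := by
  have h1 : Nat.gcd (p ^ f - 1) (p ^ M - 1) = p ^ f - 1 := Nat.gcd_eq_left h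
  rw [Nat.pow_sub_one_gcd_pow_sub_one] at h1
  have h2 : 0 < p ^ f := Nat.pow_pos (by omega)
  have h3 : 0 < p ^ Nat.gcd f M := Nat.pow_pos (by omega)
  have h4 : p ^ Nat.gcd f M = p ^ f := by omega
  have h5 : Nat.gcd f M = f := Nat.pow_right_injective hp h4
  exact h5 ▸ Nat.gcd_dvd_right f M

private theorem FRB2_field {F : Type} [Field F] [Finite F] {p f M : ℕ} (hp : 1 < p)
    (hf : Nat.card F = p ^ f) (h : ∀ x : F, x ^ (p ^ M) = x) : f ∣ M := by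
  obtain ⟨g, hg⟩ := IsCyclic.exists_ofOrder_eq_natCard (α := Fˣ)
  have h1 : Nat.card Fˣ = p ^ f - 1 := by
    rw [Nat.card_units, hf]
  apply FRB2_dvd hp
  rw [← h1, ← hg]
  apply orderOf_dvd_of_pow_eq_one
  have h2 : g ^ (p ^ M) = g := Units.ext (by rw [Units.val_pow_eq_pow_val]; exact h g)
  have h3 : 0 < p ^ M := Nat.pow_pos (by omega)
  have h4 : g ^ (p ^ M - 1) * g = g := by
    rw [← pow_succ, Nat.sub_add_cancel h3, h2]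
  exact mul_eq_right.mp h4

/-- An element of `G_k` that acts modulo `𝔓` as the `p ^ M`-th power acts as a power of the
Frobenius exponent of `k`: it is trivial on the residue field of `k`. -/
theorem exists_pow_eq {𝔓 : Ideal (Zb k)} (h𝔓 : 𝔓.IsMaximal) {p M : ℕ} (hp : p.Prime)
    (hp𝔓 : (p : Zb k) ∈ 𝔓) {σ : GG k} (hσ : FrobAt 𝔓 (p ^ M) σ) :
    ∃ c, p ^ M = nrm 𝔓 ^ c := by
  obtain ⟨p', f, hp', hf, hn, hmem⟩ := nrm_prime_pow h𝔓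
  obtain rfl := prime_unique h𝔓 hp hp' hp𝔓 hmem
  have hPm := FRB2_max h𝔓
  have hfin := FRB2_fin h𝔓
  let _ : Field (𝓞 k ⧸ 𝔓.comap (algebraMap (𝓞 k) (Zb k))) := Ideal.Quotient.field _
  have key : ∀ x : 𝓞 k ⧸ 𝔓.comap (algebraMap (𝓞 k) (Zb k)), x ^ (p ^ M) = x := by
    intro x
    obtain ⟨y, rfl⟩ := Ideal.Quotient.mk_surjective x
    have h1 := hσ (algebraMap (𝓞 k) (Zb k) y) (algebraMap (𝓞 k) (Zb k) y)
      (σ.commutes (y : k)).symm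
    have h2 : y - y ^ (p ^ M) ∈ 𝔓.comap (algebraMap (𝓞 k) (Zb k)) := by
      rw [Ideal.mem_comap, map_sub, map_pow]
      exact h1
    have h3 := (Ideal.Quotient.eq (I := 𝔓.comap (algebraMap (𝓞 k) (Zb k)))).mpr h2
    rw [map_pow] at h3
    exact h3.symm
  obtain ⟨c, rfl⟩ := FRB2_field hp.one_lt hn key
  exact ⟨c, by rw [hn, pow_mul]⟩

end Pool.Agent.FRC
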