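import Mathlib
import Pool.Agent.FRC.Base
import Pool.Agent.H12.Objects

open CategoryTheory Polynomial NumberField

namespace Pool.Agent.FRC

open Pool.Agent.H12

variable {k : Type} [Field k] [CharZero k] {ℓ : ℕ} [Fact ℓ.Prime]

/-- Two roots of unity of `ℓ`-power order that are congruent modulo `𝔓` are equal, if `ℓ` is not
in `𝔓` (compare `Pool.Agent.H12.root_eq`). -/
theorem root_eq_of_mem {𝔓 : Ideal (Zb k)} (h𝔓 : 𝔓.IsMaximal) (hℓ : (ℓ : Zb k) ∉ 𝔓) (n : ℕ)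
    (z w : Zb k) (hz : z ^ ℓ ^ n = 1) (hw : w ^ ℓ ^ n = 1) (h : z - w ∈ 𝔓) : z = w := by
  have hpr : ℓ.Prime := Fact.out
  obtain ⟨N, hN⟩ : ∃ N, ℓ ^ n = N + 1 := ⟨ℓ ^ n - 1, by
    have := pow_pos hpr.pos n
    omega⟩
  set η := z * w ^ N with hη
  have hwN : w * w ^ N = 1 := by rw [← pow_succ', ← hN, hw]
  have hη1 : η - 1 ∈ 𝔓 := by
    have : η - 1 = (z - w) * w ^ N := by rw [hη, sub_mul, hwN]
    rw [this]
    exact Ideal.mul_mem_right _ _ h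
  have hηN : η ^ ℓ ^ n = 1 := by
    rw [hη, mul_pow, hz, one_mul, ← pow_mul, mul_comm, pow_mul, hw, one_pow]
  by_cases hηe : η = 1
  · have h1 : z * (w ^ N * w) = w := by rw [← mul_assoc, ← hη, hηe, one_mul]
    rwa [mul_comm (w ^ N), hwN, mul_one] at h1
  · exfalso
    have h1 : (∑ i ∈ Finset.range (ℓ ^ n), η ^ i) * (η - 1) = 0 := by
      rw [geom_sum_mul, hηN, sub_self]
    have h2 : ∑ i ∈ Finset.range (ℓ ^ n), η ^ i = 0 := by
      rcases mul_eq_zero.mp h1 with h | h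
      · exact h
      · exact absurd (sub_eq_zero.mp h) hηe
    have h3 : ∑ i ∈ Finset.range (ℓ ^ n), (η ^ i - 1) ∈ 𝔓 := by
      refine Ideal.sum_mem _ fun i _ => ?_
      have h4 : η - 1 ∣ η ^ i - 1 ^ i := sub_dvd_pow_sub_pow η 1 i
      rw [one_pow] at h4
      exact Ideal.mem_of_dvd _ h4 hη1
    rw [Finset.sum_sub_distrib, h2, zero_sub, neg_mem_iff, Finset.sum_const, Finset.card_range,
      nsmul_eq_mul, mul_one, Nat.cast_pow] at h3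
    exact hℓ (h𝔓.isPrime.mem_of_pow_mem n h3)

/-- The cyclotomic character at an element acting as the `q`-th power modulo `𝔓` (compare
`Pool.Agent.H12.cyc_of_frob`). -/
theorem cyc_of_frobAt {𝔓 : Ideal (Zb k)} (h𝔓 : 𝔓.IsMaximal) (hℓ : (ℓ : Zb k) ∉ 𝔓) {q : ℕ}
    {σ : GG k} (hσ : FrobAt 𝔓 q σ) : (cyc k ℓ σ : ℤ_[ℓ]) = q := by
  have hpr : ℓ.Prime := Fact.out
  apply PadicInt.ext_of_toZModPow.mp
  intro n
  have : NeZero (ℓ ^ n) := ⟨pow_ne_zero _ hpr.ne_zero⟩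
  obtain ⟨ζ, hζ⟩ := HasEnoughRootsOfUnity.exists_primitiveRoot (AlgebraicClosure k) (ℓ ^ n)
  have hint : ∀ x : AlgebraicClosure k, x ^ ℓ ^ n = 1 → IsIntegral ℤ x := by
    intro x hx
    exact ⟨X ^ ℓ ^ n - 1, monic_X_pow_sub_C 1 (NeZero.ne _), by simp [hx]⟩
  have hσζ : (σ ζ) ^ ℓ ^ n = 1 := by rw [← map_pow, hζ.pow_eq_one, map_one]
  let y : Zb k := ⟨ζ, hint ζ hζ.pow_eq_one⟩
  let z : Zb k := ⟨σ ζ, hint _ hσζ⟩
  have h1 : z - y ^ q ∈ 𝔓 := hσ y z rfl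
  have hy : y ^ ℓ ^ n = 1 := Subtype.ext hζ.pow_eq_one
  have hz : z ^ ℓ ^ n = 1 := Subtype.ext hσζ
  have h2 : z = y ^ q := root_eq_of_mem h𝔓 hℓ n z (y ^ q) hz
    (by rw [← pow_mul, mul_comm, pow_mul, hy, one_pow]) h1
  have h3 : σ ζ = ζ ^ q := congrArg Subtype.val h2
  rw [cyc_spec k ℓ σ n ζ hζ.pow_eq_one, ← pow_val_natCast _ hζ.pow_eq_one q] at h3
  have h4 := ZMod.val_injective _ (hζ.pow_inj (ZMod.val_lt _) (ZMod.val_lt _) h3)
  rw [h4, map_natCast]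

/-- Kummer data of `ℓ`: compatible primitive roots of unity, compatible roots of `ℓ`, and the
Kummer cocycle. -/
structure KumData (k : Type) [Field k] [CharZero k] (ℓ : ℕ) [Fact ℓ.Prime] where
  ζ : ℕ → AlgebraicClosure k
  u : ℕ → AlgebraicClosure k
  κ : GG k → ℤ_[ℓ]
  prim : ∀ n, IsPrimitiveRoot (ζ n) (ℓ ^ n)
  ζ_succ : ∀ n, ζ (n + 1) ^ ℓ = ζ n
  u_pow : ∀ n, u n ^ ℓ ^ n = (ℓ : AlgebraicClosure k)
  u_succ : ∀ n, u (n + 1) ^ ℓ = u n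
  spec : ∀ n g, g (u n) = ζ n ^ (PadicInt.toZModPow n (κ g)).val * u n
  cocycle : ∀ g h, κ (g * h) = κ g + (cyc k ℓ g : ℤ_[ℓ]) * κ h
  cont : Continuous κ

theorem exists_kumData : Nonempty (KumData k ℓ) := by
  have hpr : ℓ.Prime := Fact.out
  obtain ⟨ζ, hζ, hζs⟩ := exists_zeta k ℓ
  have hroot : ∀ x : AlgebraicClosure k, ∃ z, z ^ ℓ = x := fun x =>
    IsAlgClosed.exists_pow_nat_eq x hpr.pos
  choose R hR using hroot
  let u : ℕ → AlgebraicClosure k := fun n => Nat.rec (ℓ : AlgebraicClosure k) (fun _ z => R z) n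
  have hu : ∀ n, u (n + 1) ^ ℓ = u n := fun n => hR _
  have hup : ∀ n, u n ^ ℓ ^ n = (ℓ : AlgebraicClosure k) := by
    intro n
    induction n with
    | zero => simp [u]
    | succ n ih => rw [pow_succ', pow_mul, hu, ih]
  obtain ⟨κ, h1, h2, h3⟩ := exists_kummer ζ hζ hζs (fun _ => 1) (fun _ => ℓ)
    (fun _ => Nat.one_pos) (fun _ => hpr.pos) u (fun n => by rw [hu, Nat.cast_one, mul_one]) hup
  exact ⟨⟨ζ, u, κ, hζ, hζs, hup, hu, h1, h2, h3⟩⟩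

/-- The Kummer cocycle of `ℓ` is unramified at primes that do not contain `ℓ`. -/
theorem KumData.unram (D : KumData k ℓ) {𝔓 : Ideal (Zb k)} (h𝔓 : 𝔓.IsMaximal)
    (hℓ : (ℓ : Zb k) ∉ 𝔓) {σ : GG k} (hσ : FrobAt 𝔓 1 σ) : D.κ σ = 0 := by
  have hpr : ℓ.Prime := Fact.out
  apply PadicInt.ext_of_toZModPow.mp
  intro n
  have : NeZero (ℓ ^ n) := ⟨pow_ne_zero _ hpr.ne_zero⟩
  set a := (PadicInt.toZModPow n (D.κ σ)).val with ha
  have hζ := D.prim n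
  have hint1 : ∀ x : AlgebraicClosure k, x ^ ℓ ^ n = 1 → IsIntegral ℤ x := by
    intro x hx
    exact ⟨X ^ ℓ ^ n - 1, monic_X_pow_sub_C 1 (NeZero.ne _), by simp [hx]⟩
  have hζa : (D.ζ n ^ a) ^ ℓ ^ n = 1 := by
    rw [← pow_mul, mul_comm, pow_mul, hζ.pow_eq_one, one_pow]
  have hintu : IsIntegral ℤ (D.u n) := by
    refine IsIntegral.of_pow (pow_pos hpr.pos n) ?_
    rw [D.u_pow n]
    exact isIntegral_algebraMap (R := ℤ) (x := (ℓ : ℤ)) |> fun h => by simpa using h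
  let z : Zb k := ⟨D.ζ n ^ a, hint1 _ hζa⟩
  let y : Zb k := ⟨D.u n, hintu⟩
  have hz : z ^ ℓ ^ n = 1 := Subtype.ext hζa
  have hy : y ^ ℓ ^ n = (ℓ : Zb k) := by
    apply Subtype.ext
    have := D.u_pow n
    push_cast
    exact this
  have h1 : z * y - y ^ 1 ∈ 𝔓 := hσ y (z * y) (D.spec n σ).symm
  have h2 : (z - 1) * y ∈ 𝔓 := by
    have : z * y - y ^ 1 = (z - 1) * y := by ring
    rwa [this] at h1
  have hy𝔓 : y ∉ 𝔓 := by
    intro hmem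
    apply hℓ
    rw [← hy]
    exact Ideal.pow_mem_of_mem _ hmem _ (pow_pos hpr.pos n)
  have h3 : z - 1 ∈ 𝔓 := (h𝔓.isPrime.mem_or_mem h2).resolve_right hy𝔓
  have h4 : z = 1 := root_eq_of_mem h𝔓 hℓ n z 1 hz (one_pow _) h3
  have h5 : D.ζ n ^ a = D.ζ n ^ 0 := by
    rw [pow_zero]; exact congrArg Subtype.val h4
  have h6 : a = 0 := hζ.pow_inj (ZMod.val_lt _) (pow_pos hpr.pos n) h5
  rw [map_zero]
  exact (ZMod.val_eq_zero _).mp h6

end Pool.Agent.FRC
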