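import Mathlib
import Pool.Agent.FRC.K0
import Pool.Agent.H12.InCat2

open CategoryTheory Polynomial NumberField TensorProduct

namespace Pool.Agent.FRC

open Pool.Agent.H12

variable {k : Type} [Field k] [NumberField k] {ℓ : ℕ} [Fact ℓ.Prime]

/-- Exponents of a compatible system of roots of unity. -/
private theorem k1_exp {F : Type*} [Field F] (w : ℕ → F) (hw : ∀ n, IsPrimitiveRoot (w n) (ℓ ^ n))
    (hws : ∀ n, w (n + 1) ^ ℓ = w n) (z : ℕ → F) (hz : ∀ n, z n ^ ℓ ^ n = 1)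
    (hzs : ∀ n, z (n + 1) ^ ℓ = z n) :
    ∃ a : ℤ_[ℓ], ∀ n, z n = w n ^ (PadicInt.toZModPow n a).val := by
  have hℓ : ℓ.Prime := Fact.out
  have hex : ∀ n, ∃ a : ℕ, z n = w n ^ a := by
    intro n
    have hpos : NeZero (ℓ ^ n) := ⟨pow_ne_zero _ hℓ.ne_zero⟩
    obtain ⟨i, hi, hi2⟩ := (hw n).eq_pow_of_pow_eq_one (hz n)
    exact ⟨i, hi2.symm⟩
  choose a ha using hex
  have hcompat : ∀ n, (ℓ : ℤ) ^ n ∣ (a (n + 1) : ℤ) - a n := by
    intro n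
    have h1 := hzs n
    rw [ha, ha, ← pow_mul, mul_comm (a (n + 1)) ℓ, pow_mul, hws] at h1
    have hpos : NeZero (ℓ ^ n) := ⟨pow_ne_zero _ hℓ.ne_zero⟩
    rw [← pow_val_natCast _ (hw n).pow_eq_one, ← pow_val_natCast _ (hw n).pow_eq_one (a n)] at h1
    have h3 := ZMod.val_injective _ ((hw n).pow_inj (ZMod.val_lt _) (ZMod.val_lt _) h1)
    have h4 : a n ≡ a (n + 1) [MOD ℓ ^ n] := ((ZMod.natCast_eq_natCast_iff _ _ _).mp h3).symm
    have := Nat.modEq_iff_dvd.mp h4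
    push_cast at this
    exact this
  refine ⟨PadicInt.ofIntSeq _ (PadicInt.isCauSeq_padicNorm_of_pow_dvd_sub
      (fun n => (a n : ℤ)) ℓ hcompat), ?_⟩
  intro n
  have := PadicInt.toZModPow_ofIntSeq_of_pow_dvd_sub (fun n => (a n : ℤ)) ℓ hcompat n
  rw [this, Int.cast_natCast, pow_val_natCast _ (hw n).pow_eq_one, ha]

private theorem k1_pow {F : Type*} [Field F] {n : ℕ} (w : F) (hw : w ^ ℓ ^ n = 1) (x y : ℤ_[ℓ]) :
    w ^ (PadicInt.toZModPow n (x * y)).val =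
      (w ^ (PadicInt.toZModPow n x).val) ^ (PadicInt.toZModPow n y).val := by
  have hpos : NeZero (ℓ ^ n) := ⟨pow_ne_zero _ (Fact.out : ℓ.Prime).ne_zero⟩
  rw [← pow_mul, ← pow_val_natCast w hw (_ * _), map_mul]
  congr 2
  push_cast
  rw [ZMod.natCast_zmod_val, ZMod.natCast_zmod_val]

private theorem k1_add {F : Type*} [Field F] {n : ℕ} (w : F) (hw : w ^ ℓ ^ n = 1) (x y : ℤ_[ℓ]) :
    w ^ (PadicInt.toZModPow n (x + y)).val =
      w ^ (PadicInt.toZModPow n x).val * w ^ (PadicInt.toZModPow n y).val := by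
  have hpos : NeZero (ℓ ^ n) := ⟨pow_ne_zero _ (Fact.out : ℓ.Prime).ne_zero⟩
  rw [← pow_add, ← pow_val_natCast w hw (_ + _), map_add]
  congr 2
  push_cast
  rw [ZMod.natCast_zmod_val, ZMod.natCast_zmod_val]

private theorem k1_inj {F : Type*} [Field F] (w : ℕ → F) (hw : ∀ n, IsPrimitiveRoot (w n) (ℓ ^ n))
    (x y : ℤ_[ℓ]) (h : ∀ n, w n ^ (PadicInt.toZModPow n x).val = w n ^ (PadicInt.toZModPow n y).val) :
    x = y := by
  apply PadicInt.ext_of_toZModPow.mp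
  intro n
  have hpos : NeZero (ℓ ^ n) := ⟨pow_ne_zero _ (Fact.out : ℓ.Prime).ne_zero⟩
  exact ZMod.val_injective _ ((hw n).pow_inj (ZMod.val_lt _) (ZMod.val_lt _) (h n))

/-- The Kummer cocycle of `ℓ` over `k` and the cocycle `kummerP` of `p = ℓ` over `ℚ_ℓ` (defined
with other choices of roots) agree up to a unit and a coboundary. -/
theorem KumData.local_compare (D : KumData k ℓ) (ι : AlgebraicClosure k →+* PadicAlgCl ℓ) :
    ∃ (a : ℤ_[ℓ]ˣ) (b : ℤ_[ℓ]), ∀ (g : GG k) (σ : GalP ℓ), (∀ x, ι (g x) = σ (ι x)) →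
      (a : ℤ_[ℓ]) * D.κ g = kummerP σ + ((cyc ℚ_[ℓ] ℓ σ : ℤ_[ℓ]) - 1) * b := by
  have hℓ : ℓ.Prime := Fact.out
  have hr0 : ∀ n, rootP ℓ n ≠ 0 := by
    intro n h
    have := rootP_pow ℓ n
    rw [h, zero_pow (pow_ne_zero _ hℓ.ne_zero)] at this
    exact (Nat.cast_ne_zero.mpr hℓ.ne_zero) this.symm
  have hu0 : ∀ n, ι (D.u n) ≠ 0 := by
    intro n h
    have := D.u_pow n
    rw [(map_eq_zero ι).1 h, zero_pow (pow_ne_zero _ hℓ.ne_zero)] at this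
    exact (Nat.cast_ne_zero.mpr hℓ.ne_zero) this.symm
  have hζ : ∀ n, IsPrimitiveRoot (ι (D.ζ n)) (ℓ ^ n) := fun n => (D.prim n).map_of_injective ι.injective
  have hζs : ∀ n, ι (D.ζ (n + 1)) ^ ℓ = ι (D.ζ n) := fun n => by rw [← map_pow, D.ζ_succ]
  obtain ⟨a, ha⟩ := k1_exp (ℓ := ℓ) (zetaP ℓ) (zetaP_prim ℓ) (zetaP_succ ℓ) (fun n => ι (D.ζ n))
    (fun n => (hζ n).pow_eq_one) hζs
  obtain ⟨a', ha'⟩ := k1_exp (ℓ := ℓ) (fun n => ι (D.ζ n)) hζ hζs (zetaP ℓ)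
    (fun n => (zetaP_prim ℓ n).pow_eq_one) (zetaP_succ ℓ)
  obtain ⟨b, hb⟩ := k1_exp (ℓ := ℓ) (zetaP ℓ) (zetaP_prim ℓ) (zetaP_succ ℓ)
    (fun n => ι (D.u n) / rootP ℓ n)
    (fun n => by
      rw [div_pow, ← map_pow, D.u_pow, rootP_pow, map_natCast, div_self]
      exact Nat.cast_ne_zero.mpr hℓ.ne_zero)
    (fun n => by rw [div_pow, ← map_pow, D.u_succ, rootP_succ])
  have haa : a * a' = 1 := by
    apply k1_inj (ℓ := ℓ) (zetaP ℓ) (zetaP_prim ℓ)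
    intro n
    rw [k1_pow _ (zetaP_prim ℓ n).pow_eq_one, ← ha, ← ha' n]
    have hpos : NeZero (ℓ ^ n) := ⟨pow_ne_zero _ hℓ.ne_zero⟩
    have h1 := pow_val_natCast (zetaP ℓ n) (zetaP_prim ℓ n).pow_eq_one 1
    rw [map_one]
    rw [Nat.cast_one, pow_one] at h1
    exact h1.symm
  have hau : IsUnit a := IsUnit.of_mul_eq_one _ haa
  refine ⟨hau.unit, b, ?_⟩
  intro g σ hgσ
  have hK : ∀ n, σ (rootP ℓ n) = zetaP ℓ n ^ (PadicInt.toZModPow n (kummerP σ)).val * rootP ℓ n :=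
    fun n => (exists_kummerP ℓ).choose_spec n σ
  rw [IsUnit.unit_spec]
  have key : a * D.κ g + b = kummerP σ + (cyc ℚ_[ℓ] ℓ σ : ℤ_[ℓ]) * b := by
    apply k1_inj (ℓ := ℓ) (zetaP ℓ) (zetaP_prim ℓ)
    intro n
    have h1 := (zetaP_prim ℓ n).pow_eq_one
    rw [k1_add _ h1, k1_add _ h1, k1_pow _ h1, ← ha n, k1_pow _ h1, ← cyc_spec ℚ_[ℓ] ℓ σ n _ h1,
      ← map_pow σ, ← hb n]
    have h2 := hgσ (D.u n)
    rw [D.spec, map_mul, map_pow] at h2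
    have h4 : σ (ι (D.u n)) = σ (ι (D.u n) / rootP ℓ n) * (zetaP ℓ n ^
        (PadicInt.toZModPow n (kummerP σ)).val * rootP ℓ n) := by
      rw [← hK, ← map_mul, div_mul_cancel₀ _ (hr0 n)]
    rw [h4] at h2
    apply mul_right_cancel₀ (hr0 n)
    rw [mul_assoc, div_mul_cancel₀ _ (hr0 n), h2]
    ring
  linear_combination key

end Pool.Agent.FRC
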