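import Mathlib
import Pool.Agent.FRC.K1

open CategoryTheory Polynomial NumberField TensorProduct

namespace Pool.Agent.FRC

open Pool.Agent.H12

variable {k : Type} [Field k] [NumberField k] {ℓ : ℕ} [Fact ℓ.Prime]

/-- The representation `ℚ_ℓ(j)`. -/
noncomputable def tateRep (k : Type) [Field k] [NumberField k] (ℓ : ℕ) [Fact ℓ.Prime] (j : ℕ) :
    RepG k ℓ := Rep.of (tate k ℓ j).ρ

/-- The Kummer extension of `ℚ_ℓ` by `ℚ_ℓ(1)` attached to `ℓ`. -/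
noncomputable def KumData.rep (D : KumData k ℓ) : RepG k ℓ :=
  Rep.of (kum 0 D.κ D.cocycle D.cont).ρ

/-- A finite extension of `ℚ_ℓ` that contains the image of `k`. -/
private theorem K2_exists_L (ι : AlgebraicClosure k →+* PadicAlgCl ℓ) :
    ∃ L : IntermediateField ℚ_[ℓ] (PadicAlgCl ℓ), FiniteDimensional ℚ_[ℓ] L ∧
      (∀ x : k, ι (algebraMap k (AlgebraicClosure k) x) ∈ L) := by
  obtain ⟨θ, hθ⟩ := Field.exists_primitive_element ℚ k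
  refine ⟨IntermediateField.adjoin ℚ_[ℓ] {ι (algebraMap k _ θ)},
    IntermediateField.adjoin.finiteDimensional (Algebra.IsIntegral.isIntegral _), ?_⟩
  intro x
  have hx : x ∈ IntermediateField.adjoin ℚ {θ} := by rw [hθ]; trivial
  let f : k →+* PadicAlgCl ℓ := ι.comp (algebraMap k _)
  have h2 : ∀ y ∈ IntermediateField.adjoin ℚ {θ},
      f y ∈ IntermediateField.adjoin ℚ_[ℓ] {ι (algebraMap k _ θ)} := by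
    intro y hy
    induction hy using IntermediateField.adjoin_induction with
    | mem y hy =>
      rw [Set.mem_singleton_iff.mp hy]
      exact IntermediateField.mem_adjoin_simple_self _ _
    | algebraMap y =>
      have : f (algebraMap ℚ k y) = algebraMap ℚ_[ℓ] (PadicAlgCl ℓ) (y : ℚ_[ℓ]) := by
        simp
      rw [this]
      exact IntermediateField.algebraMap_mem _ _
    | add y z _ _ hy hz => rw [map_add]; exact add_mem hy hz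
    | inv y _ hy => rw [map_inv₀]; exact inv_mem hy
    | mul y z _ _ hy hz => rw [map_mul]; exact mul_mem hy hz
  exact h2 x hx

/-- Restriction to `G_L` of a representation of the Galois group of `ℚ_ℓ`. -/
private noncomputable def K2res (X : LRep ℚ_[ℓ] ℓ)
    (L : IntermediateField ℚ_[ℓ] (PadicAlgCl ℓ)) : Rep.{0} ℚ_[ℓ] L.fixingSubgroup :=
  Rep.of (X.ρ.comp L.fixingSubgroup.subtype)

private theorem K2_semistable (X : LRep ℚ_[ℓ] ℓ) (L : IntermediateField ℚ_[ℓ] (PadicAlgCl ℓ))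
    (b : Module.Basis (Fin (Module.finrank ℚ_[ℓ] X.V)) (Bst ℓ) (Bst ℓ ⊗[ℚ_[ℓ]] X.V))
    (hb : ∀ (σ : GalP ℓ) i, TensorProduct.map (actBstLin σ) (X.ρ σ) (b i) = b i) :
    IsSemistable L (K2res X L) := by
  refine ⟨X.instFin, fun v f => ?_, b, fun σ i => hb σ i⟩
  exact (X.cont v f).comp continuous_subtype_val

/-- If locally `V` is the image of a semistable representation, it is potentially semistable. -/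
private theorem K2_pst (V : RepG k ℓ)
    (h : ∀ ι : AlgebraicClosure k →+* PadicAlgCl ℓ, ∃ (X : LRep ℚ_[ℓ] ℓ)
      (b : Module.Basis (Fin (Module.finrank ℚ_[ℓ] X.V)) (Bst ℓ) (Bst ℓ ⊗[ℚ_[ℓ]] X.V))
      (π : X.V →ₗ[ℚ_[ℓ]] V), Function.Surjective π ∧
      (∀ (σ : GalP ℓ) i, TensorProduct.map (actBstLin σ) (X.ρ σ) (b i) = b i) ∧
      ∀ (σ : GalP ℓ) (g : GG k), (∀ x, ι (g x) = σ (ι x)) → ∀ x, π (X.ρ σ x) = V.ρ g (π x)) :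
    IsPst V := by
  intro ι
  obtain ⟨L, hL1, hL2⟩ := K2_exists_L ι
  obtain ⟨X, b, π, hπ, hb, hg⟩ := h ι
  refine ⟨L, hL1, hL2, K2res X L, K2_semistable X L b hb, ⊤,
    π.comp (Submodule.subtype (⊤ : Submodule ℚ_[ℓ] X.V)), ?_, fun _ _ _ => trivial, ?_⟩
  · intro y
    obtain ⟨x, hx⟩ := hπ y
    exact ⟨⟨x, trivial⟩, hx⟩
  · intro σ g hσg a b hab
    have h1 := hg σ g hσg a.1
    exact (congrArg π hab).trans h1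

private theorem K2_act_tinv (σ : GalP ℓ) (j : ℕ) :
    actBst σ (((tSt : (Bst ℓ)ˣ)⁻¹ ^ j : (Bst ℓ)ˣ) : Bst ℓ) =
      algebraMap ℚ_[ℓ] (Bst ℓ) ((((cyc ℚ_[ℓ] ℓ σ : ℤ_[ℓ]) : ℚ_[ℓ]) ^ j)⁻¹) *
        (((tSt : (Bst ℓ)ˣ)⁻¹ ^ j : (Bst ℓ)ˣ) : Bst ℓ) :=
  unit_pow_eigen (B := Bst ℓ) (K := ℚ_[ℓ]) (actBst σ) tSt
    ((cyc ℚ_[ℓ] ℓ σ : ℤ_[ℓ]) : ℚ_[ℓ]) (chi_ne_zero ℚ_[ℓ] ℓ σ) (actBst_t σ) j

private theorem K2_act_u (σ : GalP ℓ) :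
    actBst σ (uSt ℓ) = uSt ℓ + algebraMap ℚ_[ℓ] (Bst ℓ) (kummerP σ : ℤ_[ℓ]) *
      (tSt : (Bst ℓ)ˣ) :=
  Polynomial.eval₂_X _ _

private theorem K2_kummerP : (∀ g h : GalP ℓ, kummerP (g * h) =
      kummerP g + (cyc ℚ_[ℓ] ℓ g : ℤ_[ℓ]) * kummerP h) ∧
    Continuous (kummerP : GalP ℓ → ℤ_[ℓ]) := by
  obtain ⟨κ, h, h2, h3⟩ := exists_kummer (k := ℚ_[ℓ]) (ℓ := ℓ) (zetaP ℓ) (zetaP_prim ℓ)
    (zetaP_succ ℓ) (fun _ => 1) (fun _ => ℓ) (fun _ => Nat.one_pos)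
    (fun _ => (Fact.out : ℓ.Prime).pos) (rootP ℓ)
    (fun n => by rw [rootP_succ, Nat.cast_one, mul_one]) (rootP_pow ℓ)
  have hspec : ∀ n g, g (rootP ℓ n) =
      zetaP ℓ n ^ (PadicInt.toZModPow n (kummerP g)).val * rootP ℓ n :=
    fun n g => (exists_kummerP ℓ).choose_spec n g
  have heq : (kummerP : GalP ℓ → ℤ_[ℓ]) = κ := by
    funext g
    apply PadicInt.ext_of_toZModPow.mp
    intro n
    have : NeZero (ℓ ^ n) := ⟨pow_ne_zero _ (Fact.out : ℓ.Prime).ne_zero⟩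
    have hr : rootP ℓ n ≠ 0 := by
      intro h0
      have h1 := rootP_pow ℓ n
      rw [h0, zero_pow (pow_ne_zero _ (Fact.out : ℓ.Prime).ne_zero)] at h1
      exact (Nat.cast_ne_zero.mpr (Fact.out : ℓ.Prime).ne_zero) h1.symm
    have h1 := mul_right_cancel₀ hr ((hspec n g).symm.trans (h n g))
    exact ZMod.val_injective _
      ((zetaP_prim ℓ n).pow_inj (ZMod.val_lt _) (ZMod.val_lt _) h1)
  rw [heq]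
  exact ⟨h2, h3⟩

private theorem K2_basis {K B : Type} [CommRing K] [CommRing B] [Algebra K B] (T : Bˣ) (w : B) :
    ∃ b : Module.Basis (Fin 2) B (B ⊗[K] (K × K)),
      b 0 = (T : B) ⊗ₜ ((1, 0) : K × K) ∧
      b 1 = (1 : B) ⊗ₜ ((0, 1) : K × K) - w ⊗ₜ ((1, 0) : K × K) := by
  let e : Module.Basis (Fin 2) B (B ⊗[K] (K × K)) := (Module.Basis.finTwoProd K).baseChange B
  let v : Fin 2 → B ⊗[K] (K × K) := ![(T : B) ⊗ₜ ((1, 0) : K × K),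
    (1 : B) ⊗ₜ ((0, 1) : K × K) - w ⊗ₜ ((1, 0) : K × K)]
  have hdet : IsUnit (e.det v) := by
    have h00 : e.repr (v 0) 0 = T := by
      simp [e, v, Module.Basis.baseChange_repr_tmul]
    have h01 : e.repr (v 0) 1 = 0 := by
      simp [e, v, Module.Basis.baseChange_repr_tmul]
    have h10 : e.repr (v 1) 0 = -w := by
      simp [e, v, Module.Basis.baseChange_repr_tmul]
    have h11 : e.repr (v 1) 1 = 1 := by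
      simp [e, v, Module.Basis.baseChange_repr_tmul]
    rw [Module.Basis.det_apply, Matrix.det_fin_two]
    simp only [Module.Basis.toMatrix_apply, h00, h01, h10, h11]
    simp
  obtain ⟨h1, h2⟩ := (Module.Basis.is_basis_iff_det e).mpr hdet
  refine ⟨Module.Basis.mk h1 h2.ge, ?_, ?_⟩
  · rw [Module.Basis.mk_apply]; rfl
  · rw [Module.Basis.mk_apply]; rfl

private theorem K2_fix {K B : Type} [Field K] [CommRing B] [Algebra K B] (φ : B →ₗ[K] B)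
    (ρ : (K × K) →ₗ[K] K × K) (T w : B) (χ c : K) (hχ : χ ≠ 0)
    (h1 : φ T = algebraMap K B χ⁻¹ * T)
    (h2 : φ w = algebraMap K B χ⁻¹ * (w + algebraMap K B c)) (h3 : φ 1 = 1)
    (h4 : ρ (1, 0) = (χ, 0)) (h5 : ρ (0, 1) = (c, 1)) :
    TensorProduct.map φ ρ (T ⊗ₜ ((1, 0) : K × K)) = T ⊗ₜ ((1, 0) : K × K) ∧
    TensorProduct.map φ ρ ((1 : B) ⊗ₜ ((0, 1) : K × K) - w ⊗ₜ ((1, 0) : K × K)) =
      (1 : B) ⊗ₜ ((0, 1) : K × K) - w ⊗ₜ ((1, 0) : K × K) := by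
  have e1 : ((χ, 0) : K × K) = χ • ((1, 0) : K × K) := by ext <;> simp
  have e2 : ((c, 1) : K × K) = ((0, 1) : K × K) + c • ((1, 0) : K × K) := by ext <;> simp
  have e3 : ∀ z : B, (algebraMap K B χ⁻¹ * z) ⊗ₜ[K] (χ • ((1, 0) : K × K)) =
      z ⊗ₜ[K] ((1, 0) : K × K) := by
    intro z
    rw [TensorProduct.tmul_smul, ← Algebra.smul_def, ← TensorProduct.smul_tmul', smul_smul,
      mul_inv_cancel₀ hχ, one_smul]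
  constructor
  · rw [TensorProduct.map_tmul, h1, h4, e1, e3]
  · rw [map_sub, TensorProduct.map_tmul, TensorProduct.map_tmul, h2, h3, h4, h5, e1, e3, e2,
      TensorProduct.tmul_add, TensorProduct.add_tmul, TensorProduct.tmul_smul,
      Algebra.algebraMap_eq_smul_one, ← TensorProduct.smul_tmul']
    abel

/-- Semistable at every place above `ℓ`: with `u = uSt`, `t = tSt` the vectors
`t⁻¹ ⊗ (1, 0)` and `1 ⊗ (0, 1) - (a⁻¹ u / t + ..) ⊗ (1, 0)` are fixed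
(`KumData.local_compare`; `σ u = u + kummerP σ t`, `σ t = χ t`). -/
theorem KumData.isPst (D : KumData k ℓ) : IsPst D.rep := by
  apply K2_pst
  intro ι
  obtain ⟨a, c, hac⟩ := D.local_compare ι
  obtain ⟨hc1, hc2⟩ := K2_kummerP (ℓ := ℓ)
  have hfin : Module.finrank ℚ_[ℓ] (kum (k := ℚ_[ℓ]) 0 kummerP hc1 hc2).V = 2 := by
    change Module.finrank ℚ_[ℓ] (ℚ_[ℓ] × ℚ_[ℓ]) = 2
    simp
  set T : Bst ℓ := (((tSt : (Bst ℓ)ˣ)⁻¹ : (Bst ℓ)ˣ) : Bst ℓ) with hT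
  obtain ⟨b, hb0, hb1⟩ := K2_basis (K := ℚ_[ℓ]) (B := Bst ℓ) (tSt : (Bst ℓ)ˣ)⁻¹ (uSt ℓ * T)
  have hfix : ∀ (σ : GalP ℓ) (i : Fin 2), TensorProduct.map (actBstLin σ)
      ((kum (k := ℚ_[ℓ]) 0 kummerP hc1 hc2).ρ σ : (ℚ_[ℓ] × ℚ_[ℓ]) →ₗ[ℚ_[ℓ]] ℚ_[ℓ] × ℚ_[ℓ])
      (b i) = b i := by
    intro σ
    have hχ : chi ℚ_[ℓ] ℓ σ ≠ 0 := chi_ne_zero ℚ_[ℓ] ℓ σ
    have g1 : actBst σ T = algebraMap ℚ_[ℓ] (Bst ℓ) (chi ℚ_[ℓ] ℓ σ)⁻¹ * T := by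
      have := K2_act_tinv σ 1
      rw [pow_one, pow_one] at this
      exact this
    have g2 : actBst σ (uSt ℓ * T) = algebraMap ℚ_[ℓ] (Bst ℓ) (chi ℚ_[ℓ] ℓ σ)⁻¹ *
        (uSt ℓ * T + algebraMap ℚ_[ℓ] (Bst ℓ) (kummerP σ : ℤ_[ℓ])) := by
      have hTt : ((tSt : (Bst ℓ)ˣ) : Bst ℓ) * T = 1 := by rw [hT, Units.mul_inv]
      rw [map_mul, g1, K2_act_u]
      linear_combination (algebraMap ℚ_[ℓ] (Bst ℓ) (chi ℚ_[ℓ] ℓ σ)⁻¹ *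
        algebraMap ℚ_[ℓ] (Bst ℓ) (kummerP σ : ℤ_[ℓ])) * hTt
    obtain ⟨k1, k2⟩ := K2_fix (actBstLin σ) ((kum (k := ℚ_[ℓ]) 0 kummerP hc1 hc2).ρ σ :
      (ℚ_[ℓ] × ℚ_[ℓ]) →ₗ[ℚ_[ℓ]] ℚ_[ℓ] × ℚ_[ℓ]) T (uSt ℓ * T) (chi ℚ_[ℓ] ℓ σ)
      (kummerP σ : ℤ_[ℓ]) hχ g1 g2 (map_one (actBst σ))
      (by
        change ((chi ℚ_[ℓ] ℓ σ ^ (0 + 1) * 1 + chi ℚ_[ℓ] ℓ σ ^ 0 * (kummerP σ : ℤ_[ℓ]) * 0,
          chi ℚ_[ℓ] ℓ σ ^ 0 * 0) : ℚ_[ℓ] × ℚ_[ℓ]) = _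
        ext <;> simp)
      (by
        change ((chi ℚ_[ℓ] ℓ σ ^ (0 + 1) * 0 + chi ℚ_[ℓ] ℓ σ ^ 0 * (kummerP σ : ℤ_[ℓ]) * 1,
          chi ℚ_[ℓ] ℓ σ ^ 0 * 1) : ℚ_[ℓ] × ℚ_[ℓ]) = _
        ext <;> simp)
    intro i
    fin_cases i
    · change TensorProduct.map _ _ (b 0) = b 0
      rw [hb0]
      exact k1
    · change TensorProduct.map _ _ (b 1) = b 1
      rw [hb1]
      exact k2
  let π : (ℚ_[ℓ] × ℚ_[ℓ]) →ₗ[ℚ_[ℓ]] ℚ_[ℓ] × ℚ_[ℓ] :=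
    LinearMap.prod
      ((((a⁻¹ : ℤ_[ℓ]ˣ) : ℤ_[ℓ]) : ℚ_[ℓ]) • LinearMap.fst ℚ_[ℓ] ℚ_[ℓ] ℚ_[ℓ] -
        ((((a⁻¹ : ℤ_[ℓ]ˣ) : ℤ_[ℓ]) : ℚ_[ℓ]) * (c : ℚ_[ℓ])) • LinearMap.snd ℚ_[ℓ] ℚ_[ℓ] ℚ_[ℓ])
      (LinearMap.snd ℚ_[ℓ] ℚ_[ℓ] ℚ_[ℓ])
  have haa : ((a : ℤ_[ℓ]) : ℚ_[ℓ]) * (((a⁻¹ : ℤ_[ℓ]ˣ) : ℤ_[ℓ]) : ℚ_[ℓ]) = 1 := by
    rw [← PadicInt.coe_mul, Units.mul_inv, PadicInt.coe_one]
  refine ⟨kum (k := ℚ_[ℓ]) 0 kummerP hc1 hc2, b.reindex (finCongr hfin.symm), π, ?_, ?_, ?_⟩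
  · intro (y : ℚ_[ℓ] × ℚ_[ℓ])
    refine ⟨(((a : ℤ_[ℓ]) : ℚ_[ℓ]) * y.1 + (c : ℚ_[ℓ]) * y.2, y.2), ?_⟩
    apply Prod.ext
    · change (((a⁻¹ : ℤ_[ℓ]ˣ) : ℤ_[ℓ]) : ℚ_[ℓ]) * (((a : ℤ_[ℓ]) : ℚ_[ℓ]) * y.1 +
        (c : ℚ_[ℓ]) * y.2) - (((a⁻¹ : ℤ_[ℓ]ˣ) : ℤ_[ℓ]) : ℚ_[ℓ]) * (c : ℚ_[ℓ]) * y.2 = y.1
      linear_combination y.1 * haa
    · rfl
  · intro σ i
    have h1 : (b.reindex (finCongr hfin.symm)) i = b (finCongr hfin i) := by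
      rw [Module.Basis.reindex_apply]
      rfl
    exact (congrArg _ h1).trans ((hfix σ _).trans h1.symm)
  · intro σ g hσg (x : ℚ_[ℓ] × ℚ_[ℓ])
    have h1 : chi ℚ_[ℓ] ℓ σ = chi k ℓ g := by rw [chi, chi, cyc_compat ι g σ hσg]
    have h2 : ((a : ℤ_[ℓ]) : ℚ_[ℓ]) * (D.κ g : ℚ_[ℓ]) = (kummerP σ : ℤ_[ℓ]) +
        (chi k ℓ g - 1) * (c : ℚ_[ℓ]) := by
      have h3 : (((a : ℤ_[ℓ]) * D.κ g : ℤ_[ℓ]) : ℚ_[ℓ]) =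
          ((kummerP σ + ((cyc ℚ_[ℓ] ℓ σ : ℤ_[ℓ]) - 1) * c : ℤ_[ℓ]) : ℚ_[ℓ]) := by
        rw [hac g σ hσg]
      rw [PadicInt.coe_mul, PadicInt.coe_add, PadicInt.coe_mul, PadicInt.coe_sub,
        PadicInt.coe_one] at h3
      rw [← h1]
      exact h3
    apply Prod.ext
    · change (((a⁻¹ : ℤ_[ℓ]ˣ) : ℤ_[ℓ]) : ℚ_[ℓ]) * (chi ℚ_[ℓ] ℓ σ ^ (0 + 1) * x.1 +
          chi ℚ_[ℓ] ℓ σ ^ 0 * (kummerP σ : ℤ_[ℓ]) * x.2) -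
          (((a⁻¹ : ℤ_[ℓ]ˣ) : ℤ_[ℓ]) : ℚ_[ℓ]) * (c : ℚ_[ℓ]) * (chi ℚ_[ℓ] ℓ σ ^ 0 * x.2) =
        chi k ℓ g ^ (0 + 1) * ((((a⁻¹ : ℤ_[ℓ]ˣ) : ℤ_[ℓ]) : ℚ_[ℓ]) * x.1 -
          (((a⁻¹ : ℤ_[ℓ]ˣ) : ℤ_[ℓ]) : ℚ_[ℓ]) * (c : ℚ_[ℓ]) * x.2) +
          chi k ℓ g ^ 0 * (D.κ g : ℚ_[ℓ]) * x.2
      rw [h1]
      linear_combination (D.κ g : ℚ_[ℓ]) * x.2 * haa -
        (((a⁻¹ : ℤ_[ℓ]ˣ) : ℤ_[ℓ]) : ℚ_[ℓ]) * x.2 * h2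
    · change chi ℚ_[ℓ] ℓ σ ^ 0 * x.2 = chi k ℓ g ^ 0 * x.2
      rw [pow_zero, pow_zero]

theorem tateRep_isPst (j : ℕ) : IsPst (tateRep k ℓ j) := by
  apply K2_pst
  intro ι
  have hfin : Module.finrank ℚ_[ℓ] (tate ℚ_[ℓ] ℓ j).V = 1 := Module.finrank_self ℚ_[ℓ]
  obtain ⟨v⟩ : Nonempty (Module.Basis (Fin (Module.finrank ℚ_[ℓ] (tate ℚ_[ℓ] ℓ j).V)) ℚ_[ℓ]
        (tate ℚ_[ℓ] ℓ j).V) :=
    ⟨(Module.Basis.singleton (Fin 1) ℚ_[ℓ]).reindex (finCongr hfin.symm)⟩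
  obtain ⟨b, hb⟩ : ∃ b : Module.Basis (Fin (Module.finrank ℚ_[ℓ] (tate ℚ_[ℓ] ℓ j).V)) (Bst ℓ)
      (Bst ℓ ⊗[ℚ_[ℓ]] (tate ℚ_[ℓ] ℓ j).V), ∀ i, b i =
        (((tSt : (Bst ℓ)ˣ)⁻¹ ^ j : (Bst ℓ)ˣ) : Bst ℓ) ⊗ₜ v i := by
    refine ⟨(v.baseChange (Bst ℓ)).unitsSMul (fun i => (tSt : (Bst ℓ)ˣ)⁻¹ ^ j), fun i => ?_⟩
    rw [Module.Basis.unitsSMul_apply, Module.Basis.baseChange_apply, Units.smul_def,
      TensorProduct.smul_tmul', smul_eq_mul, mul_one]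
  refine ⟨tate ℚ_[ℓ] ℓ j, b, LinearMap.id (R := ℚ_[ℓ]) (M := ℚ_[ℓ]), fun y => ⟨y, rfl⟩, ?_, ?_⟩
  · intro σ i
    have hv : (tate ℚ_[ℓ] ℓ j).ρ σ (v i) = chi ℚ_[ℓ] ℓ σ ^ j • v i := rfl
    rw [hb, TensorProduct.map_tmul, hv]
    change (actBst σ (((tSt : (Bst ℓ)ˣ)⁻¹ ^ j : (Bst ℓ)ˣ) : Bst ℓ)) ⊗ₜ[ℚ_[ℓ]] _ = _
    rw [K2_act_tinv, TensorProduct.tmul_smul, ← Algebra.smul_def, ← TensorProduct.smul_tmul',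
      smul_smul]
    change (chi ℚ_[ℓ] ℓ σ ^ j * (chi ℚ_[ℓ] ℓ σ ^ j)⁻¹) • _ = _
    rw [mul_inv_cancel₀ (pow_ne_zero _ (chi_ne_zero ℚ_[ℓ] ℓ σ)), one_smul]
  · intro σ g hσg x
    have h1 : chi ℚ_[ℓ] ℓ σ = chi k ℓ g := by rw [chi, chi, cyc_compat ι g σ hσg]
    change (chi ℚ_[ℓ] ℓ σ ^ j • x : (tate ℚ_[ℓ] ℓ j).V) =
      (chi k ℓ g ^ j • x : (tate ℚ_[ℓ] ℓ j).V)
    rw [h1]

end Pool.Agent.FRC
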