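import Mathlib
import Pool.Agent.FRC.K0

open CategoryTheory Polynomial NumberField TensorProduct

namespace Pool.Agent.FRC

open Pool.Agent.H12

variable {k : Type} [Field k] [NumberField k] {ℓ : ℕ} [Fact ℓ.Prime]

private theorem no_power (n s : ℕ) (hn : Module.finrank ℚ k * ℓ ^ s < ℓ ^ n) (y : k)
    (hy : y ^ ℓ ^ n = (ℓ : k) ^ ℓ ^ s) : False := by
  have hpr : ℓ.Prime := Fact.out
  set d := Module.finrank ℚ k with hd
  have hd0 : 0 < d := Module.finrank_pos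
  have h1 : (Algebra.norm ℚ y) ^ ℓ ^ n = (ℓ : ℚ) ^ (d * ℓ ^ s) := by
    rw [← map_pow, hy, map_pow]
    have h2 : Algebra.norm ℚ (ℓ : k) = (ℓ : ℚ) ^ d := by
      have h3 := Algebra.norm_algebraMap (S := k) (ℓ : ℚ)
      rwa [map_natCast] at h3
    rw [h2, ← pow_mul]
  have hN0 : Algebra.norm ℚ y ≠ 0 := by
    intro h
    rw [h, zero_pow (pow_ne_zero _ hpr.ne_zero)] at h1
    exact pow_ne_zero _ (Nat.cast_ne_zero.mpr hpr.ne_zero) h1.symm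
  have h2 := congrArg (padicValRat ℓ) h1
  rw [padicValRat.pow, padicValRat.pow,
    padicValRat.self hpr.one_lt, mul_one] at h2
  have h3 : (ℓ ^ n : ℕ) ∣ d * ℓ ^ s := by
    have : ((ℓ ^ n : ℕ) : ℤ) ∣ ((d * ℓ ^ s : ℕ) : ℤ) := ⟨_, h2.symm⟩
    exact_mod_cast this
  have h4 : 0 < d * ℓ ^ s := Nat.mul_pos hd0 (pow_pos hpr.pos _)
  exact absurd (Nat.le_of_dvd h4 h3) (not_le.mpr hn)

/-- The Kummer cocycle of `ℓ` is not a coboundary over `ℚ_ℓ`. If `κ g = (1 - χ g) b`, take `s` with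
`ℓ ^ s b` integral; then `u n ^ ℓ ^ s * ζ n ^ (ℓ ^ s b)` is fixed by `G_k`, so lies in `k`, and its
`ℓ ^ n`-th power is `ℓ ^ ℓ ^ s`; taking norms to `ℚ` this is impossible for large `n`. -/
theorem KumData.not_coboundary (D : KumData k ℓ) :
    ¬ ∃ b : ℚ_[ℓ], ∀ g : GG k, (D.κ g : ℚ_[ℓ]) = (1 - chi k ℓ g) * b := by
  have hpr : ℓ.Prime := Fact.out
  rintro ⟨b, hb⟩
  obtain ⟨s, hs⟩ : ∃ s : ℕ, ‖(ℓ : ℚ_[ℓ]) ^ s * b‖ ≤ 1 := by
    obtain ⟨s, hs⟩ := PadicInt.exists_pow_neg_lt ℓ (ε := (‖b‖ + 1)⁻¹) (by positivity)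
    refine ⟨s, ?_⟩
    rw [norm_mul, norm_pow, Padic.norm_p]
    have h1 : ((ℓ : ℝ)⁻¹) ^ s = (ℓ : ℝ) ^ (-(s : ℤ)) := by
      rw [zpow_neg, zpow_natCast, inv_pow]
    rw [h1]
    have h2 : (ℓ : ℝ) ^ (-(s : ℤ)) * ‖b‖ ≤ (‖b‖ + 1)⁻¹ * ‖b‖ :=
      mul_le_mul_of_nonneg_right hs.le (norm_nonneg _)
    refine h2.trans ?_
    rw [inv_mul_le_iff₀ (by positivity)]
    linarith
  let c : ℤ_[ℓ] := ⟨(ℓ : ℚ_[ℓ]) ^ s * b, hs⟩
  have hc : ∀ g : GG k, (ℓ : ℤ_[ℓ]) ^ s * D.κ g + (cyc k ℓ g : ℤ_[ℓ]) * c = c := by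
    intro g
    apply Subtype.ext
    push_cast
    have h1 := hb g
    have h2 : ((cyc k ℓ g : ℤ_[ℓ]) : ℚ_[ℓ]) = chi k ℓ g := rfl
    have h3 : (c : ℚ_[ℓ]) = (ℓ : ℚ_[ℓ]) ^ s * b := rfl
    rw [h1, h2, h3]
    ring
  obtain ⟨n, hn⟩ : ∃ n : ℕ, Module.finrank ℚ k * ℓ ^ s < ℓ ^ n :=
    ⟨_, Nat.lt_pow_self hpr.one_lt⟩
  have hne : NeZero (ℓ ^ n) := ⟨pow_ne_zero _ hpr.ne_zero⟩
  have hζ := D.prim n
  set x : AlgebraicClosure k := D.u n ^ ℓ ^ s * D.ζ n ^ (PadicInt.toZModPow n c).val with hx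
  have hfix : ∀ g : GG k, g x = x := by
    intro g
    have h1 := congrArg (PadicInt.toZModPow n) (hc g)
    rw [map_add, map_mul, map_mul, map_pow, map_natCast] at h1
    rw [hx, map_mul, map_pow, map_pow, D.spec n g, cyc_spec k ℓ g n (D.ζ n) hζ.pow_eq_one]
    set A := (PadicInt.toZModPow n (D.κ g)).val with hA
    set B := (PadicInt.toZModPow n (cyc k ℓ g : ℤ_[ℓ])).val with hB
    set Cc := (PadicInt.toZModPow n c).val with hC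
    have h2 : D.ζ n ^ (A * ℓ ^ s + B * Cc) = D.ζ n ^ Cc := by
      rw [← pow_val_natCast _ hζ.pow_eq_one (A * ℓ ^ s + B * Cc)]
      congr 1
      have h3 : ((A * ℓ ^ s + B * Cc : ℕ) : ZMod (ℓ ^ n)) = PadicInt.toZModPow n c := by
        push_cast
        rw [hA, hB, hC, ZMod.natCast_zmod_val, ZMod.natCast_zmod_val, ZMod.natCast_zmod_val,
          mul_comm (PadicInt.toZModPow n (D.κ g))]
        exact h1
      rw [h3]
    calc (D.ζ n ^ A * D.u n) ^ ℓ ^ s * (D.ζ n ^ B) ^ Cc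
        = D.u n ^ ℓ ^ s * D.ζ n ^ (A * ℓ ^ s + B * Cc) := by
          rw [mul_pow, ← pow_mul, ← pow_mul, pow_add]; ring
      _ = D.u n ^ ℓ ^ s * D.ζ n ^ Cc := by rw [h2]
  have hmem : x ∈ Set.range (algebraMap k (AlgebraicClosure k)) :=
    (InfiniteGalois.mem_range_algebraMap_iff_fixed x).mpr hfix
  obtain ⟨y, hy⟩ := hmem
  refine no_power (k := k) (ℓ := ℓ) n s hn y ?_
  apply (algebraMap k (AlgebraicClosure k)).injective
  rw [map_pow, map_pow, map_natCast, hy, hx, mul_pow, ← pow_mul, mul_comm (ℓ ^ s) (ℓ ^ n), pow_mul,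
    D.u_pow n, ← pow_mul, mul_comm _ (ℓ ^ n), pow_mul, hζ.pow_eq_one, one_pow, mul_one]

end Pool.Agent.FRC
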