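import Mathlib
import Pool.Agent.FRC.Base

open CategoryTheory Polynomial TensorProduct NumberField

namespace Pool.Agent.FRC

open Pool.Agent.H12

variable {ℓ : ℕ} [Fact ℓ.Prime] {G : Type} [Group G] [TopologicalSpace G]

theorem isCont_of_injective {X Y : Rep.{0} ℚ_[ℓ] G} (f : X →ₗ[ℚ_[ℓ]] Y)
    (hf : ∀ g x, f (X.ρ g x) = Y.ρ g (f x)) (hi : Function.Injective f) (hY : IsCont Y) :
    IsCont X := by
  intro x φ
  obtain ⟨r, hr⟩ := LinearMap.exists_leftInverse_of_injective f (LinearMap.ker_eq_bot.2 hi)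
  have h := hY (f x) (φ.comp r)
  have e : (fun g => φ (X.ρ g x)) = fun g => (φ.comp r) (Y.ρ g (f x)) := by
    funext g
    rw [← hf, LinearMap.comp_apply]
    have := LinearMap.congr_fun hr (X.ρ g x)
    simp only [LinearMap.comp_apply, LinearMap.id_apply] at this
    rw [this]
  rw [e]
  exact h

theorem isCont_of_surjective {X Y : Rep.{0} ℚ_[ℓ] G} (f : X →ₗ[ℚ_[ℓ]] Y)
    (hf : ∀ g x, f (X.ρ g x) = Y.ρ g (f x)) (hs : Function.Surjective f) (hX : IsCont X) :
    IsCont Y := by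
  intro y ψ
  obtain ⟨x, rfl⟩ := hs y
  have h := hX x (ψ.comp f)
  have e : (fun g => ψ (Y.ρ g (f x))) = fun g => (ψ.comp f) (X.ρ g x) := by
    funext g
    rw [← hf, LinearMap.comp_apply]
  rw [e]
  exact h

theorem isCont_prod {X Y : Rep.{0} ℚ_[ℓ] G} (hX : IsCont X) (hY : IsCont Y) :
    IsCont (Rep.of (X.ρ.prod Y.ρ)) := by
  intro v φ
  have h1 := hX v.1 (φ.comp (LinearMap.inl ℚ_[ℓ] X Y))
  have h2 := hY v.2 (φ.comp (LinearMap.inr ℚ_[ℓ] X Y))
  have e : (fun g => φ ((Rep.of (X.ρ.prod Y.ρ)).ρ g v)) =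
      fun g => (φ.comp (LinearMap.inl ℚ_[ℓ] X Y)) (X.ρ g v.1) +
        (φ.comp (LinearMap.inr ℚ_[ℓ] X Y)) (Y.ρ g v.2) := by
    funext g
    have : (Rep.of (X.ρ.prod Y.ρ)).ρ g v = (LinearMap.inl ℚ_[ℓ] X Y) (X.ρ g v.1) +
        (LinearMap.inr ℚ_[ℓ] X Y) (Y.ρ g v.2) := by
      refine Prod.ext ?_ ?_
      · show X.ρ g v.1 = X.ρ g v.1 + 0
        rw [add_zero]
      · show Y.ρ g v.2 = 0 + Y.ρ g v.2
        rw [zero_add]
    rw [this]
    exact map_add φ _ _
  rw [e]
  exact h1.add h2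

theorem isCont_tprod {X Y : Rep.{0} ℚ_[ℓ] G} [FiniteDimensional ℚ_[ℓ] X]
    [FiniteDimensional ℚ_[ℓ] Y] (hX : IsCont X) (hY : IsCont Y) :
    IsCont (Rep.of (X.ρ.tprod Y.ρ)) := by
  intro v φ
  change Continuous fun g => φ ((X.ρ.tprod Y.ρ) g v)
  induction v using TensorProduct.induction_on with
  | zero => simpa using continuous_const
  | add a b ha hb =>
    have e : (fun g => φ ((X.ρ.tprod Y.ρ) g (a + b))) =
        fun g => φ ((X.ρ.tprod Y.ρ) g a) + φ ((X.ρ.tprod Y.ρ) g b) := by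
      funext g
      rw [map_add, map_add]
    rw [e]
    exact ha.add hb
  | tmul x y =>
    let b := Module.finBasis ℚ_[ℓ] X
    let c := Module.finBasis ℚ_[ℓ] Y
    have e : (fun g => φ ((X.ρ.tprod Y.ρ) g (x ⊗ₜ[ℚ_[ℓ]] y))) =
        fun g => ∑ i, ∑ j, (b.coord i (X.ρ g x) * c.coord j (Y.ρ g y)) *
          φ (b i ⊗ₜ[ℚ_[ℓ]] c j) := by
      funext g
      have h1 : (X.ρ.tprod Y.ρ) g (x ⊗ₜ[ℚ_[ℓ]] y) = X.ρ g x ⊗ₜ[ℚ_[ℓ]] Y.ρ g y := by
        simp [Representation.tprod_apply]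
      rw [h1]
      conv_lhs => rw [← b.sum_repr (X.ρ g x), ← c.sum_repr (Y.ρ g y)]
      rw [TensorProduct.sum_tmul, map_sum]
      refine Finset.sum_congr rfl fun i _ => ?_
      rw [TensorProduct.tmul_sum, map_sum]
      refine Finset.sum_congr rfl fun j _ => ?_
      rw [TensorProduct.smul_tmul_smul, map_smul, smul_eq_mul]
      rfl
    rw [e]
    refine continuous_finsetSum _ fun i _ => continuous_finsetSum _ fun j _ => ?_
    exact ((hX x (b.coord i)).mul (hY y (c.coord j))).mul continuous_const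

theorem isCont_linHom [IsTopologicalGroup G] {X Y : Rep.{0} ℚ_[ℓ] G} [FiniteDimensional ℚ_[ℓ] X]
    [FiniteDimensional ℚ_[ℓ] Y] (hX : IsCont X) (hY : IsCont Y) :
    IsCont (Rep.of (X.ρ.linHom Y.ρ)) := by
  intro A φ
  change Continuous fun g => φ ((X.ρ.linHom Y.ρ) g A)
  let b := Module.finBasis ℚ_[ℓ] X
  let c := Module.finBasis ℚ_[ℓ] Y
  have key : ∀ B : X →ₗ[ℚ_[ℓ]] Y,
      B = ∑ i, ∑ j, c.coord j (B (b i)) • ((b.coord i).smulRight (c j)) := by
    intro B
    refine b.ext fun l => ?_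
    have h1 : ∀ i, (∑ j, c.coord j (B (b i)) • ((b.coord i).smulRight (c j))) (b l) =
        (b.coord i (b l)) • B (b i) := by
      intro i
      conv_rhs => rw [← c.sum_repr (B (b i))]
      rw [LinearMap.sum_apply, Finset.smul_sum]
      refine Finset.sum_congr rfl fun j _ => ?_
      rw [LinearMap.smul_apply, LinearMap.smulRight_apply, smul_comm]
      rfl
    rw [LinearMap.sum_apply]
    rw [Finset.sum_congr rfl fun i _ => h1 i]
    rw [Finset.sum_eq_single l]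
    · simp
    · intro i _ hil
      simp [Finsupp.single_eq_of_ne hil, hil, Ne.symm hil]
    · intro h
      exact absurd (Finset.mem_univ _) h
  have e : (fun g => φ ((X.ρ.linHom Y.ρ) g A)) =
      fun g => ∑ i, ∑ j, (∑ l, b.coord l (X.ρ g⁻¹ (b i)) * c.coord j (Y.ρ g (A (b l)))) *
        φ ((b.coord i).smulRight (c j)) := by
    funext g
    have h1 : ∀ x, ((X.ρ.linHom Y.ρ) g A) x = Y.ρ g (A (X.ρ g⁻¹ x)) := fun x => rfl
    rw [key ((X.ρ.linHom Y.ρ) g A), map_sum]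
    refine Finset.sum_congr rfl fun i _ => ?_
    rw [map_sum]
    refine Finset.sum_congr rfl fun j _ => ?_
    rw [map_smul, smul_eq_mul, h1]
    congr 1
    conv_lhs => rw [← b.sum_repr (X.ρ g⁻¹ (b i))]
    rw [map_sum, map_sum, map_sum]
    refine Finset.sum_congr rfl fun l _ => ?_
    rw [map_smul, map_smul, map_smul, smul_eq_mul]
    rfl
  rw [e]
  refine continuous_finsetSum _ fun i _ => continuous_finsetSum _ fun j _ => ?_
  refine Continuous.mul ?_ continuous_const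
  refine continuous_finsetSum _ fun l _ => ?_
  exact ((hX (b i) (b.coord l)).comp continuous_inv).mul (hY (A (b l)) (c.coord j))

/-- Restriction along a continuous homomorphism. -/
theorem isCont_res {H : Type} [Group H] [TopologicalSpace H] (φ : H →* G) (hφ : Continuous φ)
    {X : Rep.{0} ℚ_[ℓ] G} (hX : IsCont X) : IsCont (Rep.res φ X) := by
  intro v f
  exact (hX v f).comp hφ

end Pool.Agent.FRC
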