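import Mathlib
import Pool.Agent.FRC.Base

open CategoryTheory Polynomial TensorProduct NumberField

namespace Pool.Agent.FRC

open Pool.Agent.H12

variable {k : Type} [Field k] {ℓ : ℕ} [Fact ℓ.Prime]

private theorem aeval_intertwine {V W : Type} [AddCommGroup V] [Module ℚ_[ℓ] V] [AddCommGroup W]
    [Module ℚ_[ℓ] W] (f : V →ₗ[ℚ_[ℓ]] W) (A : Module.End ℚ_[ℓ] V) (B : Module.End ℚ_[ℓ] W)
    (h : ∀ v, f (A v) = B (f v)) (p : ℚ_[ℓ][X]) (v : V) :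
    f (aeval A p v) = aeval B p (f v) := by
  have hpow : ∀ (n : ℕ) (v : V), f ((A ^ n) v) = (B ^ n) (f v) := by
    intro n
    induction n with
    | zero => intro v; simp
    | succ n ih =>
      intro v
      rw [pow_succ, pow_succ, Module.End.mul_apply, Module.End.mul_apply, ih, h]
  induction p using Polynomial.induction_on' with
  | add p q hp hq => rw [map_add, map_add, LinearMap.add_apply, LinearMap.add_apply, map_add, hp, hq]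
  | monomial n a =>
    rw [aeval_monomial, aeval_monomial, Module.End.mul_apply, Module.End.mul_apply,
      Module.algebraMap_end_apply, Module.algebraMap_end_apply, map_smul, hpow]

private theorem aeval_mem {V : Type} [AddCommGroup V] [Module ℚ_[ℓ] V]
    (A : Module.End ℚ_[ℓ] V) (S : Submodule ℚ_[ℓ] V) (h : ∀ v ∈ S, A v ∈ S) (p : ℚ_[ℓ][X])
    (v : V) (hv : v ∈ S) : aeval A p v ∈ S := by
  have hpow : ∀ (n : ℕ) (v : V), v ∈ S → (A ^ n) v ∈ S := by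
    intro n
    induction n with
    | zero => intro v hv; simpa using hv
    | succ n ih =>
      intro v hv
      rw [pow_succ, Module.End.mul_apply]
      exact ih _ (h _ hv)
  induction p using Polynomial.induction_on' with
  | add p q hp hq => rw [map_add, LinearMap.add_apply]; exact S.add_mem hp hq
  | monomial n a =>
    rw [aeval_monomial, Module.End.mul_apply, Module.algebraMap_end_apply]
    exact S.smul_mem _ (hpow n v hv)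

theorem unram_of_injective {X Y : RepG k ℓ} (f : X →ₗ[ℚ_[ℓ]] Y)
    (hf : ∀ g x, f (X.ρ g x) = Y.ρ g (f x)) (hi : Function.Injective f) {N : ℕ}
    (hY : UnramOutside Y N) : UnramOutside X N := by
  intro 𝔓 hm hN σ hσ v
  apply hi
  rw [hf]
  exact hY 𝔓 hm hN σ hσ (f v)

theorem unram_of_surjective {X Y : RepG k ℓ} (f : X →ₗ[ℚ_[ℓ]] Y)
    (hf : ∀ g x, f (X.ρ g x) = Y.ρ g (f x)) (hs : Function.Surjective f) {N : ℕ}
    (hX : UnramOutside X N) : UnramOutside Y N := by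
  intro 𝔓 hm hN σ hσ v
  obtain ⟨x, rfl⟩ := hs v
  rw [← hf, hX 𝔓 hm hN σ hσ x]

theorem unram_prod {X Y : RepG k ℓ} {N : ℕ} (hX : UnramOutside X N) (hY : UnramOutside Y N) :
    UnramOutside (Rep.of (X.ρ.prod Y.ρ) : RepG k ℓ) N := by
  intro 𝔓 hm hN σ hσ v
  exact Prod.ext (hX 𝔓 hm hN σ hσ v.1) (hY 𝔓 hm hN σ hσ v.2)

theorem mixedP_of_injective {X Y : RepG k ℓ} (f : X →ₗ[ℚ_[ℓ]] Y)
    (hf : ∀ g x, f (X.ρ g x) = Y.ρ g (f x)) (hi : Function.Injective f) {N : ℕ}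
    {W : ℤ → Submodule ℚ_[ℓ] Y} (hY : MixedP Y N W) :
    MixedP X N (fun m => (W m).comap f) := by
  obtain ⟨h1, ⟨a, ha⟩, ⟨b, hb⟩, h4, h5⟩ := hY
  refine ⟨fun m n h => Submodule.comap_mono (h1 h), ⟨a, ?_⟩, ⟨b, ?_⟩, ?_, ?_⟩
  · show (W a).comap f = ⊥
    rw [ha]
    exact LinearMap.ker_eq_bot.2 hi
  · show (W b).comap f = ⊤
    rw [hb]
    exact Submodule.comap_top f
  · intro m g v hv
    rw [Submodule.mem_comap] at hv ⊢
    rw [hf]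
    exact h4 m g _ hv
  · intro 𝔓 hm hN σ hσ m
    obtain ⟨p, hp0, hp1, hp2⟩ := h5 𝔓 hm hN σ hσ m
    refine ⟨p, hp0, hp1, fun v hv => ?_⟩
    rw [Submodule.mem_comap] at hv ⊢
    rw [aeval_intertwine f (X.ρ σ⁻¹) (Y.ρ σ⁻¹) (hf σ⁻¹) p v]
    exact hp2 _ hv

theorem mixedP_of_surjective {X Y : RepG k ℓ} (f : X →ₗ[ℚ_[ℓ]] Y)
    (hf : ∀ g x, f (X.ρ g x) = Y.ρ g (f x)) (hs : Function.Surjective f) {N : ℕ}
    {W : ℤ → Submodule ℚ_[ℓ] X} (hX : MixedP X N W) :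
    MixedP Y N (fun m => (W m).map f) := by
  obtain ⟨h1, ⟨a, ha⟩, ⟨b, hb⟩, h4, h5⟩ := hX
  refine ⟨fun m n h => Submodule.map_mono (h1 h), ⟨a, ?_⟩, ⟨b, ?_⟩, ?_, ?_⟩
  · show (W a).map f = ⊥
    rw [ha]
    exact Submodule.map_bot f
  · show (W b).map f = ⊤
    rw [hb, Submodule.map_top]
    exact LinearMap.range_eq_top.2 hs
  · rintro m g _ ⟨v, hv, rfl⟩
    refine ⟨X.ρ g v, h4 m g _ hv, hf g v⟩
  · intro 𝔓 hm hN σ hσ m
    obtain ⟨p, hp0, hp1, hp2⟩ := h5 𝔓 hm hN σ hσ m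
    refine ⟨p, hp0, hp1, ?_⟩
    rintro _ ⟨v, hv, rfl⟩
    exact ⟨_, hp2 _ hv, aeval_intertwine f (X.ρ σ⁻¹) (Y.ρ σ⁻¹) (hf σ⁻¹) p v⟩

theorem mixedP_prod {X Y : RepG k ℓ} {N : ℕ} {W : ℤ → Submodule ℚ_[ℓ] X}
    {W' : ℤ → Submodule ℚ_[ℓ] Y} (hX : MixedP X N W) (hY : MixedP Y N W') :
    MixedP (Rep.of (X.ρ.prod Y.ρ) : RepG k ℓ) N (fun m => (W m).prod (W' m)) := by
  obtain ⟨h1, ⟨a, ha⟩, ⟨b, hb⟩, h4, h5⟩ := hX
  obtain ⟨h1', ⟨a', ha'⟩, ⟨b', hb'⟩, h4', h5'⟩ := hY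
  refine ⟨fun m n h => Submodule.prod_mono (h1 h) (h1' h), ⟨min a a', ?_⟩, ⟨max b b', ?_⟩, ?_, ?_⟩
  · have e1 : W (min a a') = ⊥ := le_bot_iff.1 (ha ▸ h1 (min_le_left a a'))
    have e2 : W' (min a a') = ⊥ := le_bot_iff.1 (ha' ▸ h1' (min_le_right a a'))
    show (W (min a a')).prod (W' (min a a')) = ⊥
    rw [e1, e2]
    exact Submodule.prod_bot
  · have e1 : W (max b b') = ⊤ := top_le_iff.1 (hb ▸ h1 (le_max_left b b'))
    have e2 : W' (max b b') = ⊤ := top_le_iff.1 (hb' ▸ h1' (le_max_right b b'))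
    show (W (max b b')).prod (W' (max b b')) = ⊤
    rw [e1, e2]
    exact Submodule.prod_top
  · intro m g v hv
    have hv' := Submodule.mem_prod.1 hv
    exact Submodule.mem_prod.2 ⟨h4 m g _ hv'.1, h4' m g _ hv'.2⟩
  · intro 𝔓 hm hN σ hσ m
    obtain ⟨p, hp0, hp1, hp2⟩ := h5 𝔓 hm hN σ hσ m
    obtain ⟨q, hq0, hq1, hq2⟩ := h5' 𝔓 hm hN σ hσ m
    refine ⟨p * q, mul_ne_zero hp0 hq0, ?_, ?_⟩
    · intro μ hμ
      rw [map_mul, mul_eq_zero] at hμ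
      exact hμ.elim (hp1 μ) (hq1 μ)
    · intro v hv
      have hv' := Submodule.mem_prod.1 hv
      refine Submodule.mem_prod.2 ⟨?_, ?_⟩
      · have e := aeval_intertwine (LinearMap.fst ℚ_[ℓ] X Y)
          ((Rep.of (X.ρ.prod Y.ρ) : RepG k ℓ).ρ σ⁻¹) (X.ρ σ⁻¹) (fun _ => rfl) (p * q) v
        have e2 : aeval (X.ρ σ⁻¹) (p * q) v.1 = aeval (X.ρ σ⁻¹) q (aeval (X.ρ σ⁻¹) p v.1) := by
          rw [mul_comm p q, map_mul, Module.End.mul_apply]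
        change (LinearMap.fst ℚ_[ℓ] X Y) (aeval ((Rep.of (X.ρ.prod Y.ρ) : RepG k ℓ).ρ σ⁻¹) (p * q) v) ∈ W (m - 1)
        rw [e]
        change aeval (X.ρ σ⁻¹) (p * q) v.1 ∈ W (m - 1)
        rw [e2]
        exact aeval_mem _ _ (fun v hv => h4 _ _ v hv) q _ (hp2 _ hv'.1)
      · have e := aeval_intertwine (LinearMap.snd ℚ_[ℓ] X Y)
          ((Rep.of (X.ρ.prod Y.ρ) : RepG k ℓ).ρ σ⁻¹) (Y.ρ σ⁻¹) (fun _ => rfl) (p * q) v
        have e2 : aeval (Y.ρ σ⁻¹) (p * q) v.2 = aeval (Y.ρ σ⁻¹) p (aeval (Y.ρ σ⁻¹) q v.2) := by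
          rw [map_mul, Module.End.mul_apply]
        change (LinearMap.snd ℚ_[ℓ] X Y) (aeval ((Rep.of (X.ρ.prod Y.ρ) : RepG k ℓ).ρ σ⁻¹) (p * q) v) ∈ W' (m - 1)
        rw [e]
        change aeval (Y.ρ σ⁻¹) (p * q) v.2 ∈ W' (m - 1)
        rw [e2]
        exact aeval_mem _ _ (fun v hv => h4' _ _ v hv) p _ (hq2 _ hv'.2)

theorem wtLE_of_injective {X Y : RepG k ℓ} (f : X →ₗ[ℚ_[ℓ]] Y)
    (hf : ∀ g x, f (X.ρ g x) = Y.ρ g (f x)) (hi : Function.Injective f) {a : ℤ}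
    (hY : WtLE Y a) : WtLE X a := by
  obtain ⟨N, W, hN, hW, ha⟩ := hY
  refine ⟨N, _, hN, mixedP_of_injective f hf hi hW, ?_⟩
  show (W a).comap f = ⊤
  rw [ha]
  exact Submodule.comap_top f

theorem wtLE_of_surjective {X Y : RepG k ℓ} (f : X →ₗ[ℚ_[ℓ]] Y)
    (hf : ∀ g x, f (X.ρ g x) = Y.ρ g (f x)) (hs : Function.Surjective f) {a : ℤ}
    (hX : WtLE X a) : WtLE Y a := by
  obtain ⟨N, W, hN, hW, ha⟩ := hX
  refine ⟨N, _, hN, mixedP_of_surjective f hf hs hW, ?_⟩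
  show (W a).map f = ⊤
  rw [ha, Submodule.map_top]
  exact LinearMap.range_eq_top.2 hs

theorem wtGT_of_injective {X Y : RepG k ℓ} (f : X →ₗ[ℚ_[ℓ]] Y)
    (hf : ∀ g x, f (X.ρ g x) = Y.ρ g (f x)) (hi : Function.Injective f) {a : ℤ}
    (hY : WtGT Y a) : WtGT X a := by
  obtain ⟨N, W, hN, hW, ha⟩ := hY
  refine ⟨N, _, hN, mixedP_of_injective f hf hi hW, ?_⟩
  show (W a).comap f = ⊥
  rw [ha]
  exact LinearMap.ker_eq_bot.2 hi

theorem wtGT_of_surjective {X Y : RepG k ℓ} (f : X →ₗ[ℚ_[ℓ]] Y)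
    (hf : ∀ g x, f (X.ρ g x) = Y.ρ g (f x)) (hs : Function.Surjective f) {a : ℤ}
    (hX : WtGT X a) : WtGT Y a := by
  obtain ⟨N, W, hN, hW, ha⟩ := hX
  refine ⟨N, _, hN, mixedP_of_surjective f hf hs hW, ?_⟩
  show (W a).map f = ⊥
  rw [ha]
  exact Submodule.map_bot f

end Pool.Agent.FRC
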