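import Mathlib
import Pool.Agent.FRC.Base

open CategoryTheory Polynomial TensorProduct NumberField

namespace Pool.Agent.FRC

open Pool.Agent.H12

variable {k : Type} [Field k] {ℓ : ℕ} [Fact ℓ.Prime]

theorem pstAt_of_injective {X Y : RepG k ℓ} (f : X →ₗ[ℚ_[ℓ]] Y)
    (hf : ∀ g x, f (X.ρ g x) = Y.ρ g (f x)) (hi : Function.Injective f)
    {ι : AlgebraicClosure k →+* PadicAlgCl ℓ} {L : IntermediateField ℚ_[ℓ] (PadicAlgCl ℓ)}
    (hex : ∀ σ : L.fixingSubgroup, ∃ g : GG k, ∀ x, ι (g x) = (σ : GalP ℓ) (ι x))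
    (hY : PstAt Y ι L) : PstAt X ι L := by
  obtain ⟨U, hU, A, π, h1, h2, h3⟩ := hY
  have hmem : ∀ a : U, a ∈ ((LinearMap.range f).comap π).map A.subtype ↔
      ∃ (ha : a ∈ A) (x : X), f x = π ⟨a, ha⟩ := by
    intro a
    constructor
    · rintro ⟨b, ⟨x, hx⟩, rfl⟩
      exact ⟨b.2, x, hx⟩
    · rintro ⟨ha, x, hx⟩
      exact ⟨⟨a, ha⟩, ⟨x, hx⟩, rfl⟩
  have hle : ((LinearMap.range f).comap π).map A.subtype ≤ A := by
    intro a ha
    exact ((hmem a).1 ha).1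
  let e : X ≃ₗ[ℚ_[ℓ]] LinearMap.range f := LinearEquiv.ofInjective f hi
  let π' : (((LinearMap.range f).comap π).map A.subtype : Submodule ℚ_[ℓ] U) →ₗ[ℚ_[ℓ]] X :=
    e.symm.toLinearMap ∘ₗ LinearMap.codRestrict (LinearMap.range f)
      (π ∘ₗ Submodule.inclusion hle) (by
        intro a
        obtain ⟨ha, x, hx⟩ := (hmem a.1).1 a.2
        exact ⟨x, hx⟩)
  have hπ' : ∀ a, f (π' a) = π (Submodule.inclusion hle a) := by
    intro a
    have := LinearEquiv.apply_symm_apply e (LinearMap.codRestrict (LinearMap.range f)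
      (π ∘ₗ Submodule.inclusion hle) (by
        intro a
        obtain ⟨ha, x, hx⟩ := (hmem a.1).1 a.2
        exact ⟨x, hx⟩) a)
    exact congrArg Subtype.val this
  refine ⟨U, hU, _, π', ?_, ?_, ?_⟩
  · intro x
    obtain ⟨a, ha⟩ := h1 (f x)
    refine ⟨⟨a.1, (hmem a.1).2 ⟨a.2, x, ha.symm⟩⟩, ?_⟩
    apply hi
    rw [hπ']
    exact ha
  · intro σ a ha
    obtain ⟨ha, x, hx⟩ := (hmem a).1 ha
    obtain ⟨g, hg⟩ := hex σ
    have h4 := h3 σ g hg ⟨a, ha⟩ ⟨U.ρ σ a, h2 σ a ha⟩ rfl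
    exact (hmem _).2 ⟨h2 σ a ha, X.ρ g x, by rw [hf, hx, h4]⟩
  · intro σ g hg a b hab
    apply hi
    rw [hπ', hf, hπ']
    exact h3 σ g hg (Submodule.inclusion hle a) (Submodule.inclusion hle b) hab

theorem pstAt_of_surjective {X Y : RepG k ℓ} (f : X →ₗ[ℚ_[ℓ]] Y)
    (hf : ∀ g x, f (X.ρ g x) = Y.ρ g (f x)) (hs : Function.Surjective f)
    {ι : AlgebraicClosure k →+* PadicAlgCl ℓ} {L : IntermediateField ℚ_[ℓ] (PadicAlgCl ℓ)}
    (hX : PstAt X ι L) : PstAt Y ι L := by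
  obtain ⟨U, hU, A, π, h1, h2, h3⟩ := hX
  refine ⟨U, hU, A, f ∘ₗ π, ?_, h2, ?_⟩
  · intro y
    obtain ⟨x, rfl⟩ := hs y
    obtain ⟨a, rfl⟩ := h1 x
    exact ⟨a, rfl⟩
  · intro σ g hg a b hab
    have h4 := h3 σ g hg a b hab
    change f (π b) = Y.ρ g (f (π a))
    rw [h4, hf]

/-- Every element of `G_L` induces an element of `G_k` if `L` contains the image of `k`. -/
theorem exists_induced {ι : AlgebraicClosure k →+* PadicAlgCl ℓ}
    {L : IntermediateField ℚ_[ℓ] (PadicAlgCl ℓ)}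
    (hL : ∀ x : k, ι (algebraMap k (AlgebraicClosure k) x) ∈ L) (σ : L.fixingSubgroup) :
    ∃ g : GG k, ∀ x, ι (g x) = (σ : GalP ℓ) (ι x) := by
  letI i1 : Algebra (AlgebraicClosure k) (PadicAlgCl ℓ) := ι.toAlgebra
  letI i2 : Algebra k (PadicAlgCl ℓ) := (ι.comp (algebraMap k (AlgebraicClosure k))).toAlgebra
  haveI i3 : IsScalarTower k (AlgebraicClosure k) (PadicAlgCl ℓ) :=
    IsScalarTower.of_algebraMap_eq' rfl
  haveI i4 : Normal k (AlgebraicClosure k) := inferInstance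
  let φ : PadicAlgCl ℓ →ₐ[k] PadicAlgCl ℓ :=
    { ((σ : GalP ℓ) : PadicAlgCl ℓ →+* PadicAlgCl ℓ) with
      commutes' := by
        intro x
        have h := σ.2
        rw [IntermediateField.mem_fixingSubgroup_iff] at h
        exact h _ (hL x) }
  refine ⟨AlgEquiv.ofBijective (φ.restrictNormal (AlgebraicClosure k))
    (AlgHom.normal_bijective k (AlgebraicClosure k) (AlgebraicClosure k) _), ?_⟩
  intro x
  exact AlgHom.restrictNormal_commutes φ (AlgebraicClosure k) x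

end Pool.Agent.FRC
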