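import Mathlib
import Pool.Agent.FRC.Base

open CategoryTheory Polynomial TensorProduct NumberField

namespace Pool.Agent.FRC

open Pool.Agent.H12

variable {ℓ : ℕ} [Fact ℓ.Prime]

/-- The inclusion of `G_L'` in `G_L` for `L ≤ L'`. -/
noncomputable def fixIncl {L L' : IntermediateField ℚ_[ℓ] (PadicAlgCl ℓ)} (h : L ≤ L') :
    L'.fixingSubgroup →* L.fixingSubgroup :=
  Subgroup.inclusion (IntermediateField.fixingSubgroup_antitone h)

theorem fixIncl_coe {L L' : IntermediateField ℚ_[ℓ] (PadicAlgCl ℓ)} (h : L ≤ L')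
    (σ : L'.fixingSubgroup) : ((fixIncl h σ : L.fixingSubgroup) : GalP ℓ) = σ := rfl

theorem semistable_restrict {L L' : IntermediateField ℚ_[ℓ] (PadicAlgCl ℓ)} (h : L ≤ L')
    {U : Rep.{0} ℚ_[ℓ] L.fixingSubgroup} (hU : IsSemistable L U) :
    IsSemistable L' (Rep.res (fixIncl h) U) := by
  obtain ⟨h1, h2, b, h3⟩ := hU
  refine ⟨h1, ?_, b, ?_⟩
  · intro v f
    have hc : Continuous (fixIncl h) :=
      Continuous.subtype_mk continuous_subtype_val _
    exact (h2 v f).comp hc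
  · intro σ i
    exact h3 (fixIncl h σ) i

theorem pstAt_mono {k : Type} [Field k] {V : RepG k ℓ} {ι : AlgebraicClosure k →+* PadicAlgCl ℓ}
    {L L' : IntermediateField ℚ_[ℓ] (PadicAlgCl ℓ)} (h : L ≤ L') (hV : PstAt V ι L) :
    PstAt V ι L' := by
  obtain ⟨U, hU, A, π, h1, h2, h3⟩ := hV
  refine ⟨Rep.res (fixIncl h) U, semistable_restrict h hU, A, π, h1, ?_, ?_⟩
  · intro σ a ha
    exact h2 (fixIncl h σ) a ha
  · intro σ g hg a b hab
    exact h3 (fixIncl h σ) g hg a b hab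

end Pool.Agent.FRC
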