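import Mathlib
import Pool.Agent.FRC.CLO1

open CategoryTheory Polynomial TensorProduct NumberField

namespace Pool.Agent.FRC

open Pool.Agent.H12

variable {ℓ : ℕ} [Fact ℓ.Prime] {L : IntermediateField ℚ_[ℓ] (PadicAlgCl ℓ)}

/-- The product representation on a dependent function space. -/
private noncomputable def piRho {H : Type} [Group H] {J : Type} (U : J → Rep.{0} ℚ_[ℓ] H) :
    Representation ℚ_[ℓ] H ((j : J) → U j) where
  toFun g := LinearMap.pi fun j => (U j).ρ g ∘ₗ LinearMap.proj j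
  map_one' := by
    ext x j
    simp
  map_mul' g h := by
    ext x j
    simp

private theorem piRho_apply {H : Type} [Group H] {J : Type} (U : J → Rep.{0} ℚ_[ℓ] H) (g : H)
    (u : (j : J) → U j) (j : J) : piRho U g u j = (U j).ρ g (u j) := rfl

private theorem isCont_pi {H : Type} [Group H] [TopologicalSpace H] {J : Type} [Finite J]
    (U : J → Rep.{0} ℚ_[ℓ] H) (hU : ∀ j, IsCont (U j)) : IsCont (Rep.of (piRho U)) := by
  classical
  have := Fintype.ofFinite J
  intro v f
  have h : (fun g => f (piRho U g v)) = fun g => ∑ j, (f ∘ₗ LinearMap.single ℚ_[ℓ] _ j)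
      ((U j).ρ g (v j)) := by
    funext g
    have h2 : piRho U g v = ∑ j, LinearMap.single ℚ_[ℓ] (fun j => (U j : Type)) j
        ((U j).ρ g (v j)) := by
      funext i
      rw [Finset.sum_apply]
      simp only [LinearMap.single_apply]
      rw [Finset.sum_eq_single i]
      · rw [Pi.single_eq_same, piRho_apply]
      · intro b _ hb
        exact Pi.single_eq_of_ne' hb _
      · intro h; exact absurd (Finset.mem_univ _) h
    conv_lhs => rw [h2]
    rw [map_sum]
    rfl
  change Continuous fun g => f (piRho U g v)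
  rw [h]
  exact continuous_finsetSum _ fun j _ => hU j (v j) _

private theorem semistable_pi {J : Type} [Finite J] (U : J → Rep.{0} ℚ_[ℓ] L.fixingSubgroup)
    (hU : ∀ j, IsSemistable L (U j)) : IsSemistable L (Rep.of (piRho U)) := by
  classical
  have := Fintype.ofFinite J
  have hfd : ∀ j, FiniteDimensional ℚ_[ℓ] (U j) := fun j => (hU j).1
  have hfin : FiniteDimensional ℚ_[ℓ] ((j : J) → U j) := inferInstance
  refine ⟨hfin, isCont_pi U fun j => (hU j).2.1, ?_⟩
  choose b hb using fun j => (hU j).2.2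
  let e := TensorProduct.piRight ℚ_[ℓ] (Bst ℓ) (Bst ℓ) (fun j => (U j : Type))
  have hcard : Fintype.card ((j : J) × Fin (Module.finrank ℚ_[ℓ] (U j))) =
      Module.finrank ℚ_[ℓ] ((j : J) → U j) := by
    rw [Module.finrank_pi_fintype, Fintype.card_sigma]
    simp
  let B := ((Pi.basis b).map e.symm).reindex (Fintype.equivFinOfCardEq hcard)
  refine ⟨B, fun σ i => ?_⟩
  obtain ⟨⟨j, i⟩, rfl⟩ := (Fintype.equivFinOfCardEq hcard).surjective i
  have h1 : B ((Fintype.equivFinOfCardEq hcard) ⟨j, i⟩) =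
      LinearMap.lTensor (Bst ℓ) (LinearMap.single ℚ_[ℓ] (fun j => (U j : Type)) j) (b j i) := by
    simp only [B, Module.Basis.reindex_apply, Equiv.symm_apply_apply, Module.Basis.map_apply]
    rw [LinearEquiv.symm_apply_eq]
    rw [Pi.basis_apply]
    funext j'
    have h3 : ∀ x : Bst ℓ ⊗[ℚ_[ℓ]] (U j), e (LinearMap.lTensor (Bst ℓ)
        (LinearMap.single ℚ_[ℓ] (fun j => (U j : Type)) j) x) = Pi.single j x := by
      intro x
      induction x using TensorProduct.induction_on with
      | zero => simp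
      | tmul a u =>
        funext j'
        rw [LinearMap.lTensor_tmul]
        simp only [e, TensorProduct.piRight_apply, TensorProduct.piRightHom_tmul,
          LinearMap.single_apply]
        by_cases hj : j' = j
        · subst hj; simp
        · simp [Pi.single_eq_of_ne hj]
      | add x y hx hy => rw [map_add, map_add, hx, hy, Pi.single_add]
    rw [h3]
  rw [h1]
  change (TensorProduct.map (actBstLin (σ : GalP ℓ)) (piRho U σ)) _ = _
  have h4 : (TensorProduct.map (actBstLin (σ : GalP ℓ)) (piRho U σ)) ∘ₗ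
      LinearMap.lTensor (Bst ℓ) (LinearMap.single ℚ_[ℓ] (fun j => (U j : Type)) j) =
      LinearMap.lTensor (Bst ℓ) (LinearMap.single ℚ_[ℓ] (fun j => (U j : Type)) j) ∘ₗ
        TensorProduct.map (actBstLin (σ : GalP ℓ)) ((U j).ρ σ) := by
    apply TensorProduct.ext'
    intro a u
    simp only [LinearMap.comp_apply, LinearMap.lTensor_tmul, TensorProduct.map_tmul]
    congr 1
    funext j'
    rw [piRho_apply]
    simp only [LinearMap.single_apply]
    by_cases hj : j' = j
    · subst hj; simp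
    · simp [Pi.single_eq_of_ne hj]
  have h5 := LinearMap.congr_fun h4 (b j i)
  simp only [LinearMap.comp_apply] at h5
  rw [h5, hb j σ i]

section Generic

variable {R S M N : Type} [CommRing R] [CommRing S] [Algebra R S] [AddCommGroup M] [Module R M]
  [AddCommGroup N] [Module R N]

private theorem prodRight_inl (x : S ⊗[R] M) :
    TensorProduct.prodRight R S S M N (LinearMap.lTensor S (LinearMap.inl R M N) x) = (x, 0) := by
  induction x using TensorProduct.induction_on with
  | zero => rw [map_zero, map_zero]; rfl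
  | tmul a u =>
    rw [LinearMap.lTensor_tmul]
    simp
  | add x y hx hy => rw [map_add, map_add, hx, hy, Prod.mk_add_mk, add_zero]

private theorem prodRight_inr (x : S ⊗[R] N) :
    TensorProduct.prodRight R S S M N (LinearMap.lTensor S (LinearMap.inr R M N) x) = (0, x) := by
  induction x using TensorProduct.induction_on with
  | zero => rw [map_zero, map_zero]; rfl
  | tmul a u =>
    rw [LinearMap.lTensor_tmul]
    simp
  | add x y hx hy => rw [map_add, map_add, hx, hy, Prod.mk_add_mk, add_zero]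

private theorem basis_inl {κ κ' : Type} (b : Module.Basis κ S (S ⊗[R] M))
    (b' : Module.Basis κ' S (S ⊗[R] N)) (i : κ) :
    ((b.prod b').map (TensorProduct.prodRight R S S M N).symm) (Sum.inl i) =
      LinearMap.lTensor S (LinearMap.inl R M N) (b i) := by
  rw [Module.Basis.map_apply, LinearEquiv.symm_apply_eq, prodRight_inl]
  exact Prod.ext (Module.Basis.prod_apply_inl_fst b b' i)
    (Module.Basis.prod_apply_inl_snd b b' i)

private theorem basis_inr {κ κ' : Type} (b : Module.Basis κ S (S ⊗[R] M))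
    (b' : Module.Basis κ' S (S ⊗[R] N)) (i : κ') :
    ((b.prod b').map (TensorProduct.prodRight R S S M N).symm) (Sum.inr i) =
      LinearMap.lTensor S (LinearMap.inr R M N) (b' i) := by
  rw [Module.Basis.map_apply, LinearEquiv.symm_apply_eq, prodRight_inr]
  exact Prod.ext (Module.Basis.prod_apply_inr_fst b b' i)
    (Module.Basis.prod_apply_inr_snd b b' i)

private theorem map_inl (f : S →ₗ[R] S) (p : M →ₗ[R] M) (q : N →ₗ[R] N) (x : S ⊗[R] M) :
    TensorProduct.map f (p.prodMap q) (LinearMap.lTensor S (LinearMap.inl R M N) x) =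
      LinearMap.lTensor S (LinearMap.inl R M N) (TensorProduct.map f p x) := by
  induction x using TensorProduct.induction_on with
  | zero => simp
  | tmul a u => simp
  | add x y hx hy => simp only [map_add, hx, hy]

private theorem map_inr (f : S →ₗ[R] S) (p : M →ₗ[R] M) (q : N →ₗ[R] N) (x : S ⊗[R] N) :
    TensorProduct.map f (p.prodMap q) (LinearMap.lTensor S (LinearMap.inr R M N) x) =
      LinearMap.lTensor S (LinearMap.inr R M N) (TensorProduct.map f q x) := by
  induction x using TensorProduct.induction_on with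
  | zero => simp
  | tmul a u => simp
  | add x y hx hy => simp only [map_add, hx, hy]

end Generic

theorem semistable_prod {U U' : Rep.{0} ℚ_[ℓ] L.fixingSubgroup} (hU : IsSemistable L U)
    (hU' : IsSemistable L U') : IsSemistable L (Rep.of (U.ρ.prod U'.ρ)) := by
  have := hU.1
  have := hU'.1
  have hfin : FiniteDimensional ℚ_[ℓ] (U × U') := inferInstance
  refine ⟨hfin, isCont_prod hU.2.1 hU'.2.1, ?_⟩
  obtain ⟨b, hb⟩ := hU.2.2
  obtain ⟨b', hb'⟩ := hU'.2.2
  have hcard : Fintype.card (Fin (Module.finrank ℚ_[ℓ] U) ⊕ Fin (Module.finrank ℚ_[ℓ] U')) =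
      Module.finrank ℚ_[ℓ] (U × U') := by
    rw [Module.finrank_prod, Fintype.card_sum]
    simp
  refine ⟨((b.prod b').map (TensorProduct.prodRight ℚ_[ℓ] (Bst ℓ) (Bst ℓ) U U').symm).reindex
    (Fintype.equivFinOfCardEq hcard), fun σ i => ?_⟩
  obtain ⟨i, rfl⟩ := (Fintype.equivFinOfCardEq hcard).surjective i
  rw [Module.Basis.reindex_apply, Equiv.symm_apply_apply]
  rcases i with i | i
  · rw [basis_inl]
    exact (map_inl _ (U.ρ σ) (U'.ρ σ) (b i)).trans (by rw [hb σ i])
  · rw [basis_inr]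
    exact (map_inr _ (U.ρ σ) (U'.ρ σ) (b' i)).trans (by rw [hb' σ i])

theorem pstAt_prod {k : Type} [Field k] {X Y : RepG k ℓ}
    {ι : AlgebraicClosure k →+* PadicAlgCl ℓ} (hX : PstAt X ι L) (hY : PstAt Y ι L) :
    PstAt (Rep.of (X.ρ.prod Y.ρ) : RepG k ℓ) ι L := by
  obtain ⟨U, hU, A, π, hπ, hA, hc⟩ := hX
  obtain ⟨U', hU', A', π', hπ', hA', hc'⟩ := hY
  let q : (A.prod A' : Submodule ℚ_[ℓ] (U × U')) →ₗ[ℚ_[ℓ]] (X × Y) :=
    { toFun := fun a => (π ⟨a.1.1, a.2.1⟩, π' ⟨a.1.2, a.2.2⟩)
      map_add' := fun a c => by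
        refine Prod.ext ?_ ?_
        · exact map_add π ⟨a.1.1, a.2.1⟩ ⟨c.1.1, c.2.1⟩
        · exact map_add π' ⟨a.1.2, a.2.2⟩ ⟨c.1.2, c.2.2⟩
      map_smul' := fun r a => by
        refine Prod.ext ?_ ?_
        · exact map_smul π r ⟨a.1.1, a.2.1⟩
        · exact map_smul π' r ⟨a.1.2, a.2.2⟩ }
  refine ⟨Rep.of (U.ρ.prod U'.ρ), semistable_prod hU hU', A.prod A', q, ?_, ?_, ?_⟩
  · rintro ⟨x, y⟩
    obtain ⟨a, ha⟩ := hπ x
    obtain ⟨a', ha'⟩ := hπ' y
    refine ⟨⟨(a.1, a'.1), a.2, a'.2⟩, ?_⟩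
    exact Prod.ext ha ha'
  · rintro σ a ⟨ha, ha'⟩
    exact ⟨hA σ _ ha, hA' σ _ ha'⟩
  · intro σ g hg a c hca
    have h1 : ((⟨c.1.1, c.2.1⟩ : A) : U) = U.ρ σ (⟨a.1.1, a.2.1⟩ : A) := congrArg Prod.fst hca
    have h2 : ((⟨c.1.2, c.2.2⟩ : A') : U') = U'.ρ σ (⟨a.1.2, a.2.2⟩ : A') :=
      congrArg Prod.snd hca
    exact Prod.ext (hc σ g hg _ _ h1) (hc' σ g hg _ _ h2)

/-- Finite products, in the form needed for coinduction: if `V` embeds linearly, compatibly with
`G_L`, into a finite product of representations that satisfy the local condition (each with its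
own embedding and its own compatible action), then so does `V`. -/
theorem pstAt_of_embedding {k k' : Type} [Field k] [Field k'] {V : RepG k ℓ}
    {ι : AlgebraicClosure k →+* PadicAlgCl ℓ} {J : Type} [Finite J] (X : J → RepG k' ℓ)
    (ιJ : J → (AlgebraicClosure k' →+* PadicAlgCl ℓ)) (hX : ∀ j, PstAt (X j) (ιJ j) L)
    (hexk : ∀ σ : L.fixingSubgroup, ∃ g : GG k, ∀ x, ι (g x) = (σ : GalP ℓ) (ι x))
    (f : V →ₗ[ℚ_[ℓ]] ((j : J) → X j)) (hf : Function.Injective f)
    (hcomp : ∀ (σ : L.fixingSubgroup) (g : GG k), (∀ x, ι (g x) = (σ : GalP ℓ) (ι x)) →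
      ∀ j, ∃ h : GG k', (∀ x, ιJ j (h x) = (σ : GalP ℓ) (ιJ j x)) ∧
        ∀ v, f (V.ρ g v) j = (X j).ρ h (f v j)) : PstAt V ι L := by
  choose U hU A π hπ hA hc using hX
  let S : Submodule ℚ_[ℓ] ((j : J) → U j) :=
    { carrier := {u | ∃ (h : ∀ j, u j ∈ A j) (v : V), ∀ j, π j ⟨u j, h j⟩ = f v j}
      add_mem' := by
        rintro a c ⟨ha, v, hv⟩ ⟨hc', w, hw⟩
        refine ⟨fun j => (A j).add_mem (ha j) (hc' j), v + w, fun j => ?_⟩
        have := map_add (π j) ⟨a j, ha j⟩ ⟨c j, hc' j⟩
        rw [hv j, hw j] at this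
        rw [map_add]
        exact this
      zero_mem' := by
        refine ⟨fun j => (A j).zero_mem, 0, fun j => ?_⟩
        rw [map_zero]
        exact map_zero (π j)
      smul_mem' := by
        rintro r a ⟨ha, v, hv⟩
        refine ⟨fun j => (A j).smul_mem r (ha j), r • v, fun j => ?_⟩
        have := map_smul (π j) r ⟨a j, ha j⟩
        rw [hv j] at this
        rw [map_smul]
        exact this }
  have hmem : ∀ a : S, ∀ j, (a : (j : J) → U j) j ∈ A j := fun a => a.2.1
  choose q hq using fun a : S => a.2.2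
  let Q : S →ₗ[ℚ_[ℓ]] V :=
    { toFun := q
      map_add' := fun a c => by
        apply hf
        funext j
        rw [map_add, Pi.add_apply, ← hq (a + c) j, ← hq a j, ← hq c j, ← map_add]
        rfl
      map_smul' := fun r a => by
        apply hf
        funext j
        rw [RingHom.id_apply, map_smul, Pi.smul_apply, ← hq (r • a) j, ← hq a j, ← map_smul]
        rfl }
  refine ⟨Rep.of (piRho U), semistable_pi U hU, S, Q, ?_, ?_, ?_⟩
  · intro v
    choose u hu using fun j => hπ j (f v j)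
    refine ⟨⟨fun j => (u j : U j), fun j => (u j).2, v, fun j => hu j⟩, ?_⟩
    apply hf
    funext j
    exact (hq _ j).symm.trans (hu j)
  · rintro σ a ⟨ha, v, hv⟩
    obtain ⟨g, hg⟩ := hexk σ
    refine ⟨fun j => hA j σ _ (ha j), V.ρ g v, fun j => ?_⟩
    obtain ⟨h, hh, hh2⟩ := hcomp σ g hg j
    rw [hh2, ← hv j]
    exact hc j σ h hh ⟨a j, ha j⟩ ⟨_, hA j σ _ (ha j)⟩ rfl
  · intro σ g hg a c hca
    apply hf
    funext j
    obtain ⟨h, hh, hh2⟩ := hcomp σ g hg j
    change f (q c) j = f (V.ρ g (q a)) j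
    rw [hh2, ← hq c j, ← hq a j]
    exact hc j σ h hh ⟨_, hmem a j⟩ ⟨_, hmem c j⟩ (congrFun hca j)

end Pool.Agent.FRC
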