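import Mathlib
import Pool.Agent.FRC.Base

open CategoryTheory Polynomial TensorProduct NumberField

namespace Pool.Agent.FRC

open Pool.Agent.H12

variable {k : Type} [Field k] {ℓ : ℕ} [Fact ℓ.Prime]

/-- Polynomials in an endomorphism and a map which intertwines on a stable subspace. -/
private theorem aeval_map {V P : Type} [AddCommGroup V] [Module ℚ_[ℓ] V] [AddCommGroup P]
    [Module ℚ_[ℓ] P] (π : V →ₗ[ℚ_[ℓ]] P) (A : Submodule ℚ_[ℓ] V) (T : V →ₗ[ℚ_[ℓ]] V)
    (S : P →ₗ[ℚ_[ℓ]] P) (hA : ∀ v ∈ A, T v ∈ A) (hπ : ∀ v ∈ A, π (T v) = S (π v))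
    (p : ℚ_[ℓ][X]) : ∀ v ∈ A, aeval T p v ∈ A ∧ π (aeval T p v) = aeval S p (π v) := by
  have hpow : ∀ n : ℕ, ∀ v ∈ A, (T ^ n) v ∈ A ∧ π ((T ^ n) v) = (S ^ n) (π v) := by
    intro n
    induction n with
    | zero => intro v hv; exact ⟨by simpa using hv, by simp⟩
    | succ n ih =>
      intro v hv
      have h1 := ih (T v) (hA v hv)
      rw [pow_succ, pow_succ, Module.End.mul_apply, Module.End.mul_apply]
      refine ⟨h1.1, ?_⟩
      rw [h1.2, hπ v hv]
  induction p using Polynomial.induction_on' with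
  | add p q hp hq =>
    intro v hv
    rw [map_add, map_add, LinearMap.add_apply, LinearMap.add_apply, map_add]
    exact ⟨A.add_mem (hp v hv).1 (hq v hv).1, by rw [(hp v hv).2, (hq v hv).2]⟩
  | monomial n a =>
    intro v hv
    rw [aeval_monomial, aeval_monomial, Module.algebraMap_end_eq_smul_id,
      Module.algebraMap_end_eq_smul_id, Module.End.mul_apply, Module.End.mul_apply]
    simp only [LinearMap.smul_apply, LinearMap.id_apply, map_smul]
    exact ⟨A.smul_mem _ (hpow n v hv).1, by rw [(hpow n v hv).2]⟩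

/-- The representation on a subquotient. -/
private noncomputable def grRep (V : RepG k ℓ) (A B : Submodule ℚ_[ℓ] V)
    (hA : ∀ (g : GG k), ∀ v ∈ A, V.ρ g v ∈ A) (hB : ∀ (g : GG k), ∀ v ∈ B, V.ρ g v ∈ B) :
    Representation ℚ_[ℓ] (GG k) (A ⧸ B.submoduleOf A) where
  toFun g := Submodule.mapQ _ _ ((V.ρ g).restrict (hA g)) (by
    intro v hv
    rw [Submodule.mem_comap]
    exact hB g _ hv)
  map_one' := by
    ext v
    simp [LinearMap.restrict_apply]
  map_mul' g h := by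
    ext v
    simp [LinearMap.restrict_apply]

private theorem grRep_mk (V : RepG k ℓ) (A B : Submodule ℚ_[ℓ] V)
    (hA : ∀ (g : GG k), ∀ v ∈ A, V.ρ g v ∈ A) (hB : ∀ (g : GG k), ∀ v ∈ B, V.ρ g v ∈ B)
    (g : GG k) (v : A) :
    grRep V A B hA hB g (Submodule.Quotient.mk v) =
      Submodule.Quotient.mk ⟨V.ρ g v, hA g v v.2⟩ := rfl

private theorem natCast_notMem_of_dvd {N M : ℕ} (hNM : N ∣ M) {𝔓 : Ideal (Zb k)}
    (h : (M : Zb k) ∉ 𝔓) : (N : Zb k) ∉ 𝔓 := by
  intro hmem
  apply h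
  obtain ⟨c, rfl⟩ := hNM
  rw [Nat.cast_mul]
  exact Ideal.mul_mem_right _ _ hmem

/-- The polynomial form of mixedness. (→): take for `N` the product of the integers of the graded
pieces between the two ends of the filtration and for `p` the minimal polynomial of Frobenius on
the graded piece. (←): the graded piece is the representation on `W m / W (m - 1)`; the minimal
polynomial of Frobenius on it divides `p`. -/
theorem isMixed_iff (V : RepG k ℓ) (hfin : FiniteDimensional ℚ_[ℓ] V)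
    (hur : ∃ N : ℕ, N ≠ 0 ∧ UnramOutside V N) :
    IsMixed V ↔ ∃ (N : ℕ) (W : ℤ → Submodule ℚ_[ℓ] V), N ≠ 0 ∧ MixedP V N W := by
  constructor
  · rintro ⟨W, hmono, ⟨a, ha⟩, ⟨b, hb⟩, hst, hgr⟩
    choose P hP hG using hgr
    choose n hn0 hnu hnF using hP
    have hlow : ∀ m, m ≤ a → W m = ⊥ := fun m hm => le_bot_iff.mp (ha ▸ hmono hm)
    have hhigh : ∀ m, b ≤ m → W m = ⊤ := fun m hm => top_le_iff.mp (hb ▸ hmono hm)
    refine ⟨∏ m ∈ Finset.Icc a (b + 1), n m, W, Finset.prod_ne_zero_iff.mpr fun m _ => hn0 m,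
      hmono, ⟨a, ha⟩, ⟨b, hb⟩, hst, ?_⟩
    intro 𝔓 hmax hN σ hσ m
    by_cases hm : m ∈ Finset.Icc a (b + 1)
    · have hN' : (n m : Zb k) ∉ 𝔓 := natCast_notMem_of_dvd (Finset.dvd_prod_of_mem n hm) hN
      obtain ⟨π, hsurj, hker, heq⟩ := hG m
      have hfinP : FiniteDimensional ℚ_[ℓ] (P m) := by
        refine Module.Finite.of_surjective π fun y => ?_
        obtain ⟨v, -, hv⟩ := hsurj y
        exact ⟨v, hv⟩
      refine ⟨minpoly ℚ_[ℓ] ((P m).ρ σ⁻¹), minpoly.ne_zero (Algebra.IsIntegral.isIntegral _),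
        fun μ hμ => hnF m 𝔓 hmax hN' σ hσ μ hμ, fun v hv => ?_⟩
      have h1 := aeval_map π (W m) (V.ρ σ⁻¹) ((P m).ρ σ⁻¹) (hst m σ⁻¹) (heq σ⁻¹)
        (minpoly ℚ_[ℓ] ((P m).ρ σ⁻¹)) v hv
      rw [minpoly.aeval, LinearMap.zero_apply] at h1
      exact (hker _ h1.1).mp h1.2
    · refine ⟨1, one_ne_zero, fun μ hμ => ?_, fun v hv => ?_⟩
      · rw [map_one] at hμ
        exact absurd hμ one_ne_zero
      · rw [map_one, Module.End.one_apply]
        rw [Finset.mem_Icc, not_and_or, not_le, not_le] at hm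
        rcases hm with hm | hm
        · rw [hlow m hm.le] at hv
          rw [(Submodule.mem_bot _).mp hv]
          exact Submodule.zero_mem _
        · rw [hhigh (m - 1) (by omega)]
          exact Submodule.mem_top
  · rintro ⟨N, W, hN0, hmono, ha, hb, hst, hF⟩
    obtain ⟨N₀, hN₀, hu⟩ := hur
    refine ⟨W, hmono, ha, hb, hst, fun m => ?_⟩
    obtain ⟨π, hπ⟩ := LinearMap.exists_extend ((W (m - 1)).submoduleOf (W m)).mkQ
    have hπ' : ∀ v (hv : v ∈ W m), π v = Submodule.Quotient.mk ⟨v, hv⟩ := by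
      intro v hv
      have := LinearMap.congr_fun hπ ⟨v, hv⟩
      exact this
    refine ⟨Rep.of (grRep V (W m) (W (m - 1)) (hst m) (hst (m - 1))), ?_, π, ?_, ?_, ?_⟩
    · refine ⟨N * N₀, Nat.mul_ne_zero hN0 hN₀, ?_, ?_⟩
      · intro 𝔓 hmax hN σ hσ v
        have hN' : (N₀ : Zb k) ∉ 𝔓 := natCast_notMem_of_dvd (dvd_mul_left _ _) hN
        obtain ⟨v, rfl⟩ := Submodule.Quotient.mk_surjective _ v
        change grRep V (W m) (W (m - 1)) (hst m) (hst (m - 1)) σ (Submodule.Quotient.mk v) = _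
        rw [grRep_mk]
        congr 1
        exact Subtype.ext (hu 𝔓 hmax hN' σ hσ v)
      · intro 𝔓 hmax hN σ hσ μ hμ
        have hN' : (N : Zb k) ∉ 𝔓 := natCast_notMem_of_dvd (dvd_mul_right _ _) hN
        obtain ⟨p, hp0, hpW, hp⟩ := hF 𝔓 hmax hN' σ hσ m
        refine hpW μ ?_
        have hdvd : minpoly ℚ_[ℓ]
            ((Rep.of (grRep V (W m) (W (m - 1)) (hst m) (hst (m - 1)))).ρ σ⁻¹) ∣ p := by
          apply minpoly.dvd
          apply LinearMap.ext
          intro v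
          obtain ⟨v, rfl⟩ := Submodule.Quotient.mk_surjective _ v
          obtain ⟨h1, h2⟩ := aeval_map π (W m) (V.ρ σ⁻¹)
            ((grRep V (W m) (W (m - 1)) (hst m) (hst (m - 1))) σ⁻¹) (hst m σ⁻¹) (by
              intro v hv
              rw [hπ' v hv, hπ' _ (hst m _ v hv)]
              rfl) p v v.2
          have h3 : π v = Submodule.Quotient.mk v := hπ' v v.2
          rw [hπ' _ h1, h3] at h2
          refine h2.symm.trans ?_
          exact (Submodule.Quotient.mk_eq_zero _).mpr (hp v v.2)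
        obtain ⟨c, hc⟩ := hdvd
        rw [hc, map_mul, hμ, zero_mul]
    · intro y
      obtain ⟨v, rfl⟩ := Submodule.Quotient.mk_surjective _ y
      exact ⟨v, v.2, hπ' v v.2⟩
    · intro v hv
      rw [hπ' v hv]
      exact Submodule.Quotient.mk_eq_zero _
    · intro g v hv
      rw [hπ' v hv, hπ' _ (hst m _ v hv)]
      rfl

/-- A pure object in polynomial form. -/
theorem isPure_iff (V : RepG k ℓ) (hfin : FiniteDimensional ℚ_[ℓ] V) (m : ℤ) :
    IsPure V m ↔ (∃ N : ℕ, N ≠ 0 ∧ UnramOutside V N) ∧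
      ∃ (N : ℕ) (W : ℤ → Submodule ℚ_[ℓ] V), N ≠ 0 ∧ MixedP V N W ∧ W m = ⊤ ∧ W (m - 1) = ⊥ := by
  constructor
  · rintro ⟨N, hN0, hu, hF⟩
    refine ⟨⟨N, hN0, hu⟩, N, fun j => if j < m then ⊥ else ⊤, hN0, ⟨?_, ⟨m - 1, ?_⟩, ⟨m, ?_⟩,
      ?_, ?_⟩, ?_, ?_⟩
    · intro i j hij
      dsimp only
      split_ifs with h1 h2 h2
      · exact le_rfl
      · exact bot_le
      · omega
      · exact le_rfl
    · dsimp only
      rw [if_pos (by omega)]
    · dsimp only
      rw [if_neg (by omega)]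
    · intro j g v hv
      dsimp only at hv ⊢
      split_ifs at hv ⊢ with h1
      · rw [(Submodule.mem_bot _).mp hv, map_zero]
        exact Submodule.zero_mem _
      · exact Submodule.mem_top
    · intro 𝔓 hmax hN σ hσ j
      by_cases hj : j = m
      · subst hj
        refine ⟨minpoly ℚ_[ℓ] (V.ρ σ⁻¹), minpoly.ne_zero (Algebra.IsIntegral.isIntegral _),
          fun μ hμ => hF 𝔓 hmax hN σ hσ μ hμ, fun v hv => ?_⟩
        rw [minpoly.aeval, LinearMap.zero_apply]
        exact Submodule.zero_mem _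
      · refine ⟨1, one_ne_zero, fun μ hμ => ?_, fun v hv => ?_⟩
        · rw [map_one] at hμ
          exact absurd hμ one_ne_zero
        · rw [map_one, Module.End.one_apply]
          dsimp only at hv ⊢
          by_cases h1 : j < m
          · rw [if_pos h1] at hv
            rw [(Submodule.mem_bot _).mp hv]
            exact Submodule.zero_mem _
          · rw [if_neg (by omega)]
            exact Submodule.mem_top
    · dsimp only
      rw [if_neg (by omega)]
    · dsimp only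
      rw [if_pos (by omega)]
  · rintro ⟨⟨N₀, hN₀, hu⟩, N, W, hN0, ⟨hmono, ha, hb, hst, hF⟩, htop, hbot⟩
    refine ⟨N * N₀, Nat.mul_ne_zero hN0 hN₀, hu.congr_N (dvd_mul_left _ _), ?_⟩
    intro 𝔓 hmax hN σ hσ μ hμ
    have hN' : (N : Zb k) ∉ 𝔓 := natCast_notMem_of_dvd (dvd_mul_right _ _) hN
    obtain ⟨p, hp0, hpW, hp⟩ := hF 𝔓 hmax hN' σ hσ m
    refine hpW μ ?_
    have hdvd : minpoly ℚ_[ℓ] (V.ρ σ⁻¹) ∣ p := by
      apply minpoly.dvd
      apply LinearMap.ext
      intro v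
      have h1 := hp v (by rw [htop]; exact Submodule.mem_top)
      rw [hbot] at h1
      rw [(Submodule.mem_bot _).mp h1, LinearMap.zero_apply]
    obtain ⟨c, hc⟩ := hdvd
    rw [hc, map_mul, hμ, zero_mul]

end Pool.Agent.FRC
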