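import Mathlib
import Pool.Agent.FRC.MIX
import Pool.Agent.FRC.CLO1
import Pool.Agent.FRC.CLO2
import Pool.Agent.FRC.CLO3
import Pool.Agent.FRC.CLO4
import Pool.Agent.FRC.CLO5

open CategoryTheory CategoryTheory.Limits Polynomial TensorProduct NumberField

namespace Pool.Agent.FRC

open Pool.Agent.H12

variable (k : Type) [Field k] [NumberField k] (ℓ : ℕ) [Fact ℓ.Prime]

private theorem inC_of_injective {X Y : RepG k ℓ} (f : X →ₗ[ℚ_[ℓ]] Y)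
    (hf : ∀ g x, f (X.ρ g x) = Y.ρ g (f x)) (hi : Function.Injective f) (hY : InC k ℓ Y) :
    InC k ℓ X := by
  obtain ⟨h1, h2, ⟨N, hN0, hN⟩, h4, h5⟩ := hY
  haveI := h1
  have g1 : FiniteDimensional ℚ_[ℓ] X := FiniteDimensional.of_injective f hi
  have g3 : ∃ N : ℕ, N ≠ 0 ∧ UnramOutside X N := ⟨N, hN0, unram_of_injective f hf hi hN⟩
  refine ⟨g1, isCont_of_injective f hf hi h2, g3, ?_, ?_⟩
  · rw [isMixed_iff X g1 g3]
    obtain ⟨M, W, hM0, hW⟩ := (isMixed_iff Y h1 ⟨N, hN0, hN⟩).1 h4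
    exact ⟨M, _, hM0, mixedP_of_injective f hf hi hW⟩
  · rw [isPst_iff] at h5 ⊢
    intro ι
    obtain ⟨L, hL1, hL2, hL3⟩ := h5 ι
    exact ⟨L, hL1, hL2, pstAt_of_injective f hf hi (exists_induced hL2) hL3⟩

private theorem inC_of_surjective {X Y : RepG k ℓ} (f : X →ₗ[ℚ_[ℓ]] Y)
    (hf : ∀ g x, f (X.ρ g x) = Y.ρ g (f x)) (hs : Function.Surjective f) (hX : InC k ℓ X) :
    InC k ℓ Y := by
  obtain ⟨h1, h2, ⟨N, hN0, hN⟩, h4, h5⟩ := hX
  haveI := h1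
  have g1 : FiniteDimensional ℚ_[ℓ] Y := Module.Finite.of_surjective f hs
  have g3 : ∃ N : ℕ, N ≠ 0 ∧ UnramOutside Y N := ⟨N, hN0, unram_of_surjective f hf hs hN⟩
  refine ⟨g1, isCont_of_surjective f hf hs h2, g3, ?_, ?_⟩
  · rw [isMixed_iff Y g1 g3]
    obtain ⟨M, W, hM0, hW⟩ := (isMixed_iff X h1 ⟨N, hN0, hN⟩).1 h4
    exact ⟨M, _, hM0, mixedP_of_surjective f hf hs hW⟩
  · rw [isPst_iff] at h5 ⊢
    intro ι
    obtain ⟨L, hL1, hL2, hL3⟩ := h5 ι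
    exact ⟨L, hL1, hL2, pstAt_of_surjective f hf hs hL3⟩

private theorem inC_prod_two {X Y : RepG k ℓ} (hX : InC k ℓ X) (hY : InC k ℓ Y) :
    InC k ℓ (Rep.of (X.ρ.prod Y.ρ) : RepG k ℓ) := by
  obtain ⟨h1, h2, ⟨N, hN0, hN⟩, h4, h5⟩ := hX
  obtain ⟨h1', h2', ⟨N', hN0', hN'⟩, h4', h5'⟩ := hY
  haveI := h1
  haveI := h1'
  have g1 : FiniteDimensional ℚ_[ℓ] (Rep.of (X.ρ.prod Y.ρ) : RepG k ℓ) := by
    change FiniteDimensional ℚ_[ℓ] (X × Y)
    infer_instance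
  have g3 : ∃ N : ℕ, N ≠ 0 ∧ UnramOutside (Rep.of (X.ρ.prod Y.ρ) : RepG k ℓ) N :=
    ⟨N * N', mul_ne_zero hN0 hN0',
      unram_prod (hN.congr_N (Dvd.intro _ rfl)) (hN'.congr_N (Dvd.intro_left _ rfl))⟩
  refine ⟨g1, isCont_prod h2 h2', g3, ?_, ?_⟩
  · rw [isMixed_iff _ g1 g3]
    obtain ⟨M, W, hM0, hW⟩ := (isMixed_iff X h1 ⟨N, hN0, hN⟩).1 h4
    obtain ⟨M', W', hM0', hW'⟩ := (isMixed_iff Y h1' ⟨N', hN0', hN'⟩).1 h4'
    exact ⟨M * M', _, mul_ne_zero hM0 hM0',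
      mixedP_prod (hW.congr_N (Dvd.intro _ rfl)) (hW'.congr_N (Dvd.intro_left _ rfl))⟩
  · rw [isPst_iff] at h5 h5' ⊢
    intro ι
    obtain ⟨L, hL1, hL2, hL3⟩ := h5 ι
    obtain ⟨L', hL1', hL2', hL3'⟩ := h5' ι
    haveI := hL1
    haveI := hL1'
    refine ⟨L ⊔ L', ?_, fun x => ?_, ?_⟩
    · exact IntermediateField.finiteDimensional_sup L L'
    · exact (le_sup_left : L ≤ L ⊔ L') (hL2 x)
    · exact pstAt_prod (pstAt_mono le_sup_left hL3) (pstAt_mono le_sup_right hL3')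

private theorem inC_of_jointly_mono {X Y Z : RepG k ℓ} (f1 : X ⟶ Y) (f2 : X ⟶ Z)
    (hm : ∀ {T : RepG k ℓ} (g h : T ⟶ X), g ≫ f1 = h ≫ f1 → g ≫ f2 = h ≫ f2 → g = h)
    (hY : InC k ℓ Y) (hZ : InC k ℓ Z) : InC k ℓ X := by
  let F : X →ₗ[ℚ_[ℓ]] (Rep.of (Y.ρ.prod Z.ρ) : RepG k ℓ) :=
    f1.hom.toLinearMap.prod f2.hom.toLinearMap
  have hF : ∀ g x, F (X.ρ g x) = (Rep.of (Y.ρ.prod Z.ρ) : RepG k ℓ).ρ g (F x) := by
    intro g x
    exact Prod.ext (Rep.hom_comm_apply f1 g x) (Rep.hom_comm_apply f2 g x)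
  refine inC_of_injective k ℓ F hF ?_ (inC_prod_two k ℓ hY hZ)
  let f : X ⟶ (Rep.of (Y.ρ.prod Z.ρ) : RepG k ℓ) :=
    Rep.ofHom (F.intertwiningMap_of_isIntertwiningMap X.ρ (Y.ρ.prod Z.ρ) hF)
  let p1 : (Rep.of (Y.ρ.prod Z.ρ) : RepG k ℓ) ⟶ Y :=
    Rep.ofHom ((LinearMap.fst ℚ_[ℓ] Y Z).intertwiningMap_of_isIntertwiningMap
      (Y.ρ.prod Z.ρ) Y.ρ (fun _ _ => rfl))
  let p2 : (Rep.of (Y.ρ.prod Z.ρ) : RepG k ℓ) ⟶ Z :=
    Rep.ofHom ((LinearMap.snd ℚ_[ℓ] Y Z).intertwiningMap_of_isIntertwiningMap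
      (Y.ρ.prod Z.ρ) Z.ρ (fun _ _ => rfl))
  have e1 : f ≫ p1 = f1 := by
    refine Rep.hom_ext (Representation.IntertwiningMap.ext ?_)
    rfl
  have e2 : f ≫ p2 = f2 := by
    refine Rep.hom_ext (Representation.IntertwiningMap.ext ?_)
    rfl
  haveI : Mono f := by
    refine ⟨fun g h hgh => hm g h ?_ ?_⟩
    · rw [← e1, ← Category.assoc, ← Category.assoc, hgh]
    · rw [← e2, ← Category.assoc, ← Category.assoc, hgh]
  exact (Rep.mono_iff_injective f).1 inferInstance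

variable {k ℓ} in
private theorem abe_exists_L (ι : AlgebraicClosure k →+* PadicAlgCl ℓ) :
    ∃ L : IntermediateField ℚ_[ℓ] (PadicAlgCl ℓ), FiniteDimensional ℚ_[ℓ] L ∧
      (∀ x : k, ι (algebraMap k (AlgebraicClosure k) x) ∈ L) := by
  obtain ⟨θ, hθ⟩ := Field.exists_primitive_element ℚ k
  refine ⟨IntermediateField.adjoin ℚ_[ℓ] {ι (algebraMap k _ θ)},
    IntermediateField.adjoin.finiteDimensional (Algebra.IsIntegral.isIntegral _), ?_⟩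
  intro x
  have hx : x ∈ IntermediateField.adjoin ℚ {θ} := by rw [hθ]; trivial
  let f : k →+* PadicAlgCl ℓ := ι.comp (algebraMap k _)
  have h2 : ∀ y ∈ IntermediateField.adjoin ℚ {θ},
      f y ∈ IntermediateField.adjoin ℚ_[ℓ] {ι (algebraMap k _ θ)} := by
    intro y hy
    induction hy using IntermediateField.adjoin_induction with
    | mem y hy =>
      rw [Set.mem_singleton_iff.mp hy]
      exact IntermediateField.mem_adjoin_simple_self _ _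
    | algebraMap y =>
      have : f (algebraMap ℚ k y) = algebraMap ℚ_[ℓ] (PadicAlgCl ℓ) (y : ℚ_[ℓ]) := by
        simp
      rw [this]
      exact IntermediateField.algebraMap_mem _ _
    | add y z _ _ hy hz => rw [map_add]; exact add_mem hy hz
    | inv y _ hy => rw [map_inv₀]; exact inv_mem hy
    | mul y z _ _ hy hz => rw [map_mul]; exact mul_mem hy hz
  exact h2 x hx

private theorem abe_semistable (L : IntermediateField ℚ_[ℓ] (PadicAlgCl ℓ)) :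
    IsSemistable L (Rep.trivial ℚ_[ℓ] L.fixingSubgroup ℚ_[ℓ] : Rep.{0} ℚ_[ℓ] L.fixingSubgroup) := by
  refine ⟨inferInstanceAs (FiniteDimensional ℚ_[ℓ] ℚ_[ℓ]), fun v f =>
    (continuous_const : Continuous fun _ : L.fixingSubgroup => f v), ?_⟩
  let v : Module.Basis (Fin (Module.finrank ℚ_[ℓ] ℚ_[ℓ])) ℚ_[ℓ] ℚ_[ℓ] := Module.finBasis _ _
  refine ⟨v.baseChange (Bst ℓ), fun σ i => ?_⟩
  have hv : v.baseChange (Bst ℓ) i = (1 : Bst ℓ) ⊗ₜ[ℚ_[ℓ]] v i :=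
    Module.Basis.baseChange_apply _ _ _
  change TensorProduct.map (actBst (σ : GalP ℓ)).toLinearMap (LinearMap.id : ℚ_[ℓ] →ₗ[ℚ_[ℓ]] ℚ_[ℓ])
    (v.baseChange (Bst ℓ) i) = v.baseChange (Bst ℓ) i
  rw [hv, TensorProduct.map_tmul]
  congr 1
  exact map_one (actBst (σ : GalP ℓ))

private theorem abe_zero_inC : InC k ℓ (Rep.trivial ℚ_[ℓ] (GG k) PUnit : RepG k ℓ) := by
  haveI hsub : Subsingleton (Rep.trivial ℚ_[ℓ] (GG k) PUnit : RepG k ℓ) :=
    inferInstanceAs (Subsingleton PUnit)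
  have g1 : FiniteDimensional ℚ_[ℓ] (Rep.trivial ℚ_[ℓ] (GG k) PUnit : RepG k ℓ) :=
    inferInstanceAs (FiniteDimensional ℚ_[ℓ] PUnit)
  have g3 : ∃ N : ℕ, N ≠ 0 ∧ UnramOutside (Rep.trivial ℚ_[ℓ] (GG k) PUnit : RepG k ℓ) N :=
    ⟨1, one_ne_zero, fun _ _ _ _ _ _ => Subsingleton.elim _ _⟩
  refine ⟨g1, ?_, g3, ?_, ?_⟩
  · exact fun v f => (continuous_const : Continuous fun _ : GG k => f v)
  · rw [isMixed_iff _ g1 g3]
    refine ⟨1, fun _ => ⊥, one_ne_zero, fun _ _ _ => le_rfl, ⟨0, rfl⟩, ⟨0, Subsingleton.elim _ _⟩,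
      fun _ _ _ _ => (Submodule.mem_bot _).2 (Subsingleton.elim _ _), ?_⟩
    intro 𝔓 _ _ σ _ m
    refine ⟨1, one_ne_zero, ?_, fun v _ => (Submodule.mem_bot _).2 (Subsingleton.elim _ _)⟩
    intro μ hμ
    rw [map_one] at hμ
    exact absurd hμ one_ne_zero
  · intro ι
    obtain ⟨L, hL1, hL2⟩ := abe_exists_L ι
    refine ⟨L, hL1, hL2, Rep.trivial ℚ_[ℓ] L.fixingSubgroup ℚ_[ℓ], abe_semistable ℓ L, ⊤, 0,
      fun y => ⟨0, Subsingleton.elim _ _⟩, fun σ a _ => trivial, ?_⟩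
    intro σ g _ a b hab
    exact Subsingleton.elim _ _

instance inC_sub : (InC k ℓ).IsClosedUnderSubobjects := by
  refine ⟨fun {X Y} f _ hY => ?_⟩
  exact inC_of_injective k ℓ f.hom.toLinearMap (fun g x => Rep.hom_comm_apply f g x)
    ((Rep.mono_iff_injective f).1 inferInstance) hY

instance inC_quot : (InC k ℓ).IsClosedUnderQuotients := by
  refine ⟨fun {X Y} f _ hX => ?_⟩
  exact inC_of_surjective k ℓ f.hom.toLinearMap (fun g x => Rep.hom_comm_apply f g x)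
    ((Rep.epi_iff_surjective f).1 inferInstance) hX

instance inC_zero : (InC k ℓ).ContainsZero := by
  refine ⟨(Rep.trivial ℚ_[ℓ] (GG k) PUnit : RepG k ℓ), (Rep.isZero_iff _ _ _).2
    (inferInstanceAs (Subsingleton PUnit)), ?_⟩
  exact abe_zero_inC k ℓ

instance inC_prod : (InC k ℓ).IsClosedUnderFiniteProducts := by
  haveI : (InC k ℓ).IsClosedUnderBinaryProducts := by
    refine ⟨?_⟩
    rintro X ⟨p⟩
    have hX := p.prop_diag_obj ⟨WalkingPair.left⟩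
    have hY := p.prop_diag_obj ⟨WalkingPair.right⟩
    have hXY := inC_prod_two k ℓ hX hY
    let f1 : X ⟶ p.diag.obj ⟨WalkingPair.left⟩ := p.π.app ⟨WalkingPair.left⟩
    let f2 : X ⟶ p.diag.obj ⟨WalkingPair.right⟩ := p.π.app ⟨WalkingPair.right⟩
    exact inC_of_jointly_mono k ℓ f1 f2 (fun {Z} g h h1 h2 =>
      p.isLimit.hom_ext (fun j => by
        obtain ⟨j⟩ := j
        cases j
        · exact h1
        · exact h2)) hX hY
  exact ObjectProperty.IsClosedUnderFiniteProducts.mk'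

/-- The category `C_{k,ℓ}`: the full subcategory of `RepG k ℓ` on the objects of `InC k ℓ`. -/
abbrev MixCat : Type 1 := (InC k ℓ).FullSubcategory


instance instHasExtMixCat : HasExt.{1} (MixCat k ℓ) := HasExt.standard _

end Pool.Agent.FRC
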