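import Mathlib
import Pool.Agent.FRC.ABE

open CategoryTheory CategoryTheory.Limits Polynomial TensorProduct NumberField

namespace Pool.Agent.FRC

open Pool.Agent.H12

variable {k : Type} [Field k] [NumberField k] {ℓ : ℕ} [Fact ℓ.Prime]

theorem mono_iff {X Y : MixCat k ℓ} (f : X ⟶ Y) : Mono f ↔ Function.Injective f.hom.hom := by
  have hpm : (InC k ℓ).ι.PreservesMonomorphisms :=
    (InC k ℓ).preservesMonomorphisms_ι_of_isNormalEpiCategory
  constructor
  · intro h
    have h1 : Mono ((InC k ℓ).ι.map f) := inferInstance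
    exact (Rep.mono_iff_injective ((InC k ℓ).ι.map f)).1 h1
  · intro h
    have h1 : Mono ((InC k ℓ).ι.map f) := (Rep.mono_iff_injective ((InC k ℓ).ι.map f)).2 h
    exact (InC k ℓ).ι.mono_of_mono_map h1

theorem epi_iff {X Y : MixCat k ℓ} (f : X ⟶ Y) : Epi f ↔ Function.Surjective f.hom.hom := by
  have hpm : (InC k ℓ).ι.PreservesEpimorphisms :=
    (InC k ℓ).preservesEpimorphisms_ι_of_isNormalMonoCategory
  constructor
  · intro h
    have h1 : Epi ((InC k ℓ).ι.map f) := inferInstance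
    exact (Rep.epi_iff_surjective ((InC k ℓ).ι.map f)).1 h1
  · intro h
    have h1 : Epi ((InC k ℓ).ι.map f) := (Rep.epi_iff_surjective ((InC k ℓ).ι.map f)).2 h
    exact (InC k ℓ).ι.epi_of_epi_map h1

private theorem ses_exact_iota (S : ShortComplex (MixCat k ℓ)) :
    S.Exact ↔ (S.map (InC k ℓ).ι).Exact := by
  have hk : ∀ ⦃X Y : MixCat k ℓ⦄ (f : X ⟶ Y), PreservesLimit (parallelPair f 0) (InC k ℓ).ι :=
    (InC k ℓ).preservesKernels_ι
  have hc : ∀ ⦃X Y : MixCat k ℓ⦄ (f : X ⟶ Y), PreservesColimit (parallelPair f 0) (InC k ℓ).ι :=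
    (InC k ℓ).preservesCokernels_ι
  have hh : (InC k ℓ).ι.PreservesHomology :=
    { preservesKernels := fun _ _ f => hk f
      preservesCokernels := fun _ _ f => hc f }
  exact (S.exact_map_iff_of_faithful (InC k ℓ).ι).symm

private theorem ses_rep_exact (S : ShortComplex (RepG k ℓ)) :
    S.Exact ↔ ∀ y : S.X₂, S.g.hom y = 0 → ∃ x : S.X₁, S.f.hom x = y := by
  rw [← S.exact_map_iff_of_faithful (forget₂ (RepG k ℓ) (ModuleCat.{0} ℚ_[ℓ])),
    ShortComplex.moduleCat_exact_iff]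
  exact Iff.rfl

theorem exact_iff (S : ShortComplex (MixCat k ℓ)) : S.Exact ↔
    ∀ y : S.X₂.obj, S.g.hom.hom y = 0 → ∃ x : S.X₁.obj, S.f.hom.hom x = y := by
  rw [ses_exact_iota, ses_rep_exact]
  exact Iff.rfl

theorem shortExact_iff (S : ShortComplex (MixCat k ℓ)) : S.ShortExact ↔
    Function.Injective S.f.hom.hom ∧ Function.Surjective S.g.hom.hom ∧
    ∀ y : S.X₂.obj, S.g.hom.hom y = 0 → ∃ x : S.X₁.obj, S.f.hom.hom x = y := by
  constructor
  · intro h
    exact ⟨(mono_iff S.f).1 h.mono_f, (epi_iff S.g).1 h.epi_g, (exact_iff S).1 h.exact⟩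
  · rintro ⟨h1, h2, h3⟩
    have := (mono_iff S.f).2 h1
    have := (epi_iff S.g).2 h2
    exact { exact := (exact_iff S).2 h3 }

/-- The dimension is additive. -/
theorem finrank_shortExact (S : ShortComplex (MixCat k ℓ)) (hS : S.ShortExact) :
    Module.finrank ℚ_[ℓ] S.X₂.obj = Module.finrank ℚ_[ℓ] S.X₁.obj +
      Module.finrank ℚ_[ℓ] S.X₃.obj := by
  obtain ⟨h1, h2, h3⟩ := (shortExact_iff S).1 hS
  have hfd : FiniteDimensional ℚ_[ℓ] S.X₂.obj := S.X₂.property.1
  have hz : ∀ x : S.X₁.obj, S.g.hom.hom (S.f.hom.hom x) = 0 := by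
    intro x
    have := congrArg (fun t => t.hom.hom x) S.zero
    exact this
  have hker : LinearMap.ker S.g.hom.hom.toLinearMap = LinearMap.range S.f.hom.hom.toLinearMap := by
    ext y
    constructor
    · intro hy
      obtain ⟨x, hx⟩ := h3 y hy
      exact ⟨x, hx⟩
    · rintro ⟨x, rfl⟩
      exact hz x
  have e1 := LinearMap.finrank_range_add_finrank_ker S.g.hom.hom.toLinearMap
  have e2 : Module.finrank ℚ_[ℓ] (LinearMap.range S.f.hom.hom.toLinearMap) =
      Module.finrank ℚ_[ℓ] S.X₁.obj :=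
    LinearMap.finrank_range_of_inj h1
  have e3 : Module.finrank ℚ_[ℓ] (LinearMap.range S.g.hom.hom.toLinearMap) =
      Module.finrank ℚ_[ℓ] S.X₃.obj := by
    rw [LinearMap.range_eq_top.2 h2, finrank_top]
  rw [hker, e2, e3] at e1
  omega

theorem isZero_iff_finrank (X : MixCat k ℓ) : IsZero X ↔ Module.finrank ℚ_[ℓ] X.obj = 0 := by
  have hfd : FiniteDimensional ℚ_[ℓ] X.obj := X.property.1
  rw [Module.finrank_zero_iff]
  constructor
  · intro h
    have h1 : IsZero X.obj := by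
      have := (InC k ℓ).ι.map_isZero h
      exact this
    exact (Rep.isZero_iff _ _ X.obj).1 h1
  · intro h
    have h1 : IsZero ((InC k ℓ).ι.obj X) := (Rep.isZero_iff _ _ X.obj).2 h
    rw [IsZero.iff_id_eq_zero] at h1 ⊢
    apply (InC k ℓ).ι.map_injective
    rw [(InC k ℓ).ι.map_id, (InC k ℓ).ι.map_zero]
    exact h1

end Pool.Agent.FRC
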