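import Mathlib
import Pool.Agent.FRC.Base

open CategoryTheory Polynomial NumberField

namespace Pool.Agent.FRC

open Pool.Agent.H12

variable {ℓ : ℕ} [Fact ℓ.Prime]

private theorem weil_minpoly_coe (x : algebraicClosure ℚ (AlgebraicClosure ℚ_[ℓ])) :
    minpoly ℚ (x : AlgebraicClosure ℚ_[ℓ]) = minpoly ℚ x :=
  minpoly.algebraMap_eq (B := algebraicClosure ℚ (AlgebraicClosure ℚ_[ℓ]))
    (B' := AlgebraicClosure ℚ_[ℓ]) Subtype.val_injective x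

private theorem weil_isAlgebraic :
    Algebra.IsAlgebraic ℚ (algebraicClosure ℚ (AlgebraicClosure ℚ_[ℓ])) := by
  constructor
  intro x
  obtain ⟨p, hp0, hp⟩ := mem_algebraicClosure_iff.1 x.2
  refine ⟨p, hp0, Subtype.ext ?_⟩
  have h1 := Polynomial.aeval_algHom_apply
    ((algebraicClosure ℚ (AlgebraicClosure ℚ_[ℓ])).val.toRingHom.toRatAlgHom) x p
  exact h1.symm.trans hp

/-- Weil numbers through the embeddings into `ℂ` of the field of algebraic elements: every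
conjugate of `μ` is the image of `μ` under such an embedding. -/
theorem isWeil_iff (q : ℕ) (m : ℤ) (μ : AlgebraicClosure ℚ_[ℓ]) : IsWeil q m μ ↔
    ∃ x : algebraicClosure ℚ (AlgebraicClosure ℚ_[ℓ]), (x : AlgebraicClosure ℚ_[ℓ]) = μ ∧
      ∀ φ : algebraicClosure ℚ (AlgebraicClosure ℚ_[ℓ]) →+* ℂ,
        ‖φ x‖ = (q : ℝ) ^ ((m : ℝ) / 2) := by
  constructor
  · rintro ⟨h1, h2⟩
    refine ⟨⟨μ, mem_algebraicClosure_iff.2 h1⟩, rfl, fun φ => h2 _ ?_⟩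
    set x : algebraicClosure ℚ (AlgebraicClosure ℚ_[ℓ]) := ⟨μ, mem_algebraicClosure_iff.2 h1⟩
      with hx
    have h3 : minpoly ℚ μ = minpoly ℚ x := weil_minpoly_coe x
    rw [h3]
    have h4 := Polynomial.aeval_algHom_apply (φ.toRatAlgHom) x (minpoly ℚ x)
    rw [minpoly.aeval, map_zero] at h4
    exact h4
  · rintro ⟨x, rfl, h⟩
    refine ⟨mem_algebraicClosure_iff.1 x.2, fun z hz => ?_⟩
    rw [weil_minpoly_coe] at hz
    have halg := weil_isAlgebraic (ℓ := ℓ)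
    have h1 := Algebra.IsAlgebraic.range_eval_eq_rootSet_minpoly (F := ℚ) (A := ℂ) x
    have h2 : z ∈ (minpoly ℚ x).rootSet ℂ := by
      rw [Polynomial.mem_rootSet]
      exact ⟨minpoly.ne_zero (Algebra.IsIntegral.isIntegral x), hz⟩
    rw [← h1] at h2
    obtain ⟨ψ, hψ⟩ := h2
    have h3 := h ψ.toRingHom
    rw [← hψ]
    exact h3

theorem isWeil_pow {q : ℕ} {m : ℤ} {μ : AlgebraicClosure ℚ_[ℓ]} (h : IsWeil q m μ) (f : ℕ) :
    IsWeil (q ^ f) m (μ ^ f) := by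
  rw [isWeil_iff] at h ⊢
  obtain ⟨x, rfl, hx⟩ := h
  refine ⟨x ^ f, by push_cast; rfl, fun φ => ?_⟩
  rw [map_pow, norm_pow, hx φ, Nat.cast_pow, ← Real.rpow_natCast ((q : ℝ) ^ ((m : ℝ) / 2)),
    ← Real.rpow_natCast (q : ℝ), ← Real.rpow_mul (Nat.cast_nonneg q),
    ← Real.rpow_mul (Nat.cast_nonneg q), mul_comm]

theorem isWeil_of_pow {q : ℕ} {m : ℤ} {μ : AlgebraicClosure ℚ_[ℓ]} {f : ℕ} (hf : f ≠ 0)
    (h : IsWeil (q ^ f) m (μ ^ f)) : IsWeil q m μ := by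
  have h0 : IsAlgebraic ℚ μ := IsAlgebraic.of_pow (Nat.pos_of_ne_zero hf) h.1
  rw [isWeil_iff] at h ⊢
  obtain ⟨y, hy, hx⟩ := h
  refine ⟨⟨μ, mem_algebraicClosure_iff.2 h0⟩, rfl, fun φ => ?_⟩
  set x : algebraicClosure ℚ (AlgebraicClosure ℚ_[ℓ]) := ⟨μ, mem_algebraicClosure_iff.2 h0⟩
    with hxd
  have h1 : y = x ^ f := by
    apply Subtype.ext
    rw [hy]
    rfl
  have h2 := hx φ
  rw [h1, map_pow, norm_pow, Nat.cast_pow] at h2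
  have h3 : (((q : ℝ) ^ f) ^ ((m : ℝ) / 2)) = ((q : ℝ) ^ ((m : ℝ) / 2)) ^ f := by
    rw [← Real.rpow_natCast ((q : ℝ) ^ ((m : ℝ) / 2)),
      ← Real.rpow_natCast (q : ℝ), ← Real.rpow_mul (Nat.cast_nonneg q),
      ← Real.rpow_mul (Nat.cast_nonneg q), mul_comm]
  rw [h3] at h2
  exact (pow_left_inj₀ (norm_nonneg _) (by positivity) hf).1 h2

theorem isWeil_mul {q : ℕ} (hq : q ≠ 0) {a b : ℤ} {μ ν : AlgebraicClosure ℚ_[ℓ]}
    (h : IsWeil q a μ) (h' : IsWeil q b ν) : IsWeil q (a + b) (μ * ν) := by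
  rw [isWeil_iff] at h h' ⊢
  obtain ⟨x, rfl, hx⟩ := h
  obtain ⟨y, rfl, hy⟩ := h'
  refine ⟨x * y, by push_cast; rfl, fun φ => ?_⟩
  have hq' : (0 : ℝ) < q := Nat.cast_pos.2 (Nat.pos_of_ne_zero hq)
  rw [map_mul, norm_mul, hx φ, hy φ, ← Real.rpow_add hq']
  push_cast
  congr 1
  ring

theorem isWeil_inv {q : ℕ} (hq : q ≠ 0) {a : ℤ} {μ : AlgebraicClosure ℚ_[ℓ]}
    (h : IsWeil q a μ) : IsWeil q (-a) μ⁻¹ := by
  rw [isWeil_iff] at h ⊢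
  obtain ⟨x, rfl, hx⟩ := h
  refine ⟨x⁻¹, by push_cast; rfl, fun φ => ?_⟩
  have hq' : (0 : ℝ) < q := Nat.cast_pos.2 (Nat.pos_of_ne_zero hq)
  rw [map_inv₀, norm_inv, hx φ, ← Real.rpow_neg hq'.le]
  push_cast
  congr 1
  ring

theorem isWeil_ne_zero {q : ℕ} (hq : q ≠ 0) {a : ℤ} {μ : AlgebraicClosure ℚ_[ℓ]}
    (h : IsWeil q a μ) : μ ≠ 0 := by
  rintro rfl
  have h1 := h.2 0 (by rw [minpoly.zero]; simp)
  have hq' : (0 : ℝ) < q := Nat.cast_pos.2 (Nat.pos_of_ne_zero hq)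
  have h2 : (0 : ℝ) < (q : ℝ) ^ ((a : ℝ) / 2) := Real.rpow_pos_of_pos hq' _
  rw [norm_zero] at h1
  exact h2.ne h1

theorem isWeil_unique {q : ℕ} (hq : 1 < q) {a b : ℤ} {μ : AlgebraicClosure ℚ_[ℓ]}
    (h : IsWeil q a μ) (h' : IsWeil q b μ) : a = b := by
  have hint : IsIntegral ℚ μ := isAlgebraic_iff_isIntegral.1 h.1
  obtain ⟨z, hz⟩ := IsAlgClosed.exists_aeval_eq_zero ℂ (minpoly ℚ μ)
    (minpoly.degree_pos hint).ne'
  have h1 := h.2 z hz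
  have h2 := h'.2 z hz
  have hq' : (1 : ℝ) < q := Nat.one_lt_cast.2 hq
  have h3 : (q : ℝ) ^ ((a : ℝ) / 2) = (q : ℝ) ^ ((b : ℝ) / 2) := by rw [← h1, ← h2]
  have h4 : (a : ℝ) / 2 = (b : ℝ) / 2 :=
    le_antisymm ((Real.rpow_le_rpow_left_iff hq').1 h3.le)
      ((Real.rpow_le_rpow_left_iff hq').1 h3.ge)
  have h5 : (a : ℝ) = b := by linarith
  exact_mod_cast h5

theorem isWeil_one (q : ℕ) : IsWeil q 0 (1 : AlgebraicClosure ℚ_[ℓ]) := by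
  refine ⟨isAlgebraic_one, fun z hz => ?_⟩
  rw [minpoly.one] at hz
  simp only [map_sub, aeval_X, map_one, sub_eq_zero] at hz
  rw [hz]
  simp

end Pool.Agent.FRC
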