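import Mathlib
import Pool.Agent.FRC.ABE
import Pool.Agent.FRC.WEI

open CategoryTheory CategoryTheory.Limits Polynomial TensorProduct NumberField

namespace Pool.Agent.FRC

open Pool.Agent.H12

variable (k : Type) [Field k] [NumberField k] (ℓ : ℕ) [Fact ℓ.Prime]

/-- The trivial representation `ℚ_ℓ`. -/
noncomputable def unitRep : RepG k ℓ := Rep.trivial ℚ_[ℓ] (GG k) ℚ_[ℓ]

variable {k ℓ} in
private theorem uni_exists_L (ι : AlgebraicClosure k →+* PadicAlgCl ℓ) :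
    ∃ L : IntermediateField ℚ_[ℓ] (PadicAlgCl ℓ), FiniteDimensional ℚ_[ℓ] L ∧
      (∀ x : k, ι (algebraMap k (AlgebraicClosure k) x) ∈ L) := by
  obtain ⟨θ, hθ⟩ := Field.exists_primitive_element ℚ k
  refine ⟨IntermediateField.adjoin ℚ_[ℓ] {ι (algebraMap k _ θ)},
    IntermediateField.adjoin.finiteDimensional (Algebra.IsIntegral.isIntegral _), ?_⟩
  intro x
  have hx : x ∈ IntermediateField.adjoin ℚ {θ} := by rw [hθ]; trivial
  let f : k →+* PadicAlgCl ℓ := ι.comp (algebraMap k _)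
  have h2 : ∀ y ∈ IntermediateField.adjoin ℚ {θ},
      f y ∈ IntermediateField.adjoin ℚ_[ℓ] {ι (algebraMap k _ θ)} := by
    intro y hy
    induction hy using IntermediateField.adjoin_induction with
    | mem y hy =>
      rw [Set.mem_singleton_iff.mp hy]
      exact IntermediateField.mem_adjoin_simple_self _ _
    | algebraMap y =>
      have : f (algebraMap ℚ k y) = algebraMap ℚ_[ℓ] (PadicAlgCl ℓ) (y : ℚ_[ℓ]) := by
        simp
      rw [this]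
      exact IntermediateField.algebraMap_mem _ _
    | add y z _ _ hy hz => rw [map_add]; exact add_mem hy hz
    | inv y _ hy => rw [map_inv₀]; exact inv_mem hy
    | mul y z _ _ hy hz => rw [map_mul]; exact mul_mem hy hz
  exact h2 x hx

private theorem uni_unram (N : ℕ) : UnramOutside (unitRep k ℓ) N :=
  fun _ _ _ _ _ _ => rfl

theorem unitRep_isPure : IsPure (unitRep k ℓ) 0 := by
  refine ⟨1, one_ne_zero, uni_unram k ℓ 1, ?_⟩
  intro 𝔓 _ _ σ _ μ hμ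
  have h1 : minpoly ℚ_[ℓ] ((unitRep k ℓ).ρ σ⁻¹) ∣ (X - C 1 : ℚ_[ℓ][X]) := by
    apply minpoly.dvd
    rw [map_sub, aeval_X, aeval_C, map_one]
    exact sub_self _
  obtain ⟨r, hr⟩ := h1
  have h2 : μ = 1 := by
    have : aeval μ (X - C 1 : ℚ_[ℓ][X]) = 0 := by rw [hr, map_mul, hμ, zero_mul]
    rw [map_sub, aeval_X, aeval_C, map_one] at this
    exact sub_eq_zero.mp this
  rw [h2]
  exact isWeil_one _

private theorem uni_zero_pure (m : ℤ) :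
    IsPure (Rep.trivial ℚ_[ℓ] (GG k) PUnit : RepG k ℓ) m := by
  refine ⟨1, one_ne_zero, fun _ _ _ _ _ _ => rfl, ?_⟩
  intro 𝔓 _ _ σ _ μ hμ
  exfalso
  have h1 : minpoly ℚ_[ℓ] ((Rep.trivial ℚ_[ℓ] (GG k) PUnit : RepG k ℓ).ρ σ⁻¹) ∣ (1 : ℚ_[ℓ][X]) := by
    apply minpoly.dvd
    rw [map_one]
    apply LinearMap.ext
    intro x
    rfl
  obtain ⟨r, hr⟩ := h1
  have : aeval μ (1 : ℚ_[ℓ][X]) = 0 := by rw [hr, map_mul, hμ, zero_mul]
  rw [map_one] at this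
  exact one_ne_zero this

private theorem uni_zero_gr (V : RepG k ℓ) (A B : Submodule ℚ_[ℓ] V) (h : A ≤ B) :
    IsGr V A B (Rep.trivial ℚ_[ℓ] (GG k) PUnit : RepG k ℓ) :=
  ⟨0, fun _ => ⟨0, zero_mem _, rfl⟩, fun _ hv => ⟨fun _ => h hv, fun _ => rfl⟩,
    fun _ _ _ => rfl⟩

private theorem uni_mixed : IsMixed (unitRep k ℓ) := by
  obtain ⟨W, hW1, hW2⟩ : ∃ W : ℤ → Submodule ℚ_[ℓ] (unitRep k ℓ), (∀ m, m < 0 → W m = ⊥) ∧
      (∀ m, 0 ≤ m → W m = ⊤) :=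
    ⟨fun m => if m < 0 then ⊥ else ⊤, fun m hm => if_pos hm, fun m hm => if_neg (by omega)⟩
  refine ⟨W, ?_, ⟨-1, hW1 _ (by omega)⟩, ⟨0, hW2 _ le_rfl⟩, ?_, ?_⟩
  · intro m n hmn
    rcases lt_or_ge m 0 with h | h
    · rw [hW1 m h]; exact bot_le
    · rw [hW2 n (by omega)]; exact le_top
  · intro m g v hv
    exact hv
  · intro m
    rcases lt_trichotomy m 0 with hm | hm | hm
    · refine ⟨_, uni_zero_pure k ℓ m, uni_zero_gr k ℓ _ _ _ ?_⟩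
      rw [hW1 m hm]; exact bot_le
    · subst hm
      refine ⟨unitRep k ℓ, unitRep_isPure k ℓ, LinearMap.id,
        fun y => ⟨y, by rw [hW2 0 le_rfl]; trivial, rfl⟩, ?_, fun _ _ _ => rfl⟩
      intro v _
      rw [hW1 (0 - 1) (by omega), Submodule.mem_bot]
      rfl
    · refine ⟨_, uni_zero_pure k ℓ m, uni_zero_gr k ℓ _ _ _ ?_⟩
      rw [hW2 (m - 1) (by omega)]; exact le_top

private theorem uni_semistable (L : IntermediateField ℚ_[ℓ] (PadicAlgCl ℓ)) :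
    IsSemistable L (Rep.trivial ℚ_[ℓ] L.fixingSubgroup ℚ_[ℓ] : Rep.{0} ℚ_[ℓ] L.fixingSubgroup) := by
  refine ⟨inferInstanceAs (FiniteDimensional ℚ_[ℓ] ℚ_[ℓ]), fun v f =>
    (continuous_const : Continuous fun _ : L.fixingSubgroup => f v), ?_⟩
  let v : Module.Basis (Fin (Module.finrank ℚ_[ℓ] ℚ_[ℓ])) ℚ_[ℓ] ℚ_[ℓ] := Module.finBasis _ _
  refine ⟨v.baseChange (Bst ℓ), fun σ i => ?_⟩
  have hv : v.baseChange (Bst ℓ) i = (1 : Bst ℓ) ⊗ₜ[ℚ_[ℓ]] v i :=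
    Module.Basis.baseChange_apply _ _ _
  change TensorProduct.map (actBst (σ : GalP ℓ)).toLinearMap (LinearMap.id : ℚ_[ℓ] →ₗ[ℚ_[ℓ]] ℚ_[ℓ])
    (v.baseChange (Bst ℓ) i) = v.baseChange (Bst ℓ) i
  rw [hv, TensorProduct.map_tmul]
  congr 1
  exact map_one (actBst (σ : GalP ℓ))

private theorem uni_pst : IsPst (unitRep k ℓ) := by
  intro ι
  obtain ⟨L, hL1, hL2⟩ := uni_exists_L ι
  refine ⟨L, hL1, hL2, Rep.trivial ℚ_[ℓ] L.fixingSubgroup ℚ_[ℓ], uni_semistable ℓ L, ⊤,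
    (Submodule.subtype ⊤ : (⊤ : Submodule ℚ_[ℓ] ℚ_[ℓ]) →ₗ[ℚ_[ℓ]] ℚ_[ℓ]), ?_, ?_, ?_⟩
  · exact fun x => ⟨⟨x, trivial⟩, rfl⟩
  · exact fun σ a _ => trivial
  · intro σ g _ a b hab
    exact hab

theorem unitRep_inC : InC k ℓ (unitRep k ℓ) :=
  ⟨inferInstanceAs (FiniteDimensional ℚ_[ℓ] ℚ_[ℓ]),
    fun v f => (continuous_const : Continuous fun _ : GG k => f v),
    ⟨1, one_ne_zero, uni_unram k ℓ 1⟩, uni_mixed k ℓ, uni_pst k ℓ⟩

/-- The object `ℚ_ℓ` of the category. -/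
noncomputable def unitObj : MixCat k ℓ := ⟨unitRep k ℓ, unitRep_inC k ℓ⟩

end Pool.Agent.FRC
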