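import Mathlib
import Pool.Agent.FRC.SES
import Pool.Agent.FRC.UNI
import Pool.Agent.FRC.K2
import Pool.Agent.FRC.K3

open CategoryTheory CategoryTheory.Limits CategoryTheory.Abelian Polynomial NumberField

namespace Pool.Agent.FRC

open Pool.Agent.H12

variable (k : Type) [Field k] [NumberField k] (ℓ : ℕ) [Fact ℓ.Prime]

variable {k ℓ} in
private theorem h3a_nrm_ne_zero {𝔓 : Ideal (Zb k)} (h𝔓 : 𝔓.IsMaximal) {q : ℕ} {σ : GG k}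
    (hσ : FrobAt 𝔓 q σ) : q ≠ 0 := by
  rintro rfl
  have h1 := hσ 0 0 (by simp)
  rw [pow_zero, zero_sub, neg_mem_iff] at h1
  exact h𝔓.ne_top ((Ideal.eq_top_iff_one _).mpr h1)

variable {k ℓ} in
private theorem h3a_chi {𝔓 : Ideal (Zb k)} (h𝔓 : 𝔓.IsMaximal) (hℓ : (ℓ : Zb k) ∉ 𝔓) {q : ℕ}
    {σ : GG k} (hσ : FrobAt 𝔓 q σ) : chi k ℓ σ = q := by
  rw [chi, cyc_of_frobAt h𝔓 hℓ hσ]
  simp

variable {k ℓ} in
private theorem h3a_chi_inv {𝔓 : Ideal (Zb k)} (h𝔓 : 𝔓.IsMaximal) (hℓ : (ℓ : Zb k) ∉ 𝔓) {q : ℕ}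
    {σ : GG k} (hσ : FrobAt 𝔓 q σ) : chi k ℓ σ⁻¹ = (q : ℚ_[ℓ])⁻¹ := by
  have h4 : chi k ℓ σ * chi k ℓ σ⁻¹ = 1 := by rw [← chi_mul, mul_inv_cancel, chi_one]
  rw [h3a_chi h𝔓 hℓ hσ] at h4
  exact eq_inv_of_mul_eq_one_right h4

variable {ℓ} in
private theorem h3a_weil {q : ℕ} (hq : q ≠ 0) (j : ℕ) (μ : AlgebraicClosure ℚ_[ℓ])
    (hμ : aeval μ (X - C (((q : ℚ_[ℓ])⁻¹) ^ j) : ℚ_[ℓ][X]) = 0) : IsWeil q (-2 * j) μ := by
  rw [map_sub, aeval_X, aeval_C, sub_eq_zero] at hμ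
  have h6 : μ = algebraMap ℚ (AlgebraicClosure ℚ_[ℓ]) (((q : ℚ)⁻¹) ^ j) := by
    rw [hμ]
    simp
  refine ⟨h6 ▸ isAlgebraic_algebraMap _, ?_⟩
  intro z hz
  rw [h6, minpoly.eq_X_sub_C, map_sub, aeval_X, aeval_C, sub_eq_zero] at hz
  rw [hz]
  have h9 : (0 : ℝ) < q := by exact_mod_cast Nat.pos_of_ne_zero hq
  push_cast
  rw [norm_pow, norm_inv, Complex.norm_natCast]
  have h10 : (-2 * (j : ℝ)) / 2 = -(j : ℝ) := by ring
  rw [h10, Real.rpow_neg h9.le, Real.rpow_natCast, inv_pow]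

private theorem h3a_tate_unram (j : ℕ) : UnramOutside (tateRep k ℓ j) ℓ := by
  intro 𝔓 h𝔓 hN σ hσ (v : ℚ_[ℓ])
  have h2 := h3a_chi h𝔓 hN hσ
  change chi k ℓ σ ^ j * v = v
  rw [h2, Nat.cast_one, one_pow, one_mul]

theorem tateRep_isPure (j : ℕ) : IsPure (tateRep k ℓ j) (-2 * j) := by
  have hℓ : ℓ.Prime := Fact.out
  refine ⟨ℓ, hℓ.ne_zero, h3a_tate_unram k ℓ j, ?_⟩
  intro 𝔓 h𝔓 hN σ hσ μ hμ
  have h1 : minpoly ℚ_[ℓ] ((tateRep k ℓ j).ρ σ⁻¹) ∣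
      (X - C (((nrm 𝔓 : ℚ_[ℓ])⁻¹) ^ j) : ℚ_[ℓ][X]) := by
    apply minpoly.dvd
    rw [map_sub, aeval_X, aeval_C, sub_eq_zero, ← h3a_chi_inv h𝔓 hN hσ]
    apply LinearMap.ext
    intro (v : ℚ_[ℓ])
    rfl
  obtain ⟨r, hr⟩ := h1
  refine h3a_weil (h3a_nrm_ne_zero h𝔓 hσ) j μ ?_
  rw [hr, map_mul, hμ, zero_mul]

private theorem h3a_tate_fin (j : ℕ) : FiniteDimensional ℚ_[ℓ] (tateRep k ℓ j) :=
  inferInstanceAs (FiniteDimensional ℚ_[ℓ] ℚ_[ℓ])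

theorem tateRep_inC (j : ℕ) : InC k ℓ (tateRep k ℓ j) := by
  have hℓ : ℓ.Prime := Fact.out
  have hu : ∃ N : ℕ, N ≠ 0 ∧ UnramOutside (tateRep k ℓ j) N :=
    ⟨ℓ, hℓ.ne_zero, h3a_tate_unram k ℓ j⟩
  refine ⟨h3a_tate_fin k ℓ j, (tate k ℓ j).cont, hu, ?_, tateRep_isPst j⟩
  rw [isMixed_iff _ (h3a_tate_fin k ℓ j) hu]
  obtain ⟨-, N, W, hN, hW, -⟩ := (isPure_iff _ (h3a_tate_fin k ℓ j) _).1 (tateRep_isPure k ℓ j)
  exact ⟨N, W, hN, hW⟩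

variable {k ℓ} in
private theorem h3a_kum_apply (D : KumData k ℓ) (g : GG k) (v : ℚ_[ℓ] × ℚ_[ℓ]) :
    D.rep.ρ g v = ((chi k ℓ g * v.1 + (D.κ g : ℚ_[ℓ]) * v.2, v.2) : ℚ_[ℓ] × ℚ_[ℓ]) := by
  have h := kum_apply 0 D.κ D.cocycle D.cont g v
  refine Eq.trans h ?_
  simp

variable {k ℓ} in
private theorem h3a_kum_unram (D : KumData k ℓ) : UnramOutside D.rep ℓ := by
  intro 𝔓 h𝔓 hN σ hσ (v : ℚ_[ℓ] × ℚ_[ℓ])
  have h2 := h3a_chi h𝔓 hN hσ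
  have h3 := D.unram h𝔓 hN hσ
  refine (h3a_kum_apply D σ v).trans ?_
  rw [h2, h3]
  simp

private theorem h3a_lin1 {K : Type} [Field K] (c d : K) (T : Module.End K (K × K))
    (hT : ∀ v, T v = (c * v.1 + d * v.2, v.2)) (v : K × K) (hv : v.2 = 0) :
    aeval T (X - C c : K[X]) v = 0 := by
  rw [map_sub, aeval_X, aeval_C, LinearMap.sub_apply, hT, hv, Module.algebraMap_end_apply]
  apply Prod.ext <;> simp [hv]

private theorem h3a_lin2 {K : Type} [Field K] (c d : K) (T : Module.End K (K × K))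
    (hT : ∀ v, T v = (c * v.1 + d * v.2, v.2)) (v : K × K) :
    (aeval T (X - C 1 : K[X]) v).2 = 0 := by
  rw [map_sub, aeval_X, aeval_C, LinearMap.sub_apply, hT, Module.algebraMap_end_apply]
  simp

variable {k ℓ} in
private theorem h3a_kum_mixed (D : KumData k ℓ) :
    ∃ W : ℤ → Submodule ℚ_[ℓ] D.rep, MixedP D.rep ℓ W := by
  obtain ⟨S, hS⟩ : ∃ S : Submodule ℚ_[ℓ] D.rep, ∀ v : D.rep, v ∈ S ↔
      (v : ℚ_[ℓ] × ℚ_[ℓ]).2 = 0 :=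
    ⟨(LinearMap.ker (LinearMap.snd ℚ_[ℓ] ℚ_[ℓ] ℚ_[ℓ]) : Submodule ℚ_[ℓ] (ℚ_[ℓ] × ℚ_[ℓ])),
      fun v => Iff.rfl⟩
  obtain ⟨W, hW1, hW2, hW3⟩ : ∃ W : ℤ → Submodule ℚ_[ℓ] D.rep, (∀ m, m < -2 → W m = ⊥) ∧
      (∀ m, -2 ≤ m → m < 0 → W m = S) ∧ (∀ m, 0 ≤ m → W m = ⊤) :=
    ⟨fun m => if m < -2 then ⊥ else if m < 0 then S else ⊤, fun m hm => if_pos hm,
      fun m hm hm' => (if_neg (by omega)).trans (if_pos hm'),
      fun m hm => (if_neg (by omega)).trans (if_neg (by omega))⟩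
  refine ⟨W, ?_, ⟨-3, hW1 _ (by omega)⟩, ⟨0, hW3 _ le_rfl⟩, ?_, ?_⟩
  · intro m n hmn
    rcases lt_or_ge m (-2) with h | h
    · rw [hW1 m h]; exact bot_le
    · rcases lt_or_ge n 0 with h' | h'
      · rw [hW2 m h (by omega), hW2 n (by omega) h']
      · rw [hW3 n h']; exact le_top
  · intro m g v hv
    rcases lt_or_ge m (-2) with h | h
    · rw [hW1 m h] at hv ⊢
      rw [(Submodule.mem_bot _).1 hv, map_zero]
      exact Submodule.zero_mem _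
    · rcases lt_or_ge m 0 with h' | h'
      · rw [hW2 m h h', hS] at hv ⊢
        exact (congrArg Prod.snd (h3a_kum_apply D g v)).trans hv
      · rw [hW3 m h']; exact Submodule.mem_top
  · intro 𝔓 h𝔓 hN σ hσ m
    have hq := h3a_nrm_ne_zero h𝔓 hσ
    have hχ := h3a_chi_inv h𝔓 hN hσ
    by_cases hm2 : m = -2
    · subst hm2
      refine ⟨X - C ((nrm 𝔓 : ℚ_[ℓ])⁻¹), X_sub_C_ne_zero _, ?_, ?_⟩
      · intro μ hμ
        have := h3a_weil hq 1 μ (by rw [pow_one]; exact hμ)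
        simpa using this
      · intro v hv
        rw [hW2 _ (by omega) (by omega), hS] at hv
        rw [hW1 _ (by omega), Submodule.mem_bot]
        exact h3a_lin1 _ (D.κ σ⁻¹ : ℚ_[ℓ]) _ (fun v => by
          rw [← hχ]; exact h3a_kum_apply D σ⁻¹ v) v hv
    · by_cases hm0 : m = 0
      · subst hm0
        refine ⟨X - C 1, X_sub_C_ne_zero _, ?_, ?_⟩
        · intro μ hμ
          have := h3a_weil hq 0 μ (by rw [pow_zero]; exact hμ)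
          simpa using this
        · intro v _
          rw [hW2 _ (by omega) (by omega), hS]
          exact h3a_lin2 _ (D.κ σ⁻¹ : ℚ_[ℓ]) _ (fun v => h3a_kum_apply D σ⁻¹ v) v
      · refine ⟨1, one_ne_zero, fun μ hμ => ?_, fun v hv => ?_⟩
        · rw [map_one] at hμ
          exact absurd hμ one_ne_zero
        · rw [map_one, Module.End.one_apply]
          rcases lt_or_ge m (-2) with h | h
          · rw [hW1 m h] at hv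
            rw [(Submodule.mem_bot _).1 hv]
            exact Submodule.zero_mem _
          · rcases lt_or_ge m 0 with h' | h'
            · rw [hW2 m h h'] at hv
              rw [hW2 (m - 1) (by omega) (by omega)]
              exact hv
            · rw [hW3 (m - 1) (by omega)]
              exact Submodule.mem_top

theorem KumData.inC (D : KumData k ℓ) : InC k ℓ D.rep := by
  have hℓ : ℓ.Prime := Fact.out
  have hfin : FiniteDimensional ℚ_[ℓ] D.rep :=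
    inferInstanceAs (FiniteDimensional ℚ_[ℓ] (ℚ_[ℓ] × ℚ_[ℓ]))
  have hu : ∃ N : ℕ, N ≠ 0 ∧ UnramOutside D.rep N := ⟨ℓ, hℓ.ne_zero, h3a_kum_unram D⟩
  refine ⟨hfin, (kum 0 D.κ D.cocycle D.cont).cont, hu, ?_, D.isPst⟩
  rw [isMixed_iff _ hfin hu]
  obtain ⟨W, hW⟩ := h3a_kum_mixed D
  exact ⟨ℓ, W, hℓ.ne_zero, hW⟩

/-- The object `ℚ_ℓ(1)` of the category. -/
noncomputable def tateObj : MixCat k ℓ := ⟨tateRep k ℓ 1, tateRep_inC k ℓ 1⟩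

/-- `Ext^1` is not zero. -/
theorem ext_one_ne_zero : ∃ x : Ext.{1} (unitObj k ℓ) (tateObj k ℓ) 1, x ≠ 0 := by
  obtain ⟨D⟩ := exists_kumData (k := k) (ℓ := ℓ)
  let E : MixCat k ℓ := ⟨D.rep, KumData.inC k ℓ D⟩
  let i0 : (tateRep k ℓ 1) ⟶ D.rep := Rep.ofHom
    ((LinearMap.inl ℚ_[ℓ] ℚ_[ℓ] ℚ_[ℓ]).intertwiningMap_of_isIntertwiningMap
      (tateRep k ℓ 1).ρ D.rep.ρ (fun g (v : ℚ_[ℓ]) => by
        refine Eq.trans ?_ (h3a_kum_apply D g (v, 0)).symm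
        change ((chi k ℓ g ^ 1 * v, 0) : ℚ_[ℓ] × ℚ_[ℓ]) = _
        simp))
  let p0 : D.rep ⟶ unitRep k ℓ := Rep.ofHom
    ((LinearMap.snd ℚ_[ℓ] ℚ_[ℓ] ℚ_[ℓ]).intertwiningMap_of_isIntertwiningMap
      D.rep.ρ (unitRep k ℓ).ρ (fun g (v : ℚ_[ℓ] × ℚ_[ℓ]) => by
        change (D.rep.ρ g v : ℚ_[ℓ] × ℚ_[ℓ]).2 = v.2
        rw [h3a_kum_apply D g v]))
  let i : tateObj k ℓ ⟶ E := ObjectProperty.homMk i0
  let p : E ⟶ unitObj k ℓ := ObjectProperty.homMk p0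
  have hip : i ≫ p = 0 := by
    apply ObjectProperty.hom_ext
    apply Rep.hom_ext
    apply Representation.IntertwiningMap.ext
    apply LinearMap.ext
    intro v
    rfl
  have hS : (ShortComplex.mk i p hip).ShortExact := by
    rw [shortExact_iff]
    refine ⟨?_, ?_, ?_⟩
    · intro x y hxy
      exact congrArg Prod.fst (hxy : ((x, 0) : ℚ_[ℓ] × ℚ_[ℓ]) = (y, 0))
    · intro y
      exact ⟨((0, y) : ℚ_[ℓ] × ℚ_[ℓ]), rfl⟩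
    · intro (y : ℚ_[ℓ] × ℚ_[ℓ]) (hy : y.2 = 0)
      refine ⟨y.1, ?_⟩
      change ((y.1, 0) : ℚ_[ℓ] × ℚ_[ℓ]) = y
      rw [← hy]
  refine ⟨hS.extClass, ?_⟩
  intro h0
  have h1 : (Ext.mk₀ (𝟙 (unitObj k ℓ))).comp hS.extClass (zero_add 1) = 0 := by
    rw [h0, Ext.comp_zero]
  obtain ⟨x₂, hx₂⟩ := Ext.covariant_sequence_exact₃ (unitObj k ℓ) hS (Ext.mk₀ (𝟙 (unitObj k ℓ)))
    (zero_add 1) h1
  obtain ⟨s, rfl⟩ := (Ext.mk₀_bijective _ _).2 x₂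
  rw [Ext.mk₀_comp_mk₀] at hx₂
  have h2 : s ≫ p = 𝟙 (unitObj k ℓ) := (Ext.mk₀_bijective _ _).1 hx₂
  have h3 : ∀ g : GG k, s.hom.hom ((unitRep k ℓ).ρ g (1 : ℚ_[ℓ])) =
      D.rep.ρ g (s.hom.hom (1 : ℚ_[ℓ])) := fun g => Rep.hom_comm_apply s.hom g (1 : ℚ_[ℓ])
  set w : ℚ_[ℓ] × ℚ_[ℓ] := s.hom.hom (1 : ℚ_[ℓ]) with hw
  have h4 : w.2 = 1 := by
    have := congrArg (fun t => t.hom.hom (1 : ℚ_[ℓ])) h2
    exact this
  refine D.not_coboundary ⟨w.1, fun g => ?_⟩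
  have h5 : w = D.rep.ρ g w := h3 g
  have h6 := congrArg Prod.fst (h5.trans (h3a_kum_apply D g w))
  have h7 : w.1 = chi k ℓ g * w.1 + (D.κ g : ℚ_[ℓ]) * w.2 := h6
  rw [h4] at h7
  linear_combination -h7

end Pool.Agent.FRC
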