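import Mathlib

open CategoryTheory CategoryTheory.Limits CategoryTheory.Abelian

namespace Pool.Agent.FRC

universe v u

variable {C : Type u} [Category.{v} C] [Abelian C]

/-- Dévissage along an additive rank function `d` that vanishes only on zero objects (strong
induction on `d X`; a nonzero object that is not simple has a proper nonzero subobject). -/
theorem devissage (d : C → ℕ)
    (hd : ∀ S : ShortComplex C, S.ShortExact → d S.X₂ = d S.X₁ + d S.X₃)
    (h0 : ∀ X, d X = 0 → IsZero X) (Q : C → Prop) (hz : ∀ X, IsZero X → Q X)
    (hs : ∀ X, Simple X → Q X)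
    (he : ∀ S : ShortComplex C, S.ShortExact → Q S.X₁ → Q S.X₃ → Q S.X₂) (X : C) : Q X := by
  induction hn : d X using Nat.strong_induction_on generalizing X with
  | _ n ih =>
    by_cases hX : IsZero X
    · exact hz X hX
    by_cases hS : Simple X
    · exact hs X hS
    have hex : ∃ (Y : C) (f : Y ⟶ X) (_ : Mono f), f ≠ 0 ∧ ¬ IsIso f := by
      by_contra hcon
      push Not at hcon
      apply hS
      refine ⟨?_⟩
      intro Y f hf
      constructor
      · intro hi hf0
        apply hX
        rw [IsZero.iff_id_eq_zero]
        have h1 : inv f ≫ f = 𝟙 X := IsIso.inv_hom_id f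
        have h2 : inv f ≫ f = 0 := by
          generalize inv f = g
          rw [hf0, comp_zero]
        exact h1.symm.trans h2
      · intro hne
        exact hcon Y f hf hne
    obtain ⟨Y, f, hf, hne, hni⟩ := hex
    let S : ShortComplex C := ShortComplex.mk f (cokernel.π f) (cokernel.condition f)
    have hSE : S.ShortExact := by
      refine { exact := ?_, mono_f := hf, epi_g := inferInstanceAs (Epi (cokernel.π f)) }
      exact ShortComplex.exact_of_g_is_cokernel S (cokernelIsCokernel f)
    have hsum := hd S hSE
    have e2 : d S.X₂ = d X := rfl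
    have p1 : d S.X₁ ≠ 0 := by
      intro h
      have hz1 : IsZero Y := h0 _ h
      exact hne (hz1.eq_of_src f 0)
    have p3 : d S.X₃ ≠ 0 := by
      intro h
      have hz3 : IsZero (cokernel f) := h0 _ h
      have hπ : cokernel.π f = 0 := hz3.eq_of_tgt _ _
      have : Epi f := Preadditive.epi_of_cokernel_zero hπ
      exact hni (isIso_of_mono_of_epi f)
    apply he S hSE
    · exact ih (d S.X₁) (by omega) S.X₁ rfl
    · exact ih (d S.X₃) (by omega) S.X₃ rfl

end Pool.Agent.FRC
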