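import Mathlib

open CategoryTheory CategoryTheory.Limits CategoryTheory.Abelian

namespace Pool.Agent.FRC

universe w v u

variable {C : Type u} [Category.{v} C] [Abelian C]

section aux

open HomologicalComplex

set_option backward.defeqAttrib.useBackward true in
set_option backward.isDefEq.respectTransparency false in
private lemma exists_epi_factor {X : C} {K : CochainComplex C ℤ} {i : ℤ}
    (π : K ⟶ (CochainComplex.singleFunctor C i).obj X) [K.IsStrictlyLE i] [QuasiIsoAt π i] :
    ∃ (P : C) (p : P ⟶ X) (j : (CochainComplex.singleFunctor C i).obj P ⟶ K), Epi p ∧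
      (CochainComplex.singleFunctor C i).map p = j ≫ π := by
  let e := K.iCyclesIso i (i + 1) (by simp)
    ((K.isZero_of_isStrictlyLE i (i + 1) (by simp)).eq_of_tgt _ _)
  let α := e.inv ≫ K.homologyπ i ≫ homologyMap π i ≫ (singleObjHomologySelfIso _ _ _).hom
  have hα : π.f i = α ≫ (singleObjXSelf (ComplexShape.up ℤ) i X).inv := by
    rw [← cancel_epi e.hom]
    dsimp [α, e]
    rw [Category.assoc, Category.assoc, Category.assoc, iCyclesIso_hom_inv_id_assoc,
      homologyπ_naturality_assoc]
    dsimp [CochainComplex.singleFunctor, CochainComplex.singleFunctors]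
    rw [homologyπ_singleObjHomologySelfIso_hom_assoc,
      ← singleObjCyclesSelfIso_inv_iCycles, Iso.hom_inv_id_assoc, ← cyclesMap_i]
  have hepi : Epi α := by
    dsimp [α]
    infer_instance
  refine ⟨K.X i, α, mkHomFromSingle (𝟙 (K.X i)) (by
      rintro _ rfl
      apply (K.isZero_of_isStrictlyLE i (i + 1) (by simp)).eq_of_tgt), hepi, ?_⟩
  apply HomologicalComplex.from_single_hom_ext
  rw [comp_f, mkHomFromSingle_f, hα]
  dsimp [CochainComplex.singleFunctor, CochainComplex.singleFunctors]
  simp [single_map_f_self]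

end aux

section der

open DerivedCategory

variable [HasDerivedCategory.{w} C]

private lemma exists_epi_comp_eq_zero {X : C}
    {L : CochainComplex C ℤ} {i : ℤ}
    (φ : Q.obj ((CochainComplex.singleFunctor C i).obj X) ⟶ Q.obj L)
    (n : ℤ) (hn : n < i) [L.IsStrictlyLE n] :
    ∃ (P : C) (p : P ⟶ X), Epi p ∧
      Q.map ((CochainComplex.singleFunctor C i).map p) ≫ φ = 0 := by
  obtain ⟨K, _, π, h, g, rfl⟩ := right_fac_of_isStrictlyLE φ i
  have hq := h
  rw [isIso_Q_map_iff_quasiIso] at hq
  obtain ⟨P, p, j, hp, hj⟩ := exists_epi_factor π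
  refine ⟨P, p, hp, ?_⟩
  have h₂ : j ≫ g = 0 := by
    apply HomologicalComplex.from_single_hom_ext
    apply (L.isZero_of_isStrictlyLE n i hn).eq_of_tgt
  rw [hj, Q.map_comp, Category.assoc, IsIso.hom_inv_id_assoc, ← Q.map_comp, h₂, Q.map_zero]

end der

variable [HasExt.{w} C]

set_option backward.isDefEq.respectTransparency false in
/-- Effaceability. Write `x.hom = inv (Q.map s) ≫ Q.map g` with `s : X' ⟶ X[0]` a quasi-isomorphism,
`X'` strictly `≤ 0` (`DerivedCategory.right_fac_of_isStrictlyLE`), take `P = X'.X 0`; the map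
`P[0] ⟶ X'` composed with `g : X' ⟶ Y[n+1]` is zero since `n + 1 > 0`. -/
theorem exists_epi_killing {X Y : C} {n : ℕ} (x : Ext.{w} X Y (n + 1)) :
    ∃ (P : C) (p : P ⟶ X), Epi p ∧ (Ext.mk₀ p).comp x (zero_add _) = 0 := by
  let := HasDerivedCategory.standard C
  let φ := x.hom ≫ (((DerivedCategory.singleFunctors C).shiftIso (n + 1) (-(n + 1)) 0
    (by lia)).hom.app _)
  obtain ⟨P, p, hp, h⟩ := exists_epi_comp_eq_zero (i := 0)
    (L := (CochainComplex.singleFunctor C (-(n + 1))).obj Y) φ (-(n + 1)) (by lia)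
  refine ⟨P, p, hp, ?_⟩
  apply Ext.homEquiv.injective
  have h0 : Ext.homEquiv (0 : Ext P Y (n + 1)) = 0 := by
    have := Ext.zero_hom (X := P) (Y := Y) (n := n + 1)
    exact this
  rw [h0]
  have h1 : Ext.homEquiv ((Ext.mk₀ p).comp x (zero_add _)) =
      (DerivedCategory.singleFunctor C 0).map p ≫ x.hom := by
    have := Ext.comp_hom (Ext.mk₀ p) x (zero_add _)
    rw [Ext.mk₀_hom] at this
    refine this.trans ?_
    simp [ShiftedHom.mk₀_comp]
  rw [h1]
  rw [← cancel_mono (((DerivedCategory.singleFunctors C).shiftIso (n + 1) (-(n + 1)) 0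
    (by lia)).hom.app _), Category.assoc, Limits.zero_comp]
  exact h

end Pool.Agent.FRC
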