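import Mathlib
import Pool.Agent.FRC.EFF

open CategoryTheory CategoryTheory.Limits CategoryTheory.Abelian

namespace Pool.Agent.FRC

universe w v u

variable {C : Type u} [Category.{v} C] [Abelian C] [HasExt.{w} C]

/-- Every class of degree `n + 1` is the product of the class of a short exact sequence with right
end `X` and a class of degree `n` (use `exists_epi_killing` and the contravariant long exact
sequence). -/
theorem exists_extClass_comp {X Y : C} {n : ℕ} (x : Ext.{w} X Y (n + 1)) :
    ∃ (K P : C) (i : K ⟶ P) (p : P ⟶ X) (w : i ≫ p = 0)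
      (hS : (ShortComplex.mk i p w).ShortExact) (y : Ext.{w} K Y n),
      x = hS.extClass.comp y (add_comm 1 n) := by
  obtain ⟨P, p, hp, hx⟩ := exists_epi_killing x
  have hS : (ShortComplex.mk (kernel.ι p) p (kernel.condition p)).ShortExact :=
    { exact := ShortComplex.exact_kernel p }
  obtain ⟨y, hy⟩ := Ext.contravariant_sequence_exact₃ hS Y x hx (add_comm 1 n)
  exact ⟨kernel p, P, kernel.ι p, p, kernel.condition p, hS, y, hy.symm⟩

end Pool.Agent.FRC
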