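import Mathlib
import Pool.Agent.FRC.YON

open CategoryTheory CategoryTheory.Limits CategoryTheory.Abelian

namespace Pool.Agent.FRC

universe w v u

variable {C : Type u} [Category.{v} C] [Abelian C] [HasExt.{w} C]

/-- If all `Ext^2` vanish then all `Ext^n`, `n ≥ 2`, vanish. -/
theorem ext_subsingleton_of_two (h : ∀ X Y : C, Subsingleton (Ext.{w} X Y 2)) (n : ℕ)
    (hn : 2 ≤ n) (X Y : C) : Subsingleton (Ext.{w} X Y n) := by
  induction n, hn using Nat.le_induction generalizing X Y with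
  | base => exact h X Y
  | succ n hn ih =>
    refine ⟨fun a b => ?_⟩
    have key : ∀ x : Ext.{w} X Y (n + 1), x = 0 := by
      intro x
      obtain ⟨K, P, i, p, w, hS, y, hy⟩ := exists_extClass_comp x
      have hy0 : y = 0 := (ih K Y).elim _ _
      rw [hy, hy0, Ext.comp_zero]
    rw [key a, key b]

/-- Vanishing of `Ext^n(X, -)` is closed under extensions, and so is that of `Ext^n(-, Y)`. -/
theorem ext_subsingleton_extension_right (S : ShortComplex C) (hS : S.ShortExact) (X : C) (n : ℕ)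
    (h1 : Subsingleton (Ext.{w} X S.X₁ n)) (h3 : Subsingleton (Ext.{w} X S.X₃ n)) :
    Subsingleton (Ext.{w} X S.X₂ n) := by
  refine ⟨fun a b => ?_⟩
  have key : ∀ x : Ext.{w} X S.X₂ n, x = 0 := by
    intro x
    have h3x : x.comp (Ext.mk₀ S.g) (add_zero n) = 0 := h3.elim _ _
    obtain ⟨x₁, hx₁⟩ := Ext.covariant_sequence_exact₂ X hS x h3x
    have hx0 : x₁ = 0 := h1.elim _ _
    rw [← hx₁, hx0, Ext.zero_comp]
  rw [key a, key b]

theorem ext_subsingleton_extension_left (S : ShortComplex C) (hS : S.ShortExact) (Y : C) (n : ℕ)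
    (h1 : Subsingleton (Ext.{w} S.X₁ Y n)) (h3 : Subsingleton (Ext.{w} S.X₃ Y n)) :
    Subsingleton (Ext.{w} S.X₂ Y n) := by
  refine ⟨fun a b => ?_⟩
  have key : ∀ x : Ext.{w} S.X₂ Y n, x = 0 := by
    intro x
    have h1x : (Ext.mk₀ S.f).comp x (zero_add n) = 0 := h1.elim _ _
    obtain ⟨x₃, hx₃⟩ := Ext.contravariant_sequence_exact₂ hS Y x h1x
    have hx0 : x₃ = 0 := h3.elim _ _
    rw [← hx₃, hx0, Ext.comp_zero]
  rw [key a, key b]

theorem ext_subsingleton_of_isZero_right (X Y : C) (hY : IsZero Y) (n : ℕ) :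
    Subsingleton (Ext.{w} X Y n) := by
  refine ⟨fun a b => ?_⟩
  have key : ∀ x : Ext.{w} X Y n, x = 0 := by
    intro x
    rw [← Ext.comp_mk₀_id x, hY.eq_of_tgt (𝟙 Y) 0, Ext.mk₀_zero, Ext.comp_zero]
  rw [key a, key b]

theorem ext_subsingleton_of_isZero_left (X Y : C) (hX : IsZero X) (n : ℕ) :
    Subsingleton (Ext.{w} X Y n) := by
  refine ⟨fun a b => ?_⟩
  have key : ∀ x : Ext.{w} X Y n, x = 0 := by
    intro x
    rw [← Ext.mk₀_id_comp x, hX.eq_of_src (𝟙 X) 0, Ext.mk₀_zero, Ext.zero_comp]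
  rw [key a, key b]

end Pool.Agent.FRC
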