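import Mathlib

open CategoryTheory CategoryTheory.Limits

namespace Pool.Agent.FRC

universe v u v' u'

variable {A : Type u} [Category.{v} A] [Abelian A] {B : Type u'} [Category.{v'} B] [Abelian B]

section Incl

variable (P : ObjectProperty A) [P.IsClosedUnderSubobjects] [P.IsClosedUnderQuotients]
  [P.ContainsZero] [P.IsClosedUnderFiniteProducts]

/-- The inclusion of a full abelian subcategory closed under subobjects and quotients is exact. -/
theorem incl_finLim : PreservesFiniteLimits P.ι := by
  have : ∀ {X Y : P.FullSubcategory} (f : X ⟶ Y), PreservesLimit (parallelPair f 0) P.ι :=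
    fun f => P.preservesKernels_ι f
  exact Functor.preservesFiniteLimits_of_preservesKernels P.ι

theorem incl_finColim : PreservesFiniteColimits P.ι := by
  have : ∀ {X Y : P.FullSubcategory} (f : X ⟶ Y), PreservesColimit (parallelPair f 0) P.ι :=
    fun f => P.preservesCokernels_ι f
  exact Functor.preservesFiniteColimits_of_preservesCokernels P.ι

instance incl_additive : P.ι.Additive := by
  infer_instance

end Incl

variable (P : ObjectProperty A) [P.IsClosedUnderSubobjects] [P.IsClosedUnderQuotients]
  [P.ContainsZero] [P.IsClosedUnderFiniteProducts]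
  (Q : ObjectProperty B) [Q.IsClosedUnderSubobjects] [Q.IsClosedUnderQuotients]
  [Q.ContainsZero] [Q.IsClosedUnderFiniteProducts]
  (F : A ⥤ B) [F.Additive] [PreservesFiniteLimits F] [PreservesFiniteColimits F]

/-- The functor induced on full subcategories. -/
noncomputable def liftF (h : ∀ X, P X → Q (F.obj X)) : P.FullSubcategory ⥤ Q.FullSubcategory :=
  Q.lift (P.ι ⋙ F) (fun X => h X.obj X.property)

instance liftF_additive (h : ∀ X, P X → Q (F.obj X)) : (liftF P Q F h).Additive := by
  constructor
  intro X Y f g
  ext
  exact F.map_add

theorem liftF_finLim (h : ∀ X, P X → Q (F.obj X)) : PreservesFiniteLimits (liftF P Q F h) := by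
  have h1 : PreservesFiniteLimits P.ι := incl_finLim P
  have h2 : PreservesFiniteLimits (liftF P Q F h ⋙ Q.ι) :=
    show PreservesFiniteLimits (P.ι ⋙ F) from inferInstance
  constructor
  intro J _ _
  exact preservesLimitsOfShape_of_reflects_of_preserves (liftF P Q F h) Q.ι

theorem liftF_finColim (h : ∀ X, P X → Q (F.obj X)) :
    PreservesFiniteColimits (liftF P Q F h) := by
  have h1 : PreservesFiniteColimits P.ι := incl_finColim P
  have h2 : PreservesFiniteColimits (liftF P Q F h ⋙ Q.ι) :=
    show PreservesFiniteColimits (P.ι ⋙ F) from inferInstance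
  constructor
  intro J _ _
  exact preservesColimitsOfShape_of_reflects_of_preserves (liftF P Q F h) Q.ι

end Pool.Agent.FRC
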