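import Mathlib
import Pool.Agent.FRC.YON

open CategoryTheory CategoryTheory.Limits CategoryTheory.Abelian

namespace Pool.Agent.FRC

universe w v u w' v' u' w'' v'' u''

variable {C : Type u} [Category.{v} C] [Abelian C] [HasExt.{w} C]
variable {D : Type u'} [Category.{v'} D] [Abelian D] [HasExt.{w'} D]
variable {E : Type u''} [Category.{v''} E] [Abelian E] [HasExt.{w''} E]

private theorem FCO_class (F : C ⥤ D) (G : D ⥤ E) [F.Additive] [G.Additive]
    [PreservesFiniteLimits F] [PreservesFiniteColimits F]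
    [PreservesFiniteLimits G] [PreservesFiniteColimits G]
    [PreservesFiniteLimits (F ⋙ G)] [PreservesFiniteColimits (F ⋙ G)]
    {S : ShortComplex C} (hS : S.ShortExact) :
    hS.extClass.mapExactFunctor (F ⋙ G) =
      (hS.extClass.mapExactFunctor F).mapExactFunctor G := by
  have h1 := Ext.mapExactFunctor_extClass (F ⋙ G) hS
  have h2 := Ext.mapExactFunctor_extClass G (hS.map_of_exact F)
  have h3 := congrArg (fun z => Ext.mapExactFunctor G z) (Ext.mapExactFunctor_extClass F hS)
  exact h1.trans (h2.symm.trans h3.symm)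

/-- The map on `Ext` of a composition (induction on `n`). -/
theorem mapExact_comp (F : C ⥤ D) (G : D ⥤ E) [F.Additive] [G.Additive]
    [PreservesFiniteLimits F] [PreservesFiniteColimits F]
    [PreservesFiniteLimits G] [PreservesFiniteColimits G]
    [PreservesFiniteLimits (F ⋙ G)] [PreservesFiniteColimits (F ⋙ G)] {X Y : C} {n : ℕ}
    (x : Ext.{w} X Y n) :
    x.mapExactFunctor (F ⋙ G) = (x.mapExactFunctor F).mapExactFunctor G := by
  induction n generalizing X Y with
  | zero =>
    obtain ⟨f, rfl⟩ := (Ext.mk₀_bijective X Y).2 x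
    rw [Ext.mapExactFunctor_mk₀, Ext.mapExactFunctor_mk₀, Ext.mapExactFunctor_mk₀]
    rfl
  | succ n ih =>
    obtain ⟨K, P, i, p, w, hS, y, rfl⟩ := exists_extClass_comp x
    rw [Ext.mapExactFunctor_comp, Ext.mapExactFunctor_comp, Ext.mapExactFunctor_comp,
      ih y, FCO_class F G hS]

/-- The map on `Ext` of the identity functor (induction on `n`). -/
theorem mapExact_id {X Y : C} {n : ℕ} (x : Ext.{w} X Y n) :
    x.mapExactFunctor (𝟭 C) = x := by
  induction n generalizing X Y with
  | zero =>
    obtain ⟨f, rfl⟩ := (Ext.mk₀_bijective X Y).2 x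
    rw [Ext.mapExactFunctor_mk₀]
    rfl
  | succ n ih =>
    obtain ⟨K, P, i, p, w, hS, y, rfl⟩ := exists_extClass_comp x
    rw [Ext.mapExactFunctor_comp, ih y, Ext.mapExactFunctor_extClass]
    rfl

end Pool.Agent.FRC
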