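import Mathlib
import Pool.Agent.FRC.YON

open CategoryTheory CategoryTheory.Limits CategoryTheory.Abelian

namespace Pool.Agent.FRC

universe w v u w' v' u'

variable {C : Type u} [Category.{v} C] [Abelian C] [HasExt.{w} C]
variable {D : Type u'} [Category.{v'} D] [Abelian D] [HasExt.{w'} D]

/-- Naturality of the maps on `Ext` for a natural transformation of exact functors (induction on
`n` with `exists_extClass_comp`, `mapExactFunctor_extClass`, `extClass_naturality`). -/
theorem mapExact_naturality (F G : C ⥤ D) [F.Additive] [G.Additive]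
    [PreservesFiniteLimits F] [PreservesFiniteColimits F]
    [PreservesFiniteLimits G] [PreservesFiniteColimits G] (τ : F ⟶ G) {X Y : C} {n : ℕ}
    (x : Ext.{w} X Y n) :
    (x.mapExactFunctor F).comp (Ext.mk₀ (τ.app Y)) (add_zero n) =
      (Ext.mk₀ (τ.app X)).comp (x.mapExactFunctor G) (zero_add n) := by
  induction n generalizing X with
  | zero =>
    obtain ⟨f, rfl⟩ := (Ext.mk₀_bijective X Y).2 x
    rw [Ext.mapExactFunctor_mk₀, Ext.mapExactFunctor_mk₀, Ext.mk₀_comp_mk₀, Ext.mk₀_comp_mk₀,
      τ.naturality]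
  | succ n ih =>
    obtain ⟨K, P, i, p, w, hS, y, rfl⟩ := exists_extClass_comp x
    rw [Ext.mapExactFunctor_comp, Ext.mapExactFunctor_comp, Ext.mapExactFunctor_extClass,
      Ext.mapExactFunctor_extClass]
    have h1 := ShortComplex.ShortExact.extClass_naturality (hS.map_of_exact F)
      (hS.map_of_exact G) ((ShortComplex.mk i p w).mapNatTrans τ)
    have h2 := ih y
    rw [Ext.comp_assoc (a₁₂ := n + 1) (a₂₃ := n) (a := n + 1) _ _ _ (by lia) (by lia) (by lia),
      h2, ← Ext.comp_assoc (a₁₂ := 1) (a₂₃ := n) (a := n + 1) _ _ _ (by lia) (by lia) (by lia),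
      ← Ext.comp_assoc (a₁₂ := 1) (a₂₃ := n + 1) (a := n + 1) _ _ _ (by lia) (by lia) (by lia)]
    exact congrArg (fun z => Ext.comp z (y.mapExactFunctor G) (add_comm 1 n)) h1

end Pool.Agent.FRC
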