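import Mathlib
import Pool.Agent.FRC.NAT
import Pool.Agent.FRC.FCO

open CategoryTheory CategoryTheory.Limits CategoryTheory.Abelian

namespace Pool.Agent.FRC

universe w v u

variable {C : Type u} [Category.{v} C] [Abelian C] [HasExt.{w} C]

/-- Reduction of `Ext^n(V, W)` to `Ext^n(I, H W)`: `T` plays the role of `V ⊗ -`, `H` that of
`Hom(V, -)`, `ev` is the evaluation, `j` the identity of `V` and `u : V ≅ V ⊗ I`. -/
theorem ext_subsingleton_of_ihom (T H : C ⥤ C) [T.Additive] [H.Additive]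
    [PreservesFiniteLimits T] [PreservesFiniteColimits T]
    [PreservesFiniteLimits H] [PreservesFiniteColimits H]
    (ev : H ⋙ T ⟶ 𝟭 C) {V I : C} (j : I ⟶ H.obj V) (u : V ⟶ T.obj I)
    (hu : u ≫ T.map j ≫ ev.app V = 𝟙 V) (n : ℕ) (W : C)
    (h : Subsingleton (Ext.{w} I (H.obj W) n)) : Subsingleton (Ext.{w} V W n) := by
  have : PreservesFiniteLimits (H ⋙ T) := comp_preservesFiniteLimits H T
  have : PreservesFiniteColimits (H ⋙ T) := comp_preservesFiniteColimits H T
  refine subsingleton_of_forall_eq 0 fun x => ?_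
  have hy : (Ext.mk₀ j).comp (x.mapExactFunctor H) (zero_add n) = 0 := Subsingleton.elim _ _
  have h1 := congrArg (Ext.mapExactFunctor T) hy
  rw [Ext.mapExactFunctor_comp, Ext.mapExactFunctor_mk₀, ← mapExact_comp H T,
    Ext.mapExactFunctor_zero] at h1
  have h2 := mapExact_naturality (H ⋙ T) (𝟭 C) ev x
  rw [mapExact_id] at h2
  have h3 : x = (Ext.mk₀ (u ≫ T.map j ≫ ev.app V)).comp x (zero_add n) := by
    rw [hu]
    exact (Ext.mk₀_id_comp x).symm
  have h4 : (Ext.mk₀ (u ≫ T.map j ≫ ev.app V)).comp x (zero_add n) =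
      (Ext.mk₀ u).comp ((Ext.mk₀ (T.map j)).comp ((Ext.mk₀ (ev.app V)).comp x (zero_add n))
        (zero_add n)) (zero_add n) := by
    rw [Ext.mk₀_comp_mk₀_assoc, Ext.mk₀_comp_mk₀_assoc, Category.assoc]
  have h5 : (Ext.mk₀ (T.map j)).comp ((Ext.mk₀ (ev.app V)).comp x (zero_add n))
        (zero_add n) = 0 := by
    have h6 : (Ext.mk₀ (T.map j)).comp ((x.mapExactFunctor (H ⋙ T)).comp
        (Ext.mk₀ (ev.app W)) (add_zero n)) (zero_add n) = 0 := by
      have h7 := Ext.comp_assoc_of_third_deg_zero (Ext.mk₀ (T.map j))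
        (x.mapExactFunctor (H ⋙ T)) (Ext.mk₀ (ev.app W)) (zero_add n)
      refine h7.symm.trans ?_
      have h8 : (Ext.mk₀ (T.map j)).comp (x.mapExactFunctor (H ⋙ T)) (zero_add n) = 0 := h1
      rw [h8]
      exact Ext.zero_comp _ n (Ext.mk₀ (ev.app W)) _ _
    rw [h2] at h6
    exact h6
  rw [h3, h4, h5, Ext.comp_zero]

end Pool.Agent.FRC
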