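import Mathlib
import Pool.Agent.FRC.NAT
import Pool.Agent.FRC.FCO

open CategoryTheory CategoryTheory.Limits CategoryTheory.Abelian

namespace Pool.Agent.FRC

universe w v u w' v' u'

variable {C : Type u} [Category.{v} C] [Abelian C] [HasExt.{w} C]
variable {D : Type u'} [Category.{v'} D] [Abelian D] [HasExt.{w'} D]

/-- If the identity of `C` is a retract of `F ⋙ G` for exact functors `F : C ⥤ D`, `G : D ⥤ C`,
then the vanishing of all `Ext^n` in `D` implies that in `C`. -/
theorem ext_subsingleton_of_retract (F : C ⥤ D) (G : D ⥤ C) [F.Additive] [G.Additive]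
    [PreservesFiniteLimits F] [PreservesFiniteColimits F]
    [PreservesFiniteLimits G] [PreservesFiniteColimits G]
    (η : 𝟭 C ⟶ F ⋙ G) (ε : F ⋙ G ⟶ 𝟭 C) (h : ∀ X, η.app X ≫ ε.app X = 𝟙 X) (n : ℕ)
    (H : ∀ X Y : D, Subsingleton (Ext.{w'} X Y n)) (X Y : C) :
    Subsingleton (Ext.{w} X Y n) := by
  have : PreservesFiniteLimits (F ⋙ G) := comp_preservesFiniteLimits F G
  have : PreservesFiniteColimits (F ⋙ G) := comp_preservesFiniteColimits F G
  have key : ∀ x : Ext.{w} X Y n, x =
      ((Ext.mk₀ (η.app X)).comp ((x.mapExactFunctor F).mapExactFunctor G) (zero_add n)).comp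
        (Ext.mk₀ (ε.app Y)) (add_zero n) := by
    intro x
    have h1 := mapExact_naturality (𝟭 C) (F ⋙ G) η x
    rw [mapExact_id] at h1
    rw [← mapExact_comp F G x, ← h1, Ext.comp_assoc_of_third_deg_zero, Ext.mk₀_comp_mk₀]
    have h2 : η.app Y ≫ ε.app Y = 𝟙 Y := h Y
    rw [h2]
    exact (Ext.comp_mk₀_id x).symm
  refine ⟨fun x y => ?_⟩
  have := H (F.obj X) (F.obj Y)
  rw [key x, key y, Subsingleton.elim (x.mapExactFunctor F) (y.mapExactFunctor F)]

end Pool.Agent.FRC
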