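import Mathlib
import Pool.Agent.FRC.EXL
import Pool.Agent.FRC.RET
import Pool.Agent.FRC.IHM

open CategoryTheory CategoryTheory.Limits CategoryTheory.Abelian

namespace Pool.Agent.FRC

universe w v u w' v' u'

variable {A : Type u} [Category.{v} A] [Abelian A] {B : Type u'} [Category.{v'} B] [Abelian B]

/-- The retract lemma for full subcategories. -/
theorem full_ext_subsingleton_of_retract
    (P : ObjectProperty A) [P.IsClosedUnderSubobjects] [P.IsClosedUnderQuotients]
    [P.ContainsZero] [P.IsClosedUnderFiniteProducts] [HasExt.{w} P.FullSubcategory]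
    (Q : ObjectProperty B) [Q.IsClosedUnderSubobjects] [Q.IsClosedUnderQuotients]
    [Q.ContainsZero] [Q.IsClosedUnderFiniteProducts] [HasExt.{w'} Q.FullSubcategory]
    (F : A ⥤ B) (G : B ⥤ A) [F.Additive] [G.Additive]
    [PreservesFiniteLimits F] [PreservesFiniteColimits F]
    [PreservesFiniteLimits G] [PreservesFiniteColimits G]
    (hF : ∀ X, P X → Q (F.obj X)) (hG : ∀ X, Q X → P (G.obj X))
    (η : 𝟭 A ⟶ F ⋙ G) (ε : F ⋙ G ⟶ 𝟭 A) (h : ∀ X, η.app X ≫ ε.app X = 𝟙 X) (n : ℕ)
    (H : ∀ X Y : Q.FullSubcategory, Subsingleton (Ext.{w'} X Y n)) (X Y : P.FullSubcategory) :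
    Subsingleton (Ext.{w} X Y n) := by
  have := liftF_finLim P Q F hF
  have := liftF_finColim P Q F hF
  have := liftF_finLim Q P G hG
  have := liftF_finColim Q P G hG
  let η' : 𝟭 P.FullSubcategory ⟶ liftF P Q F hF ⋙ liftF Q P G hG :=
    { app := fun X => ObjectProperty.homMk (η.app X.obj)
      naturality := fun X Y f => by
        apply ObjectProperty.hom_ext
        exact η.naturality f.hom }
  let ε' : liftF P Q F hF ⋙ liftF Q P G hG ⟶ 𝟭 P.FullSubcategory :=
    { app := fun X => ObjectProperty.homMk (ε.app X.obj)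
      naturality := fun X Y f => by
        apply ObjectProperty.hom_ext
        exact ε.naturality f.hom }
  refine ext_subsingleton_of_retract (liftF P Q F hF) (liftF Q P G hG) η' ε' ?_ n H X Y
  intro Z
  apply ObjectProperty.hom_ext
  exact h Z.obj

/-- The internal Hom lemma for full subcategories. -/
theorem full_ext_subsingleton_of_ihom
    (P : ObjectProperty A) [P.IsClosedUnderSubobjects] [P.IsClosedUnderQuotients]
    [P.ContainsZero] [P.IsClosedUnderFiniteProducts] [HasExt.{w} P.FullSubcategory]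
    (T H : A ⥤ A) [T.Additive] [H.Additive]
    [PreservesFiniteLimits T] [PreservesFiniteColimits T]
    [PreservesFiniteLimits H] [PreservesFiniteColimits H]
    (hT : ∀ X, P X → P (T.obj X)) (hH : ∀ X, P X → P (H.obj X))
    (ev : H ⋙ T ⟶ 𝟭 A) {V I : P.FullSubcategory} (j : I.obj ⟶ H.obj V.obj)
    (u : V.obj ⟶ T.obj I.obj) (hu : u ≫ T.map j ≫ ev.app V.obj = 𝟙 V.obj) (n : ℕ)
    (h : ∀ W : P.FullSubcategory, Subsingleton (Ext.{w} I W n)) (W : P.FullSubcategory) :
    Subsingleton (Ext.{w} V W n) := by
  have := liftF_finLim P P T hT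
  have := liftF_finColim P P T hT
  have := liftF_finLim P P H hH
  have := liftF_finColim P P H hH
  let ev' : liftF P P H hH ⋙ liftF P P T hT ⟶ 𝟭 P.FullSubcategory :=
    { app := fun X => ObjectProperty.homMk (ev.app X.obj)
      naturality := fun X Y f => by
        apply ObjectProperty.hom_ext
        exact ev.naturality f.hom }
  let j' : I ⟶ (liftF P P H hH).obj V := ObjectProperty.homMk j
  let u' : V ⟶ (liftF P P T hT).obj I := ObjectProperty.homMk u
  refine ext_subsingleton_of_ihom (liftF P P T hT) (liftF P P H hH) ev' j' u' ?_ n W (h _)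
  apply ObjectProperty.hom_ext
  exact hu

end Pool.Agent.FRC
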