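import Mathlib

open Polynomial TensorProduct

namespace Pool.Agent.FRC

variable {K : Type*} [Field K] {M : Type*} [AddCommGroup M] [Module K M] [FiniteDimensional K M]

private theorem hasEig_of_root (E : Module.End K M) (ν : AlgebraicClosure K)
    (hν : aeval ν (minpoly K E) = 0) :
    Module.End.HasEigenvalue (LinearMap.baseChange (AlgebraicClosure K) E) ν := by
  rw [Module.End.hasEigenvalue_iff_isRoot_charpoly, LinearMap.charpoly_baseChange]
  obtain ⟨q, hq⟩ := LinearMap.minpoly_dvd_charpoly E
  rw [IsRoot, eval_map_algebraMap, hq, map_mul, hν, zero_mul]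

omit [FiniteDimensional K M] in
private theorem root_of_hasEig (E : Module.End K M) (ν : AlgebraicClosure K)
    (v : AlgebraicClosure K ⊗[K] M) (hv : v ≠ 0)
    (hEv : LinearMap.baseChange (AlgebraicClosure K) E v = ν • v) :
    aeval ν (minpoly K E) = 0 := by
  have h1 : ∀ p : K[X], (LinearMap.baseChange (AlgebraicClosure K) (aeval E p)) v = (aeval ν p) • v := by
    intro p
    induction p using Polynomial.induction_on' with
    | add p q hp hq =>
      rw [map_add, map_add, LinearMap.baseChange_add, LinearMap.add_apply, hp, hq, add_smul]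
    | monomial n a =>
      have h2 : ∀ n : ℕ, (LinearMap.baseChange (AlgebraicClosure K) (E ^ n)) v = ν ^ n • v := by
        intro n
        induction n with
        | zero => simp
        | succ n ih =>
          rw [pow_succ, LinearMap.baseChange_mul, Module.End.mul_apply, hEv, map_smul, ih,
            smul_smul, ← pow_succ']
      rw [aeval_monomial, aeval_monomial, ← Algebra.smul_def, LinearMap.baseChange_smul,
        LinearMap.smul_apply, h2, ← Algebra.smul_def, smul_assoc]
  have h3 := h1 (minpoly K E)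
  rw [minpoly.aeval, LinearMap.baseChange_zero, LinearMap.zero_apply] at h3
  by_contra hne
  rcases smul_eq_zero.mp h3.symm with h | h
  · exact hne h
  · exact hv h

/-- Eigenvalues of a product of commuting endomorphisms are products of eigenvalues (base change
to the algebraic closure, common eigenvector of `E` and `F` in the eigenspace of `E * F`). -/
theorem root_minpoly_mul (E F : Module.End K M) (hEF : Commute E F) (ν : AlgebraicClosure K)
    (hν : aeval ν (minpoly K (E * F)) = 0) : ∃ lam mu : AlgebraicClosure K,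
      aeval lam (minpoly K E) = 0 ∧ aeval mu (minpoly K F) = 0 ∧ ν = lam * mu := by
  set E' := LinearMap.baseChange (AlgebraicClosure K) E with hE'
  set F' := LinearMap.baseChange (AlgebraicClosure K) F with hF'
  have hEF' : Commute E' F' := by
    change E' * F' = F' * E'
    rw [hE', hF', ← LinearMap.baseChange_mul, ← LinearMap.baseChange_mul, hEF.eq]
  have hν' : Module.End.HasEigenvalue (E' * F') ν := by
    rw [hE', hF', ← LinearMap.baseChange_mul]
    exact hasEig_of_root (E * F) ν hν
  -- the eigenspace is stable under E'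
  set W := Module.End.eigenspace (E' * F') ν with hW
  have hWne : W ≠ ⊥ := hν'
  have hst : ∀ w ∈ W, E' w ∈ W := by
    intro w hw
    rw [hW, Module.End.mem_eigenspace_iff] at hw ⊢
    have : Commute (E' * F') E' := by
      change E' * F' * E' = E' * (E' * F')
      rw [mul_assoc, ← hEF'.eq]
    calc (E' * F') (E' w) = ((E' * F') * E') w := rfl
      _ = (E' * (E' * F')) w := by rw [this.eq]
      _ = E' ((E' * F') w) := rfl
      _ = ν • E' w := by rw [hw, map_smul]
  have hnt : Nontrivial W := Submodule.nontrivial_iff_ne_bot.mpr hWne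
  obtain ⟨lam, hlam⟩ := Module.End.exists_eigenvalue (K := AlgebraicClosure K) (V := W)
    (LinearMap.restrict E' hst : Module.End (AlgebraicClosure K) W)
  obtain ⟨w, hw⟩ := hlam.exists_hasEigenvector
  have hw1 : E' (w : AlgebraicClosure K ⊗[K] M) = lam • (w : AlgebraicClosure K ⊗[K] M) := by
    have h := hw.apply_eq_smul
    have h2 := congrArg (Subtype.val) h
    simpa using h2
  have hw0 : (w : AlgebraicClosure K ⊗[K] M) ≠ 0 := by
    intro h
    exact hw.2 (Subtype.ext h)
  have hw2 : (E' * F') (w : AlgebraicClosure K ⊗[K] M) = ν • (w : AlgebraicClosure K ⊗[K] M) := by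
    exact Module.End.mem_eigenspace_iff.mp w.2
  have hw3 : F' (lam • (w : AlgebraicClosure K ⊗[K] M)) = ν • (w : AlgebraicClosure K ⊗[K] M) := by
    rw [← hw1, ← hw2, hEF'.eq]
    rfl
  have hlamr : aeval lam (minpoly K E) = 0 := root_of_hasEig E lam w hw0 hw1
  by_cases h0 : lam = 0
  · have hν0 : ν = 0 := by
      rw [h0, zero_smul, map_zero] at hw3
      rcases smul_eq_zero.mp hw3.symm with h | h
      · exact h
      · exact absurd h hw0
    have : Nontrivial (AlgebraicClosure K ⊗[K] M) := ⟨⟨w, 0, hw0⟩⟩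
    obtain ⟨mu, hmu⟩ := Module.End.exists_eigenvalue F'
    obtain ⟨u, hu⟩ := hmu.exists_hasEigenvector
    exact ⟨lam, mu, hlamr, root_of_hasEig F mu u hu.2 hu.apply_eq_smul, by rw [hν0, h0, zero_mul]⟩
  · refine ⟨lam, lam⁻¹ * ν, hlamr, root_of_hasEig F _ w hw0 ?_, by
      rw [← mul_assoc, mul_inv_cancel₀ h0, one_mul]⟩
    rw [map_smul] at hw3
    have : F' (w : AlgebraicClosure K ⊗[K] M) = lam⁻¹ • (lam • F' (w : AlgebraicClosure K ⊗[K] M)) := by
      rw [smul_smul, inv_mul_cancel₀ h0, one_smul]
    rw [← hF', this, hw3, smul_smul]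

theorem root_minpoly_pow (E : Module.End K M) (f : ℕ) (ν : AlgebraicClosure K)
    (hν : aeval ν (minpoly K (E ^ f)) = 0) : ∃ lam : AlgebraicClosure K,
      aeval lam (minpoly K E) = 0 ∧ ν = lam ^ f := by
  set E' := LinearMap.baseChange (AlgebraicClosure K) E with hE'
  have hpow : LinearMap.baseChange (AlgebraicClosure K) (E ^ f) = E' ^ f := by
    rw [hE', LinearMap.baseChange_pow]
  have hν' : Module.End.HasEigenvalue (E' ^ f) ν := by
    rw [← hpow]
    exact hasEig_of_root (E ^ f) ν hν
  set W := Module.End.eigenspace (E' ^ f) ν with hW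
  have hWne : W ≠ ⊥ := hν'
  have hst : ∀ w ∈ W, E' w ∈ W := by
    intro w hw
    rw [hW, Module.End.mem_eigenspace_iff] at hw ⊢
    calc (E' ^ f) (E' w) = ((E' ^ f) * E') w := rfl
      _ = (E' * (E' ^ f)) w := by rw [← pow_succ, ← pow_succ']
      _ = E' ((E' ^ f) w) := rfl
      _ = ν • E' w := by rw [hw, map_smul]
  have hnt : Nontrivial W := Submodule.nontrivial_iff_ne_bot.mpr hWne
  obtain ⟨lam, hlam⟩ := Module.End.exists_eigenvalue (K := AlgebraicClosure K) (V := W)
    (LinearMap.restrict E' hst : Module.End (AlgebraicClosure K) W)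
  obtain ⟨w, hw⟩ := hlam.exists_hasEigenvector
  have hw1 : E' (w : AlgebraicClosure K ⊗[K] M) = lam • (w : AlgebraicClosure K ⊗[K] M) := by
    have h := hw.apply_eq_smul
    have h2 := congrArg (Subtype.val) h
    simpa using h2
  have hw0 : (w : AlgebraicClosure K ⊗[K] M) ≠ 0 := by
    intro h
    exact hw.2 (Subtype.ext h)
  have hw2 : (E' ^ f) (w : AlgebraicClosure K ⊗[K] M) = ν • (w : AlgebraicClosure K ⊗[K] M) := by
    exact Module.End.mem_eigenspace_iff.mp w.2
  have hw4 : ∀ n : ℕ, (E' ^ n) (w : AlgebraicClosure K ⊗[K] M) = lam ^ n • (w : AlgebraicClosure K ⊗[K] M) := by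
    intro n
    induction n with
    | zero => simp
    | succ n ih => rw [pow_succ, Module.End.mul_apply, hw1, map_smul, ih, smul_smul, ← pow_succ']
  refine ⟨lam, root_of_hasEig E lam w hw0 hw1, ?_⟩
  have h5 : ν • (w : AlgebraicClosure K ⊗[K] M) = lam ^ f • (w : AlgebraicClosure K ⊗[K] M) := by rw [← hw2, hw4]
  exact smul_left_injective (AlgebraicClosure K) hw0 h5

/-- Roots of the minimal polynomial of an inverse. -/
theorem root_minpoly_inv (E F : Module.End K M) (hEF : E * F = 1) (ν : AlgebraicClosure K)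
    (hν : aeval ν (minpoly K F) = 0) : ∃ lam : AlgebraicClosure K,
      aeval lam (minpoly K E) = 0 ∧ ν = lam⁻¹ ∧ lam ≠ 0 := by
  set E' := LinearMap.baseChange (AlgebraicClosure K) E with hE'
  set F' := LinearMap.baseChange (AlgebraicClosure K) F with hF'
  obtain ⟨w, hw⟩ := (hasEig_of_root F ν hν).exists_hasEigenvector
  have hw1 : F' w = ν • w := hw.apply_eq_smul
  have hw0 : w ≠ 0 := hw.2
  have h1 : E' * F' = 1 := by
    rw [hE', hF', ← LinearMap.baseChange_mul, hEF, LinearMap.baseChange_one]
  have h2 : ν • E' w = w := by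
    rw [← map_smul, ← hw1]
    change (E' * F') w = w
    rw [h1]
    rfl
  have hν0 : ν ≠ 0 := by
    intro h
    rw [h, zero_smul] at h2
    exact hw0 h2.symm
  refine ⟨ν⁻¹, root_of_hasEig E _ w hw0 ?_, (inv_inv ν).symm, inv_ne_zero hν0⟩
  rw [← hE']
  conv_rhs => rw [← h2]
  rw [smul_smul, inv_mul_cancel₀ hν0, one_smul]

end Pool.Agent.FRC
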