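import Mathlib
import Pool.Agent.FRC.POL1

open Polynomial TensorProduct

namespace Pool.Agent.FRC

variable {K : Type} [Field K]

/-- The polynomial of the `f`-th powers: take the minimal polynomial of `x ^ f` acting on
`AdjoinRoot p`. -/
theorem exists_powPoly (p : K[X]) (hp : p ≠ 0) (f : ℕ) : ∃ P : K[X], P ≠ 0 ∧
    (∀ ν : AlgebraicClosure K, aeval ν P = 0 →
      ∃ lam : AlgebraicClosure K, aeval lam p = 0 ∧ ν = lam ^ f) ∧
    p ∣ P.comp (X ^ f) := by
  have : Module.Finite K (AdjoinRoot p) := (AdjoinRoot.powerBasis hp).finite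
  set E : Module.End K (AdjoinRoot p) := Algebra.lmul K (AdjoinRoot p) (AdjoinRoot.root p) with hE
  have hE0 : aeval E p = 0 := by
    rw [hE, aeval_algHom_apply, AdjoinRoot.aeval_eq, AdjoinRoot.mk_self, map_zero]
  refine ⟨minpoly K (E ^ f), minpoly.ne_zero (Algebra.IsIntegral.isIntegral _), ?_, ?_⟩
  · intro ν hν
    obtain ⟨lam, h1, h2⟩ := root_minpoly_pow E f ν hν
    refine ⟨lam, ?_, h2⟩
    obtain ⟨c, hc⟩ := minpoly.dvd K E hE0
    rw [hc, map_mul, h1, zero_mul]
  · rw [← AdjoinRoot.mk_eq_zero, ← AdjoinRoot.aeval_eq, aeval_comp, aeval_X_pow]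
    have h1 : aeval (E ^ f) (minpoly K (E ^ f)) = 0 := minpoly.aeval K _
    rw [hE, ← map_pow] at h1
    rw [hE, ← map_pow]
    rw [aeval_algHom_apply] at h1
    have h2 := congrArg (fun T : Module.End K (AdjoinRoot p) => T 1) h1
    simpa using h2

/-- The polynomial of the products: take the minimal polynomial of `x ⊗ y` acting on
`AdjoinRoot p ⊗ AdjoinRoot r`. The last statement is used for commuting operators `a`, `b` and
stable subspaces. -/
theorem exists_mulPoly (p r : K[X]) (hp : p ≠ 0) (hr : r ≠ 0) : ∃ P : K[X], P ≠ 0 ∧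
    (∀ ν : AlgebraicClosure K, aeval ν P = 0 → ∃ lam mu : AlgebraicClosure K,
      aeval lam p = 0 ∧ aeval mu r = 0 ∧ ν = lam * mu) ∧
    ∀ (R : Type) [Ring R] [Algebra K R] (a b : R), Commute a b →
      ∃ c ∈ Algebra.adjoin K {a, b}, ∃ d ∈ Algebra.adjoin K {a, b},
        aeval (a * b) P = c * aeval a p + d * aeval b r := by
  have : Module.Finite K (AdjoinRoot p) := (AdjoinRoot.powerBasis hp).finite
  have : Module.Finite K (AdjoinRoot r) := (AdjoinRoot.powerBasis hr).finite
  set x : AdjoinRoot p ⊗[K] AdjoinRoot r := AdjoinRoot.root p ⊗ₜ[K] 1 with hx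
  set y : AdjoinRoot p ⊗[K] AdjoinRoot r := 1 ⊗ₜ[K] AdjoinRoot.root r with hy
  have hx0 : aeval x p = 0 := by
    have h := aeval_algHom_apply (Algebra.TensorProduct.includeLeft :
      AdjoinRoot p →ₐ[K] AdjoinRoot p ⊗[K] AdjoinRoot r) (AdjoinRoot.root p) p
    rw [AdjoinRoot.aeval_eq, AdjoinRoot.mk_self, map_zero] at h
    exact h
  have hy0 : aeval y r = 0 := by
    have h := aeval_algHom_apply (Algebra.TensorProduct.includeRight :
      AdjoinRoot r →ₐ[K] AdjoinRoot p ⊗[K] AdjoinRoot r) (AdjoinRoot.root r) r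
    rw [AdjoinRoot.aeval_eq, AdjoinRoot.mk_self, map_zero] at h
    exact h
  set L := Algebra.lmul K (AdjoinRoot p ⊗[K] AdjoinRoot r) with hL
  have hEx : aeval (L x) p = 0 := by
    rw [aeval_algHom_apply, hx0, map_zero]
  have hEy : aeval (L y) r = 0 := by
    rw [aeval_algHom_apply, hy0, map_zero]
  have hcom : Commute (L x) (L y) := by
    change L x * L y = L y * L x
    rw [← map_mul, ← map_mul, mul_comm]
  refine ⟨minpoly K (L x * L y), minpoly.ne_zero (Algebra.IsIntegral.isIntegral _), ?_, ?_⟩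
  · intro ν hν
    obtain ⟨lam, mu, h1, h2, h3⟩ := root_minpoly_mul (L x) (L y) hcom ν hν
    refine ⟨lam, mu, ?_, ?_, h3⟩
    · obtain ⟨c, hc⟩ := minpoly.dvd K (L x) hEx
      rw [hc, map_mul, h1, zero_mul]
    · obtain ⟨c, hc⟩ := minpoly.dvd K (L y) hEy
      rw [hc, map_mul, h2, zero_mul]
  · intro R _ _ a b hab
    have hxy : aeval (x * y) (minpoly K (L x * L y)) = 0 := by
      have h1 : aeval (L x * L y) (minpoly K (L x * L y)) = 0 := minpoly.aeval K _
      rw [← map_mul] at h1
      rw [aeval_algHom_apply] at h1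
      have h2 : (L (aeval (x * y) (minpoly K (L (x * y))))) 1 = 0 := by
        rw [h1, LinearMap.zero_apply]
      rw [← map_mul]
      have h3 : ∀ z : AdjoinRoot p ⊗[K] AdjoinRoot r, L z 1 = z := by
        intro z
        rw [hL, Algebra.coe_lmul_eq_mul, LinearMap.mul_apply', mul_one]
      rw [h3] at h2
      exact h2
    have hmc : ∀ u ∈ ({a, b} : Set R), ∀ v ∈ ({a, b} : Set R), u * v = v * u := by
      intro u hu v hv
      rcases hu with rfl | rfl <;> rcases hv with rfl | rfl
      · rfl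
      · exact hab.eq
      · exact hab.eq.symm
      · rfl
    have hcm := Algebra.isMulCommutative_adjoin K hmc
    let _ : CommRing (Algebra.adjoin K {a, b}) :=
      { (inferInstance : Ring (Algebra.adjoin K {a, b})) with mul_comm := hcm.is_comm.comm }
    have ha : a ∈ Algebra.adjoin K {a, b} := Algebra.subset_adjoin (by simp)
    have hb : b ∈ Algebra.adjoin K {a, b} := Algebra.subset_adjoin (by simp)
    let a' : Algebra.adjoin K {a, b} := ⟨a, ha⟩
    let b' : Algebra.adjoin K {a, b} := ⟨b, hb⟩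
    let I : Ideal (Algebra.adjoin K {a, b}) := Ideal.span {aeval a' p, aeval b' r}
    let q : Algebra.adjoin K {a, b} →ₐ[K] (Algebra.adjoin K {a, b}) ⧸ I := Ideal.Quotient.mkₐ K I
    have hqa : aeval (q a') p = 0 := by
      rw [aeval_algHom_apply]
      exact Ideal.Quotient.eq_zero_iff_mem.mpr (Ideal.subset_span (by simp))
    have hqb : aeval (q b') r = 0 := by
      rw [aeval_algHom_apply]
      exact Ideal.Quotient.eq_zero_iff_mem.mpr (Ideal.subset_span (by simp))
    let fa : AdjoinRoot p →ₐ[K] (Algebra.adjoin K {a, b}) ⧸ I :=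
      AdjoinRoot.liftAlgHom p (Algebra.ofId K _) (q a') hqa
    let fb : AdjoinRoot r →ₐ[K] (Algebra.adjoin K {a, b}) ⧸ I :=
      AdjoinRoot.liftAlgHom r (Algebra.ofId K _) (q b') hqb
    have hfa : fa (AdjoinRoot.root p) = q a' := AdjoinRoot.liftAlgHom_root _ _ _ _
    have hfb : fb (AdjoinRoot.root r) = q b' := AdjoinRoot.liftAlgHom_root _ _ _ _
    have h4 : q (aeval (a' * b') (minpoly K (L x * L y))) = 0 := by
      have h5 := aeval_algHom_apply (Algebra.TensorProduct.productMap fa fb) (x * y)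
        (minpoly K (L x * L y))
      rw [hxy, map_zero, map_mul, hx, hy, Algebra.TensorProduct.productMap_apply_tmul,
        Algebra.TensorProduct.productMap_apply_tmul, map_one, map_one, mul_one, one_mul, hfa, hfb,
        ← map_mul, aeval_algHom_apply] at h5
      exact h5
    have h6 : aeval (a' * b') (minpoly K (L x * L y)) ∈ I := Ideal.Quotient.eq_zero_iff_mem.mp h4
    obtain ⟨c, d, h7⟩ := Ideal.mem_span_pair.mp h6
    refine ⟨c, c.2, d, d.2, ?_⟩
    have h8 := congrArg (Algebra.adjoin K {a, b}).val h7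
    rw [map_add, map_mul, map_mul, ← aeval_algHom_apply, ← aeval_algHom_apply,
      ← aeval_algHom_apply, map_mul] at h8
    exact h8.symm

end Pool.Agent.FRC
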