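import Mathlib
import Pool.Agent.FRC.MIX
import Pool.Agent.FRC.WEI
import Pool.Agent.FRC.POL2

open CategoryTheory Polynomial TensorProduct NumberField

namespace Pool.Agent.FRC

open Pool.Agent.H12

variable {k : Type} [Field k] {ℓ : ℕ} [Fact ℓ.Prime]

private theorem te1_nrm_ne_zero {𝔓 : Ideal (Zb k)} (hmax : 𝔓.IsMaximal) {σ : GG k}
    (hσ : FrobAt 𝔓 (nrm 𝔓) σ) : nrm 𝔓 ≠ 0 := by
  intro h0
  rw [h0] at hσ
  have h := hσ 0 0 (by simp)
  rw [pow_zero, zero_sub] at h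
  exact hmax.ne_top ((Ideal.eq_top_iff_one _).mpr (by simpa using 𝔓.neg_mem h))

private theorem te1_notMem_of_dvd {N M : ℕ} (hNM : N ∣ M) {𝔓 : Ideal (Zb k)}
    (h : (M : Zb k) ∉ 𝔓) : (N : Zb k) ∉ 𝔓 := by
  intro hmem
  apply h
  obtain ⟨c, rfl⟩ := hNM
  rw [Nat.cast_mul]
  exact Ideal.mul_mem_right _ _ hmem

/-- A polynomial in an endomorphism preserves a stable subspace. -/
private theorem te1_adjoin_mem {K : Type} [Field K] {M : Type} [AddCommGroup M] [Module K M]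
    (S : Submodule K M) (a b : Module.End K M) (ha : ∀ v ∈ S, a v ∈ S) (hb : ∀ v ∈ S, b v ∈ S)
    (c : Module.End K M) (hc : c ∈ Algebra.adjoin K {a, b}) : ∀ v ∈ S, c v ∈ S := by
  induction hc using Algebra.adjoin_induction with
  | mem x hx =>
    rcases hx with rfl | rfl
    · exact ha
    · exact hb
  | algebraMap r =>
    intro v hv
    rw [Module.algebraMap_end_apply]
    exact S.smul_mem r hv
  | add x y _ _ hx hy =>
    intro v hv
    exact S.add_mem (hx v hv) (hy v hv)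
  | mul x y _ _ hx hy =>
    intro v hv
    exact hx _ (hy v hv)

theorem unram_tprod {V X : RepG k ℓ} {N : ℕ} (hV : UnramOutside V N) (hX : UnramOutside X N) :
    UnramOutside (Rep.of (V.ρ.tprod X.ρ) : RepG k ℓ) N := by
  intro 𝔓 hm hN σ hσ v
  have h1 : V.ρ σ = LinearMap.id := LinearMap.ext fun x => hV 𝔓 hm hN σ hσ x
  have h2 : X.ρ σ = LinearMap.id := LinearMap.ext fun x => hX 𝔓 hm hN σ hσ x
  change TensorProduct.map (V.ρ σ) (X.ρ σ) v = v
  rw [h1, h2, TensorProduct.map_id]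
  rfl

theorem unram_linHom {V X : RepG k ℓ} {N : ℕ} (hV : UnramOutside V N) (hX : UnramOutside X N) :
    UnramOutside (Rep.of (V.ρ.linHom X.ρ) : RepG k ℓ) N := by
  intro 𝔓 hm hN σ hσ v
  have h1 : V.ρ σ = 1 := LinearMap.ext fun x => hV 𝔓 hm hN σ hσ x
  have h2 : X.ρ σ = LinearMap.id := LinearMap.ext fun x => hX 𝔓 hm hN σ hσ x
  have h3 : V.ρ σ⁻¹ = LinearMap.id := by
    have h4 : V.ρ σ⁻¹ * V.ρ σ = 1 := by rw [← map_mul, inv_mul_cancel, map_one]
    rw [h1, mul_one] at h4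
    exact h4
  change X.ρ σ ∘ₗ v ∘ₗ V.ρ σ⁻¹ = v
  rw [h2, h3, LinearMap.comp_id, LinearMap.id_comp]

/-- `V ⊗ X` for `V` pure of weight `v`: the filtration is the image of `V ⊗ W (m - v)`, Frobenius
is `(F ⊗ 1) (1 ⊗ F)`; use `exists_mulPoly` with `p` from `X` and `r = minpoly` of `F` on `V`. -/
theorem mixed_tprod {V X : RepG k ℓ} [FiniteDimensional ℚ_[ℓ] V] [FiniteDimensional ℚ_[ℓ] X]
    {v : ℤ} (hV : IsPure V v) {N : ℕ} {W : ℤ → Submodule ℚ_[ℓ] X} (hN : N ≠ 0)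
    (hX : MixedP X N W) : ∃ (N' : ℕ) (W' : ℤ → Submodule ℚ_[ℓ]
      (Rep.of (V.ρ.tprod X.ρ) : RepG k ℓ)), N' ≠ 0 ∧
      MixedP (Rep.of (V.ρ.tprod X.ρ) : RepG k ℓ) N' W' := by
  obtain ⟨N₀, hN₀, -, hF⟩ := hV
  obtain ⟨hmono, ⟨a, ha⟩, ⟨b, hb⟩, hst, hX5⟩ := hX
  let W' : ℤ → Submodule ℚ_[ℓ] (V ⊗[ℚ_[ℓ]] X) := fun m =>
    Submodule.map₂ (TensorProduct.mk ℚ_[ℓ] V X) ⊤ (W (m - v))
  have hmap : ∀ (f : V →ₗ[ℚ_[ℓ]] V) (g : X →ₗ[ℚ_[ℓ]] X) (m n : ℤ),
      (∀ x ∈ W (m - v), g x ∈ W (n - v)) → ∀ z ∈ W' m, TensorProduct.map f g z ∈ W' n := by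
    intro f g m n hg z hz
    have hle : W' m ≤ (W' n).comap (TensorProduct.map f g) := by
      refine Submodule.map₂_le.mpr fun y _ x hx => ?_
      rw [Submodule.mem_comap]
      change TensorProduct.map f g (y ⊗ₜ x) ∈ _
      rw [TensorProduct.map_tmul]
      exact Submodule.apply_mem_map₂ _ Submodule.mem_top (hg x hx)
    exact hle hz
  refine ⟨N * N₀, W', Nat.mul_ne_zero hN hN₀, ?_, ⟨a + v, ?_⟩, ⟨b + v, ?_⟩, ?_, ?_⟩
  · intro m n hmn
    exact Submodule.map₂_le_map₂_right (hmono (by omega))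
  · change Submodule.map₂ _ _ (W (a + v - v)) = ⊥
    rw [add_sub_cancel_right, ha, Submodule.map₂_bot_right]
  · change Submodule.map₂ _ _ (W (b + v - v)) = ⊤
    rw [add_sub_cancel_right, hb, TensorProduct.map₂_mk_top_top_eq_top]
  · intro m g z hz
    exact hmap (V.ρ g) (X.ρ g) m m (hst _ g) z hz
  · intro 𝔓 hmax hNN σ hσ m
    have hq := te1_nrm_ne_zero hmax hσ
    obtain ⟨p, hp0, hpW, hp⟩ := hX5 𝔓 hmax (te1_notMem_of_dvd (dvd_mul_right _ _) hNN) σ hσ (m - v)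
    have hr := hF 𝔓 hmax (te1_notMem_of_dvd (dvd_mul_left _ _) hNN) σ hσ
    obtain ⟨P, hP0, hPr, hPc⟩ := exists_mulPoly p (minpoly ℚ_[ℓ] (V.ρ σ⁻¹)) hp0
      (minpoly.ne_zero (Algebra.IsIntegral.isIntegral _))
    refine ⟨P, hP0, ?_, ?_⟩
    · intro μ hμ
      obtain ⟨lam, mu, h1, h2, h3⟩ := hPr μ hμ
      have h4 := isWeil_mul hq (hpW lam h1) (hr mu h2)
      rw [sub_add_cancel, ← h3] at h4
      exact h4
    · intro z hz
      set A : Module.End ℚ_[ℓ] (V ⊗[ℚ_[ℓ]] X) := TensorProduct.map LinearMap.id (X.ρ σ⁻¹) with hA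
      set B : Module.End ℚ_[ℓ] (V ⊗[ℚ_[ℓ]] X) := TensorProduct.map (V.ρ σ⁻¹) LinearMap.id with hB
      have hAB : A * B = TensorProduct.map (V.ρ σ⁻¹) (X.ρ σ⁻¹) := by
        rw [hA, hB, Module.End.mul_eq_comp, ← TensorProduct.map_comp, LinearMap.id_comp,
          LinearMap.comp_id]
      have hBA : B * A = TensorProduct.map (V.ρ σ⁻¹) (X.ρ σ⁻¹) := by
        rw [hA, hB, Module.End.mul_eq_comp, ← TensorProduct.map_comp, LinearMap.id_comp,
          LinearMap.comp_id]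
      obtain ⟨c, hc, d, -, h1⟩ := hPc (Module.End ℚ_[ℓ] (V ⊗[ℚ_[ℓ]] X)) A B (hAB.trans hBA.symm)
      have hAp : ∀ s : ℚ_[ℓ][X], aeval A s = TensorProduct.map LinearMap.id (aeval (X.ρ σ⁻¹) s) := by
        intro s
        have h := aeval_algHom_apply (Module.End.lTensorAlgHom ℚ_[ℓ] X V) (X.ρ σ⁻¹) s
        exact h
      have hBp : ∀ s : ℚ_[ℓ][X], aeval B s = TensorProduct.map (aeval (V.ρ σ⁻¹) s) LinearMap.id := by
        intro s
        have h := aeval_algHom_apply (Module.End.rTensorAlgHom ℚ_[ℓ] V X) (V.ρ σ⁻¹) s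
        exact h
      rw [hAp, hBp, minpoly.aeval, TensorProduct.map_zero_left, mul_zero, add_zero, hAB] at h1
      change aeval (TensorProduct.map (V.ρ σ⁻¹) (X.ρ σ⁻¹) : Module.End ℚ_[ℓ] (V ⊗[ℚ_[ℓ]] X)) P z
        ∈ W' (m - 1)
      rw [h1, Module.End.mul_apply]
      refine te1_adjoin_mem _ A B ?_ ?_ c hc _ ?_
      · exact hmap _ _ _ _ (hst _ _)
      · exact hmap _ _ _ _ (fun x hx => hx)
      · refine hmap _ _ m (m - 1) (fun x hx => ?_) z hz
        have h2 := hp x hx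
        rwa [show m - 1 - v = m - v - 1 by ring]

/-- `Hom(V, X)` for `V` pure of weight `v`: the filtration is `Hom(V, W (m + v))`, and Frobenius
`F` acts by `f ↦ F f F⁻¹`, the product of the commuting operators `f ↦ F f` and `f ↦ f F⁻¹`;
the eigenvalues of `F⁻¹` on `V` are inverses (`root_minpoly_inv`, `isWeil_inv`). -/
theorem mixed_linHom {V X : RepG k ℓ} [FiniteDimensional ℚ_[ℓ] V] [FiniteDimensional ℚ_[ℓ] X]
    {v : ℤ} (hV : IsPure V v) {N : ℕ} {W : ℤ → Submodule ℚ_[ℓ] X} (hN : N ≠ 0)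
    (hX : MixedP X N W) : ∃ (N' : ℕ) (W' : ℤ → Submodule ℚ_[ℓ]
      (Rep.of (V.ρ.linHom X.ρ) : RepG k ℓ)), N' ≠ 0 ∧
      MixedP (Rep.of (V.ρ.linHom X.ρ) : RepG k ℓ) N' W' := by
  obtain ⟨N₀, hN₀, -, hF⟩ := hV
  obtain ⟨hmono, ⟨a, ha⟩, ⟨b, hb⟩, hst, hX5⟩ := hX
  let W' : ℤ → Submodule ℚ_[ℓ] (V →ₗ[ℚ_[ℓ]] X) := fun m =>
    Submodule.compatibleMaps ⊤ (W (m + v))
  have hmem : ∀ (m : ℤ) (f : V →ₗ[ℚ_[ℓ]] X), f ∈ W' m ↔ ∀ x, f x ∈ W (m + v) := by
    intro m f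
    constructor
    · intro h x
      exact h (Submodule.mem_top : x ∈ (⊤ : Submodule ℚ_[ℓ] V))
    · intro h x _
      exact h x
  refine ⟨N * N₀, W', Nat.mul_ne_zero hN hN₀, ?_, ⟨a - v, ?_⟩, ⟨b - v, ?_⟩, ?_, ?_⟩
  · intro m n hmn f hf
    exact (hmem n f).mpr fun x => hmono (by omega) ((hmem m f).mp hf x)
  · refine le_bot_iff.mp fun f hf => ?_
    rw [Submodule.mem_bot]
    refine LinearMap.ext fun x => ?_
    have h := (hmem _ f).mp hf x
    rw [sub_add_cancel, ha] at h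
    exact (Submodule.mem_bot _).mp h
  · refine top_le_iff.mp fun f _ => (hmem _ f).mpr fun x => ?_
    rw [sub_add_cancel, hb]
    exact Submodule.mem_top
  · intro m g f hf
    exact (hmem m _).mpr fun x => hst _ g _ ((hmem m f).mp hf _)
  · intro 𝔓 hmax hNN σ hσ m
    have hq := te1_nrm_ne_zero hmax hσ
    obtain ⟨p, hp0, hpW, hp⟩ := hX5 𝔓 hmax (te1_notMem_of_dvd (dvd_mul_right _ _) hNN) σ hσ (m + v)
    have hr := hF 𝔓 hmax (te1_notMem_of_dvd (dvd_mul_left _ _) hNN) σ hσ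
    obtain ⟨P, hP0, hPr, hPc⟩ := exists_mulPoly p (minpoly ℚ_[ℓ] (V.ρ σ)) hp0
      (minpoly.ne_zero (Algebra.IsIntegral.isIntegral _))
    refine ⟨P, hP0, ?_, ?_⟩
    · intro μ hμ
      obtain ⟨lam, mu, h1, h2, h3⟩ := hPr μ hμ
      obtain ⟨mu', h5, h6, -⟩ := root_minpoly_inv (V.ρ σ⁻¹) (V.ρ σ)
        (by rw [← map_mul, inv_mul_cancel, map_one]) mu h2
      have h4 := isWeil_mul hq (hpW lam h1) (isWeil_inv hq (hr mu' h5))
      rw [← h6, ← h3, add_neg_cancel_right] at h4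
      exact h4
    · intro f hf
      let A : Module.End ℚ_[ℓ] (V →ₗ[ℚ_[ℓ]] X) := LinearMap.compRight ℚ_[ℓ] (X.ρ σ⁻¹)
      let B : Module.End ℚ_[ℓ] (V →ₗ[ℚ_[ℓ]] X) := LinearMap.lcomp ℚ_[ℓ] X (V.ρ σ)
      have hAB : A * B = B * A := rfl
      obtain ⟨c, hc, d, -, h1⟩ := hPc (Module.End ℚ_[ℓ] (V →ₗ[ℚ_[ℓ]] X)) A B hAB
      have hApow : ∀ (n : ℕ) (g : V →ₗ[ℚ_[ℓ]] X), (A ^ n) g = (X.ρ σ⁻¹ ^ n) ∘ₗ g := by
        intro n
        induction n with
        | zero => intro g; rfl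
        | succ n ih => intro g; rw [pow_succ', pow_succ', Module.End.mul_apply, ih]; rfl
      have hBpow : ∀ (n : ℕ) (g : V →ₗ[ℚ_[ℓ]] X), (B ^ n) g = g ∘ₗ (V.ρ σ ^ n) := by
        intro n
        induction n with
        | zero => intro g; rfl
        | succ n ih => intro g; rw [pow_succ', pow_succ, Module.End.mul_apply, ih]; rfl
      have hAp : ∀ (s : ℚ_[ℓ][X]) (g : V →ₗ[ℚ_[ℓ]] X), aeval A s g = (aeval (X.ρ σ⁻¹) s) ∘ₗ g := by
        intro s g
        induction s using Polynomial.induction_on' with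
        | add p q hp hq =>
          rw [map_add, map_add, LinearMap.add_apply, hp, hq, LinearMap.add_comp]
        | monomial n t =>
          rw [aeval_monomial, aeval_monomial, ← Algebra.smul_def, ← Algebra.smul_def,
            LinearMap.smul_apply, hApow, LinearMap.smul_comp]
      have hBp : ∀ (s : ℚ_[ℓ][X]) (g : V →ₗ[ℚ_[ℓ]] X), aeval B s g = g ∘ₗ (aeval (V.ρ σ) s) := by
        intro s g
        induction s using Polynomial.induction_on' with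
        | add p q hp hq =>
          rw [map_add, map_add, LinearMap.add_apply, hp, hq, LinearMap.comp_add]
        | monomial n t =>
          rw [aeval_monomial, aeval_monomial, ← Algebra.smul_def, ← Algebra.smul_def,
            LinearMap.smul_apply, hBpow, LinearMap.comp_smul]
      have hB0 : aeval B (minpoly ℚ_[ℓ] (V.ρ σ)) = 0 := by
        refine LinearMap.ext fun g => ?_
        rw [hBp, minpoly.aeval, LinearMap.comp_zero, LinearMap.zero_apply]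
      rw [hB0, mul_zero, add_zero] at h1
      have hop : (Rep.of (V.ρ.linHom X.ρ) : RepG k ℓ).ρ σ⁻¹ = A * B := by
        refine LinearMap.ext fun g => ?_
        change X.ρ σ⁻¹ ∘ₗ g ∘ₗ V.ρ σ⁻¹⁻¹ = X.ρ σ⁻¹ ∘ₗ g ∘ₗ V.ρ σ
        rw [inv_inv]
      rw [hop, h1, Module.End.mul_apply, hAp]
      refine te1_adjoin_mem (W' (m - 1)) A B ?_ ?_ c hc _ ?_
      · intro g hg
        exact (hmem _ _).mpr fun x => hst _ _ _ ((hmem _ g).mp hg x)
      · intro g hg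
        exact (hmem _ _).mpr fun x => (hmem _ g).mp hg _
      · refine (hmem _ _).mpr fun x => ?_
        have h2 := hp (f x) ((hmem _ f).mp hf x)
        rw [show m - 1 + v = m + v - 1 by ring]
        exact h2

end Pool.Agent.FRC
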