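import Mathlib
import Pool.Agent.FRC.CLO1
import Pool.Agent.FRC.CLO3
import Pool.Agent.FRC.CLO4

open CategoryTheory Polynomial TensorProduct NumberField

namespace Pool.Agent.FRC

open Pool.Agent.H12

variable {ℓ : ℕ} [Fact ℓ.Prime] {L : IntermediateField ℚ_[ℓ] (PadicAlgCl ℓ)}

section Generic

variable {R S M N : Type} [CommRing R] [CommRing S] [Algebra R S] [AddCommGroup M] [Module R M]
  [AddCommGroup N] [Module R N]

/-- The base change isomorphism followed by a semilinear map. -/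
private theorem te2_map_symm (α : S →ₐ[R] S) (p : M →ₗ[R] M) (q : N →ₗ[R] N)
    (x : S ⊗[R] M) (y : S ⊗[R] N) :
    TensorProduct.map α.toLinearMap (TensorProduct.map p q)
        ((TensorProduct.AlgebraTensorModule.distribBaseChange R S M N).symm (x ⊗ₜ[S] y)) =
      (TensorProduct.AlgebraTensorModule.distribBaseChange R S M N).symm
        ((TensorProduct.map α.toLinearMap p x) ⊗ₜ[S] (TensorProduct.map α.toLinearMap q y)) := by
  induction x using TensorProduct.induction_on with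
  | zero => simp
  | add x x' hx hx' => 
    rw [TensorProduct.add_tmul, map_add, map_add, map_add, TensorProduct.add_tmul, map_add, hx, hx']
  | tmul s m =>
    induction y using TensorProduct.induction_on with
    | zero => simp
    | add y y' hy hy' =>
      rw [TensorProduct.tmul_add, map_add, map_add, map_add, TensorProduct.tmul_add, map_add, hy,
        hy']
    | tmul t n =>
      simp

end Generic

/-- `B ⊗ (U ⊗ U')` is `(B ⊗ U) ⊗_B (B ⊗ U')`; products of the two fixed bases. -/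
theorem semistable_tprod {U U' : Rep.{0} ℚ_[ℓ] L.fixingSubgroup} (hU : IsSemistable L U)
    (hU' : IsSemistable L U') : IsSemistable L (Rep.of (U.ρ.tprod U'.ρ)) := by
  have := hU.1
  have := hU'.1
  have hfin : FiniteDimensional ℚ_[ℓ] (U ⊗[ℚ_[ℓ]] U') := inferInstance
  refine ⟨hfin, isCont_tprod hU.2.1 hU'.2.1, ?_⟩
  obtain ⟨b, hb⟩ := hU.2.2
  obtain ⟨b', hb'⟩ := hU'.2.2
  have hcard : Fintype.card (Fin (Module.finrank ℚ_[ℓ] U) × Fin (Module.finrank ℚ_[ℓ] U')) =
      Module.finrank ℚ_[ℓ] (U ⊗[ℚ_[ℓ]] U') := by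
    rw [Module.finrank_tensorProduct, Fintype.card_prod]
    simp
  refine ⟨((b.tensorProduct b').map
    (TensorProduct.AlgebraTensorModule.distribBaseChange ℚ_[ℓ] (Bst ℓ) U U').symm).reindex
    (Fintype.equivFinOfCardEq hcard), fun σ i => ?_⟩
  obtain ⟨⟨i, j⟩, rfl⟩ := (Fintype.equivFinOfCardEq hcard).surjective i
  rw [Module.Basis.reindex_apply, Equiv.symm_apply_apply, Module.Basis.map_apply,
    Module.Basis.tensorProduct_apply]
  have h := te2_map_symm (actBst (σ : GalP ℓ)) (U.ρ σ) (U'.ρ σ) (b i) (b' j)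
  refine h.trans ?_
  have h1 := hb σ i
  have h2 := hb' σ j
  rw [actBstLin] at h1 h2
  rw [h1, h2]

theorem pstAt_tprod {k : Type} [Field k] {X Y : RepG k ℓ}
    {ι : AlgebraicClosure k →+* PadicAlgCl ℓ} (hX : PstAt X ι L) (hY : PstAt Y ι L) :
    PstAt (Rep.of (X.ρ.tprod Y.ρ) : RepG k ℓ) ι L := by
  obtain ⟨U, hU, A, π, hπ, hA, hc⟩ := hX
  obtain ⟨U', hU', A', π', hπ', hA', hc'⟩ := hY
  let j : (A ⊗[ℚ_[ℓ]] A') →ₗ[ℚ_[ℓ]] (U ⊗[ℚ_[ℓ]] U') := TensorProduct.map A.subtype A'.subtype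
  have hj : Function.Injective j :=
    TensorProduct.map_injective_of_flat_flat _ _ A.injective_subtype A'.injective_subtype
  let e : (A ⊗[ℚ_[ℓ]] A') ≃ₗ[ℚ_[ℓ]] LinearMap.range j := LinearEquiv.ofInjective j hj
  have he : ∀ z, ((e z : LinearMap.range j) : U ⊗[ℚ_[ℓ]] U') = j z := fun z => rfl
  have hj1 : ∀ (σ : L.fixingSubgroup) (z : A ⊗[ℚ_[ℓ]] A'),
      TensorProduct.map (U.ρ σ) (U'.ρ σ) (j z) =
        j (TensorProduct.map ((U.ρ σ).restrict (hA σ)) ((U'.ρ σ).restrict (hA' σ)) z) := by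
    intro σ z
    have h : (TensorProduct.map (U.ρ σ) (U'.ρ σ)) ∘ₗ j =
        j ∘ₗ TensorProduct.map ((U.ρ σ).restrict (hA σ)) ((U'.ρ σ).restrict (hA' σ)) := by
      apply TensorProduct.ext'
      intro a a'
      rfl
    exact LinearMap.congr_fun h z
  have hj2 : ∀ (σ : L.fixingSubgroup) (g : GG k), (∀ x, ι (g x) = (σ : GalP ℓ) (ι x)) →
      ∀ z : A ⊗[ℚ_[ℓ]] A', TensorProduct.map π π'
        (TensorProduct.map ((U.ρ σ).restrict (hA σ)) ((U'.ρ σ).restrict (hA' σ)) z) =
          TensorProduct.map (X.ρ g) (Y.ρ g) (TensorProduct.map π π' z) := by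
    intro σ g hg z
    have h : (TensorProduct.map π π') ∘ₗ
        (TensorProduct.map ((U.ρ σ).restrict (hA σ)) ((U'.ρ σ).restrict (hA' σ))) =
          (TensorProduct.map (X.ρ g) (Y.ρ g)) ∘ₗ (TensorProduct.map π π') := by
      apply TensorProduct.ext'
      intro a a'
      simp only [LinearMap.comp_apply, TensorProduct.map_tmul]
      rw [hc σ g hg a ((U.ρ σ).restrict (hA σ) a) rfl,
        hc' σ g hg a' ((U'.ρ σ).restrict (hA' σ) a') rfl]
    exact LinearMap.congr_fun h z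
  refine ⟨Rep.of (U.ρ.tprod U'.ρ), semistable_tprod hU hU', LinearMap.range j,
    (TensorProduct.map π π') ∘ₗ e.symm.toLinearMap, ?_, ?_, ?_⟩
  · exact (TensorProduct.map_surjective hπ hπ').comp e.symm.surjective
  · rintro σ _ ⟨z, rfl⟩
    exact ⟨_, (hj1 σ z).symm⟩
  · intro σ g hg a c hca
    obtain ⟨z, rfl⟩ := e.surjective a
    obtain ⟨w, rfl⟩ := e.surjective c
    have h1 : j w = TensorProduct.map (U.ρ σ) (U'.ρ σ) (j z) := hca
    rw [hj1 σ z] at h1
    have h2 := hj h1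
    change TensorProduct.map π π' (e.symm (e w)) =
      TensorProduct.map (X.ρ g) (Y.ρ g) (TensorProduct.map π π' (e.symm (e z)))
    rw [e.symm_apply_apply, e.symm_apply_apply, h2]
    exact hj2 σ g hg z

end Pool.Agent.FRC
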