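import Mathlib
import Pool.Agent.FRC.CLO1
import Pool.Agent.FRC.CLO3
import Pool.Agent.FRC.CLO4

open CategoryTheory Polynomial TensorProduct NumberField

namespace Pool.Agent.FRC

section Abs

variable {K B U U' : Type} [Field K] [CommRing B] [Algebra K B]
  [AddCommGroup U] [Module K U] [FiniteDimensional K U]
  [AddCommGroup U'] [Module K U'] [FiniteDimensional K U']

private noncomputable def te3Phi (K B U U' : Type) [Field K] [CommRing B] [Algebra K B]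
    [AddCommGroup U] [Module K U] [FiniteDimensional K U]
    [AddCommGroup U'] [Module K U'] :
    B ⊗[K] (U →ₗ[K] U') ≃ₗ[B] ((B ⊗[K] U) →ₗ[B] (B ⊗[K] U')) :=
  (IsBaseChange.linearMapLeftRight (TensorProduct.isBaseChange K U B)
    (TensorProduct.isBaseChange K U' B)).equiv

omit [FiniteDimensional K U'] in
private theorem te3Phi_tmul (β : B) (f : U →ₗ[K] U') (b : B) (u : U) :
    te3Phi K B U U' (β ⊗ₜ f) (b ⊗ₜ u) = (β * b) ⊗ₜ f u := by
  unfold te3Phi
  rw [IsBaseChange.equiv_tmul, LinearMap.smul_apply]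
  have h1 : (b ⊗ₜ[K] u : B ⊗[K] U) = b • (TensorProduct.mk K B U 1 u) := by
    rw [TensorProduct.mk_apply, TensorProduct.smul_tmul', smul_eq_mul, mul_one]
  rw [h1, map_smul, IsBaseChange.linearMapLeftRightHom_comp_apply, TensorProduct.mk_apply,
    TensorProduct.smul_tmul', TensorProduct.smul_tmul', smul_eq_mul, smul_eq_mul, mul_one]

omit [FiniteDimensional K U'] in
private theorem te3Phi_equiv (a : B →ₐ[K] B) (ρ ρi : U →ₗ[K] U) (ρ' : U' →ₗ[K] U')
    (hinv : ρi ∘ₗ ρ = LinearMap.id) (T : (U →ₗ[K] U') →ₗ[K] (U →ₗ[K] U'))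
    (hT : ∀ f, T f = ρ' ∘ₗ f ∘ₗ ρi) (x : B ⊗[K] (U →ₗ[K] U')) (y : B ⊗[K] U) :
    te3Phi K B U U' (TensorProduct.map a.toLinearMap T x)
      (TensorProduct.map a.toLinearMap ρ y) =
      TensorProduct.map a.toLinearMap ρ' (te3Phi K B U U' x y) := by
  induction x using TensorProduct.induction_on with
  | zero => simp
  | add x₁ x₂ h₁ h₂ =>
    rw [map_add, map_add, LinearMap.add_apply, h₁, h₂, map_add, LinearMap.add_apply, map_add]
  | tmul β f =>
    induction y using TensorProduct.induction_on with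
    | zero => simp
    | add y₁ y₂ h₁ h₂ => rw [map_add, map_add, h₁, h₂, map_add, map_add]
    | tmul b u =>
      have h3 : ρi (ρ u) = u := by
        have := congrArg (fun F => F u) hinv
        simpa using this
      rw [TensorProduct.map_tmul, TensorProduct.map_tmul, te3Phi_tmul, te3Phi_tmul,
        TensorProduct.map_tmul, hT, LinearMap.comp_apply, LinearMap.comp_apply, h3]
      simp only [AlgHom.toLinearMap_apply, map_mul]

private theorem te3_basis {G : Type} (a : G → B →ₐ[K] B) (ρ ρi : G → U →ₗ[K] U)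
    (ρ' : G → U' →ₗ[K] U') (hinv : ∀ g, ρi g ∘ₗ ρ g = LinearMap.id)
    (T : G → (U →ₗ[K] U') →ₗ[K] (U →ₗ[K] U'))
    (hT : ∀ g f, T g f = ρ' g ∘ₗ f ∘ₗ ρi g)
    (b : Module.Basis (Fin (Module.finrank K U)) B (B ⊗[K] U))
    (b' : Module.Basis (Fin (Module.finrank K U')) B (B ⊗[K] U'))
    (hb : ∀ g i, TensorProduct.map (a g).toLinearMap (ρ g) (b i) = b i)
    (hb' : ∀ g i, TensorProduct.map (a g).toLinearMap (ρ' g) (b' i) = b' i) :
    ∃ c : Module.Basis (Fin (Module.finrank K (U →ₗ[K] U'))) B (B ⊗[K] (U →ₗ[K] U')),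
      ∀ g i, TensorProduct.map (a g).toLinearMap (T g) (c i) = c i := by
  classical
  have hcard : Fintype.card (Fin (Module.finrank K U') × Fin (Module.finrank K U)) =
      Module.finrank K (U →ₗ[K] U') := by
    rw [Fintype.card_prod, Fintype.card_fin, Fintype.card_fin, Module.finrank_linearMap, mul_comm]
  refine ⟨((b.linearMap b').map (te3Phi K B U U').symm).reindex
    (Fintype.equivFinOfCardEq hcard), fun g i => ?_⟩
  rw [Module.Basis.reindex_apply, Module.Basis.map_apply]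
  set z := (Fintype.equivFinOfCardEq hcard).symm i with hz
  set x := (te3Phi K B U U').symm (b.linearMap b' z) with hx
  apply (te3Phi K B U U').injective
  refine b.ext fun j => ?_
  have h1 := te3Phi_equiv (a g) (ρ g) (ρi g) (ρ' g) (hinv g) (T g) (hT g) x (b j)
  rw [hb g j] at h1
  rw [h1, hx, LinearEquiv.apply_symm_apply, Module.Basis.linearMap_apply_apply]
  split_ifs with h2
  · exact hb' g _
  · exact map_zero _

end Abs

section Sub

variable {K U U' X Y : Type} [Field K]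
  [AddCommGroup U] [Module K U] [AddCommGroup U'] [Module K U']
  [AddCommGroup X] [Module K X] [AddCommGroup Y] [Module K Y]

/-- the maps which send `A` to `A'` and the kernel of `π` to the kernel of `π'` -/
private def te3Sub (A : Submodule K U) (A' : Submodule K U') (π : A →ₗ[K] X) (π' : A' →ₗ[K] Y) :
    Submodule K (U →ₗ[K] U') where
  carrier := {f | (∀ a ∈ A, f a ∈ A') ∧
    ∀ (a : A) (h : f a ∈ A'), π a = 0 → π' ⟨f a, h⟩ = 0}
  add_mem' := by
    rintro f g ⟨hf1, hf2⟩ ⟨hg1, hg2⟩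
    refine ⟨fun a ha => ?_, fun a h ha => ?_⟩
    · exact A'.add_mem (hf1 a ha) (hg1 a ha)
    · have h1 := hf2 a (hf1 a a.2) ha
      have h2 := hg2 a (hg1 a a.2) ha
      have h3 : (⟨(f + g) a, h⟩ : A') = ⟨f a, hf1 a a.2⟩ + ⟨g a, hg1 a a.2⟩ := rfl
      rw [h3, map_add, h1, h2, add_zero]
  zero_mem' := by
    refine ⟨fun a _ => A'.zero_mem, fun a h _ => ?_⟩
    have h3 : (⟨(0 : U →ₗ[K] U') a, h⟩ : A') = 0 := rfl
    rw [h3, map_zero]
  smul_mem' := by
    rintro r f ⟨hf1, hf2⟩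
    refine ⟨fun a ha => A'.smul_mem r (hf1 a ha), fun a h ha => ?_⟩
    have h3 : (⟨(r • f) a, h⟩ : A') = r • ⟨f a, hf1 a a.2⟩ := rfl
    rw [h3, map_smul, hf2 a (hf1 a a.2) ha, smul_zero]

/-- the induced map -/
private def te3Map (A : Submodule K U) (A' : Submodule K U') (π : A →ₗ[K] X) (π' : A' →ₗ[K] Y)
    (t : X →ₗ[K] A) : te3Sub A A' π π' →ₗ[K] (X →ₗ[K] Y) where
  toFun f := π' ∘ₗ (LinearMap.codRestrict A' (f.1 ∘ₗ A.subtype) (fun a => f.2.1 a.1 a.2)) ∘ₗ t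
  map_add' f g := by
    ext x
    have h3 : (LinearMap.codRestrict A' ((f + g).1 ∘ₗ A.subtype)
        (fun a => (f + g).2.1 a.1 a.2)) (t x) =
        (LinearMap.codRestrict A' (f.1 ∘ₗ A.subtype) (fun a => f.2.1 a.1 a.2)) (t x) +
        (LinearMap.codRestrict A' (g.1 ∘ₗ A.subtype) (fun a => g.2.1 a.1 a.2)) (t x) := rfl
    rw [LinearMap.comp_apply, LinearMap.comp_apply, h3, map_add]
    rfl
  map_smul' r f := by
    ext x
    have h3 : (LinearMap.codRestrict A' ((r • f).1 ∘ₗ A.subtype)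
        (fun a => (r • f).2.1 a.1 a.2)) (t x) = r •
        (LinearMap.codRestrict A' (f.1 ∘ₗ A.subtype) (fun a => f.2.1 a.1 a.2)) (t x) := rfl
    rw [LinearMap.comp_apply, LinearMap.comp_apply, h3, map_smul]
    rfl

private theorem te3Map_apply (A : Submodule K U) (A' : Submodule K U') (π : A →ₗ[K] X)
    (π' : A' →ₗ[K] Y) (t : X →ₗ[K] A) (ht : π ∘ₗ t = LinearMap.id)
    (f : te3Sub A A' π π') (a : A) :
    te3Map A A' π π' t f (π a) = π' ⟨f.1 a, f.2.1 a a.2⟩ := by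
  have h0 : π (t (π a)) = π a := by
    have := congrArg (fun F => F (π a)) ht
    simpa using this
  have h1 : π (t (π a) - a) = 0 := by rw [map_sub, h0, sub_self]
  have h2 := f.2.2 (t (π a) - a) (f.2.1 _ (t (π a) - a).2) h1
  have h3 : (⟨f.1 ((t (π a) - a : A) : U), f.2.1 _ (t (π a) - a).2⟩ : A') =
      ⟨f.1 (t (π a)), f.2.1 _ (t (π a)).2⟩ - ⟨f.1 a, f.2.1 a a.2⟩ := by
    apply Subtype.ext
    change f.1 (((t (π a) : A) : U) - (a : U)) = f.1 (t (π a)) - f.1 a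
    rw [map_sub]
  rw [h3, map_sub, sub_eq_zero] at h2
  exact h2

private theorem te3Map_surj (A : Submodule K U) (A' : Submodule K U') (π : A →ₗ[K] X)
    (π' : A' →ₗ[K] Y) (t : X →ₗ[K] A) (ht : π ∘ₗ t = LinearMap.id)
    (hπ : Function.Surjective π) (hπ' : Function.Surjective π') :
    Function.Surjective (te3Map A A' π π' t) := by
  intro h
  obtain ⟨s, hs⟩ := π'.exists_rightInverse_of_surjective (LinearMap.range_eq_top.2 hπ')
  obtain ⟨F, hF⟩ := LinearMap.exists_extend (A'.subtype ∘ₗ s ∘ₗ h ∘ₗ π)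
  have hF' : ∀ a : A, F a = (s (h (π a)) : A') := by
    intro a
    have := congrArg (fun F => F a) hF
    simpa using this
  have hmem : F ∈ te3Sub A A' π π' := by
    refine ⟨fun a ha => ?_, fun a h1 ha => ?_⟩
    · have := hF' ⟨a, ha⟩
      change F a = _ at this
      rw [this]
      exact (s _).2
    · have h2 : (⟨F a, h1⟩ : A') = s (h (π a)) := Subtype.ext (hF' a)
      rw [h2, ha, map_zero, map_zero, map_zero]
  refine ⟨⟨F, hmem⟩, ?_⟩
  ext x
  obtain ⟨a, rfl⟩ := hπ x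
  rw [te3Map_apply A A' π π' t ht]
  have h2 : (⟨F a, hmem.1 a a.2⟩ : A') = s (h (π a)) := Subtype.ext (hF' a)
  change π' ⟨F a, hmem.1 a a.2⟩ = _
  rw [h2]
  have := congrArg (fun G => G (h (π a))) hs
  simpa using this

end Sub

open Pool.Agent.H12

variable {ℓ : ℕ} [Fact ℓ.Prime] {L : IntermediateField ℚ_[ℓ] (PadicAlgCl ℓ)}

/-- `B ⊗ Hom(U, U')` is `Hom_B(B ⊗ U, B ⊗ U')`; the basis is given by the matrix units with
respect to the two fixed bases. -/
theorem semistable_linHom {U U' : Rep.{0} ℚ_[ℓ] L.fixingSubgroup} (hU : IsSemistable L U)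
    (hU' : IsSemistable L U') : IsSemistable L (Rep.of (U.ρ.linHom U'.ρ)) := by
  obtain ⟨h1, h2, b, hb⟩ := hU
  obtain ⟨h1', h2', b', hb'⟩ := hU'
  have : FiniteDimensional ℚ_[ℓ] U := h1
  have : FiniteDimensional ℚ_[ℓ] U' := h1'
  refine ⟨inferInstanceAs (FiniteDimensional ℚ_[ℓ] (U →ₗ[ℚ_[ℓ]] U')), isCont_linHom h2 h2', ?_⟩
  exact te3_basis (fun σ : L.fixingSubgroup => actBst (σ : GalP ℓ)) (fun σ => U.ρ σ)
    (fun σ => U.ρ σ⁻¹) (fun σ => U'.ρ σ)
    (fun σ => by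
      rw [← Module.End.mul_eq_comp, ← map_mul, inv_mul_cancel, map_one]
      rfl)
    (fun σ => (U.ρ.linHom U'.ρ) σ) (fun σ f => Representation.linHom_apply _ _ _ _) b b'
    (fun σ i => hb σ i) (fun σ i => hb' σ i)

/-- `Hom(X, Y)` for subquotients `A / ker π`, `A' / ker π'` of `U`, `U'` is a subquotient of
`Hom(U, U')`: the maps that send `A` to `A'` and `ker π` to `ker π'`. -/
theorem pstAt_linHom {k : Type} [Field k] {X Y : RepG k ℓ}
    {ι : AlgebraicClosure k →+* PadicAlgCl ℓ}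
    (hex : ∀ σ : L.fixingSubgroup, ∃ g : GG k, ∀ x, ι (g x) = (σ : GalP ℓ) (ι x))
    (hX : PstAt X ι L) (hY : PstAt Y ι L) :
    PstAt (Rep.of (X.ρ.linHom Y.ρ) : RepG k ℓ) ι L := by
  obtain ⟨U, hU, A, π, hπ, hA, he⟩ := hX
  obtain ⟨U', hU', A', π', hπ', hA', he'⟩ := hY
  obtain ⟨t, ht⟩ := π.exists_rightInverse_of_surjective (LinearMap.range_eq_top.2 hπ)
  -- the inverse of an induced element
  have hinv : ∀ (σ : L.fixingSubgroup) (g : GG k), (∀ x, ι (g x) = (σ : GalP ℓ) (ι x)) →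
      ∀ x, ι (g⁻¹ x) = ((σ⁻¹ : L.fixingSubgroup) : GalP ℓ) (ι x) := by
    intro σ g hg x
    have h1 := hg (g⁻¹ x)
    have h2 : g (g⁻¹ x) = x := AlgEquiv.apply_symm_apply g x
    rw [h2] at h1
    rw [h1]
    exact (AlgEquiv.symm_apply_apply (σ : GalP ℓ) (ι (g⁻¹ x))).symm
  have hker : ∀ (σ : L.fixingSubgroup) (a : A) (h : U.ρ σ a ∈ A), π a = 0 →
      π ⟨U.ρ σ a, h⟩ = 0 := by
    intro σ a h ha
    obtain ⟨g, hg⟩ := hex σ
    rw [he σ g hg a ⟨U.ρ σ a, h⟩ rfl, ha, map_zero]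
  have hker' : ∀ (σ : L.fixingSubgroup) (a : A') (h : U'.ρ σ a ∈ A'), π' a = 0 →
      π' ⟨U'.ρ σ a, h⟩ = 0 := by
    intro σ a h ha
    obtain ⟨g, hg⟩ := hex σ
    rw [he' σ g hg a ⟨U'.ρ σ a, h⟩ rfl, ha, map_zero]
  refine ⟨Rep.of (U.ρ.linHom U'.ρ), semistable_linHom hU hU', te3Sub A A' π π',
    te3Map A A' π π' t, te3Map_surj A A' π π' t ht hπ hπ', ?_, ?_⟩
  · intro σ f hf
    change (U.ρ.linHom U'.ρ) σ f ∈ te3Sub A A' π π'
    rw [Representation.linHom_apply]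
    refine ⟨fun a ha => ?_, fun a h1 ha => ?_⟩
    · exact hA' σ _ (hf.1 _ (hA σ⁻¹ a ha))
    · have h2 : U.ρ σ⁻¹ a ∈ A := hA σ⁻¹ a a.2
      have h3 := hf.2 ⟨U.ρ σ⁻¹ a, h2⟩ (hf.1 _ h2) (hker σ⁻¹ a h2 ha)
      exact hker' σ ⟨f (U.ρ σ⁻¹ a), hf.1 _ h2⟩ h1 h3
  · intro σ g hg f f' hf'
    change te3Map A A' π π' t f' = Y.ρ g ∘ₗ te3Map A A' π π' t f ∘ₗ X.ρ g⁻¹
    refine LinearMap.ext fun x => ?_
    obtain ⟨a, rfl⟩ := hπ x
    have h2 : U.ρ σ⁻¹ a ∈ A := hA σ⁻¹ a a.2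
    have h4 : π ⟨U.ρ σ⁻¹ a, h2⟩ = X.ρ g⁻¹ (π a) := he σ⁻¹ g⁻¹ (hinv σ g hg) a _ rfl
    rw [LinearMap.comp_apply, LinearMap.comp_apply, ← h4, te3Map_apply A A' π π' t ht,
      te3Map_apply A A' π π' t ht]
    refine he' σ g hg ⟨f.1 (U.ρ σ⁻¹ a), f.2.1 _ h2⟩ ⟨f'.1 a, f'.2.1 a a.2⟩ ?_
    have h5 : f'.1 = (U.ρ.linHom U'.ρ) σ f.1 := hf'
    exact congrArg (fun F : U →ₗ[ℚ_[ℓ]] U' => F a) h5

end Pool.Agent.FRC
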