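import Mathlib

open CategoryTheory CategoryTheory.Limits TensorProduct

namespace Pool.Agent.FRC

universe w

variable {K : Type} [Field K] {G : Type} [Group G] (V : Rep.{0} K G)

/-- The functor `X ↦ V ⊗ X`. -/
noncomputable def tenF : Rep.{0} K G ⥤ Rep.{0} K G where
  obj X := Rep.of (V.ρ.tprod X.ρ)
  map f := Rep.ofHom ⟨TensorProduct.map LinearMap.id f.hom.toLinearMap, fun g => by
    apply TensorProduct.ext'
    intro v x
    have := Rep.hom_comm_apply f g x
    simp [Representation.IntertwiningMap.toLinearMap_apply, this]⟩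
  map_id X := by
    apply Rep.hom_ext
    apply Representation.IntertwiningMap.ext
    apply TensorProduct.ext'
    intro v x
    rfl
  map_comp f g := by
    apply Rep.hom_ext
    apply Representation.IntertwiningMap.ext
    apply TensorProduct.ext'
    intro v x
    rfl

instance tenF_additive : (tenF V).Additive := by
  constructor
  intro X Y f g
  apply Rep.hom_ext
  apply Representation.IntertwiningMap.ext
  apply TensorProduct.ext'
  intro v x
  exact TensorProduct.tmul_add v (f.hom x) (g.hom x)

/-- Comparison with the monoidal structure. -/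
private noncomputable def TEX_iso : MonoidalCategory.tensorLeft V ≅ tenF V :=
  NatIso.ofComponents (fun X => Iso.refl _) (by
    intro X Y f
    apply Rep.hom_ext
    apply Representation.IntertwiningMap.ext
    apply TensorProduct.ext'
    intro v x
    rfl)

theorem tenF_finLim : PreservesFiniteLimits (tenF V) := by
  have h0 : Module.Flat K (ModuleCat.of K V.V) := inferInstanceAs (Module.Flat K V.V)
  have h1 : PreservesFiniteLimits (MonoidalCategory.tensorLeft (ModuleCat.of K V.V)) :=
    inferInstance
  have h2 : PreservesFiniteLimits (forget₂ (Rep.{0} K G) (ModuleCat.{0} K)) := inferInstance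
  have h3 : PreservesFiniteLimits (forget₂ (Rep.{0} K G) (ModuleCat.{0} K) ⋙
    MonoidalCategory.tensorLeft (ModuleCat.of K V.V)) := inferInstance
  have e : forget₂ (Rep.{0} K G) (ModuleCat.{0} K) ⋙
      MonoidalCategory.tensorLeft (ModuleCat.of K V.V) ≅
      tenF V ⋙ forget₂ (Rep.{0} K G) (ModuleCat.{0} K) :=
    NatIso.ofComponents (fun X => Iso.refl _) (by
      intro X Y f
      apply ModuleCat.hom_ext
      apply TensorProduct.ext'
      intro v x
      rfl)
  have h4 : PreservesFiniteLimits (tenF V ⋙ forget₂ (Rep.{0} K G) (ModuleCat.{0} K)) :=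
    preservesFiniteLimits_of_natIso e
  exact preservesFiniteLimits_of_reflects_of_preserves _
    (forget₂ (Rep.{0} K G) (ModuleCat.{0} K))

theorem tenF_finColim : PreservesFiniteColimits (tenF V) := by
  have h1 : PreservesFiniteColimits (MonoidalCategory.tensorLeft V) := inferInstance
  exact preservesFiniteColimits_of_natIso (TEX_iso V)

instance ihomF_additive : (Rep.ihom V).Additive := by
  constructor
  intro X Y f g
  apply Rep.hom_ext
  apply Representation.IntertwiningMap.ext
  apply LinearMap.ext
  intro x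
  apply LinearMap.ext
  intro v
  rfl

/-- Exactness in `Rep` on elements. -/
private theorem TEX_exact {S : ShortComplex (Rep.{w} K G)} :
    S.Exact ↔ ∀ x : S.X₂, S.g.hom x = 0 → ∃ y : S.X₁, S.f.hom y = x := by
  rw [← S.exact_map_iff_of_faithful (forget₂ (Rep.{w} K G) (ModuleCat.{w} K)),
    ShortComplex.moduleCat_exact_iff]
  rfl

/-- The functor `Hom(V, -)` preserves exactness of short exact sequences. -/
private theorem TEX_ihom {S : ShortComplex (Rep.{w} K G)} (hS : S.ShortExact) :
    (S.map (Rep.ihom V)).Exact ∧ Mono ((Rep.ihom V).map S.f) ∧ Epi ((Rep.ihom V).map S.g) := by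
  have hm : Function.Injective S.f.hom := (Rep.mono_iff_injective S.f).1 hS.mono_f
  have he : Function.Surjective S.g.hom := (Rep.epi_iff_surjective S.g).1 hS.epi_g
  have hex := TEX_exact.1 hS.exact
  refine ⟨?_, ?_, ?_⟩
  · rw [TEX_exact]
    intro f hf
    change V →ₗ[K] S.X₂ at f
    have hf' : S.g.hom.toLinearMap ∘ₗ f = 0 := hf
    obtain ⟨l, hl⟩ := LinearMap.exists_leftInverse_of_injective S.f.hom.toLinearMap
      (LinearMap.ker_eq_bot.2 hm)
    refine ⟨(l ∘ₗ f : V →ₗ[K] S.X₁), ?_⟩
    have key : S.f.hom.toLinearMap ∘ₗ (l ∘ₗ f) = f := by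
      apply LinearMap.ext
      intro v
      obtain ⟨z, hz⟩ := hex (f v) (LinearMap.congr_fun hf' v)
      have h1 : l (f v) = z := by
        rw [← hz]
        exact LinearMap.congr_fun hl z
      change S.f.hom (l (f v)) = f v
      rw [h1, hz]
    exact key
  · rw [Rep.mono_iff_injective]
    intro x y hxy
    change V →ₗ[K] S.X₁ at x y
    have hxy' : S.f.hom.toLinearMap ∘ₗ x = S.f.hom.toLinearMap ∘ₗ y := hxy
    have key : x = y := by
      apply LinearMap.ext
      intro v
      exact hm (LinearMap.congr_fun hxy' v)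
    exact key
  · rw [Rep.epi_iff_surjective]
    intro y
    change V →ₗ[K] S.X₃ at y
    obtain ⟨s, hs⟩ := LinearMap.exists_rightInverse_of_surjective S.g.hom.toLinearMap
      (LinearMap.range_eq_top.2 he)
    refine ⟨(s ∘ₗ y : V →ₗ[K] S.X₂), ?_⟩
    have key : S.g.hom.toLinearMap ∘ₗ (s ∘ₗ y) = y := by
      apply LinearMap.ext
      intro v
      exact LinearMap.congr_fun hs (y v)
    exact key

theorem ihomF_finLim : PreservesFiniteLimits (Rep.ihom V) := by
  have := ihomF_additive V
  rw [((Functor.preservesFiniteLimits_tfae (Rep.ihom V)).out 3 0 :)]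
  intro S hS
  exact ⟨(TEX_ihom V hS).1, (TEX_ihom V hS).2.1⟩

theorem ihomF_finColim : PreservesFiniteColimits (Rep.ihom V) := by
  rw [((Functor.preservesFiniteColimits_tfae (Rep.ihom V)).out 3 0 :)]
  intro S hS
  exact ⟨(TEX_ihom V hS).1, (TEX_ihom V hS).2.2⟩

/-- Evaluation, the identity of `V` and `V ≅ V ⊗ K`. -/
theorem exists_ev : ∃ (ev : Rep.ihom V ⋙ tenF V ⟶ 𝟭 (Rep.{0} K G))
    (j : Rep.trivial K G K ⟶ (Rep.ihom V).obj V) (u : V ⟶ (tenF V).obj (Rep.trivial K G K)),
    u ≫ (tenF V).map j ≫ ev.app V = 𝟙 V := by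
  refine ⟨
    { app := fun X => Rep.ofHom ⟨TensorProduct.uncurry (.id K) V (V →ₗ[K] X) X
        LinearMap.id.flip, ?_⟩
      naturality := ?_ }, Rep.ofHom ⟨LinearMap.toSpanSingleton K (V →ₗ[K] V) LinearMap.id, ?_⟩,
    Rep.ofHom ⟨(TensorProduct.mk K V K).flip 1, ?_⟩, ?_⟩
  · intro g
    apply TensorProduct.ext'
    intro v f
    change V →ₗ[K] X at f
    change X.ρ g (f (V.ρ g⁻¹ (V.ρ g v))) = X.ρ g (f v)
    simp
  · intro X Y f
    apply Rep.hom_ext
    apply Representation.IntertwiningMap.ext
    apply TensorProduct.ext'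
    intro v x
    rfl
  · intro g
    apply LinearMap.ext
    intro c
    apply LinearMap.ext
    intro v
    change c • v = V.ρ g (c • (V.ρ g⁻¹ v))
    simp
  · intro g
    apply LinearMap.ext
    intro v
    rfl
  · apply Rep.hom_ext
    apply Representation.IntertwiningMap.ext
    apply LinearMap.ext
    intro v
    change (1 : K) • v = v
    exact one_smul K v

end Pool.Agent.FRC
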