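import Mathlib
import Pool.Agent.FRC.YON

open CategoryTheory CategoryTheory.Limits CategoryTheory.Abelian

namespace Pool.Agent.FRC

universe w v u

variable {C : Type u} [Category.{v} C] [Abelian C] [HasExt.{w} C]

/-- For a torsion pair `(T, F)` with `T` closed under subobjects and quotients and `F` closed under
quotients, all `Ext^n(X, Y)` with `X` in `T` and `Y` in `F` vanish. Induction on `n`: write
`x = extClass(K → P → X) y`, let `P' ⊆ P` be the part in `T`; `P' → X` is still epi (its cokernel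
is in `T` and in `F`), and the class of `K' → P' → X` maps to that of `K → P → X`. -/
theorem ext_subsingleton_torsion (T F : ObjectProperty C) [T.IsClosedUnderSubobjects]
    [T.IsClosedUnderQuotients] [F.IsClosedUnderQuotients]
    (h0 : ∀ X Y : C, T X → F Y → ∀ f : X ⟶ Y, f = 0)
    (hdec : ∀ P : C, ∃ (A B : C) (i : A ⟶ P) (q : P ⟶ B) (w : i ≫ q = 0),
      (ShortComplex.mk i q w).ShortExact ∧ T A ∧ F B)
    (n : ℕ) (X Y : C) (hX : T X) (hY : F Y) : Subsingleton (Ext.{w} X Y n) := by
  induction n generalizing X with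
  | zero =>
    refine ⟨fun a b => ?_⟩
    apply Ext.homEquiv₀.injective
    rw [h0 X Y hX hY (Ext.homEquiv₀ a), h0 X Y hX hY (Ext.homEquiv₀ b)]
  | succ n ih =>
    suffices h : ∀ x : Ext.{w} X Y (n + 1), x = 0 from ⟨fun a b => by rw [h a, h b]⟩
    intro x
    obtain ⟨K, P, i, p, w, hS, y, rfl⟩ := exists_extClass_comp x
    obtain ⟨A, B, j, q, w', hT, hA, hB⟩ := hdec P
    have hp : Epi p := hS.epi_g
    have hi : Mono i := hS.mono_f
    have hq : Epi q := hT.epi_g
    have hepi : Epi (j ≫ p) := by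
      have h1 : T (cokernel (j ≫ p)) := T.prop_of_epi (cokernel.π _) hX
      have hz : j ≫ (p ≫ cokernel.π (j ≫ p)) = 0 := by
        rw [← Category.assoc, cokernel.condition]
      obtain ⟨r, hr⟩ : ∃ r : B ⟶ cokernel (j ≫ p), q ≫ r = p ≫ cokernel.π (j ≫ p) :=
        ⟨hT.exact.desc _ hz, hT.exact.g_desc _ hz⟩
      have hr2 : Epi r := by
        have : Epi (q ≫ r) := by rw [hr]; exact epi_comp _ _
        exact epi_of_epi q r
      have h2 : F (cokernel (j ≫ p)) := F.prop_of_epi r hB
      have h3 : IsZero (cokernel (j ≫ p)) :=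
        (IsZero.iff_id_eq_zero _).mpr (h0 _ _ h1 h2 _)
      exact Preadditive.epi_of_isZero_cokernel _ h3
    have hS' : (ShortComplex.mk (kernel.ι (j ≫ p)) (j ≫ p) (kernel.condition _)).ShortExact :=
      { exact := ShortComplex.exact_kernel _
        mono_f := inferInstanceAs (Mono (kernel.ι (j ≫ p)))
        epi_g := hepi }
    have hz : (kernel.ι (j ≫ p) ≫ j) ≫ p = 0 := by
      rw [Category.assoc, kernel.condition]
    obtain ⟨κ, hκ⟩ : ∃ κ : kernel (j ≫ p) ⟶ K, κ ≫ i = kernel.ι (j ≫ p) ≫ j :=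
      ⟨hS.exact.lift _ hz, hS.exact.lift_f _ hz⟩
    let f : ShortComplex.mk (kernel.ι (j ≫ p)) (j ≫ p) (kernel.condition _) ⟶
        ShortComplex.mk i p w :=
      { τ₁ := κ
        τ₂ := j
        τ₃ := 𝟙 X
        comm₁₂ := hκ
        comm₂₃ := (Category.comp_id _).symm }
    have h4 := ShortComplex.ShortExact.extClass_naturality hS' hS f
    have h5 : hS'.extClass.comp (Ext.mk₀ κ) (add_zero 1) = hS.extClass := by
      have : (Ext.mk₀ f.τ₃).comp hS.extClass (zero_add 1) = hS.extClass :=
        Ext.mk₀_id_comp _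
      rw [← this, ← h4]
    have h6 : (Ext.mk₀ κ).comp y (zero_add n) = 0 := by
      have := ih (kernel (j ≫ p)) (T.prop_of_mono (kernel.ι (j ≫ p)) hA)
      exact Subsingleton.elim _ _
    rw [← h5, Ext.comp_assoc_of_second_deg_zero, h6, Ext.comp_zero]

end Pool.Agent.FRC
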