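import Mathlib
import Pool.Agent.FRC.Base

open CategoryTheory Polynomial NumberField

namespace Pool.Agent.FRC

open Pool.Agent.H12

variable {k : Type} [Field k] {ℓ : ℕ} [Fact ℓ.Prime]

private theorem eig_step {V : RepG k ℓ} {N : ℕ} {W : ℤ → Submodule ℚ_[ℓ] V} (hV : MixedP V N W)
    {b : ℤ} (hb : W b = ⊤) {𝔓 : Ideal (Zb k)} (h𝔓 : 𝔓.IsMaximal)
    (hN : (N : Zb k) ∉ 𝔓) {σ : GG k} (hσ : FrobAt 𝔓 (nrm 𝔓) σ) (n : ℕ) :
    ∃ P : ℚ_[ℓ][X], (∀ μ : AlgebraicClosure ℚ_[ℓ], aeval μ P = 0 →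
      ∃ i, b - n < i ∧ i ≤ b ∧ IsWeil (nrm 𝔓) i μ) ∧
      ∀ v, aeval (V.ρ σ⁻¹) P v ∈ W (b - n) := by
  induction n with
  | zero =>
    refine ⟨1, fun μ h => ?_, fun v => ?_⟩
    · rw [map_one] at h
      exact absurd h one_ne_zero
    · rw [map_one, Nat.cast_zero, sub_zero, hb]
      exact Submodule.mem_top
  | succ n ih =>
    obtain ⟨P, hP1, hP2⟩ := ih
    obtain ⟨p, -, hp1, hp2⟩ := hV.2.2.2.2 𝔓 h𝔓 hN σ hσ (b - n)
    refine ⟨p * P, fun μ h => ?_, fun v => ?_⟩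
    · rw [map_mul] at h
      rcases mul_eq_zero.1 h with h | h
      · exact ⟨b - n, by push_cast; omega, by omega, hp1 μ h⟩
      · obtain ⟨i, hi1, hi2, hi3⟩ := hP1 μ h
        exact ⟨i, by push_cast; omega, hi2, hi3⟩
    · rw [map_mul]
      have := hp2 _ (hP2 v)
      have he : b - ((n + 1 : ℕ) : ℤ) = b - n - 1 := by push_cast; ring
      rw [he]
      exact this

/-- All eigenvalues of Frobenius on an object with filtration between `a` and `b` have weights in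
`(a, b]` (the product of the polynomials of the steps annihilates `V`). -/
theorem exists_weight {V : RepG k ℓ} {N : ℕ} {W : ℤ → Submodule ℚ_[ℓ] V} (hV : MixedP V N W)
    {a b : ℤ} (ha : W a = ⊥) (hb : W b = ⊤) {𝔓 : Ideal (Zb k)} (h𝔓 : 𝔓.IsMaximal)
    (hN : (N : Zb k) ∉ 𝔓) {σ : GG k} (hσ : FrobAt 𝔓 (nrm 𝔓) σ) (μ : AlgebraicClosure ℚ_[ℓ])
    (hμ : aeval μ (minpoly ℚ_[ℓ] (V.ρ σ⁻¹)) = 0) : ∃ i, a < i ∧ i ≤ b ∧ IsWeil (nrm 𝔓) i μ := by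
  obtain ⟨P, hP1, hP2⟩ := eig_step hV hb h𝔓 hN hσ (b - a).toNat
  have hle : W (b - ((b - a).toNat : ℤ)) ≤ ⊥ := by
    rw [← ha]
    exact hV.1 (by omega)
  have h0 : aeval (V.ρ σ⁻¹) P = 0 := by
    ext v
    have := hle (hP2 v)
    rw [Submodule.mem_bot] at this
    rw [this]
    rfl
  obtain ⟨Q, hQ⟩ := minpoly.dvd ℚ_[ℓ] (V.ρ σ⁻¹) h0
  have h1 : aeval μ P = 0 := by
    rw [hQ, map_mul, hμ, zero_mul]
  obtain ⟨i, hi1, hi2, hi3⟩ := hP1 μ h1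
  exact ⟨i, by omega, hi2, hi3⟩

/-- A nonzero finite-dimensional representation has an eigenvalue. -/
theorem exists_root {V : RepG k ℓ} [FiniteDimensional ℚ_[ℓ] V] (hV : Nontrivial V) (g : GG k) :
    ∃ μ : AlgebraicClosure ℚ_[ℓ], aeval μ (minpoly ℚ_[ℓ] (V.ρ g)) = 0 := by
  apply IsAlgClosed.exists_aeval_eq_zero
  have hi : IsIntegral ℚ_[ℓ] (V.ρ g) := Algebra.IsIntegral.isIntegral _
  exact ne_of_gt (minpoly.degree_pos hi)

end Pool.Agent.FRC
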