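import Mathlib
import Pool.Agent.FRC.Base

open CategoryTheory Polynomial NumberField

namespace Pool.Agent.FRC

open Pool.Agent.H12

private theorem FRB3_coe_smul {k : Type} [Field k] [NumberField k] (g : GG k) (b : Zb k) :
    ((g • b : Zb k) : AlgebraicClosure k) = g (b : AlgebraicClosure k) := rfl

private theorem FRB3_inv (k : Type) [Field k] [NumberField k] :
    Algebra.IsInvariant (𝓞 k) (Zb k) (GG k) := by
  constructor
  intro b hb
  have h1 : ∀ g : GG k, g (b : AlgebraicClosure k) = b := by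
    intro g
    rw [← FRB3_coe_smul, hb g]
  have h2 : (b : AlgebraicClosure k) ∈ Set.range (algebraMap k (AlgebraicClosure k)) :=
    (InfiniteGalois.mem_range_algebraMap_iff_fixed (b : AlgebraicClosure k)).mpr h1
  obtain ⟨x, hx⟩ := h2
  have h3 : IsIntegral ℤ x := by
    rw [← isIntegral_algebraMap_iff (B := AlgebraicClosure k)
      (algebraMap k (AlgebraicClosure k)).injective, hx]
    exact RingOfIntegers.isIntegral_coe b
  refine ⟨⟨x, h3⟩, ?_⟩
  apply RingOfIntegers.ext
  exact hx

private theorem FRB3_comm (k : Type) [Field k] [NumberField k] :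
    SMulCommClass (GG k) (𝓞 k) (Zb k) := by
  constructor
  intro g a b
  apply RingOfIntegers.ext
  rw [FRB3_coe_smul, Algebra.smul_def, Algebra.smul_def]
  have e1 : ((algebraMap (𝓞 k) (Zb k) a * b : Zb k) : AlgebraicClosure k) =
    algebraMap k (AlgebraicClosure k) (a : k) * (b : AlgebraicClosure k) := rfl
  have e2 : ((algebraMap (𝓞 k) (Zb k) a * (g • b) : Zb k) : AlgebraicClosure k) =
    algebraMap k (AlgebraicClosure k) (a : k) * g (b : AlgebraicClosure k) := rfl
  rw [e1, e2, map_mul, g.commutes]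

/-- Existence of Frobenius elements (`Ideal.Quotient.stabilizerHom_surjective_of_profinite` for the
absolute Galois group acting on the ring of algebraic integers). -/
theorem exists_frobAt {k : Type} [Field k] [NumberField k] {𝔓 : Ideal (Zb k)}
    (h𝔓 : 𝔓.IsMaximal) : ∃ σ : GG k, FrobAt 𝔓 (nrm 𝔓) σ := by
  have hinv := FRB3_inv k
  have hcomm := FRB3_comm k
  let _ : TopologicalSpace (Zb k) := ⊥
  have hdisc : DiscreteTopology (Zb k) := ⟨rfl⟩
  have hcs : ContinuousSMul (GG k) (Zb k) := by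
    rw [continuousSMul_iff_stabilizer_isOpen]
    intro x
    have h1 := stabilizer_isOpen_of_isIntegral (K := k) (x : AlgebraicClosure k)
    have h2 : (MulAction.stabilizer (GG k) x : Set (GG k)) =
        (MulAction.stabilizer (GG k) (x : AlgebraicClosure k) : Set (GG k)) := by
      ext g
      simp only [SetLike.mem_coe, MulAction.mem_stabilizer_iff]
      constructor
      · intro h
        have := congrArg (fun z : Zb k => (z : AlgebraicClosure k)) h
        exact this
      · intro h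
        apply RingOfIntegers.ext
        exact h
    rw [h2]
    exact h1
  set P : Ideal (𝓞 k) := 𝔓.comap (algebraMap (𝓞 k) (Zb k)) with hP
  have hint : Algebra.IsIntegral (𝓞 k) (Zb k) :=
    Algebra.IsInvariant.isIntegral_of_profinite (G := GG k)
  have hPm : P.IsMaximal := Ideal.isMaximal_comap_of_isIntegral_of_isMaximal 𝔓
  have hlies : 𝔓.LiesOver P := ⟨rfl⟩
  have hprime : 𝔓.IsPrime := h𝔓.isPrime
  have hP0 : P ≠ ⊥ :=
    Ring.ne_bot_of_isMaximal_of_not_isField hPm (RingOfIntegers.not_isField k)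
  let _ : Field (𝓞 k ⧸ P) := Ideal.Quotient.field P
  let _ : Field (Zb k ⧸ 𝔓) := Ideal.Quotient.field 𝔓
  have hfin : Finite (𝓞 k ⧸ P) := Ring.HasFiniteQuotients.finiteQuotient hP0
  let _ : Fintype (𝓞 k ⧸ P) := Fintype.ofFinite _
  have hint2 : Algebra.IsIntegral (𝓞 k ⧸ P) (Zb k ⧸ 𝔓) := inferInstance
  have halg : Algebra.IsAlgebraic (𝓞 k ⧸ P) (Zb k ⧸ 𝔓) := Algebra.IsIntegral.isAlgebraic
  obtain ⟨⟨σ, hσ⟩, hs⟩ := Ideal.Quotient.stabilizerHom_surjective_of_profinite (G := GG k) P 𝔓
    (FiniteField.frobeniusAlgEquivOfAlgebraic (𝓞 k ⧸ P) (Zb k ⧸ 𝔓))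
  refine ⟨σ, ?_⟩
  intro y z hz
  have hzy : z = σ • y := RingOfIntegers.ext hz
  have h1 := DFunLike.congr_fun hs (Ideal.Quotient.mk 𝔓 y)
  rw [← Ideal.Quotient.eq, map_pow, hzy]
  have hcard : nrm 𝔓 = Fintype.card (𝓞 k ⧸ P) := by
    rw [nrm, Nat.card_eq_fintype_card]
  rw [hcard]
  exact h1

end Pool.Agent.FRC
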