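import Mathlib
import Pool.Agent.FRC.Base

open CategoryTheory Polynomial NumberField

namespace Pool.Agent.FRC

open Pool.Agent.H12

variable {k : Type} [Field k] [NumberField k]

theorem exists_maximal_notMem {N : ℕ} (hN : N ≠ 0) :
    ∃ 𝔓 : Ideal (Zb k), 𝔓.IsMaximal ∧ (N : Zb k) ∉ 𝔓 := by
  obtain ⟨p, hpN, hp⟩ := Nat.exists_infinite_primes (N + 1)
  have hmax : (Ideal.span {(p : ℤ)}).IsMaximal := by
    have := Fact.mk hp
    exact PrincipalIdealRing.isMaximal_of_irreducible (Nat.prime_iff_prime_int.mp hp).irreducible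
  have hker : RingHom.ker (algebraMap ℤ (Zb k)) ≤ Ideal.span {(p : ℤ)} := by
    rw [(RingHom.injective_iff_ker_eq_bot _).mp (FaithfulSMul.algebraMap_injective ℤ (Zb k))]
    exact bot_le
  obtain ⟨Q, hQ, hQc⟩ := Ideal.exists_ideal_over_maximal_of_isIntegral (S := Zb k)
    (Ideal.span {(p : ℤ)}) hker
  refine ⟨Q, hQ, fun hmem => ?_⟩
  have h1 : (N : ℤ) ∈ Ideal.comap (algebraMap ℤ (Zb k)) Q := by
    rw [Ideal.mem_comap]
    simpa using hmem
  rw [hQc, Ideal.mem_span_singleton] at h1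
  have h2 : p ∣ N := by exact_mod_cast h1
  have := Nat.le_of_dvd (Nat.pos_of_ne_zero hN) h2
  omega

/-- A nonzero algebraic integer divides a nonzero natural number. -/
theorem exists_dvd_natCast (δ : Zb k) (hδ : δ ≠ 0) : ∃ N : ℕ, N ≠ 0 ∧ δ ∣ (N : Zb k) := by
  have hint : IsIntegral ℤ δ := RingOfIntegers.isIntegral δ
  have h := Ideal.comap_ne_bot_of_integral_mem (R := ℤ) (I := Ideal.span {δ}) hδ
    (Ideal.mem_span_singleton_self δ) hint
  obtain ⟨n, hn, hn0⟩ := Submodule.exists_mem_ne_zero_of_ne_bot h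
  refine ⟨n.natAbs, Int.natAbs_ne_zero.mpr hn0, ?_⟩
  rw [Ideal.mem_comap, Ideal.mem_span_singleton] at hn
  have h2 : δ ∣ ((n : ℤ) : Zb k) := by simpa using hn
  rcases Int.natAbs_eq n with h3 | h3
  · rw [h3] at h2
    simpa using h2
  · rw [h3] at h2
    simpa using h2

/-- Outside finitely many primes the inertia groups fix a given algebraic number. -/
theorem exists_inertia_fixes (α : AlgebraicClosure k) :
    ∃ N : ℕ, N ≠ 0 ∧ ∀ 𝔓 : Ideal (Zb k), 𝔓.IsMaximal → (N : Zb k) ∉ 𝔓 →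
      ∀ σ : GG k, FrobAt 𝔓 1 σ → σ α = α := by
  classical
  have halg : IsAlgebraic ℤ α := by
    have h1 : Algebra.IsAlgebraic ℚ (AlgebraicClosure k) :=
      Algebra.IsAlgebraic.trans ℚ k (AlgebraicClosure k)
    exact (IsFractionRing.isAlgebraic_iff ℤ ℚ (AlgebraicClosure k)).mpr (h1.isAlgebraic α)
  obtain ⟨m, hm0, hm⟩ := halg.exists_integral_multiple
  set a : Zb k := ⟨m • α, hm⟩ with ha
  have hacoe : (a : AlgebraicClosure k) = m • α := rfl
  set S : Finset (Zb k) := (((minpoly ℤ a).aroots (Zb k)).toFinset).erase a with hS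
  have hδ0 : (∏ b ∈ S, (b - a)) ≠ 0 := by
    rw [Finset.prod_ne_zero_iff]
    intro b hb
    exact sub_ne_zero.mpr (Finset.ne_of_mem_erase hb)
  obtain ⟨N, hN0, hN⟩ := exists_dvd_natCast _ hδ0
  refine ⟨N, hN0, fun 𝔓 _ hNP σ hσ => ?_⟩
  by_contra hne
  have hzint : IsIntegral ℤ (σ (a : AlgebraicClosure k)) := by
    exact hm.map (σ.toAlgHom.restrictScalars ℤ)
  set z : Zb k := ⟨σ (a : AlgebraicClosure k), hzint⟩ with hz
  have hzcoe : (z : AlgebraicClosure k) = σ (a : AlgebraicClosure k) := rfl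
  have hza : z ≠ a := by
    intro h
    apply hne
    have h1 : σ (a : AlgebraicClosure k) = a := by rw [← hzcoe, h]
    rw [hacoe, map_zsmul] at h1
    have hmk : (m : AlgebraicClosure k) ≠ 0 := by exact_mod_cast hm0
    rw [zsmul_eq_mul, zsmul_eq_mul] at h1
    exact mul_left_cancel₀ hmk h1
  have hmon : (minpoly ℤ a) ≠ 0 := (minpoly.monic (RingOfIntegers.isIntegral a)).ne_zero
  have hroot : aeval z (minpoly ℤ a) = 0 := by
    have hinj : Function.Injective (algebraMap (Zb k) (AlgebraicClosure k)) :=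
      RingOfIntegers.coe_injective
    apply hinj
    rw [map_zero, ← aeval_algebraMap_apply]
    have h2 : aeval (algebraMap (Zb k) (AlgebraicClosure k) a) (minpoly ℤ a) = 0 := by
      rw [aeval_algebraMap_apply, minpoly.aeval, map_zero]
    have h3 := congrArg (σ.toAlgHom.restrictScalars ℤ) h2
    rw [map_zero, ← aeval_algHom_apply] at h3
    exact h3
  have hzS : z ∈ S := by
    rw [hS, Finset.mem_erase]
    refine ⟨hza, ?_⟩
    rw [Multiset.mem_toFinset, mem_aroots]
    exact ⟨hmon, hroot⟩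
  apply hNP
  have h5 : z - a ∣ (N : Zb k) := (Finset.dvd_prod_of_mem _ hzS).trans hN
  have h6 : z - a ∈ 𝔓 := by
    have := hσ a z hzcoe
    rwa [pow_one] at this
  exact Ideal.mem_of_dvd _ h5 h6

end Pool.Agent.FRC
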