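import Mathlib
import Pool.Agent.FRC.MIX
import Pool.Agent.FRC.CLO2
import Pool.Agent.FRC.EIG
import Pool.Agent.FRC.WEI
import Pool.Agent.FRC.FRB2
import Pool.Agent.FRC.FRB3
import Pool.Agent.FRC.FRB4

open CategoryTheory Polynomial NumberField

namespace Pool.Agent.FRC

open Pool.Agent.H12

variable {k : Type} [Field k] [NumberField k] {ℓ : ℕ} [Fact ℓ.Prime]

/-- A finite-dimensional object with weights `≤ a` and `> a` is zero (take a Frobenius outside
`N * N'`). -/
theorem subsingleton_of_wt {V : RepG k ℓ} [FiniteDimensional ℚ_[ℓ] V] {a : ℤ} (h : WtLE V a)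
    (h' : WtGT V a) : Subsingleton V := by
  by_contra hns
  rw [not_subsingleton_iff_nontrivial] at hns
  obtain ⟨N, W, hN, hV, hW⟩ := h
  obtain ⟨N', W', hN', hV', hW'⟩ := h'
  obtain ⟨𝔓, hm, hnot⟩ := exists_maximal_notMem (k := k) (Nat.mul_ne_zero hN hN')
  have h1 : (N : Zb k) ∉ 𝔓 := by
    intro hmem
    apply hnot
    rw [Nat.cast_mul]
    exact Ideal.mul_mem_right _ _ hmem
  have h2 : (N' : Zb k) ∉ 𝔓 := by
    intro hmem
    apply hnot
    rw [Nat.cast_mul]
    exact Ideal.mul_mem_left _ _ hmem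
  obtain ⟨σ, hσ⟩ := exists_frobAt hm
  obtain ⟨μ, hμ⟩ := exists_root hns σ⁻¹
  obtain ⟨a₀, ha₀⟩ := hV.2.1
  obtain ⟨b₀, hb₀⟩ := hV'.2.2.1
  obtain ⟨i, -, hi, hwi⟩ := exists_weight hV ha₀ hW hm h1 hσ μ hμ
  obtain ⟨j, hj, -, hwj⟩ := exists_weight hV' hW' hb₀ hm h2 hσ μ hμ
  have := isWeil_unique (one_lt_nrm hm) hwi hwj
  omega

/-- Morphisms from weights `≤ a` to weights `> a` vanish. -/
theorem hom_eq_zero_of_wt {V W : RepG k ℓ} [FiniteDimensional ℚ_[ℓ] V]
    [FiniteDimensional ℚ_[ℓ] W] {a : ℤ} (h : WtLE V a) (h' : WtGT W a) (f : V ⟶ W) : f = 0 := by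
  have hcomm : ∀ (g : GG k) (x : V), f.hom.toLinearMap (V.ρ g x) = W.ρ g (f.hom.toLinearMap x) :=
    fun g x => Rep.hom_comm_apply f g x
  have hst : ∀ (g : GG k), LinearMap.range f.hom.toLinearMap ≤
      (LinearMap.range f.hom.toLinearMap).comap (W.ρ g) := by
    rintro g _ ⟨x, rfl⟩
    exact ⟨V.ρ g x, hcomm g x⟩
  let I : RepG k ℓ := Rep.subrepresentation W (LinearMap.range f.hom.toLinearMap) hst
  have hle : WtLE I a := wtLE_of_surjective (X := V) (Y := I) f.hom.toLinearMap.rangeRestrict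
    (fun g x => Subtype.ext (hcomm g x)) (LinearMap.surjective_rangeRestrict _) h
  have hgt : WtGT I a := wtGT_of_injective (X := I) (Y := W)
    (LinearMap.range f.hom.toLinearMap).subtype (fun g x => rfl)
    (Submodule.subtype_injective _) h'
  have hfd : FiniteDimensional ℚ_[ℓ] I :=
    inferInstanceAs (FiniteDimensional ℚ_[ℓ] (LinearMap.range f.hom.toLinearMap))
  have hsub : Subsingleton I := subsingleton_of_wt hle hgt
  apply Rep.hom_ext
  apply Representation.IntertwiningMap.ext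
  apply LinearMap.ext
  intro x
  have := congrArg (LinearMap.range f.hom.toLinearMap).subtype
    (hsub.elim (f.hom.toLinearMap.rangeRestrict x) 0)
  exact this

theorem wtLE_sub {V : RepG k ℓ} {N : ℕ} {W : ℤ → Submodule ℚ_[ℓ] V} (hN : N ≠ 0)
    (hV : MixedP V N W) (a : ℤ) :
    WtLE (Rep.subrepresentation V (W a) (fun g v hv => hV.2.2.2.1 a g v hv) : RepG k ℓ) a := by
  refine ⟨N, _, hN, mixedP_of_injective
    (X := Rep.subrepresentation V (W a) (fun g v hv => hV.2.2.2.1 a g v hv)) (Y := V)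
    (W a).subtype (fun g x => rfl) (Submodule.subtype_injective _) hV, ?_⟩
  exact Submodule.comap_subtype_self _

theorem wtGT_quot {V : RepG k ℓ} {N : ℕ} {W : ℤ → Submodule ℚ_[ℓ] V} (hN : N ≠ 0)
    (hV : MixedP V N W) (a : ℤ) :
    WtGT (Rep.quotient V (W a) (fun g v hv => hV.2.2.2.1 a g v hv) : RepG k ℓ) a := by
  refine ⟨N, _, hN, mixedP_of_surjective (X := V)
    (Y := Rep.quotient V (W a) (fun g v hv => hV.2.2.2.1 a g v hv))
    (W a).mkQ (fun g x => rfl) (Submodule.mkQ_surjective _) hV, ?_⟩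
  exact Submodule.mkQ_map_self _

end Pool.Agent.FRC
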