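import Mathlib
import Pool.Agent.FRC.TPR
import Pool.Agent.FRC.SES
import Pool.Agent.FRC.TOR

open CategoryTheory CategoryTheory.Limits CategoryTheory.Abelian Polynomial NumberField

namespace Pool.Agent.FRC

open Pool.Agent.H12

variable {k : Type} [Field k] [NumberField k] {ℓ : ℕ} [Fact ℓ.Prime]

private theorem wtc_comm {X Y : MixCat k ℓ} (f : X ⟶ Y) (g : GG k) (x : X.obj) :
    f.hom.hom.toLinearMap (X.obj.ρ g x) = Y.obj.ρ g (f.hom.hom.toLinearMap x) :=
  Rep.hom_comm_apply f.hom g x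

private theorem wtc_le_sub (a : ℤ) : ObjectProperty.IsClosedUnderSubobjects
    (fun V : MixCat k ℓ => WtLE V.obj a) where
  prop_of_mono {X Y} f _ hY :=
    wtLE_of_injective f.hom.hom.toLinearMap (wtc_comm f) ((mono_iff f).mp inferInstance) hY

private theorem wtc_le_quot (a : ℤ) : ObjectProperty.IsClosedUnderQuotients
    (fun V : MixCat k ℓ => WtLE V.obj a) where
  prop_of_epi {X Y} f _ hX :=
    wtLE_of_surjective f.hom.hom.toLinearMap (wtc_comm f) ((epi_iff f).mp inferInstance) hX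

private theorem wtc_gt_quot (a : ℤ) : ObjectProperty.IsClosedUnderQuotients
    (fun V : MixCat k ℓ => WtGT V.obj a) where
  prop_of_epi {X Y} f _ hX :=
    wtGT_of_surjective f.hom.hom.toLinearMap (wtc_comm f) ((epi_iff f).mp inferInstance) hX

/-- The part of weights `≤ m` as an object. -/
private noncomputable def wtcSub (V : MixCat k ℓ) (S : Submodule ℚ_[ℓ] V.obj)
    (hS : ∀ g : GG k, S ≤ S.comap (V.obj.ρ g)) : MixCat k ℓ :=
  ⟨Rep.subrepresentation V.obj S hS, by
    have : Mono (Rep.subtype V.obj S hS) :=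
      (Rep.mono_iff_injective _).mpr (Submodule.subtype_injective S)
    exact (InC k ℓ).prop_of_mono (Rep.subtype V.obj S hS) V.property⟩

private noncomputable def wtcQuot (V : MixCat k ℓ) (S : Submodule ℚ_[ℓ] V.obj)
    (hS : ∀ g : GG k, S ≤ S.comap (V.obj.ρ g)) : MixCat k ℓ :=
  ⟨Rep.quotient V.obj S hS, by
    have : Epi (Rep.mkQ V.obj S hS) :=
      (Rep.epi_iff_surjective _).mpr (Submodule.mkQ_surjective S)
    exact (InC k ℓ).prop_of_epi (Rep.mkQ V.obj S hS) V.property⟩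

private noncomputable def wtcI (V : MixCat k ℓ) (S : Submodule ℚ_[ℓ] V.obj)
    (hS : ∀ g : GG k, S ≤ S.comap (V.obj.ρ g)) : wtcSub V S hS ⟶ V :=
  ObjectProperty.homMk (Rep.subtype V.obj S hS)

private noncomputable def wtcQ (V : MixCat k ℓ) (S : Submodule ℚ_[ℓ] V.obj)
    (hS : ∀ g : GG k, S ≤ S.comap (V.obj.ρ g)) : V ⟶ wtcQuot V S hS :=
  ObjectProperty.homMk (Rep.mkQ V.obj S hS)

private theorem wtc_zero (V : MixCat k ℓ) (S : Submodule ℚ_[ℓ] V.obj)
    (hS : ∀ g : GG k, S ≤ S.comap (V.obj.ρ g)) : wtcI V S hS ≫ wtcQ V S hS = 0 := by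
  apply ObjectProperty.hom_ext
  apply Rep.hom_ext
  ext x
  exact (Submodule.Quotient.mk_eq_zero S).mpr x.2

private theorem wtc_ses (V : MixCat k ℓ) (S : Submodule ℚ_[ℓ] V.obj)
    (hS : ∀ g : GG k, S ≤ S.comap (V.obj.ρ g)) :
    (ShortComplex.mk (wtcI V S hS) (wtcQ V S hS) (wtc_zero V S hS)).ShortExact := by
  rw [shortExact_iff]
  refine ⟨Submodule.subtype_injective S, Submodule.mkQ_surjective S, ?_⟩
  intro y hy
  have hy' : S.mkQ y = 0 := hy
  exact ⟨⟨y, (Submodule.Quotient.mk_eq_zero S).mp hy'⟩, rfl⟩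

/-- Weight vanishing: all `Ext^n(V, W)` vanish if all weights of `V` are `≤ a` and all weights
of `W` are `> a`. -/
theorem ext_subsingleton_of_wt {V W : MixCat k ℓ} {a : ℤ} (hV : WtLE V.obj a)
    (hW : WtGT W.obj a) (n : ℕ) : Subsingleton (Ext.{1} V W n) := by
  have i1 := wtc_le_sub (k := k) (ℓ := ℓ) a
  have i2 := wtc_le_quot (k := k) (ℓ := ℓ) a
  have i3 := wtc_gt_quot (k := k) (ℓ := ℓ) a
  refine ext_subsingleton_torsion (fun V : MixCat k ℓ => WtLE V.obj a)
    (fun V : MixCat k ℓ => WtGT V.obj a) ?_ ?_ n V W hV hW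
  · intro X Y hX hY f
    have := X.property.1
    have := Y.property.1
    apply ObjectProperty.hom_ext
    exact hom_eq_zero_of_wt hX hY f.hom
  · intro P
    obtain ⟨N, F, hN, hF⟩ := (isMixed_iff P.obj P.property.1 P.property.2.2.1).mp P.property.2.2.2.1
    have hS : ∀ g : GG k, F a ≤ (F a).comap (P.obj.ρ g) := fun g v hv => hF.2.2.2.1 a g v hv
    exact ⟨_, _, wtcI P (F a) hS, wtcQ P (F a) hS, wtc_zero P (F a) hS, wtc_ses P (F a) hS,
      wtLE_sub hN hF a, wtGT_quot hN hF a⟩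

/-- A simple object is pure. -/
theorem isPure_of_simple (V : MixCat k ℓ) (hV : Simple V) : ∃ m : ℤ, IsPure V.obj m := by
  obtain ⟨N, F, hN, hF⟩ := (isMixed_iff V.obj V.property.1 V.property.2.2.1).mp
    V.property.2.2.2.1
  have hS : ∀ m, ∀ g : GG k, F m ≤ (F m).comap (V.obj.ρ g) :=
    fun m g v hv => hF.2.2.2.1 m g v hv
  have hdich : ∀ m, F m = ⊥ ∨ F m = ⊤ := by
    intro m
    have hm : Mono (wtcI V (F m) (hS m)) := (mono_iff _).mpr (Submodule.subtype_injective (F m))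
    by_cases h0 : wtcI V (F m) (hS m) = 0
    · left
      rw [Submodule.eq_bot_iff]
      intro x hx
      have : (wtcI V (F m) (hS m)).hom.hom (⟨x, hx⟩ : F m) = 0 := by rw [h0]; rfl
      exact this
    · right
      have hiso : IsIso (wtcI V (F m) (hS m)) := (Simple.mono_isIso_iff_nonzero _).mpr h0
      have hsur := (epi_iff (wtcI V (F m) (hS m))).mp inferInstance
      rw [Submodule.eq_top_iff']
      intro x
      obtain ⟨y, hy⟩ := hsur x
      let y' : F m := y
      have : (F m).subtype y' = x := hy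
      rw [← this]
      exact y'.2
  have hne : (⊥ : Submodule ℚ_[ℓ] V.obj) ≠ ⊤ := by
    intro h
    apply Simple.not_isZero V
    rw [isZero_iff_finrank]
    have := V.property.1
    rw [← finrank_top, ← h, finrank_bot]
  obtain ⟨c, hc⟩ := hF.2.1
  obtain ⟨d, hd⟩ := hF.2.2.1
  obtain ⟨m, hm, hmin⟩ := Int.exists_least_of_bdd (P := fun m => F m = ⊤)
    ⟨c, fun z hz => by
      by_contra hlt
      have h1 : F z ≤ F c := hF.1 (by omega)
      rw [hc, hz] at h1
      exact hne (top_le_iff.mp h1)⟩ ⟨d, hd⟩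
  refine ⟨m, (isPure_iff V.obj V.property.1 m).mpr ⟨V.property.2.2.1, N, F, hN, hF, hm, ?_⟩⟩
  rcases hdich (m - 1) with h | h
  · exact h
  · have := hmin (m - 1) h
    omega

end Pool.Agent.FRC
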