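import Mathlib
import Pool.Agent.FRC.RTL
import Pool.Agent.FRC.HIG
import Pool.Agent.FRC.DEV
import Pool.Agent.FRC.WTC
import Pool.Agent.FRC.UNI
import Pool.Agent.FRC.TE1
import Pool.Agent.FRC.TE2
import Pool.Agent.FRC.TE3
import Pool.Agent.FRC.TEX

open CategoryTheory CategoryTheory.Limits CategoryTheory.Abelian Polynomial NumberField

namespace Pool.Agent.FRC

open Pool.Agent.H12

variable (k : Type) [Field k] [NumberField k] (ℓ : ℕ) [Fact ℓ.Prime]

theorem inC_tenF {V : RepG k ℓ} (hV : InC k ℓ V) {v : ℤ} (hv : IsPure V v) (X : RepG k ℓ)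
    (hX : InC k ℓ X) : InC k ℓ ((tenF V).obj X) := by
  obtain ⟨h1, h2, ⟨N, hN0, hN⟩, h4, h5⟩ := hX
  obtain ⟨h1', h2', ⟨N', hN0', hN'⟩, h4', h5'⟩ := hV
  have := h1
  have := h1'
  change InC k ℓ (Rep.of (V.ρ.tprod X.ρ) : RepG k ℓ)
  have g1 : FiniteDimensional ℚ_[ℓ] (Rep.of (V.ρ.tprod X.ρ) : RepG k ℓ) := by
    change FiniteDimensional ℚ_[ℓ] (TensorProduct ℚ_[ℓ] V X)
    infer_instance
  have g3 : ∃ N : ℕ, N ≠ 0 ∧ UnramOutside (Rep.of (V.ρ.tprod X.ρ) : RepG k ℓ) N :=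
    ⟨N * N', mul_ne_zero hN0 hN0',
      unram_tprod (hN'.congr_N (Dvd.intro_left _ rfl)) (hN.congr_N (Dvd.intro _ rfl))⟩
  refine ⟨g1, isCont_tprod h2' h2, g3, ?_, ?_⟩
  · rw [isMixed_iff _ g1 g3]
    obtain ⟨M, W, hM0, hW⟩ := (isMixed_iff X h1 ⟨N, hN0, hN⟩).1 h4
    exact mixed_tprod hv hM0 hW
  · rw [isPst_iff] at h5 h5' ⊢
    intro ι
    obtain ⟨L, hL1, hL2, hL3⟩ := h5 ι
    obtain ⟨L', hL1', hL2', hL3'⟩ := h5' ι
    have := hL1
    have := hL1'
    refine ⟨L ⊔ L', ?_, fun x => ?_, ?_⟩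
    · exact IntermediateField.finiteDimensional_sup L L'
    · exact (le_sup_left : L ≤ L ⊔ L') (hL2 x)
    · exact pstAt_tprod (pstAt_mono le_sup_right hL3') (pstAt_mono le_sup_left hL3)

theorem inC_ihomF {V : RepG k ℓ} (hV : InC k ℓ V) {v : ℤ} (hv : IsPure V v) (X : RepG k ℓ)
    (hX : InC k ℓ X) : InC k ℓ ((Rep.ihom V).obj X) := by
  obtain ⟨h1, h2, ⟨N, hN0, hN⟩, h4, h5⟩ := hX
  obtain ⟨h1', h2', ⟨N', hN0', hN'⟩, h4', h5'⟩ := hV
  have := h1
  have := h1'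
  change InC k ℓ (Rep.of (V.ρ.linHom X.ρ) : RepG k ℓ)
  have g1 : FiniteDimensional ℚ_[ℓ] (Rep.of (V.ρ.linHom X.ρ) : RepG k ℓ) := by
    change FiniteDimensional ℚ_[ℓ] (V →ₗ[ℚ_[ℓ]] X)
    infer_instance
  have g3 : ∃ N : ℕ, N ≠ 0 ∧ UnramOutside (Rep.of (V.ρ.linHom X.ρ) : RepG k ℓ) N :=
    ⟨N * N', mul_ne_zero hN0 hN0',
      unram_linHom (hN'.congr_N (Dvd.intro_left _ rfl)) (hN.congr_N (Dvd.intro _ rfl))⟩
  refine ⟨g1, isCont_linHom h2' h2, g3, ?_, ?_⟩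
  · rw [isMixed_iff _ g1 g3]
    obtain ⟨M, W, hM0, hW⟩ := (isMixed_iff X h1 ⟨N, hN0, hN⟩).1 h4
    exact mixed_linHom hv hM0 hW
  · rw [isPst_iff] at h5 h5' ⊢
    intro ι
    obtain ⟨L, hL1, hL2, hL3⟩ := h5 ι
    obtain ⟨L', hL1', hL2', hL3'⟩ := h5' ι
    have := hL1
    have := hL1'
    have hle : ∀ x, ι (algebraMap k (AlgebraicClosure k) x) ∈ L ⊔ L' :=
      fun x => (le_sup_left : L ≤ L ⊔ L') (hL2 x)
    refine ⟨L ⊔ L', ?_, hle, ?_⟩
    · exact IntermediateField.finiteDimensional_sup L L'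
    · exact pstAt_linHom (exists_induced hle) (pstAt_mono le_sup_right hL3')
        (pstAt_mono le_sup_left hL3)

private theorem h2a_wtLE {V : RepG k ℓ} (hfin : FiniteDimensional ℚ_[ℓ] V) {m : ℤ}
    (h : IsPure V m) : WtLE V m := by
  obtain ⟨-, N, W, hN, hW, htop, -⟩ := (isPure_iff V hfin m).1 h
  exact ⟨N, W, hN, hW, htop⟩

private theorem h2a_wtGT {V : RepG k ℓ} (hfin : FiniteDimensional ℚ_[ℓ] V) {m a : ℤ}
    (h : IsPure V m) (ha : a < m) : WtGT V a := by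
  obtain ⟨-, N, W, hN, hW, -, hbot⟩ := (isPure_iff V hfin m).1 h
  refine ⟨N, W, hN, hW, ?_⟩
  have h1 : W a ≤ W (m - 1) := hW.1 (by omega)
  rw [hbot] at h1
  exact le_bot_iff.1 h1

/-- Reduction to simple coefficients of weight `≤ 0`. -/
theorem reduction :
    (∀ n, 2 ≤ n → ∀ V W : MixCat k ℓ, Subsingleton (Ext.{1} V W n)) ↔
      ∀ W : MixCat k ℓ, Simple W → (∃ m : ℤ, m ≤ 0 ∧ IsPure W.obj m) →
        Subsingleton (Ext.{1} (unitObj k ℓ) W 2) := by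
  constructor
  · intro h W _ _
    exact h 2 le_rfl _ _
  · intro h n hn V W
    have hd : ∀ S : ShortComplex (MixCat k ℓ), S.ShortExact →
        Module.finrank ℚ_[ℓ] S.X₂.obj = Module.finrank ℚ_[ℓ] S.X₁.obj +
          Module.finrank ℚ_[ℓ] S.X₃.obj := fun S hS => finrank_shortExact S hS
    have h0 : ∀ X : MixCat k ℓ, Module.finrank ℚ_[ℓ] X.obj = 0 → IsZero X :=
      fun X hX => (isZero_iff_finrank X).2 hX
    have hunit : ∀ W : MixCat k ℓ, Subsingleton (Ext.{1} (unitObj k ℓ) W 2) := by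
      intro W
      refine devissage (fun X : MixCat k ℓ => Module.finrank ℚ_[ℓ] X.obj) hd h0
        (fun W => Subsingleton (Ext.{1} (unitObj k ℓ) W 2)) ?_ ?_ ?_ W
      · intro X hX
        exact ext_subsingleton_of_isZero_right _ _ hX 2
      · intro X hX
        obtain ⟨m, hm⟩ := isPure_of_simple X hX
        by_cases hm0 : m ≤ 0
        · exact h X hX ⟨m, hm0, hm⟩
        · exact ext_subsingleton_of_wt (a := 0)
            (h2a_wtLE k ℓ (unitObj k ℓ).property.1 (unitRep_isPure k ℓ))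
            (h2a_wtGT k ℓ X.property.1 hm (by omega)) 2
      · intro S hS h1 h3
        exact ext_subsingleton_extension_right S hS _ 2 h1 h3
    refine ext_subsingleton_of_two ?_ n hn V W
    intro X Y
    refine devissage (fun X : MixCat k ℓ => Module.finrank ℚ_[ℓ] X.obj) hd h0
        (fun X => Subsingleton (Ext.{1} X Y 2)) ?_ ?_ ?_ X
    · intro X hX
      exact ext_subsingleton_of_isZero_left _ _ hX 2
    · intro X hX
      obtain ⟨m, hm⟩ := isPure_of_simple X hX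
      obtain ⟨ev, j, u, hu⟩ := exists_ev (X.obj : RepG k ℓ)
      have := tenF_finLim (X.obj : RepG k ℓ)
      have := tenF_finColim (X.obj : RepG k ℓ)
      have := ihomF_finLim (X.obj : RepG k ℓ)
      have := ihomF_finColim (X.obj : RepG k ℓ)
      exact full_ext_subsingleton_of_ihom (InC k ℓ) (tenF (X.obj : RepG k ℓ))
        (Rep.ihom (X.obj : RepG k ℓ)) (inC_tenF k ℓ X.property hm)
        (inC_ihomF k ℓ X.property hm) ev (V := X) (I := unitObj k ℓ) j u hu 2 hunit Y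
    · intro S hS h1 h3
      exact ext_subsingleton_extension_left S hS _ 2 h1 h3

end Pool.Agent.FRC
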