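import Mathlib
import Pool.Agent.H12.D8

open CategoryTheory Polynomial TensorProduct NumberField

set_option warn.classDefReducibility false

namespace Pool.Agent.FRS

noncomputable section

open Pool.Agent.H12

section Primes

variable (k : Type) [Field k]

/-- The ring of all algebraic integers in the algebraic closure of `k`. -/
abbrev Zb : Type := 𝓞 (AlgebraicClosure k)

/-- Its ideals. -/
def Idl : Type := Ideal (Zb k)

variable {k}

/-- `𝔓` as an ideal. -/
def toIdeal (𝔓 : Idl k) : Ideal (Zb k) := 𝔓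

/-- The element `x` lies in `𝔓`. -/
def InP (𝔓 : Idl k) (x : Zb k) : Prop := x ∈ toIdeal 𝔓

/-- `𝔓` is a maximal ideal. -/
def IsMax (𝔓 : Idl k) : Prop := (toIdeal 𝔓).IsMaximal

/-- `σ y ≡ y ^ q` modulo `𝔓` for all algebraic integers `y`. For `q = 1` this says that `σ` is in
the inertia group of `𝔓`, and for `q = nrm 𝔓` that `σ` is an arithmetic Frobenius at `𝔓`. -/
def FrobAt (𝔓 : Idl k) (q : ℕ) (σ : GG k) : Prop :=
  ∀ y z : Zb k, (z : AlgebraicClosure k) = σ (y : AlgebraicClosure k) → InP 𝔓 (z - y ^ q)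

/-- The number of elements of the residue field of the place of `k` below `𝔓`. -/
def nrm (𝔓 : Idl k) : ℕ :=
  Nat.card (𝓞 k ⧸ (toIdeal 𝔓).comap (algebraMap (𝓞 k) (Zb k)))

end Primes

section Reps

variable (k : Type) [Field k] (ℓ : ℕ) [Fact ℓ.Prime]

/-- Linear representations of `G_k` over `ℚ_ℓ`, without any further condition. -/
def RepG : Type 1 := Rep.{0} ℚ_[ℓ] (GG k)

/-- Their category. -/
def catRepG : Category.{0} (RepG k ℓ) :=
  (inferInstance : Category (Rep.{0} ℚ_[ℓ] (GG k)))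

attribute [instance] catRepG

/-- It is abelian. -/
def abRepG : Abelian (RepG k ℓ) :=
  (inferInstance : Abelian (Rep.{0} ℚ_[ℓ] (GG k)))

attribute [instance] abRepG

variable {k ℓ}

/-- The vector space underlying `V`. -/
def Vec (V : RepG k ℓ) : Type := Rep.V (k := ℚ_[ℓ]) (G := GG k) V

/-- Its addition. -/
def addVec (V : RepG k ℓ) : AddCommGroup (Vec V) := Rep.hV1 (k := ℚ_[ℓ]) (G := GG k) (self := V)

attribute [instance] addVec

/-- Its scalar multiplication. -/
def modVec (V : RepG k ℓ) : Module ℚ_[ℓ] (Vec V) := Rep.hV2 (k := ℚ_[ℓ]) (G := GG k) (self := V)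

attribute [instance] modVec

/-- The action of `g` on `V`. -/
def op (V : RepG k ℓ) (g : GG k) : Module.End ℚ_[ℓ] (Vec V) :=
  Rep.ρ (k := ℚ_[ℓ]) (G := GG k) V g

/-- The action of `g` on a vector of `V`. -/
def act (V : RepG k ℓ) (g : GG k) (v : Vec V) : Vec V := op V g v

/-- The subspaces of `V`. -/
def Sub (V : RepG k ℓ) : Type := Submodule ℚ_[ℓ] (Vec V)

/-- `A` as a submodule. -/
def toSub {V : RepG k ℓ} (A : Sub V) : Submodule ℚ_[ℓ] (Vec V) := A

/-- The subspace `0`. -/
def zeroS (V : RepG k ℓ) : Sub V := (⊥ : Submodule ℚ_[ℓ] (Vec V))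

/-- The subspace `V`. -/
def allS (V : RepG k ℓ) : Sub V := (⊤ : Submodule ℚ_[ℓ] (Vec V))

/-- The vector `v` lies in the subspace `A`. -/
def InS {V : RepG k ℓ} (A : Sub V) (v : Vec V) : Prop := v ∈ toSub A

/-- The subspace `A` is stable under `G_k`. -/
def Stable {V : RepG k ℓ} (A : Sub V) : Prop := ∀ (g : GG k) (v : Vec V), InS A v → InS A (act V g v)

/-- The subspaces `W m` are increasing with `m`. -/
def Incr {V : RepG k ℓ} (W : ℤ → Sub V) : Prop :=
  Monotone fun m => toSub (W m)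

/-- Linear maps. -/
def Lin (V P : RepG k ℓ) : Type := Vec V →ₗ[ℚ_[ℓ]] Vec P

/-- `π` as a linear map. -/
def toLin {V P : RepG k ℓ} (π : Lin V P) : Vec V →ₗ[ℚ_[ℓ]] Vec P := π

/-- The value of a linear map at a vector. -/
def ap {V P : RepG k ℓ} (π : Lin V P) (v : Vec V) : Vec P := toLin π v

/-- `V` is unramified at every prime that does not contain `N`. -/
def UnramOutside (V : RepG k ℓ) (N : ℕ) : Prop :=
  ∀ 𝔓 : Idl k, IsMax 𝔓 → ¬ InP 𝔓 (N : Zb k) → ∀ σ : GG k, FrobAt 𝔓 1 σ →
    ∀ v : Vec V, act V σ v = v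

/-- `μ` is an eigenvalue of `g` on `V` (a root of the minimal polynomial). -/
def IsEig (V : RepG k ℓ) (g : GG k) (μ : AlgebraicClosure ℚ_[ℓ]) : Prop :=
  aeval μ (minpoly ℚ_[ℓ] (op V g)) = 0

/-- `V` is pure of weight `m`: outside a finite set of primes, `V` is unramified and every
eigenvalue of a geometric Frobenius is an algebraic number all of whose complex absolute values
are `q ^ (m / 2)`, where `q` is the number of elements of the residue field. -/
def IsPure (V : RepG k ℓ) (m : ℤ) : Prop :=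
  ∃ N : ℕ, N ≠ 0 ∧ UnramOutside V N ∧
    ∀ 𝔓 : Idl k, IsMax 𝔓 → ¬ InP 𝔓 (N : Zb k) → ∀ σ : GG k, FrobAt 𝔓 (nrm 𝔓) σ →
      ∀ μ : AlgebraicClosure ℚ_[ℓ], IsEig V σ⁻¹ μ → IsWeil (nrm 𝔓) m μ

/-- `P` is isomorphic to `A / B`, where `A` and `B` are stable subspaces of `V`. -/
def IsGr (V : RepG k ℓ) (A B : Sub V) (P : RepG k ℓ) : Prop :=
  ∃ π : Lin V P, (∀ y : Vec P, ∃ v : Vec V, InS A v ∧ ap π v = y) ∧
    (∀ v : Vec V, InS A v → (ap π v = 0 ↔ InS B v)) ∧
    ∀ (g : GG k) (v : Vec V), InS A v → ap π (act V g v) = act P g (ap π v)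

/-- The pieces `W m / W (m - 1)` of the filtration `W` are pure of weight `m`. -/
def PureGr (V : RepG k ℓ) (W : ℤ → Sub V) : Prop :=
  ∀ m : ℤ, ∃ P : RepG k ℓ, IsPure P m ∧ IsGr V (W m) (W (m - 1)) P

/-- `V` is mixed: it has a finite increasing filtration by subrepresentations whose `m`-th graded
piece is pure of weight `m`. -/
def IsMixed (V : RepG k ℓ) : Prop :=
  ∃ W : ℤ → Sub V, Incr W ∧ (∃ a : ℤ, W a = zeroS V) ∧ (∃ b : ℤ, W b = allS V) ∧
    (∀ m : ℤ, Stable (W m)) ∧ PureGr V W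

/-- Continuity of a linear representation of a topological group over `ℚ_ℓ` (continuity of all
matrix coefficients). -/
def IsCont {G : Type} [Group G] [TopologicalSpace G] (V : Rep.{0} ℚ_[ℓ] G) : Prop :=
  ∀ (v : V) (f : Module.Dual ℚ_[ℓ] V), Continuous fun g => f (V.ρ g v)

end Reps

section Local

variable {ℓ : ℕ} [Fact ℓ.Prime]

/-- The group `G_L`, for a field `L` between `ℚ_ℓ` and its algebraic closure. -/
def GaL (L : IntermediateField ℚ_[ℓ] (PadicAlgCl ℓ)) : Type := L.fixingSubgroup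

/-- The element `σ` of `G_L` as an automorphism. -/
def valG {L : IntermediateField ℚ_[ℓ] (PadicAlgCl ℓ)} (σ : GaL L) : GalP ℓ :=
  Subtype.val (p := fun s => s ∈ L.fixingSubgroup) σ

/-- Linear representations of `G_L` over `ℚ_ℓ`. -/
def RepL (L : IntermediateField ℚ_[ℓ] (PadicAlgCl ℓ)) : Type 1 :=
  Rep.{0} ℚ_[ℓ] L.fixingSubgroup

variable {L : IntermediateField ℚ_[ℓ] (PadicAlgCl ℓ)}

/-- The vector space underlying `U`. -/
def VecL (U : RepL L) : Type := Rep.V (k := ℚ_[ℓ]) (G := L.fixingSubgroup) U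

/-- Its addition. -/
def addVecL (U : RepL L) : AddCommGroup (VecL U) :=
  Rep.hV1 (k := ℚ_[ℓ]) (G := L.fixingSubgroup) (self := U)

attribute [instance] addVecL

/-- Its scalar multiplication. -/
def modVecL (U : RepL L) : Module ℚ_[ℓ] (VecL U) :=
  Rep.hV2 (k := ℚ_[ℓ]) (G := L.fixingSubgroup) (self := U)

attribute [instance] modVecL

/-- The action of `σ` on `U`. -/
def opL (U : RepL L) (σ : GaL L) : Module.End ℚ_[ℓ] (VecL U) :=
  Rep.ρ (k := ℚ_[ℓ]) (G := L.fixingSubgroup) U σ

/-- The action of `σ` on a vector of `U`. -/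
def actL (U : RepL L) (σ : GaL L) (v : VecL U) : VecL U := opL U σ v

/-- `B_st ⊗ U`. -/
def BT (U : RepL L) : Type := Bst ℓ ⊗[ℚ_[ℓ]] VecL U

/-- Its addition. -/
def addBT (U : RepL L) : AddCommMonoid (BT U) :=
  (inferInstance : AddCommMonoid (Bst ℓ ⊗[ℚ_[ℓ]] VecL U))

attribute [instance] addBT

/-- It is a module over `B_st`. -/
def modBT (U : RepL L) : Module (Bst ℓ) (BT U) :=
  (inferInstance : Module (Bst ℓ) (Bst ℓ ⊗[ℚ_[ℓ]] VecL U))

attribute [instance] modBT

/-- The diagonal action of `G_L` on `B_st ⊗ U`. -/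
def actBT (U : RepL L) (σ : GaL L) (b : BT U) : BT U :=
  TensorProduct.map (actBstLin (valG σ)) (opL U σ) b

/-- The dimension of `U`. -/
def dimL (U : RepL L) : ℕ := Module.finrank ℚ_[ℓ] (VecL U)

/-- A finite-dimensional continuous representation `U` of `G_L` is semistable: `B_st ⊗ U` has a
`B_st`-basis of vectors fixed by `G_L`. -/
def IsSemistable (U : RepL L) : Prop :=
  FiniteDimensional ℚ_[ℓ] (VecL U) ∧ IsCont (ℓ := ℓ) (G := L.fixingSubgroup) U ∧
    ∃ b : Module.Basis (Fin (dimL U)) (Bst ℓ) (BT U),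
      ∀ (σ : GaL L) (i : Fin (dimL U)), actBT U σ (b i) = b i

/-- The subspaces of `U`. -/
def SubL (U : RepL L) : Type := Submodule ℚ_[ℓ] (VecL U)

/-- `A` as a submodule. -/
def toSubL {U : RepL L} (A : SubL U) : Submodule ℚ_[ℓ] (VecL U) := A

/-- The vector `v` lies in the subspace `A`. -/
def InSL {U : RepL L} (A : SubL U) (v : VecL U) : Prop := v ∈ toSubL A

/-- The subspace `A` as a vector space. -/
def El {U : RepL L} (A : SubL U) : Type := toSubL A

/-- Its addition. -/
def addEl {U : RepL L} (A : SubL U) : AddCommMonoid (El A) :=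
  (inferInstance : AddCommMonoid (toSubL A))

attribute [instance] addEl

/-- Its scalar multiplication. -/
def modEl {U : RepL L} (A : SubL U) : Module ℚ_[ℓ] (El A) :=
  (inferInstance : Module ℚ_[ℓ] (toSubL A))

attribute [instance] modEl

/-- An element of `A` as a vector of `U`. -/
def vec {U : RepL L} {A : SubL U} (a : El A) : VecL U :=
  Subtype.val (p := fun v => v ∈ toSubL A) a

variable {k : Type} [Field k]

/-- The restriction of `V` to `G_L` is a subquotient `A / ker π` of the representation `U` of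
`G_L`. Here `σ ∈ G_L` acts on `V` through the element `g` of `G_k` induced by `σ` with the
embedding `ι`. -/
def IsSubquo (ι : AlgebraicClosure k →+* PadicAlgCl ℓ) (U : RepL L) (V : RepG k ℓ) : Prop :=
  ∃ (A : SubL U) (π : El A →ₗ[ℚ_[ℓ]] Vec V), Function.Surjective π ∧
    (∀ (σ : GaL L) (a : VecL U), InSL A a → InSL A (actL U σ a)) ∧
    ∀ (σ : GaL L) (g : GG k), (∀ x, ι (g x) = valG σ (ι x)) →
      ∀ a b : El A, vec b = actL U σ (vec a) → π b = act V g (π a)

/-- `V` is potentially semistable at every place of `k` above `ℓ`. For every embedding `ι` of the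
algebraic closure of `k` into that of `ℚ_ℓ` (each place `v ∣ ℓ` is induced by such an `ι`) there
is a finite extension `L` of `ℚ_ℓ` containing `ι k` (so containing `k_v`) such that the
restriction of `V` to `G_L` is a subquotient of a semistable representation `U` of `G_L`. (By
Fontaine, subquotients of semistable representations are semistable.) -/
def IsPst (V : RepG k ℓ) : Prop :=
  ∀ ι : AlgebraicClosure k →+* PadicAlgCl ℓ,
    ∃ L : IntermediateField ℚ_[ℓ] (PadicAlgCl ℓ), FiniteDimensional ℚ_[ℓ] L ∧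
      (∀ x : k, ι (algebraMap k (AlgebraicClosure k) x) ∈ L) ∧
      ∃ U : RepL L, IsSemistable U ∧ IsSubquo ι U V

end Local

section Cat

variable (k : Type) [Field k] (ℓ : ℕ) [Fact ℓ.Prime]

/-- The objects of the category `C_{k,ℓ}`. -/
def InC : ObjectProperty (RepG k ℓ) := fun V =>
  FiniteDimensional ℚ_[ℓ] (Vec V) ∧ IsCont (ℓ := ℓ) (G := GG k) V ∧
    (∃ N : ℕ, N ≠ 0 ∧ UnramOutside V N) ∧ IsMixed V ∧ IsPst V

/-- The objects of `C_{k,ℓ}` all of whose weights lie in `[a, b]`: there is a filtration as in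
`IsMixed` with `W (a - 1) = 0` and `W b = V`. -/
def InCI (a b : ℤ) : ObjectProperty (RepG k ℓ) := fun V =>
  InC k ℓ V ∧ ∃ W : ℤ → Sub V, Incr W ∧ W (a - 1) = zeroS V ∧ W b = allS V ∧
    (∀ m : ℤ, Stable (W m)) ∧ PureGr V W

/-- The trivial representation `ℚ_ℓ`. -/
def unitRep : RepG k ℓ := Rep.trivial ℚ_[ℓ] (GG k) ℚ_[ℓ]

/-- The category `C_{k,ℓ}`, a full subcategory of that of all representations. -/
def Cat : Type 1 := (InC k ℓ).FullSubcategory

/-- The category of the objects of `C_{k,ℓ}` all of whose weights lie in `[a, b]`. -/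
def CatI (a b : ℤ) : Type 1 := (InCI k ℓ a b).FullSubcategory

/-- The category structure of `Cat`. -/
def catCat : Category.{0} (Cat k ℓ) :=
  (inferInstance : Category (InC k ℓ).FullSubcategory)

attribute [instance] catCat

/-- The category structure of `CatI`. -/
def catCatI (a b : ℤ) : Category.{0} (CatI k ℓ a b) :=
  (inferInstance : Category (InCI k ℓ a b).FullSubcategory)

attribute [instance] catCatI

variable {k ℓ}

/-- An object of `C_{k,ℓ}` as a representation. -/
def toRep (V : Cat k ℓ) : RepG k ℓ := ObjectProperty.FullSubcategory.obj V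

end Cat

end

end Pool.Agent.FRS
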