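import Mathlib
import Pool.Agent.FRC.SD
import Pool.Agent.FRC.UNI

open CategoryTheory CategoryTheory.Limits CategoryTheory.Abelian

set_option warn.classDefReducibility false

namespace Pool.Agent.FRS

noncomputable section

variable (k : Type) [Field k] [NumberField k] (ℓ : ℕ) [Fact ℓ.Prime]

theorem inC_zero : (InC k ℓ).ContainsZero := FRC.inC_zero k ℓ

theorem inC_sub : (InC k ℓ).IsClosedUnderSubobjects := FRC.inC_sub k ℓ

theorem inC_quot : (InC k ℓ).IsClosedUnderQuotients := FRC.inC_quot k ℓ

theorem inC_prod : (InC k ℓ).IsClosedUnderFiniteProducts := FRC.inC_prod k ℓ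

attribute [local instance] inC_zero inC_sub inC_quot inC_prod

/-- The category `C_{k,ℓ}` is abelian (as a full subcategory). -/
def abCat : Abelian (Cat k ℓ) := (inferInstance : Abelian (InC k ℓ).FullSubcategory)

attribute [instance] abCat

theorem hasExtCat : HasExt.{1} (Cat k ℓ) := HasExt.standard _

attribute [instance] hasExtCat

theorem unitRep_inC : InC k ℓ (unitRep k ℓ) := FRC.unitRep_inC k ℓ

/-- The object `ℚ_ℓ` of `C_{k,ℓ}`. -/
def unitObj : Cat k ℓ := ObjectProperty.FullSubcategory.mk (unitRep k ℓ) (unitRep_inC k ℓ)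

end

end Pool.Agent.FRS
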