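import Mathlib
import Pool.Agent.FRC.Base

open CategoryTheory Polynomial NumberField

namespace Pool.Agent.FRC

open Pool.Agent.H12

variable {k : Type} [Field k] [NumberField k]

private theorem gen_equiv {F K : Type} [Field F] [Field K] [Algebra F K]
    [Algebra.IsAlgebraic F K] : Nonempty (AlgebraicClosure K ≃+* AlgebraicClosure F) := by
  have : Algebra.IsAlgebraic F (AlgebraicClosure K) := Algebra.IsAlgebraic.trans F K _
  have : IsAlgClosure F (AlgebraicClosure K) := ⟨inferInstance, inferInstance⟩
  exact ⟨(IsAlgClosure.equiv F (AlgebraicClosure K) (AlgebraicClosure F)).toRingEquiv⟩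

private noncomputable def gField {F K : Type} [Field F] [Field K] [Algebra F K]
    (f : K →+* AlgebraicClosure F)
    (hf : ∀ x, f (algebraMap F K x) = algebraMap F (AlgebraicClosure F) x) :
    IntermediateField F (AlgebraicClosure F) :=
  (({ f with commutes' := hf } : K →ₐ[F] AlgebraicClosure F)).fieldRange

private theorem mem_gField {F K : Type} [Field F] [Field K] [Algebra F K]
    (f : K →+* AlgebraicClosure F)
    (hf : ∀ x, f (algebraMap F K x) = algebraMap F (AlgebraicClosure F) x)
    (y : AlgebraicClosure F) : y ∈ gField f hf ↔ ∃ x : K, f x = y := Iff.rfl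

private theorem gField_finite {F K : Type} [Field F] [Field K] [Algebra F K]
    [FiniteDimensional F K] (f : K →+* AlgebraicClosure F)
    (hf : ∀ x, f (algebraMap F K x) = algebraMap F (AlgebraicClosure F) x) :
    FiniteDimensional F (gField f hf) := by
  have h : FiniteDimensional F (LinearMap.range
    (({ f with commutes' := hf } : K →ₐ[F] AlgebraicClosure F)).toLinearMap) := inferInstance
  exact h

private theorem mem_fix {F K : Type} [Field F] [Field K] [Algebra F K]
    (f : K →+* AlgebraicClosure F)
    (hf : ∀ x, f (algebraMap F K x) = algebraMap F (AlgebraicClosure F) x) (τ : GG F) :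
    τ ∈ (gField f hf).fixingSubgroup ↔ ∀ x : K, τ (f x) = f x := by
  rw [IntermediateField.mem_fixingSubgroup_iff]
  constructor
  · intro h x
    exact h _ ((mem_gField f hf _).2 ⟨x, rfl⟩)
  · rintro h y hy
    obtain ⟨x, rfl⟩ := (mem_gField f hf y).1 hy
    exact h x

private theorem fix_finiteIndex {F : Type} [Field F] [CharZero F]
    (E : IntermediateField F (AlgebraicClosure F)) [FiniteDimensional F E] :
    E.fixingSubgroup.FiniteIndex := by
  refine ⟨?_⟩
  rw [← IntermediateField.finrank_eq_fixingSubgroup_index]
  exact Module.finrank_pos.ne'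

private theorem gen_fg {F : Type} [Field F]
    (E : IntermediateField F (AlgebraicClosure F)) [FiniteDimensional F E] : E.FG := by
  apply IntermediateField.fg_of_fg_toSubalgebra
  have h : Algebra.FiniteType F E := inferInstance
  exact (Subalgebra.fg_iff_finiteType _).2 h

private theorem gen_compact {F : Type} [Field F] [CharZero F] : CompactSpace (GG F) :=
  inferInstance

private theorem gen_t2 {F : Type} [Field F] [CharZero F] : T2Space (GG F) :=
  inferInstance

/-- An isomorphism between the algebraic closures of `k` and of `ℚ`. -/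
theorem exists_closure_equiv : Nonempty (AlgebraicClosure k ≃+* AlgebraicClosure ℚ) :=
  gen_equiv

/-- The homomorphism `G_k → G_ℚ` given by conjugation with `e`. -/
noncomputable def phi (e : AlgebraicClosure k ≃+* AlgebraicClosure ℚ) : GG k →* GG ℚ where
  toFun σ := AlgEquiv.ofRingEquiv (f := (e.symm.trans (σ : AlgebraicClosure k ≃+* AlgebraicClosure k)).trans e)
    (fun x => by
      have h : ∀ x : ℚ, (((e.symm.trans (σ : AlgebraicClosure k ≃+* AlgebraicClosure k)).trans e :
          AlgebraicClosure ℚ ≃+* AlgebraicClosure ℚ) : AlgebraicClosure ℚ →+* AlgebraicClosure ℚ)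
          (algebraMap ℚ (AlgebraicClosure ℚ) x) = algebraMap ℚ (AlgebraicClosure ℚ) x := by
        intro x
        rw [eq_ratCast (algebraMap ℚ (AlgebraicClosure ℚ)) x, map_ratCast]
      exact h x)
  map_one' := by
    apply AlgEquiv.ext
    intro x
    exact e.apply_symm_apply x
  map_mul' σ τ := by
    apply AlgEquiv.ext
    intro x
    change e (σ (τ (e.symm x))) = e (σ (e.symm (e (τ (e.symm x)))))
    rw [e.symm_apply_apply]

theorem phi_apply (e : AlgebraicClosure k ≃+* AlgebraicClosure ℚ) (σ : GG k)
    (x : AlgebraicClosure k) : phi e σ (e x) = e (σ x) := by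
  change e (σ (e.symm (e x))) = e (σ x)
  rw [e.symm_apply_apply]

theorem phi_injective (e : AlgebraicClosure k ≃+* AlgebraicClosure ℚ) :
    Function.Injective (phi e) := by
  intro σ τ h
  apply AlgEquiv.ext
  intro x
  apply e.injective
  rw [← phi_apply, ← phi_apply, h]

theorem mem_range_phi (e : AlgebraicClosure k ≃+* AlgebraicClosure ℚ) (τ : GG ℚ) :
    τ ∈ (phi e).range ↔ ∀ x : k, τ (e (algebraMap k (AlgebraicClosure k) x)) =
      e (algebraMap k (AlgebraicClosure k) x) := by
  constructor
  · rintro ⟨σ, rfl⟩ x
    rw [phi_apply, AlgEquiv.commutes]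
  · intro h
    refine ⟨AlgEquiv.ofRingEquiv (f := (e.trans (τ : AlgebraicClosure ℚ ≃+*
      AlgebraicClosure ℚ)).trans e.symm) (fun x => ?_), ?_⟩
    · change e.symm (τ (e (algebraMap k (AlgebraicClosure k) x))) = _
      rw [h x, e.symm_apply_apply]
    · apply AlgEquiv.ext
      intro y
      change e (e.symm (τ (e (e.symm y)))) = τ y
      rw [e.apply_symm_apply, e.apply_symm_apply]

private theorem kmap_alg (e : AlgebraicClosure k ≃+* AlgebraicClosure ℚ) (x : ℚ) :
    ((e : AlgebraicClosure k →+* AlgebraicClosure ℚ).comp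
      (algebraMap k (AlgebraicClosure k))) (algebraMap ℚ k x) =
      algebraMap ℚ (AlgebraicClosure ℚ) x := by
  rw [eq_ratCast (algebraMap ℚ k), eq_ratCast (algebraMap ℚ (AlgebraicClosure ℚ)), map_ratCast]

private theorem range_eq (e : AlgebraicClosure k ≃+* AlgebraicClosure ℚ) :
    (phi e).range = (gField _ (kmap_alg e)).fixingSubgroup := by
  ext τ
  rw [mem_range_phi, mem_fix]
  exact Iff.rfl

theorem phi_finiteIndex (e : AlgebraicClosure k ≃+* AlgebraicClosure ℚ) :
    (phi e).range.FiniteIndex := by
  have := gField_finite _ (kmap_alg e)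
  rw [range_eq]
  exact fix_finiteIndex _

theorem phi_continuous (e : AlgebraicClosure k ≃+* AlgebraicClosure ℚ) :
    Continuous (phi e) := by
  apply continuous_of_continuousAt_one
  intro s hs
  rw [map_one] at hs
  obtain ⟨E, hE, hEs⟩ := (krullTopology_mem_nhds_one_iff _ _ _).1 hs
  obtain ⟨S, hS⟩ := gen_fg E
  rw [Filter.mem_map, krullTopology_mem_nhds_one_iff]
  refine ⟨IntermediateField.adjoin k (e.symm '' (S : Set (AlgebraicClosure ℚ))), ?_, ?_⟩
  · have : Finite (e.symm '' (S : Set (AlgebraicClosure ℚ))) :=
      (S.finite_toSet.image _).to_subtype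
    exact IntermediateField.finiteDimensional_adjoin
      (fun x _ => Algebra.IsIntegral.isIntegral x)
  · intro σ hσ
    apply hEs
    rw [SetLike.mem_coe, IntermediateField.mem_fixingSubgroup_iff] at hσ
    rw [SetLike.mem_coe]
    rw [← Subgroup.zpowers_le, ← IntermediateField.le_iff_le, ← hS,
      IntermediateField.adjoin_le_iff]
    intro y hy
    rw [SetLike.mem_coe, IntermediateField.mem_fixedField_iff]
    intro f hf
    have h1 : phi e σ y = y := by
      have h2 := hσ (e.symm y) (IntermediateField.subset_adjoin _ _ ⟨y, hy, rfl⟩)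
      have h3 := phi_apply e σ (e.symm y)
      rw [e.apply_symm_apply, h2, e.apply_symm_apply] at h3
      exact h3
    obtain ⟨n, rfl⟩ := Subgroup.mem_zpowers_iff.1 hf
    have h4 : phi e σ ∈ MulAction.stabilizer (GG ℚ) y := h1
    exact (MulAction.stabilizer (GG ℚ) y).zpow_mem h4 n

/-- `phi e` is a homeomorphism onto an open subgroup. -/
theorem phi_isOpenEmbedding (e : AlgebraicClosure k ≃+* AlgebraicClosure ℚ) :
    Topology.IsOpenEmbedding (phi e) := by
  have := gField_finite _ (kmap_alg e)
  have : CompactSpace (GG k) := gen_compact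
  have : T2Space (GG ℚ) := gen_t2
  refine ⟨((phi_continuous e).isClosedEmbedding (phi_injective e)).isEmbedding, ?_⟩
  have h := (gField _ (kmap_alg e)).fixingSubgroup_isOpen
  rw [← range_eq, MonoidHom.coe_range] at h
  exact h

/-- One element of `k` is enough to detect the image of `phi e`. -/
theorem exists_primitive_phi (e : AlgebraicClosure k ≃+* AlgebraicClosure ℚ) :
    ∃ α : AlgebraicClosure ℚ, ∀ τ : GG ℚ, τ α = α → τ ∈ (phi e).range := by
  obtain ⟨α, hα⟩ := Field.exists_primitive_element ℚ k
  refine ⟨e (algebraMap k (AlgebraicClosure k) α), fun τ hτ => ?_⟩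
  rw [mem_range_phi]
  intro x
  have hx : x ∈ IntermediateField.adjoin ℚ {α} := by
    rw [hα]
    exact IntermediateField.mem_top
  induction hx using IntermediateField.adjoin_induction with
  | mem x hx =>
    rw [Set.mem_singleton_iff] at hx
    rw [hx]
    exact hτ
  | algebraMap x =>
    rw [eq_ratCast (algebraMap ℚ k) x, map_ratCast, map_ratCast, map_ratCast]
  | add x y _ _ hx hy => rw [map_add, map_add, map_add, hx, hy]
  | inv x _ hx => rw [map_inv₀, map_inv₀, map_inv₀, hx]
  | mul x y _ _ hx hy => rw [map_mul, map_mul, map_mul, hx, hy]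

end Pool.Agent.FRC
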