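import Mathlib
import Pool.Agent.FRC.PHI
import Pool.Agent.FRC.CLO1

open CategoryTheory Polynomial NumberField

namespace Pool.Agent.FRC

open Pool.Agent.H12

section General

variable {K : Type} [Field K] {G H : Type} [Group G] [Group H] (φ : H →* G)

/-- Values at representatives of the cosets determine an element of the coinduced
representation. -/
theorem exists_reps [φ.range.FiniteIndex] : ∃ (n : ℕ) (r : Fin n → G),
    ∀ g : G, ∃ (i : Fin n) (h : H), g = φ h * r i := by
  classical
  haveI : Finite (G ⧸ φ.range) := Subgroup.finite_quotient_of_finiteIndex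
  obtain ⟨n, ⟨e⟩⟩ := Finite.exists_equiv_fin (G ⧸ φ.range)
  refine ⟨n, fun i => (Quotient.out (e.symm i))⁻¹, fun g => ?_⟩
  obtain ⟨s, hs⟩ := QuotientGroup.mk_out_eq_mul φ.range g⁻¹
  obtain ⟨h', hh'⟩ := s.2
  refine ⟨e (g⁻¹ : G), h', ?_⟩
  have h1 : Quotient.out (e.symm (e ((g⁻¹ : G) : G ⧸ φ.range))) = g⁻¹ * φ h' := by
    rw [e.symm_apply_apply, hh']
    exact hs
  show g = φ h' * (Quotient.out (e.symm (e ((g⁻¹ : G) : G ⧸ φ.range))))⁻¹
  rw [h1]
  group

/-- evaluation at finitely many elements -/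
private noncomputable def co1_ev (V : Rep.{0} K H) {n : ℕ} (r : Fin n → G) :
    (Rep.coind φ V) →ₗ[K] (Fin n → V) where
  toFun f := fun i => (f : (Representation.coindV φ V.ρ)).1 (r i)
  map_add' _ _ := rfl
  map_smul' _ _ := rfl

private theorem co1_ev_injective (V : Rep.{0} K H) {n : ℕ} (r : Fin n → G)
    (hr : ∀ g : G, ∃ (i : Fin n) (h : H), g = φ h * r i) :
    Function.Injective (co1_ev φ V r) := by
  intro f f' hff
  apply Subtype.ext
  funext g
  obtain ⟨i, h, rfl⟩ := hr g
  have h1 := f.2 h (r i)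
  have h2 := f'.2 h (r i)
  have h3 : (f : (Representation.coindV φ V.ρ)).1 (r i) =
      (f' : (Representation.coindV φ V.ρ)).1 (r i) := congrFun hff i
  rw [h1, h2, h3]

theorem coind_finite [φ.range.FiniteIndex] (V : Rep.{0} K H) [FiniteDimensional K V] :
    FiniteDimensional K (Rep.coind φ V) := by
  obtain ⟨n, r, hr⟩ := exists_reps φ
  exact FiniteDimensional.of_injective (co1_ev φ V r) (co1_ev_injective φ V r hr)

end General

variable {k : Type} [Field k] [NumberField k] {ℓ : ℕ} [Fact ℓ.Prime]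

theorem isCont_coind (e : AlgebraicClosure k ≃+* AlgebraicClosure ℚ) {V : RepG k ℓ}
    [FiniteDimensional ℚ_[ℓ] V] (hV : IsCont V) :
    IsCont (Rep.coind (phi e) V : RepG ℚ ℓ) := by
  haveI := phi_finiteIndex e
  obtain ⟨n, r, hr⟩ := exists_reps (phi e)
  intro f F
  have hu : ∀ L : Module.Dual ℚ_[ℓ] V,
      Continuous fun g : GG ℚ => L ((f : (Representation.coindV (phi e) V.ρ)).1 g) := by
    intro L
    rw [continuous_iff_continuousAt]
    intro g0
    have h1 : ContinuousAt (fun g : GG ℚ =>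
        L ((f : (Representation.coindV (phi e) V.ρ)).1 (g * g0))) (phi e 1) := by
      rw [← (phi_isOpenEmbedding e).continuousAt_iff]
      have h2 : ((fun g : GG ℚ => L ((f : (Representation.coindV (phi e) V.ρ)).1 (g * g0))) ∘
          (phi e)) = fun h : GG k => L (V.ρ h ((f : (Representation.coindV (phi e) V.ρ)).1 g0)) := by
        funext h
        exact congrArg L (f.2 h g0)
      rw [h2]
      exact (hV _ L).continuousAt
    rw [map_one] at h1
    have h3 : (fun g : GG ℚ => L ((f : (Representation.coindV (phi e) V.ρ)).1 g)) =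
        (fun g : GG ℚ => L ((f : (Representation.coindV (phi e) V.ρ)).1 (g * g0))) ∘
          (fun g => g * g0⁻¹) := by
      funext g
      simp only [Function.comp_apply, inv_mul_cancel_right]
    rw [h3]
    refine ContinuousAt.comp ?_ (continuous_mul_const g0⁻¹).continuousAt
    rw [mul_inv_cancel]
    exact h1
  obtain ⟨q, hq⟩ := (co1_ev (phi e) V r).exists_leftInverse_of_injective
    (LinearMap.ker_eq_bot.2 (co1_ev_injective (phi e) V r hr))
  have h4 : ∀ g : GG ℚ, F ((Rep.coind (phi e) V : RepG ℚ ℓ).ρ g f) =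
      ∑ i, F (q (Pi.single i ((f : (Representation.coindV (phi e) V.ρ)).1 (r i * g)))) := by
    intro g
    have h5 : (Rep.coind (phi e) V : RepG ℚ ℓ).ρ g f =
        q (co1_ev (phi e) V r ((Rep.coind (phi e) V : RepG ℚ ℓ).ρ g f)) :=
      (LinearMap.congr_fun hq _).symm
    rw [h5]
    have h6 : co1_ev (phi e) V r ((Rep.coind (phi e) V : RepG ℚ ℓ).ρ g f) =
        ∑ i, Pi.single i ((f : (Representation.coindV (phi e) V.ρ)).1 (r i * g)) := by
      rw [Finset.univ_sum_single]
      rfl
    rw [h6, map_sum, map_sum]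
  have h7 : (fun g : GG ℚ => F ((Rep.coind (phi e) V : RepG ℚ ℓ).ρ g f)) = fun g =>
      ∑ i, F (q (Pi.single i ((f : (Representation.coindV (phi e) V.ρ)).1 (r i * g)))) :=
    funext h4
  rw [h7]
  refine continuous_finset_sum _ fun i _ => ?_
  exact (hu ((F ∘ₗ q) ∘ₗ LinearMap.single ℚ_[ℓ] (fun _ => (V : Type)) i)).comp
    (continuous_const_mul (r i))

end Pool.Agent.FRC
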