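import Mathlib
import Pool.Agent.FRC.PHI
import Pool.Agent.FRC.CO1
import Pool.Agent.FRC.FRB1
import Pool.Agent.FRC.FRB2
import Pool.Agent.FRC.FRB3
import Pool.Agent.FRC.FRB4
import Pool.Agent.FRC.TRA

open CategoryTheory Polynomial NumberField

namespace Pool.Agent.FRC

open Pool.Agent.H12

variable {k : Type} [Field k] [NumberField k] {ℓ : ℕ} [Fact ℓ.Prime]

/-- Outside finitely many primes all inertia groups of `G_ℚ` lie in the image of `G_k`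
(`exists_primitive_phi`, `exists_inertia_fixes`). -/
theorem exists_inertia_in_range (e : AlgebraicClosure k ≃+* AlgebraicClosure ℚ) :
    ∃ N : ℕ, N ≠ 0 ∧ ∀ 𝔓 : Ideal (Zb ℚ), 𝔓.IsMaximal → (N : Zb ℚ) ∉ 𝔓 →
      ∀ σ : GG ℚ, FrobAt 𝔓 1 σ → σ ∈ (phi e).range := by
  obtain ⟨α, hα⟩ := exists_primitive_phi e
  obtain ⟨N, hN, h⟩ := exists_inertia_fixes (k := ℚ) α
  exact ⟨N, hN, fun 𝔓 hm hN𝔓 σ hσ => hα σ (h 𝔓 hm hN𝔓 σ hσ)⟩

theorem unram_coind (e : AlgebraicClosure k ≃+* AlgebraicClosure ℚ) {V : RepG k ℓ} {N : ℕ}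
    (hN : N ≠ 0) (hV : UnramOutside V N) :
    ∃ N' : ℕ, N' ≠ 0 ∧ N ∣ N' ∧ UnramOutside (Rep.coind (phi e) V : RepG ℚ ℓ) N' := by
  obtain ⟨N0, hN0, h0⟩ := exists_inertia_in_range e
  refine ⟨N * N0, mul_ne_zero hN hN0, Dvd.intro _ rfl, ?_⟩
  intro 𝔓 hm hN𝔓 σ hσ f
  apply Subtype.ext
  funext g
  change (f : (Representation.coindV (phi e) V.ρ)).1 (g * σ) =
    (f : (Representation.coindV (phi e) V.ρ)).1 g
  have hmem : (((N * N0 : ℕ)) : Zb ℚ) ∉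
      pull ((g⁻¹ : GG ℚ) : AlgebraicClosure ℚ ≃+* AlgebraicClosure ℚ) 𝔓 := by
    rw [natCast_mem_pull]
    exact hN𝔓
  have hm' := pull_isMaximal ((g⁻¹ : GG ℚ) : AlgebraicClosure ℚ ≃+* AlgebraicClosure ℚ) hm
  have hτ : FrobAt (pull ((g⁻¹ : GG ℚ) : AlgebraicClosure ℚ ≃+* AlgebraicClosure ℚ) 𝔓) 1
      (g * σ * g⁻¹) := by
    rw [frobAt_pull (σ' := σ)]
    · exact hσ
    · intro x
      change (g⁻¹ * (g * σ * g⁻¹)) x = (σ * g⁻¹) x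
      congr 1
      group
  generalize pull ((g⁻¹ : GG ℚ) : AlgebraicClosure ℚ ≃+* AlgebraicClosure ℚ) 𝔓 = 𝔔
    at hmem hm' hτ
  obtain ⟨h, hh⟩ := h0 𝔔 hm' (fun hc => hmem (by
    rw [Nat.cast_mul]
    exact Ideal.mul_mem_left _ _ hc)) _ hτ
  have h1 : g * σ = phi e h * g := by
    rw [hh]
    group
  rw [h1, f.2 h g]
  refine hV (pull e 𝔔) (pull_isMaximal e hm') ?_ h ?_ _
  · rw [natCast_mem_pull]
    intro hc
    apply hmem
    rw [Nat.cast_mul]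
    exact Ideal.mul_mem_right _ _ hc
  · rw [frobAt_pull (σ' := g * σ * g⁻¹)]
    · exact hτ
    · intro x
      rw [← hh, phi_apply]

end Pool.Agent.FRC
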