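import Mathlib
import Pool.Agent.FRC.PHI
import Pool.Agent.FRC.CO1
import Pool.Agent.FRC.FRB1
import Pool.Agent.FRC.FRB2
import Pool.Agent.FRC.FRB3
import Pool.Agent.FRC.FRB4
import Pool.Agent.FRC.TRA
import Pool.Agent.FRC.WEI
import Pool.Agent.FRC.POL2

open CategoryTheory Polynomial NumberField

namespace Pool.Agent.FRC

open Pool.Agent.H12

variable {k : Type} [Field k] [NumberField k] {ℓ : ℕ} [Fact ℓ.Prime]

/-- The coinduced filtration. -/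
def coindFil (e : AlgebraicClosure k ≃+* AlgebraicClosure ℚ) (V : RepG k ℓ)
    (A : Submodule ℚ_[ℓ] V) : Submodule ℚ_[ℓ] (Rep.coind (phi e) V : RepG ℚ ℓ) where
  carrier := {f | ∀ g, f.1 g ∈ A}
  add_mem' hf hg g := A.add_mem (hf g) (hg g)
  zero_mem' _ := A.zero_mem
  smul_mem' c _ hf g := A.smul_mem c (hf g)

/-- Some power of every element is conjugate-wise in the image of `G_k`, so that
`h_g = φ⁻¹(g σ ^ (-M) g⁻¹)` exists for all `g`. -/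
theorem exists_pow_in_core (e : AlgebraicClosure k ≃+* AlgebraicClosure ℚ) :
    ∃ M : ℕ, 0 < M ∧ ∀ (σ g : GG ℚ), g * σ ^ M * g⁻¹ ∈ (phi e).range := by
  have := phi_finiteIndex e
  have h1 : ((phi e).range.normalCore).FiniteIndex := inferInstance
  refine ⟨((phi e).range.normalCore).index, Nat.pos_of_ne_zero h1.index_ne_zero, ?_⟩
  intro σ g
  apply Subgroup.normalCore_le
  have h2 : σ ^ ((phi e).range.normalCore).index ∈ (phi e).range.normalCore :=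
    Subgroup.pow_index_mem _ σ
  exact (Subgroup.normalCore_normal _).conj_mem _ h2 g

private theorem co3_aeval_mem {K M : Type} [Field K] [AddCommGroup M] [Module K M]
    (A : Module.End K M) (S : Submodule K M) (hS : ∀ v ∈ S, A v ∈ S) (R : K[X]) :
    ∀ v ∈ S, aeval A R v ∈ S := by
  intro v hv
  induction R using Polynomial.induction_on' with
  | add p q hp hq =>
    rw [map_add, LinearMap.add_apply]
    exact S.add_mem hp hq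
  | monomial n a =>
    rw [aeval_monomial, Module.End.mul_apply, Module.algebraMap_end_apply]
    apply S.smul_mem
    induction n with
    | zero => simpa using hv
    | succ n ih =>
      rw [pow_succ', Module.End.mul_apply]
      exact hS _ ih

/-- One step at one coset: for a Frobenius `σ` at `𝔓` over `ℚ` and `h` in `G_k` with
`φ h = g σ ^ (-M) g⁻¹`, the element `h⁻¹` acts as a power of a Frobenius over `k`, so there is a
polynomial with roots of weight `m` for `(nrm 𝔓) ^ M` that maps `W m` to `W (m - 1)`. -/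
theorem exists_poly_at (e : AlgebraicClosure k ≃+* AlgebraicClosure ℚ) {V : RepG k ℓ} {N : ℕ}
    {W : ℤ → Submodule ℚ_[ℓ] V} (hur : UnramOutside V N) (hV : MixedP V N W)
    {𝔓 : Ideal (Zb ℚ)} (h𝔓 : 𝔓.IsMaximal) (hN𝔓 : (N : Zb ℚ) ∉ 𝔓) {σ : GG ℚ}
    (hσ : FrobAt 𝔓 (nrm 𝔓) σ) {M : ℕ} (g : GG ℚ) (h : GG k)
    (hh : phi e h = g * σ⁻¹ ^ M * g⁻¹) (m : ℤ) :
    ∃ p : ℚ_[ℓ][X], p ≠ 0 ∧
      (∀ μ : AlgebraicClosure ℚ_[ℓ], aeval μ p = 0 → IsWeil (nrm 𝔓 ^ M) m μ) ∧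
      ∀ v ∈ W m, aeval (V.ρ h) p v ∈ W (m - 1) := by
  obtain ⟨hprime, hmem⟩ := nrm_rat h𝔓
  set γ : AlgebraicClosure ℚ ≃+* AlgebraicClosure ℚ :=
    ((g⁻¹ : GG ℚ) : AlgebraicClosure ℚ ≃+* AlgebraicClosure ℚ) with hγ
  set 𝔓₁ : Ideal (Zb ℚ) := pull γ 𝔓 with h𝔓₁
  set 𝔔 : Ideal (Zb k) := pull e 𝔓₁ with h𝔔
  have hm1 : 𝔓₁.IsMaximal := pull_isMaximal γ h𝔓
  have hm2 : 𝔔.IsMaximal := pull_isMaximal e hm1
  have hN𝔔 : (N : Zb k) ∉ 𝔔 := by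
    rw [h𝔔, natCast_mem_pull, h𝔓₁, natCast_mem_pull]
    exact hN𝔓
  have hp𝔔 : ((nrm 𝔓 : ℕ) : Zb k) ∈ 𝔔 := by
    rw [h𝔔, natCast_mem_pull, h𝔓₁, natCast_mem_pull]
    exact hmem
  have hF1 : FrobAt 𝔓₁ (nrm 𝔓 ^ M) (g * σ ^ M * g⁻¹) := by
    rw [h𝔓₁, frobAt_pull γ (σ' := σ ^ M)]
    · exact frobAt_pow hσ M
    · intro x
      change g⁻¹ ((g * σ ^ M * g⁻¹) x) = (σ ^ M) (g⁻¹ x)
      have : g⁻¹ * (g * σ ^ M * g⁻¹) = σ ^ M * g⁻¹ := by group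
      exact congrArg (fun τ : GG ℚ => τ x) this
  have hphi : phi e h⁻¹ = g * σ ^ M * g⁻¹ := by
    rw [map_inv, hh]
    group
  have hF2 : FrobAt 𝔔 (nrm 𝔓 ^ M) h⁻¹ := by
    rw [h𝔔, frobAt_pull e (σ' := g * σ ^ M * g⁻¹)]
    · exact hF1
    · intro x
      rw [← hphi, phi_apply]
  obtain ⟨c, hc⟩ := exists_pow_eq hm2 hprime hp𝔔 hF2
  obtain ⟨τ, hτ⟩ := exists_frobAt hm2
  have hF3 : FrobAt 𝔔 (nrm 𝔓 ^ M) (τ ^ c) := by
    rw [hc]
    exact frobAt_pow hτ c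
  have hq0 : nrm 𝔓 ^ M ≠ 0 := pow_ne_zero _ hprime.ne_zero
  have hrho := rho_eq_of_frobAt hur hm2 hN𝔔 hq0 hF2 hF3
  have hrho2 : V.ρ h = (V.ρ τ⁻¹) ^ c := by
    have h1 : V.ρ h * V.ρ h⁻¹ = 1 := by rw [← map_mul, mul_inv_cancel, map_one]
    have h2 : V.ρ (τ ^ c) * (V.ρ τ⁻¹) ^ c = 1 := by
      rw [← map_pow, ← map_mul, inv_pow, mul_inv_cancel, map_one]
    calc V.ρ h = V.ρ h * (V.ρ (τ ^ c) * (V.ρ τ⁻¹) ^ c) := by rw [h2, mul_one]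
      _ = (V.ρ h * V.ρ h⁻¹) * (V.ρ τ⁻¹) ^ c := by rw [hrho, mul_assoc]
      _ = (V.ρ τ⁻¹) ^ c := by rw [h1, one_mul]
  obtain ⟨h1, h2, h3, h4, h5⟩ := hV
  obtain ⟨p₀, hp₀, hroots, hmap⟩ := h5 𝔔 hm2 hN𝔔 τ hτ m
  obtain ⟨P, hP, hProots, hdvd⟩ := exists_powPoly p₀ hp₀ c
  refine ⟨P, hP, ?_, ?_⟩
  · intro μ hμ
    obtain ⟨lam, hlam, rfl⟩ := hProots μ hμ
    rw [hc]
    exact isWeil_pow (hroots lam hlam) c
  · intro v hv
    obtain ⟨R, hR⟩ := hdvd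
    have h6 : aeval (V.ρ h) P = aeval (V.ρ τ⁻¹) (P.comp (X ^ c)) := by
      rw [aeval_comp, aeval_X_pow, hrho2]
    rw [h6, hR, map_mul, Module.End.mul_apply]
    apply hmap
    exact co3_aeval_mem _ _ (fun v hv => h4 m τ⁻¹ v hv) R v hv

end Pool.Agent.FRC
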