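import Mathlib
import Pool.Agent.FRC.CO3

open CategoryTheory Polynomial NumberField

namespace Pool.Agent.FRC

open Pool.Agent.H12

variable {k : Type} [Field k] [NumberField k] {ℓ : ℕ} [Fact ℓ.Prime]

private theorem co4_aeval_mem {K M : Type} [Field K] [AddCommGroup M] [Module K M]
    (A : Module.End K M) (S : Submodule K M) (hS : ∀ v ∈ S, A v ∈ S) (R : K[X]) :
    ∀ v ∈ S, aeval A R v ∈ S := by
  intro v hv
  induction R using Polynomial.induction_on' with
  | add p q hp hq =>
    rw [map_add, LinearMap.add_apply]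
    exact S.add_mem hp hq
  | monomial n a =>
    rw [aeval_monomial, Module.End.mul_apply, Module.algebraMap_end_apply]
    apply S.smul_mem
    induction n with
    | zero => simpa using hv
    | succ n ih =>
      rw [pow_succ', Module.End.mul_apply]
      exact hS _ ih

private theorem co4_intertwine {K M M' : Type} [Field K] [AddCommGroup M] [Module K M]
    [AddCommGroup M'] [Module K M'] (A : Module.End K M) (B : Module.End K M')
    (E : M →ₗ[K] M') (h : ∀ v, E (A v) = B (E v)) (Q : K[X]) (v : M) :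
    E (aeval A Q v) = aeval B Q (E v) := by
  induction Q using Polynomial.induction_on' with
  | add p q hp hq =>
    rw [map_add, map_add, LinearMap.add_apply, LinearMap.add_apply, map_add, hp, hq]
  | monomial n a =>
    rw [aeval_monomial, aeval_monomial, Module.End.mul_apply, Module.End.mul_apply,
      Module.algebraMap_end_apply, Module.algebraMap_end_apply, map_smul]
    congr 1
    induction n with
    | zero => simp
    | succ n ih =>
      rw [pow_succ', pow_succ', Module.End.mul_apply, Module.End.mul_apply, h, ih]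

/-- Evaluation of elements of the coinduced representation. -/
private noncomputable def co4_ev (e : AlgebraicClosure k ≃+* AlgebraicClosure ℚ) (V : RepG k ℓ)
    (g : GG ℚ) : (Rep.coind (phi e) V : RepG ℚ ℓ) →ₗ[ℚ_[ℓ]] V where
  toFun f := f.1 g
  map_add' _ _ := rfl
  map_smul' _ _ := rfl

/-- Coinduction of the filtration: the polynomial is `P (X ^ M)` with `P` the product over
representatives `g` of the cosets of the polynomials of `exists_poly_at`; use `isWeil_of_pow`. -/
theorem mixedP_coind (e : AlgebraicClosure k ≃+* AlgebraicClosure ℚ) {V : RepG k ℓ} {N : ℕ}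
    {W : ℤ → Submodule ℚ_[ℓ] V} (hur : UnramOutside V N) (hV : MixedP V N W) :
    MixedP (Rep.coind (phi e) V : RepG ℚ ℓ) N (fun m => coindFil e V (W m)) := by
  classical
  have hV' := hV
  obtain ⟨h1, ⟨a, ha⟩, ⟨b, hb⟩, h4, h5⟩ := hV
  refine ⟨?_, ⟨a, ?_⟩, ⟨b, ?_⟩, ?_, ?_⟩
  · intro m n hmn f hf g
    exact h1 hmn (hf g)
  · rw [eq_bot_iff]
    intro f hf
    rw [Submodule.mem_bot]
    apply Subtype.ext
    funext g
    have h6 : f.1 g ∈ W a := hf g
    rw [ha, Submodule.mem_bot] at h6
    exact h6
  · rw [eq_top_iff]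
    intro f _ g
    show f.1 g ∈ W b
    rw [hb]
    trivial
  · intro m g f hf x
    exact hf (x * g)
  · intro 𝔓 h𝔓 hN σ hσ m
    have := phi_finiteIndex e
    obtain ⟨M, hM, hcore⟩ := exists_pow_in_core e
    obtain ⟨n, r, hr⟩ := exists_reps (phi e)
    have hh : ∀ i, ∃ h : GG k, phi e h = r i * σ⁻¹ ^ M * (r i)⁻¹ := fun i => hcore σ⁻¹ (r i)
    choose h hh using hh
    have hp := fun i => exists_poly_at e hur hV' h𝔓 hN hσ (r i) (h i) (hh i) m
    choose p hp0 hproots hpmap using hp
    have hP0 : (∏ i, p i) ≠ 0 := Finset.prod_ne_zero_iff.2 fun i _ => hp0 i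
    refine ⟨(∏ i, p i).comp (X ^ M), ?_, ?_, ?_⟩
    · intro h0
      rw [Polynomial.comp_eq_zero_iff] at h0
      rcases h0 with h0 | ⟨_, h0⟩
      · exact hP0 h0
      · have h7 := congrArg natDegree h0
        rw [natDegree_X_pow, natDegree_C] at h7
        omega
    · intro μ hμ
      rw [aeval_comp, aeval_X_pow, map_prod, Finset.prod_eq_zero_iff] at hμ
      obtain ⟨i, _, hi⟩ := hμ
      exact isWeil_of_pow hM.ne' (hproots i _ hi)
    · intro f hf
      have hA : aeval ((Rep.coind (phi e) V : RepG ℚ ℓ).ρ σ⁻¹) ((∏ i, p i).comp (X ^ M)) f =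
          aeval ((Rep.coind (phi e) V : RepG ℚ ℓ).ρ (σ⁻¹ ^ M)) (∏ i, p i) f := by
        rw [aeval_comp, aeval_X_pow, map_pow]
      rw [hA]
      set F := aeval ((Rep.coind (phi e) V : RepG ℚ ℓ).ρ (σ⁻¹ ^ M)) (∏ i, p i) f with hF
      have hFr : ∀ i, F.1 (r i) ∈ W (m - 1) := by
        intro i
        have h8 : co4_ev e V (r i) F = aeval (V.ρ (h i)) (∏ i, p i) (co4_ev e V (r i) f) := by
          apply co4_intertwine
          intro f'
          change f'.1 (r i * σ⁻¹ ^ M) = V.ρ (h i) (f'.1 (r i))
          have h9 : r i * σ⁻¹ ^ M = phi e (h i) * r i := by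
            rw [hh i]
            group
          rw [h9]
          exact f'.2 (h i) (r i)
        have h10 : F.1 (r i) = aeval (V.ρ (h i)) (∏ i, p i) (f.1 (r i)) := h8
        rw [h10, ← Finset.mul_prod_erase Finset.univ p (Finset.mem_univ i), map_mul,
          Module.End.mul_apply]
        apply hpmap
        exact co4_aeval_mem _ _ (fun v hv => h4 m (h i) v hv) _ _ (hf (r i))
      intro g
      obtain ⟨i, h', rfl⟩ := hr g
      have h11 : F.1 (phi e h' * r i) = V.ρ h' (F.1 (r i)) := F.2 h' (r i)
      rw [h11]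
      exact h4 (m - 1) h' _ (hFr i)

end Pool.Agent.FRC
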