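import Mathlib
import Pool.Agent.FRC.CO1
import Pool.Agent.FRC.CLO3
import Pool.Agent.FRC.CLO4
import Pool.Agent.FRC.CLO5

open CategoryTheory Polynomial NumberField

namespace Pool.Agent.FRC

open Pool.Agent.H12

variable {k : Type} [Field k] [NumberField k] {ℓ : ℕ} [Fact ℓ.Prime]

/-- Evaluation of a coinduced vector at finitely many elements. -/
private noncomputable def co5_ev (e : AlgebraicClosure k ≃+* AlgebraicClosure ℚ) (V : RepG k ℓ)
    {n : ℕ} (r : Fin n → GG ℚ) :
    (Rep.coind (phi e) V : RepG ℚ ℓ) →ₗ[ℚ_[ℓ]] (Fin n → V) where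
  toFun v := fun j => v.1 (r j)
  map_add' _ _ := rfl
  map_smul' _ _ := rfl

/-- Coinduction preserves the local condition. Take representatives `r i` of the cosets, the
embeddings `ι ∘ (r i)⁻¹ ∘ e`, a common finite `L` that contains the images `ι (τ (e x))`, `x ∈ k`,
`τ ∈ G_ℚ` (a finite extension: the normal closure of `e k`), and `pstAt_of_embedding` for the
evaluations at the `r i`. -/
theorem isPst_coind (e : AlgebraicClosure k ≃+* AlgebraicClosure ℚ) {V : RepG k ℓ}
    (hV : IsPst V) : IsPst (Rep.coind (phi e) V : RepG ℚ ℓ) := by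
  intro ι
  have := phi_finiteIndex e
  obtain ⟨n, r, hr⟩ := exists_reps (phi e)
  -- the embeddings
  let ιJ : Fin n → (AlgebraicClosure k →+* PadicAlgCl ℓ) := fun j =>
    (ι.comp (((r j)⁻¹ : GG ℚ) : AlgebraicClosure ℚ ≃+* AlgebraicClosure ℚ).toRingHom).comp
      e.toRingHom
  have hιJ : ∀ j x, ιJ j x = ι ((r j)⁻¹ (e x)) := fun j x => rfl
  choose L hfin hk hpst using fun j => hV (ιJ j)
  have hle : ∀ j, L j ≤ ⨆ i, L i := fun j => le_iSup L j
  have hQ : ∀ x : ℚ, ι (algebraMap ℚ (AlgebraicClosure ℚ) x) ∈ (⨆ i, L i) := by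
    intro x
    rw [eq_ratCast (algebraMap ℚ (AlgebraicClosure ℚ)) x, map_ratCast]
    exact SubfieldClass.ratCast_mem _ x
  have hexk := fun σ => exists_induced (ι := ι) (L := ⨆ i, L i) hQ σ
  have : ∀ j, FiniteDimensional ℚ_[ℓ] (L j) := hfin
  refine ⟨⨆ i, L i, IntermediateField.finiteDimensional_iSup_of_finite, hQ, ?_⟩
  refine pstAt_of_embedding (fun _ : Fin n => V) ιJ
    (fun j => pstAt_mono (hle j) (hpst j)) hexk (co5_ev e V r) ?_ ?_
  · intro v w hvw
    apply Subtype.ext
    funext g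
    obtain ⟨i, h, rfl⟩ := hr g
    have h1 := v.2 h (r i)
    have h2 := w.2 h (r i)
    rw [h1, h2]
    have h3 : v.1 (r i) = w.1 (r i) := congrFun hvw i
    rw [h3]
  · intro σ g hg j
    have hmem : r j * g * (r j)⁻¹ ∈ (phi e).range := by
      rw [mem_range_phi]
      intro x
      change r j (g ((r j)⁻¹ (e (algebraMap k (AlgebraicClosure k) x)))) =
        e (algebraMap k (AlgebraicClosure k) x)
      have hfix : g ((r j)⁻¹ (e (algebraMap k (AlgebraicClosure k) x))) =
          (r j)⁻¹ (e (algebraMap k (AlgebraicClosure k) x)) := by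
        apply ι.injective
        rw [hg, ← hιJ]
        exact σ.2 ⟨_, hle j (hk j x)⟩
      rw [hfix]
      exact (AlgEquiv.apply_symm_apply (r j) _)
    obtain ⟨h, hh⟩ := hmem
    have hh' : r j * g = phi e h * r j := by
      rw [hh]; group
    refine ⟨h, ?_, ?_⟩
    · intro x
      rw [hιJ, hιJ, ← hg, ← phi_apply, hh]
      congr 1
      change (r j)⁻¹ (r j (g ((r j)⁻¹ (e x)))) = g ((r j)⁻¹ (e x))
      exact AlgEquiv.symm_apply_apply (r j) _
    · intro v
      change v.1 (r j * g) = V.ρ h (v.1 (r j))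
      rw [hh']
      exact v.2 h (r j)

end Pool.Agent.FRC
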