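import Mathlib

open CategoryTheory CategoryTheory.Limits

namespace Pool.Agent.FRC

variable {K : Type} [Field K] {G H : Type} [Group G] [Group H] (φ : G →* H)

instance coindFunctor_additive : (Rep.coindFunctor.{0} K φ).Additive := by
  refine ⟨fun {X Y} f g => ?_⟩
  ext x
  rfl

/-- Coinduction is exact for injective `φ` (a right adjoint that preserves surjections). -/
theorem coindFunctor_finLim (hφ : Function.Injective φ) :
    PreservesFiniteLimits (Rep.coindFunctor.{0} K φ) := by
  have h := (Rep.resCoindAdjunction.{0, 0, 0, 0} K φ).rightAdjoint_preservesLimits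
  exact PreservesLimits.preservesFiniteLimits _

private theorem coindFunctor_epi (hφ : Function.Injective φ) :
    (Rep.coindFunctor.{0} K φ).PreservesEpimorphisms where
  preserves {X Y} f := fun {hf} => (Rep.epi_iff_surjective _).2 fun y => by
    let := QuotientGroup.rightRel φ.range
    choose! s hs using (Rep.epi_iff_surjective f).1 ‹_›
    choose! i hi using Quotient.mk'_surjective (α := H)
    have hg : ∀ h : H, ∃ g : G, φ g = h * (i (Quotient.mk' h))⁻¹ := fun h =>
      MonoidHom.mem_range.1 (QuotientGroup.rightRel_apply.1 (Quotient.eq'.1 (hi (Quotient.mk' h))))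
    choose γ hγ0 using hg
    have hmk (g : G) (h : H) : Quotient.mk' (φ g * h) = Quotient.mk' h :=
      Quotient.eq'.2 (QuotientGroup.rightRel_apply.2 (by simp))
    have hγ (g : G) (h : H) : γ (φ g * h) = g * γ h := by
      apply hφ
      rw [map_mul, hγ0, hγ0, hmk, mul_assoc]
    have hrep (h : H) : φ (γ h) * i (Quotient.mk' h) = h := by
      rw [hγ0]; simp
    let x (h : H) : X := X.ρ (γ h) (s (y.1 (i (Quotient.mk' h))))
    refine ⟨⟨x, fun g h => ?_⟩, Subtype.ext <| funext fun h => ?_⟩
    · simp [x, ← Module.End.mul_apply, ← map_mul, hmk, hγ]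
    · simp only [Rep.coindFunctor_obj, Rep.coindFunctor_map, Rep.hom_ofHom,
        Representation.coindMap_coe_apply_apply, Rep.hom_comm_apply, x]
      rw [hs, ← y.2 (γ h), hrep]

theorem coindFunctor_finColim (hφ : Function.Injective φ) :
    PreservesFiniteColimits (Rep.coindFunctor.{0} K φ) := by
  haveI := coindFunctor_epi (K := K) φ hφ
  haveI := coindFunctor_finLim (K := K) φ hφ
  rw [Functor.preservesFiniteColimits_iff_forall_exact_map_and_epi]
  intro S hS
  have h1 := (Functor.preservesFiniteLimits_iff_forall_exact_map_and_mono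
    (Rep.coindFunctor.{0} K φ)).1 inferInstance S hS
  haveI := hS.epi_g
  exact ⟨h1.1, inferInstance⟩

theorem resFunctor_finLim : PreservesFiniteLimits (Rep.resFunctor.{0} (k := K) φ) := by
  have h : PreservesLimits (Rep.resFunctor.{0} (k := K) φ) := inferInstance
  exact PreservesLimits.preservesFiniteLimits _

theorem resFunctor_finColim : PreservesFiniteColimits (Rep.resFunctor.{0} (k := K) φ) := by
  have h : PreservesColimits (Rep.resFunctor.{0} (k := K) φ) := inferInstance
  exact PreservesColimits.preservesFiniteColimits _

end Pool.Agent.FRC
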