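import Mathlib

open CategoryTheory CategoryTheory.Limits

namespace Pool.Agent.FRC

variable {K : Type} [Field K] {G H : Type} [Group G] [Group H] (φ : H →* G)

section one

variable {φ} {V : Type} [AddCommGroup V] [Module K V] (ρ : Representation K H V)

open scoped Classical in
/-- The function on `G` supported on the range of `φ` with value `h v` at `φ h`. -/
noncomputable def extFun (φ : H →* G) (v : V) (g : G) : V :=
  if h : ∃ x, φ x = g then ρ h.choose v else 0

theorem extFun_apply (hφ : Function.Injective φ) (v : V) (x : H) :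
    extFun ρ φ v (φ x) = ρ x v := by
  have h : ∃ y, φ y = φ x := ⟨x, rfl⟩
  rw [extFun, dif_pos h, hφ h.choose_spec]

theorem extFun_neg (v : V) (g : G) (hg : ¬ ∃ x, φ x = g) :
    extFun ρ φ v g = 0 := by
  rw [extFun, dif_neg hg]

theorem extFun_mul_left (hφ : Function.Injective φ) (v : V) (x : H) (g : G) :
    extFun ρ φ v (φ x * g) = ρ x (extFun ρ φ v g) := by
  by_cases h : ∃ y, φ y = g
  · obtain ⟨y, rfl⟩ := h
    rw [← map_mul, extFun_apply ρ hφ, extFun_apply ρ hφ, map_mul]
    rfl
  · rw [extFun_neg ρ v g h, extFun_neg ρ v, map_zero]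
    rintro ⟨y, hy⟩
    exact h ⟨x⁻¹ * y, by rw [map_mul, hy, map_inv]; group⟩

theorem extFun_mul_right (hφ : Function.Injective φ) (v : V) (x : H) (g : G) :
    extFun ρ φ (ρ x v) g = extFun ρ φ v (g * φ x) := by
  by_cases h : ∃ y, φ y = g
  · obtain ⟨y, rfl⟩ := h
    rw [← map_mul, extFun_apply ρ hφ, extFun_apply ρ hφ, map_mul]
    rfl
  · rw [extFun_neg ρ _ g h, extFun_neg ρ v]
    rintro ⟨y, hy⟩
    exact h ⟨y * x⁻¹, by rw [map_mul, hy, map_inv]; group⟩

/-- The intertwining map into the restriction of the coinduction. -/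
noncomputable def etaOne (hφ : Function.Injective φ) :
    ρ.IntertwiningMap ((Representation.coind φ ρ).comp φ) where
  toFun v := ⟨extFun ρ φ v, fun x g => extFun_mul_left ρ hφ v x g⟩
  map_add' v w := by
    apply Subtype.ext
    funext g
    by_cases h : ∃ y, φ y = g
    · obtain ⟨y, rfl⟩ := h
      simp [extFun_apply ρ hφ]
    · simp [extFun_neg ρ _ g h]
  map_smul' c w := by
    apply Subtype.ext
    funext g
    by_cases h : ∃ y, φ y = g
    · obtain ⟨y, rfl⟩ := h
      simp [extFun_apply ρ hφ]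
    · simp [extFun_neg ρ _ g h]
  isIntertwining' x := by
    ext v g
    exact extFun_mul_right ρ hφ v x g

/-- Evaluation at one. -/
noncomputable def epsOne (φ : H →* G) :
    Representation.IntertwiningMap ((Representation.coind φ ρ).comp φ) ρ where
  toFun f := f.1 1
  map_add' v w := rfl
  map_smul' c w := rfl
  isIntertwining' x := by
    ext f
    change f.1 (1 * φ x) = ρ x (f.1 1)
    rw [one_mul, ← f.2 x 1, mul_one]

end one

/-- For injective `φ` the identity is a retract of restriction after coinduction: `v` goes to the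
function supported on `φ H` with value `h v` at `φ h`, and `f` goes to `f 1`. -/
theorem exists_retract_res_coind (hφ : Function.Injective φ) :
    ∃ (η : 𝟭 (Rep.{0} K H) ⟶ Rep.coindFunctor.{0} K φ ⋙ Rep.resFunctor φ)
      (ε : Rep.coindFunctor.{0} K φ ⋙ Rep.resFunctor φ ⟶ 𝟭 (Rep.{0} K H)),
      ∀ X, η.app X ≫ ε.app X = 𝟙 X := by
  refine ⟨{ app := fun X => Rep.ofHom (etaOne X.ρ hφ), naturality := ?_ },
    { app := fun X => Rep.ofHom (epsOne X.ρ φ), naturality := ?_ }, ?_⟩
  · intro X Y f
    ext v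
    apply Subtype.ext
    funext g
    change extFun Y.ρ φ (f.hom v) g = f.hom (extFun X.ρ φ v g)
    by_cases h : ∃ y, φ y = g
    · obtain ⟨y, rfl⟩ := h
      rw [extFun_apply _ hφ, extFun_apply _ hφ]
      exact (Rep.hom_comm_apply f y v).symm
    · rw [extFun_neg _ _ g h, extFun_neg _ _ g h]
      exact (map_zero f.hom).symm
  · intro X Y f
    ext v
    rfl
  · intro X
    ext v
    change extFun X.ρ φ v 1 = v
    rw [← map_one φ, extFun_apply _ hφ, map_one]
    rfl

section two

variable {φ} {V : Type} [AddCommGroup V] [Module K V] (ρ : Representation K G V)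

/-- The orbit function. -/
noncomputable def etaTwo (φ : H →* G) :
    ρ.IntertwiningMap (Representation.coind φ (ρ.comp φ)) where
  toFun v := ⟨fun g => ρ g v, fun x g => by
    change ρ (φ x * g) v = ρ (φ x) (ρ g v)
    rw [map_mul]
    rfl⟩
  map_add' v w := by
    apply Subtype.ext
    funext g
    simp
  map_smul' c w := by
    apply Subtype.ext
    funext g
    simp
  isIntertwining' x := by
    ext v g
    change ρ g (ρ x v) = ρ (g * x) v
    rw [map_mul]
    rfl

/-- The terms of the average, as a function on the cosets. -/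
noncomputable def termTwo (φ : H →* G) (f : Representation.coindV φ (ρ.comp φ))
    (c : G ⧸ φ.range) : V :=
  Quotient.liftOn' c (fun g => ρ g (f.1 g⁻¹)) (by
    intro a b hab
    rw [QuotientGroup.leftRel_apply] at hab
    obtain ⟨x, hx⟩ := hab
    have hb : b = a * φ x := by rw [hx]; group
    have h2 : b⁻¹ = φ x⁻¹ * a⁻¹ := by rw [hb, map_inv]; group
    change ρ a (f.1 a⁻¹) = ρ b (f.1 b⁻¹)
    rw [h2, f.2 x⁻¹ a⁻¹, hb, map_mul]
    change _ = ρ a (ρ (φ x) (ρ (φ x⁻¹) _))
    have h3 : ρ (φ x) (ρ (φ x⁻¹) (f.1 a⁻¹)) = f.1 a⁻¹ := by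
      change (ρ (φ x) * ρ (φ x⁻¹)) (f.1 a⁻¹) = f.1 a⁻¹
      rw [← map_mul, ← map_mul]
      simp
    rw [h3])

theorem termTwo_mk (f : Representation.coindV φ (ρ.comp φ)) (g : G) :
    termTwo ρ φ f (g : G ⧸ φ.range) = ρ g (f.1 g⁻¹) := rfl

/-- The average over the cosets. -/
noncomputable def epsTwo (φ : H →* G) [Fintype (G ⧸ φ.range)] :
    Representation.IntertwiningMap (Representation.coind φ (ρ.comp φ)) ρ where
  toFun f := (Fintype.card (G ⧸ φ.range) : K)⁻¹ • ∑ c, termTwo ρ φ f c
  map_add' v w := by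
    rw [← smul_add, ← Finset.sum_add_distrib]
    congr 1
    apply Finset.sum_congr rfl
    intro c _
    induction c using QuotientGroup.induction_on with
    | H g => simp [termTwo_mk]
  map_smul' a w := by
    rw [RingHom.id_apply, smul_comm]
    congr 1
    rw [Finset.smul_sum]
    apply Finset.sum_congr rfl
    intro c _
    induction c using QuotientGroup.induction_on with
    | H g => simp [termTwo_mk]
  isIntertwining' x := by
    ext f
    change (Fintype.card (G ⧸ φ.range) : K)⁻¹ •
        ∑ c, termTwo ρ φ (Representation.coind φ (ρ.comp φ) x f) c =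
      ρ x ((Fintype.card (G ⧸ φ.range) : K)⁻¹ • ∑ c, termTwo ρ φ f c)
    rw [map_smul, map_sum]
    congr 1
    rw [← Equiv.sum_comp (MulAction.toPerm x⁻¹ : Equiv.Perm (G ⧸ φ.range))
      (fun c => ρ x (termTwo ρ φ f c))]
    apply Finset.sum_congr rfl
    intro c _
    induction c using QuotientGroup.induction_on with
    | H g =>
      rw [termTwo_mk]
      change ρ g (f.1 (g⁻¹ * x)) = ρ x (ρ (x⁻¹ * g) (f.1 (x⁻¹ * g)⁻¹))
      have h3 : ρ x (ρ (x⁻¹ * g) (f.1 (x⁻¹ * g)⁻¹)) = ρ g (f.1 (x⁻¹ * g)⁻¹) := by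
        change (ρ x * ρ (x⁻¹ * g)) (f.1 (x⁻¹ * g)⁻¹) = _
        rw [← map_mul]
        congr 2
        group
      rw [h3]
      congr 2
      group

end two

/-- For `φ` with image of finite index and `K` of characteristic zero the identity is a retract of
coinduction after restriction: `v` goes to `g ↦ g v` and `f` goes to the average over the cosets
of `g⁻¹ f(g)`. -/
theorem exists_retract_coind_res [CharZero K] [φ.range.FiniteIndex] :
    ∃ (η : 𝟭 (Rep.{0} K G) ⟶ Rep.resFunctor φ ⋙ Rep.coindFunctor.{0} K φ)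
      (ε : Rep.resFunctor φ ⋙ Rep.coindFunctor.{0} K φ ⟶ 𝟭 (Rep.{0} K G)),
      ∀ X, η.app X ≫ ε.app X = 𝟙 X := by
  have : Fintype (G ⧸ φ.range) := Subgroup.fintypeQuotientOfFiniteIndex
  refine ⟨{ app := fun X => Rep.ofHom (etaTwo X.ρ φ), naturality := ?_ },
    { app := fun X => Rep.ofHom (epsTwo X.ρ φ), naturality := ?_ }, ?_⟩
  · intro X Y f
    ext v
    apply Subtype.ext
    funext g
    exact (Rep.hom_comm_apply f g v).symm
  · intro X Y f
    ext v
    change (Fintype.card (G ⧸ φ.range) : K)⁻¹ • ∑ c, termTwo Y.ρ φ _ c =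
      f.hom ((Fintype.card (G ⧸ φ.range) : K)⁻¹ • ∑ c, termTwo X.ρ φ v c)
    rw [map_smul, map_sum]
    congr 1
    apply Finset.sum_congr rfl
    intro c _
    induction c using QuotientGroup.induction_on with
    | H g =>
      rw [termTwo_mk, termTwo_mk]
      exact (Rep.hom_comm_apply f g _).symm
  · intro X
    ext v
    change (Fintype.card (G ⧸ φ.range) : K)⁻¹ • ∑ c, termTwo X.ρ φ (etaTwo X.ρ φ v) c = v
    have h1 : ∀ c : G ⧸ φ.range, termTwo X.ρ φ (etaTwo X.ρ φ v) c = v := by
      intro c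
      induction c using QuotientGroup.induction_on with
      | H g =>
        rw [termTwo_mk]
        change (X.ρ g * X.ρ g⁻¹) v = v
        rw [← map_mul]
        simp
    rw [Finset.sum_congr rfl (fun c _ => h1 c), Finset.sum_const, Finset.card_univ,
      ← Nat.cast_smul_eq_nsmul K, smul_smul, inv_mul_cancel₀, one_smul]
    exact Nat.cast_ne_zero.mpr Fintype.card_ne_zero

end Pool.Agent.FRC
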