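import Mathlib
import Pool.Agent.FRC.PHI
import Pool.Agent.FRC.FRB1
import Pool.Agent.FRC.FRB2
import Pool.Agent.FRC.FRB3
import Pool.Agent.FRC.TRA
import Pool.Agent.FRC.WEI
import Pool.Agent.FRC.POL2

open CategoryTheory Polynomial NumberField

namespace Pool.Agent.FRC

open Pool.Agent.H12

variable {k : Type} [Field k] [NumberField k] {ℓ : ℕ} [Fact ℓ.Prime]

/-- The residue cardinality over `k` is a power of that over `ℚ`. -/
theorem nrm_pull_eq_pow (e : AlgebraicClosure k ≃+* AlgebraicClosure ℚ) {𝔓 : Ideal (Zb ℚ)}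
    (h𝔓 : 𝔓.IsMaximal) : ∃ f : ℕ, 0 < f ∧ nrm (pull e 𝔓) = nrm 𝔓 ^ f := by
  obtain ⟨p, f, hp, hf, hpf, hmem⟩ := nrm_prime_pow (pull_isMaximal e h𝔓)
  obtain ⟨hpr, hm⟩ := nrm_rat h𝔓
  have h1 : (p : Zb ℚ) ∈ 𝔓 := (natCast_mem_pull e p).mp hmem
  have h2 : p = nrm 𝔓 := prime_unique h𝔓 hp hpr h1 hm
  exact ⟨f, hf, by rw [hpf, h2]⟩

theorem unram_res (e : AlgebraicClosure k ≃+* AlgebraicClosure ℚ) {V : RepG ℚ ℓ} {N : ℕ}
    (hV : UnramOutside V N) : UnramOutside (Rep.res (phi e) V : RepG k ℓ) N := by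
  intro 𝔓 h𝔓 hN σ hσ v
  have h1 : pull e (pull e.symm 𝔓) = 𝔓 := pull_symm e 𝔓
  have h2 : (pull e.symm 𝔓).IsMaximal := pull_isMaximal e.symm h𝔓
  have h3 : (N : Zb ℚ) ∉ pull e.symm 𝔓 := fun h => hN ((natCast_mem_pull e.symm N).mp h)
  have h4 : FrobAt (pull e.symm 𝔓) 1 (phi e σ) := by
    rw [← h1] at hσ
    exact (frobAt_pull e (fun x => (phi_apply e σ x).symm)).mp hσ
  exact hV _ h2 h3 _ h4 v

/-- Restriction of the filtration. Frobenius over `k` acts as a power of Frobenius over `ℚ`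
(`rho_eq_of_frobAt`); use `exists_powPoly` and `isWeil_pow`. -/
theorem mixedP_res (e : AlgebraicClosure k ≃+* AlgebraicClosure ℚ) {V : RepG ℚ ℓ} {N : ℕ}
    {W : ℤ → Submodule ℚ_[ℓ] V} (hur : UnramOutside V N) (hV : MixedP V N W) :
    MixedP (Rep.res (phi e) V : RepG k ℓ) N W := by
  obtain ⟨hmono, hbot, htop, hst, hfr⟩ := hV
  refine ⟨hmono, hbot, htop, fun m g v hv => hst m (phi e g) v hv, ?_⟩
  intro 𝔓 h𝔓 hN σ hσ m
  have h1 : pull e (pull e.symm 𝔓) = 𝔓 := pull_symm e 𝔓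
  have h2 : (pull e.symm 𝔓).IsMaximal := pull_isMaximal e.symm h𝔓
  have h3 : (N : Zb ℚ) ∉ pull e.symm 𝔓 := fun h => hN ((natCast_mem_pull e.symm N).mp h)
  have h4 : FrobAt (pull e.symm 𝔓) (nrm 𝔓) (phi e σ) := by
    have h5 : FrobAt (pull e (pull e.symm 𝔓)) (nrm 𝔓) σ := by rw [h1]; exact hσ
    exact (frobAt_pull e (fun x => (phi_apply e σ x).symm)).mp h5
  obtain ⟨f, hf, hnf⟩ := nrm_pull_eq_pow e h2
  rw [h1] at hnf
  obtain ⟨τ, hτ⟩ := exists_frobAt h2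
  have h6 : FrobAt (pull e.symm 𝔓) (nrm 𝔓) (τ ^ f) := by
    rw [hnf]
    exact frobAt_pow hτ f
  have hq : nrm 𝔓 ≠ 0 := by
    have := one_lt_nrm h𝔓
    omega
  have h7 : V.ρ (phi e σ) = V.ρ (τ ^ f) := rho_eq_of_frobAt hur h2 h3 hq h4 h6
  have h8 : V.ρ (phi e σ)⁻¹ = (V.ρ τ⁻¹) ^ f := by
    have h9 : V.ρ (phi e σ)⁻¹ * V.ρ (phi e σ) = 1 := by
      rw [← map_mul, inv_mul_cancel, map_one]
    have h10 : V.ρ (τ ^ f) * (V.ρ τ⁻¹) ^ f = 1 := by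
      rw [← map_pow, ← map_mul, inv_pow, mul_inv_cancel, map_one]
    calc V.ρ (phi e σ)⁻¹ = V.ρ (phi e σ)⁻¹ * (V.ρ (τ ^ f) * (V.ρ τ⁻¹) ^ f) := by
          rw [h10, mul_one]
      _ = (V.ρ (phi e σ)⁻¹ * V.ρ (phi e σ)) * (V.ρ τ⁻¹) ^ f := by rw [h7, mul_assoc]
      _ = (V.ρ τ⁻¹) ^ f := by rw [h9, one_mul]
  obtain ⟨p, hp0, hpw, hpv⟩ := hfr _ h2 h3 τ hτ m
  obtain ⟨P, hP0, hPr, hPd⟩ := exists_powPoly p hp0 f
  refine ⟨P, hP0, ?_, ?_⟩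
  · intro ν hν
    obtain ⟨lam, hlam, rfl⟩ := hPr ν hν
    rw [hnf]
    exact isWeil_pow (hpw lam hlam) f
  · intro v hv
    change aeval (V.ρ (phi e σ⁻¹)) P v ∈ W (m - 1)
    rw [map_inv, h8]
    obtain ⟨q, hq⟩ := hPd
    have h11 : aeval ((V.ρ τ⁻¹) ^ f) P = aeval (V.ρ τ⁻¹) q * aeval (V.ρ τ⁻¹) p := by
      rw [← map_mul, mul_comm q p, ← hq, aeval_comp, map_pow, aeval_X]
    rw [h11, Module.End.mul_apply]
    have h12 : ∀ r : ℚ_[ℓ][X], ∀ w ∈ W (m - 1), aeval (V.ρ τ⁻¹) r w ∈ W (m - 1) := by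
      intro r w hw
      have h13 : ∀ n : ℕ, ((V.ρ τ⁻¹) ^ n) w ∈ W (m - 1) := by
        intro n
        induction n with
        | zero => simpa using hw
        | succ n ih =>
          rw [pow_succ', Module.End.mul_apply]
          exact hst _ _ _ ih
      rw [aeval_eq_sum_range, LinearMap.sum_apply]
      exact Submodule.sum_mem _ (fun i _ => by
        rw [LinearMap.smul_apply]
        exact Submodule.smul_mem _ _ (h13 i))
    exact h12 q _ (hpv v hv)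

end Pool.Agent.FRC
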