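import Mathlib
import Pool.Agent.FRC.PHI
import Pool.Agent.FRC.CLO4

open CategoryTheory Polynomial NumberField

namespace Pool.Agent.FRC

open Pool.Agent.H12

variable {k : Type} [Field k] [NumberField k] {ℓ : ℕ} [Fact ℓ.Prime]

/-- A finite extension of `ℚ_ℓ` that contains the image of `k`. -/
private theorem exists_fin_ext (ι : AlgebraicClosure k →+* PadicAlgCl ℓ) :
    ∃ L₁ : IntermediateField ℚ_[ℓ] (PadicAlgCl ℓ), FiniteDimensional ℚ_[ℓ] L₁ ∧
      ∀ x : k, ι (algebraMap k (AlgebraicClosure k) x) ∈ L₁ := by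
  classical
  let b := Module.finBasis ℚ k
  let j : k →+* PadicAlgCl ℓ := ι.comp (algebraMap k (AlgebraicClosure k))
  let S : Set (PadicAlgCl ℓ) := Set.range (fun i => j (b i))
  refine ⟨IntermediateField.adjoin ℚ_[ℓ] S, ?_, ?_⟩
  · have hfin : S.Finite := Set.finite_range _
    have := hfin.to_subtype
    exact IntermediateField.finiteDimensional_adjoin (fun x _ =>
      (Algebra.IsAlgebraic.isAlgebraic (R := ℚ_[ℓ]) x).isIntegral)
  · intro x
    change j x ∈ IntermediateField.adjoin ℚ_[ℓ] S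
    rw [← b.sum_repr x, map_sum]
    refine Subfield.sum_mem _ (fun i _ => ?_)
    rw [Algebra.smul_def, map_mul]
    refine mul_mem ?_ (IntermediateField.subset_adjoin _ _ ⟨i, rfl⟩)
    have h1 : j (algebraMap ℚ k (b.repr x i)) = algebraMap ℚ_[ℓ] (PadicAlgCl ℓ) ((b.repr x i : ℚ) : ℚ_[ℓ]) := by
      rw [eq_ratCast (algebraMap ℚ k), map_ratCast, map_ratCast]
    rw [h1]
    exact (IntermediateField.adjoin ℚ_[ℓ] S).algebraMap_mem _

/-- Restriction preserves the local condition: the embedding `ι` of the closure of `k` gives the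
embedding `ι ∘ e⁻¹` of the closure of `ℚ`; enlarge `L` by `ι k`. -/
theorem isPst_res (e : AlgebraicClosure k ≃+* AlgebraicClosure ℚ) {V : RepG ℚ ℓ}
    (hV : IsPst V) : IsPst (Rep.res (phi e) V : RepG k ℓ) := by
  intro ι
  obtain ⟨L, hLfin, -, hPst⟩ := hV (ι.comp (e.symm : AlgebraicClosure ℚ →+* AlgebraicClosure k))
  obtain ⟨L₁, hL₁, hk⟩ := exists_fin_ext ι
  refine ⟨L ⊔ L₁, inferInstance, fun x => ?_, ?_⟩
  · exact (le_sup_right : L₁ ≤ L ⊔ L₁) (hk x)
  · obtain ⟨U, hU, A, π, hπ, hA, hπρ⟩ := pstAt_mono (le_sup_left : L ≤ L ⊔ L₁) hPst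
    refine ⟨U, hU, A, π, hπ, hA, ?_⟩
    intro σ g hg a b hab
    refine hπρ σ (phi e g) ?_ a b hab
    intro x
    obtain ⟨y, rfl⟩ := e.surjective x
    rw [phi_apply]
    simp only [RingHom.comp_apply, RingEquiv.coe_toRingHom, RingHom.coe_coe, RingEquiv.symm_apply_apply]
    exact hg y

end Pool.Agent.FRC
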