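import Mathlib
import Pool.Agent.FRC.RTL
import Pool.Agent.FRC.ABE
import Pool.Agent.FRC.RS1
import Pool.Agent.FRC.RS2
import Pool.Agent.FRC.CO2
import Pool.Agent.FRC.CO4
import Pool.Agent.FRC.CO5
import Pool.Agent.FRC.NTR
import Pool.Agent.FRC.COX

open CategoryTheory CategoryTheory.Limits CategoryTheory.Abelian Polynomial NumberField

namespace Pool.Agent.FRC

open Pool.Agent.H12

variable (k : Type) [Field k] [NumberField k] (ℓ : ℕ) [Fact ℓ.Prime]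

theorem inC_res (e : AlgebraicClosure k ≃+* AlgebraicClosure ℚ) (V : RepG ℚ ℓ)
    (hV : InC ℚ ℓ V) : InC k ℓ ((Rep.resFunctor (phi e)).obj V) := by
  obtain ⟨hfin, hcont, ⟨N₁, hN₁, hur⟩, hmix, hpst⟩ := hV
  obtain ⟨N₂, W, hN₂, hM⟩ := (isMixed_iff V hfin ⟨N₁, hN₁, hur⟩).mp hmix
  have hur' : UnramOutside V (N₁ * N₂) := hur.congr_N (Dvd.intro _ rfl)
  have hM' : MixedP V (N₁ * N₂) W := hM.congr_N (Dvd.intro_left _ rfl)
  have hfin' : FiniteDimensional ℚ_[ℓ] (Rep.res (phi e) V : RepG k ℓ) := hfin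
  have hur2 : UnramOutside (Rep.res (phi e) V : RepG k ℓ) (N₁ * N₂) := unram_res e hur'
  refine ⟨hfin', ?_, ⟨N₁ * N₂, mul_ne_zero hN₁ hN₂, hur2⟩, ?_, isPst_res e hpst⟩
  · intro v f
    exact (hcont v f).comp (phi_continuous e)
  · exact (isMixed_iff (Rep.res (phi e) V : RepG k ℓ) hfin'
      ⟨N₁ * N₂, mul_ne_zero hN₁ hN₂, hur2⟩).mpr
      ⟨N₁ * N₂, W, mul_ne_zero hN₁ hN₂, mixedP_res e hur' hM'⟩

theorem inC_coind (e : AlgebraicClosure k ≃+* AlgebraicClosure ℚ) (V : RepG k ℓ)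
    (hV : InC k ℓ V) : InC ℚ ℓ ((Rep.coindFunctor.{0} ℚ_[ℓ] (phi e)).obj V) := by
  obtain ⟨hfin, hcont, ⟨N₁, hN₁, hur⟩, hmix, hpst⟩ := hV
  obtain ⟨N₂, W, hN₂, hM⟩ := (isMixed_iff V hfin ⟨N₁, hN₁, hur⟩).mp hmix
  have hur' : UnramOutside V (N₁ * N₂) := hur.congr_N (Dvd.intro _ rfl)
  have hM' : MixedP V (N₁ * N₂) W := hM.congr_N (Dvd.intro_left _ rfl)
  have hfi := phi_finiteIndex e
  have hfin' : FiniteDimensional ℚ_[ℓ] (Rep.coind (phi e) V : RepG ℚ ℓ) :=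
    coind_finite (phi e) V
  obtain ⟨N, hN, hdvd, hurN⟩ := unram_coind e (mul_ne_zero hN₁ hN₂) hur'
  have hMN : MixedP (Rep.coind (phi e) V : RepG ℚ ℓ) N (fun m => coindFil e V (W m)) :=
    (mixedP_coind e hur' hM').congr_N hdvd
  refine ⟨hfin', isCont_coind e hcont, ⟨N, hN, hurN⟩, ?_, isPst_coind e hpst⟩
  exact (isMixed_iff (Rep.coind (phi e) V : RepG ℚ ℓ) hfin' ⟨N, hN, hurN⟩).mpr ⟨N, _, hN, hMN⟩

/-- Independence of the base field. -/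
theorem base_field (n : ℕ) :
    (∀ V W : MixCat k ℓ, Subsingleton (Ext.{1} V W n)) ↔
      ∀ V W : MixCat ℚ ℓ, Subsingleton (Ext.{1} V W n) := by
  obtain ⟨e⟩ := exists_closure_equiv (k := k)
  have hfi := phi_finiteIndex e
  have h1 := coindFunctor_finLim (K := ℚ_[ℓ]) (phi e) (phi_injective e)
  have h2 := coindFunctor_finColim (K := ℚ_[ℓ]) (phi e) (phi_injective e)
  have h3 := resFunctor_finLim (K := ℚ_[ℓ]) (phi e)
  have h4 := resFunctor_finColim (K := ℚ_[ℓ]) (phi e)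
  constructor
  · intro H
    obtain ⟨η, ε, h⟩ := exists_retract_coind_res (K := ℚ_[ℓ]) (phi e)
    exact full_ext_subsingleton_of_retract (InC ℚ ℓ) (InC k ℓ)
      (Rep.resFunctor (phi e)) (Rep.coindFunctor.{0} ℚ_[ℓ] (phi e))
      (inC_res k ℓ e) (inC_coind k ℓ e) η ε h n H
  · intro H
    obtain ⟨η, ε, h⟩ := exists_retract_res_coind (K := ℚ_[ℓ]) (phi e) (phi_injective e)
    exact full_ext_subsingleton_of_retract (InC k ℓ) (InC ℚ ℓ)
      (Rep.coindFunctor.{0} ℚ_[ℓ] (phi e)) (Rep.resFunctor (phi e))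
      (inC_coind k ℓ e) (inC_res k ℓ e) η ε h n H

end Pool.Agent.FRC
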