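import Mathlib
import Pool.Agent.FRC.YON

open CategoryTheory CategoryTheory.Limits CategoryTheory.Abelian

namespace Pool.Agent.FRC

universe w v u w' v' u'

variable {C : Type u} [Category.{v} C] [Abelian C] [HasExt.{w} C]
variable {D : Type u'} [Category.{v'} D] [Abelian D] [HasExt.{w'} D]
variable (F : C ⥤ D) [F.Additive] [PreservesFiniteLimits F] [PreservesFiniteColimits F]
  [F.Full] [F.Faithful]

/-- A fully faithful exact functor such that every epimorphism of `D` onto an object of `C` is
dominated by an epimorphism from an object of `C` induces bijections on all `Ext`. Induction on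
`n` with `exists_extClass_comp`: surjectivity as `x = extClass (K' → P' → X) y'` with `K'`, `P'` in
`C`; injectivity: if the image of `extClass y` vanishes, the image of `y` extends to `P`. -/
theorem mapExt_bijective_of_epi
    (h : ∀ (X : C) (P : D) (p : P ⟶ F.obj X), Epi p →
      ∃ (X' : C) (q : F.obj X' ⟶ P), Epi (q ≫ p)) (X Y : C) (n : ℕ) :
    Function.Bijective (F.mapExtAddHom X Y n : Ext.{w} X Y n →+ Ext.{w'} (F.obj X) (F.obj Y) n) := by
  induction n generalizing X with
  | zero => simpa [Ext.mapExactFunctor₀] using ⟨F.map_injective, F.map_surjective⟩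
  | succ n hn =>
    constructor
    · rw [injective_iff_map_eq_zero]
      intro x hx
      obtain ⟨K, P, i, p, w, hS, y, rfl⟩ := exists_extClass_comp x
      rw [Functor.mapExtAddHom_apply, Ext.mapExactFunctor_comp, Ext.mapExactFunctor_extClass] at hx
      obtain ⟨z, hz⟩ := Ext.contravariant_sequence_exact₁ (hS.map_of_exact F) (F.obj Y)
        (y.mapExactFunctor F) (add_comm 1 n) hx
      obtain ⟨z', rfl⟩ := (hn P).surjective z
      have h1 : (Ext.mk₀ i).comp z' (zero_add n) = y := by
        apply (hn K).injective
        rw [Functor.mapExtAddHom_apply, Functor.mapExtAddHom_apply, Ext.mapExactFunctor_comp,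
          Ext.mapExactFunctor_mk₀]
        exact hz
      rw [← h1]
      exact hS.extClass_comp_assoc z'
    · intro x
      obtain ⟨P, p, hp, hx⟩ := exists_epi_killing x
      obtain ⟨X', q, hq⟩ := h X P p hp
      obtain ⟨r, hr⟩ := F.map_surjective (q ≫ p)
      have hFr : Epi (F.map r) := by rw [hr]; exact hq
      have hrr : Epi r := F.epi_of_epi_map hFr
      have hS : (ShortComplex.mk (kernel.ι r) r (kernel.condition r)).ShortExact :=
        { exact := ShortComplex.exact_kernel r }
      have h1 : (Ext.mk₀ (F.map r)).comp x (zero_add _) = 0 := by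
        rw [hr, ← Ext.mk₀_comp_mk₀_assoc, hx, Ext.comp_zero]
      obtain ⟨y, hy⟩ := Ext.contravariant_sequence_exact₃ (hS.map_of_exact F) (F.obj Y) x h1
        (add_comm 1 n)
      obtain ⟨y', rfl⟩ := (hn (kernel r)).surjective y
      refine ⟨hS.extClass.comp y' (add_comm 1 n), ?_⟩
      rw [Functor.mapExtAddHom_apply, Ext.mapExactFunctor_comp, Ext.mapExactFunctor_extClass]
      exact hy

end Pool.Agent.FRC
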