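import Mathlib
import Pool.Agent.FRC.YON

open CategoryTheory CategoryTheory.Limits CategoryTheory.Abelian

namespace Pool.Agent.FRC

universe w v u w' v' u'

section aux

variable {C : Type u} [Category.{v} C] [Abelian C]

open HomologicalComplex

private lemma single_aux {X : C} {K : CochainComplex C ℤ} {i : ℤ}
    (π : (single C (ComplexShape.up ℤ) i).obj X ⟶ K) :
    π.f i ≫ K.pOpcycles i = (singleObjXSelf (ComplexShape.up ℤ) i X).hom ≫
      (singleObjHomologySelfIso (ComplexShape.up ℤ) i X).inv ≫ homologyMap π i ≫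
        K.homologyι i := by
  rw [homologyι_naturality, singleObjHomologySelfIso_inv_homologyι_assoc, ← p_opcyclesMap,
    ← pOpcycles_singleObjOpcyclesSelfIso_inv_assoc, Iso.inv_hom_id_assoc]

set_option backward.defeqAttrib.useBackward true in
set_option backward.isDefEq.respectTransparency false in
private lemma exists_mono_factor {X : C} {K : CochainComplex C ℤ} {i : ℤ}
    (π : (CochainComplex.singleFunctor C i).obj X ⟶ K) [K.IsStrictlyGE i] [QuasiIsoAt π i] :
    ∃ (P : C) (p : X ⟶ P) (j : K ⟶ (CochainComplex.singleFunctor C i).obj P), Mono p ∧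
      (CochainComplex.singleFunctor C i).map p = π ≫ j := by
  let e := K.pOpcyclesIso (i - 1) i (by simp)
    ((K.isZero_of_isStrictlyGE i (i - 1) (by lia)).eq_of_src _ _)
  let α := (singleObjHomologySelfIso _ _ _).inv ≫ homologyMap π i ≫ K.homologyι i ≫ e.inv
  have hα : π.f i = (singleObjXSelf (ComplexShape.up ℤ) i X).hom ≫ α := by
    rw [← cancel_mono e.hom]
    dsimp [α, e]
    rw [Category.assoc, Category.assoc, Category.assoc, Category.assoc,
      pOpcyclesIso_inv_hom_id, Category.comp_id]
    exact single_aux π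
  have hmono : Mono α := by
    dsimp [α]
    infer_instance
  refine ⟨K.X i, α, mkHomToSingle (𝟙 (K.X i)) (by
      rintro j hj
      apply (K.isZero_of_isStrictlyGE i j (by
        simp only [ComplexShape.up_Rel] at hj
        lia)).eq_of_src), hmono, ?_⟩
  apply HomologicalComplex.to_single_hom_ext
  rw [comp_f, mkHomToSingle_f, hα]
  dsimp [CochainComplex.singleFunctor, CochainComplex.singleFunctors]
  simp [single_map_f_self]

end aux

section der

variable {C : Type u} [Category.{v} C] [Abelian C]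

open DerivedCategory

variable [HasDerivedCategory.{w} C]

private lemma exists_mono_comp_eq_zero {X : C}
    {L : CochainComplex C ℤ} {i : ℤ}
    (φ : Q.obj L ⟶ Q.obj ((CochainComplex.singleFunctor C i).obj X))
    (n : ℤ) (hn : i < n) [L.IsStrictlyGE n] :
    ∃ (P : C) (p : X ⟶ P), Mono p ∧
      φ ≫ Q.map ((CochainComplex.singleFunctor C i).map p) = 0 := by
  obtain ⟨K, _, g, π, h, rfl⟩ := left_fac_of_isStrictlyGE φ i
  have hq := h
  rw [isIso_Q_map_iff_quasiIso] at hq
  obtain ⟨P, p, j, hp, hj⟩ := exists_mono_factor π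
  refine ⟨P, p, hp, ?_⟩
  have h₂ : g ≫ j = 0 := by
    apply HomologicalComplex.to_single_hom_ext
    apply (L.isZero_of_isStrictlyGE n i hn).eq_of_src
  rw [hj, Q.map_comp, Category.assoc, IsIso.inv_hom_id_assoc, ← Q.map_comp, h₂, Q.map_zero]

end der

section Dual

variable {C : Type u} [Category.{v} C] [Abelian C] [HasExt.{w} C]

/-- Dual of `exists_epi_killing`: write `x.hom = Q.map g ≫ inv (Q.map s)` with `Y'` strictly
`≥ -(n+1)` (`DerivedCategory.left_fac_of_isStrictlyGE`). -/
theorem exists_mono_killing {X Y : C} {n : ℕ} (x : Ext.{w} X Y (n + 1)) :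
    ∃ (Q : C) (i : Y ⟶ Q), Mono i ∧ x.comp (Ext.mk₀ i) (add_zero _) = 0 := by
  let := HasDerivedCategory.standard C
  let φ := x.hom ≫ (((DerivedCategory.singleFunctors C).shiftIso (n + 1) (-(n + 1)) 0
    (by lia)).hom.app _)
  obtain ⟨P, p, hp, h⟩ := exists_mono_comp_eq_zero (i := -(n + 1))
    (L := (CochainComplex.singleFunctor C 0).obj X) φ 0 (by lia)
  refine ⟨P, p, hp, ?_⟩
  apply Ext.homEquiv.injective
  have h0 : Ext.homEquiv (0 : Ext X P (n + 1)) = 0 := by
    have := Ext.zero_hom (X := X) (Y := P) (n := n + 1)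
    exact this
  rw [h0]
  have h1 : Ext.homEquiv (x.comp (Ext.mk₀ p) (add_zero _)) =
      x.hom ≫ ((DerivedCategory.singleFunctor C 0).map p)⟦((n + 1 : ℕ) : ℤ)⟧' := by
    have := Ext.comp_hom x (Ext.mk₀ p) (add_zero _)
    rw [Ext.mk₀_hom] at this
    refine this.trans ?_
    simp [ShiftedHom.comp_mk₀]
  rw [h1]
  have hnat := ((DerivedCategory.singleFunctors C).shiftIso (n + 1) (-(n + 1)) 0
    (by lia)).hom.naturality p
  rw [← cancel_mono (((DerivedCategory.singleFunctors C).shiftIso (n + 1) (-(n + 1)) 0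
    (by lia)).hom.app _), Category.assoc, Limits.zero_comp]
  refine Eq.trans ?_ h
  exact (congrArg (fun t => x.hom ≫ t) hnat).trans (Category.assoc _ _ _).symm

/-- Every class of degree `n + 1` is the product of a class of degree `n` and the class of a short
exact sequence with left end `Y`. -/
theorem exists_comp_extClass {X Y : C} {n : ℕ} (x : Ext.{w} X Y (n + 1)) :
    ∃ (Q R : C) (i : Y ⟶ Q) (p : Q ⟶ R) (w : i ≫ p = 0)
      (hS : (ShortComplex.mk i p w).ShortExact) (y : Ext.{w} X R n),
      x = y.comp hS.extClass rfl := by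
  obtain ⟨Q, i, hi, hx⟩ := exists_mono_killing x
  have hS : (ShortComplex.mk i (cokernel.π i) (cokernel.condition i)).ShortExact :=
    { exact := ShortComplex.exact_cokernel i }
  obtain ⟨y, hy⟩ := Ext.covariant_sequence_exact₁ X hS x hx rfl
  exact ⟨Q, cokernel i, i, cokernel.π i, cokernel.condition i, hS, y, hy.symm⟩

end Dual

variable {C : Type u} [Category.{v} C] [Abelian C] [HasExt.{w} C]
variable {D : Type u'} [Category.{v'} D] [Abelian D] [HasExt.{w'} D]
variable (F : C ⥤ D) [F.Additive] [PreservesFiniteLimits F] [PreservesFiniteColimits F]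
  [F.Full] [F.Faithful]

/-- The dual of `mapExt_bijective_of_epi`. -/
theorem mapExt_bijective_of_mono
    (h : ∀ (Y : C) (Q : D) (i : F.obj Y ⟶ Q), Mono i →
      ∃ (Y' : C) (r : Q ⟶ F.obj Y'), Mono (i ≫ r)) (X Y : C) (n : ℕ) :
    Function.Bijective (F.mapExtAddHom X Y n : Ext.{w} X Y n →+ Ext.{w'} (F.obj X) (F.obj Y) n) := by
  induction n generalizing X Y with
  | zero => simpa [Ext.mapExactFunctor₀] using
      ⟨Functor.Faithful.map_injective, Functor.Full.map_surjective⟩
  | succ n hn =>
    constructor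
    · rw [injective_iff_map_eq_zero]
      intro x hx
      obtain ⟨Q, R, i, p, w, hS, y, rfl⟩ := exists_comp_extClass x
      rw [Functor.mapExtAddHom_apply, Ext.mapExactFunctor_comp, Ext.mapExactFunctor_extClass] at hx
      obtain ⟨z, hz⟩ := Ext.covariant_sequence_exact₃ _ (hS.map_of_exact F) _ rfl hx
      obtain ⟨z', rfl⟩ := (hn X Q).2 z
      have hy : z'.comp (Ext.mk₀ p) (add_zero n) = y := by
        apply (hn X R).1
        rw [Functor.mapExtAddHom_apply, Functor.mapExtAddHom_apply, Ext.mapExactFunctor_comp,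
          Ext.mapExactFunctor_mk₀]
        exact hz
      rw [← hy, Ext.comp_assoc_of_second_deg_zero]
      have h0 := hS.comp_extClass
      erw [h0]
      exact Ext.comp_zero _ _ _ _ _
    · intro ξ
      obtain ⟨Q, i, hi, hξ⟩ := exists_mono_killing ξ
      obtain ⟨Y', r, hr⟩ := h Y Q i hi
      obtain ⟨j, hj⟩ := F.map_surjective (i ≫ r)
      have hjm : Mono (F.map j) := by rw [hj]; exact hr
      have hjm' : Mono j := F.mono_of_mono_map hjm
      have hS : (ShortComplex.mk j (cokernel.π j) (cokernel.condition j)).ShortExact :=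
        { exact := ShortComplex.exact_cokernel j }
      have hξ' : ξ.comp (Ext.mk₀ (F.map j)) (add_zero _) = 0 := by
        rw [hj, ← Ext.mk₀_comp_mk₀, ← Ext.comp_assoc_of_third_deg_zero, hξ, Ext.zero_comp]
      obtain ⟨η, hη⟩ := Ext.covariant_sequence_exact₁ _ (hS.map_of_exact F) ξ hξ' rfl
      obtain ⟨y, rfl⟩ := (hn X (cokernel j)).2 η
      refine ⟨y.comp hS.extClass rfl, ?_⟩
      rw [Functor.mapExtAddHom_apply, Ext.mapExactFunctor_comp, Ext.mapExactFunctor_extClass]
      exact hη

end Pool.Agent.FRC
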