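import Mathlib
import Pool.Agent.FRC.ABE
import Pool.Agent.FRC.EXL

open CategoryTheory CategoryTheory.Limits CategoryTheory.Abelian Polynomial NumberField

namespace Pool.Agent.FRC

open Pool.Agent.H12

variable (k : Type) [Field k] [NumberField k] (ℓ : ℕ) [Fact ℓ.Prime]

/-- The objects of `C_{k,ℓ}` all of whose weights lie in `[a, b]`: there is a filtration as in
`IsMixed` with `W (a - 1) = 0` and `W b = V`. -/
def InCI (a b : ℤ) : ObjectProperty (RepG k ℓ) := fun V =>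
  InC k ℓ V ∧ ∃ W : ℤ → Submodule ℚ_[ℓ] V, Monotone W ∧ W (a - 1) = ⊥ ∧ W b = ⊤ ∧
    (∀ m (g : GG k), ∀ v ∈ W m, V.ρ g v ∈ W m) ∧
    ∀ m, ∃ P : RepG k ℓ, IsPure P m ∧ IsGr V (W m) (W (m - 1)) P

theorem inCI_le (a b : ℤ) : InCI k ℓ a b ≤ InC k ℓ := fun _ h => h.1

end Pool.Agent.FRC
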