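import Mathlib
import Pool.Agent.FRC.ITD
import Pool.Agent.FRC.INC
import Pool.Agent.FRC.IND
import Pool.Agent.FRC.WTC
import Pool.Agent.FRC.FCO

open CategoryTheory CategoryTheory.Limits CategoryTheory.Abelian Polynomial NumberField

namespace Pool.Agent.FRC

open Pool.Agent.H12

section aux

variable {k : Type} [Field k] [NumberField k] {ℓ : ℕ} [Fact ℓ.Prime]

/-- Polynomials in an endomorphism and a map which intertwines on a stable subspace. -/
private theorem itv_aeval_map {V P : Type} [AddCommGroup V] [Module ℚ_[ℓ] V] [AddCommGroup P]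
    [Module ℚ_[ℓ] P] (π : V →ₗ[ℚ_[ℓ]] P) (A : Submodule ℚ_[ℓ] V) (T : V →ₗ[ℚ_[ℓ]] V)
    (S : P →ₗ[ℚ_[ℓ]] P) (hA : ∀ v ∈ A, T v ∈ A) (hπ : ∀ v ∈ A, π (T v) = S (π v))
    (p : ℚ_[ℓ][X]) : ∀ v ∈ A, aeval T p v ∈ A ∧ π (aeval T p v) = aeval S p (π v) := by
  have hpow : ∀ n : ℕ, ∀ v ∈ A, (T ^ n) v ∈ A ∧ π ((T ^ n) v) = (S ^ n) (π v) := by
    intro n
    induction n with
    | zero => intro v hv; exact ⟨by simpa using hv, by simp⟩
    | succ n ih =>
      intro v hv
      have h1 := ih (T v) (hA v hv)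
      rw [pow_succ, pow_succ, Module.End.mul_apply, Module.End.mul_apply]
      refine ⟨h1.1, ?_⟩
      rw [h1.2, hπ v hv]
  induction p using Polynomial.induction_on' with
  | add p q hp hq =>
    intro v hv
    rw [map_add, map_add, LinearMap.add_apply, LinearMap.add_apply, map_add]
    exact ⟨A.add_mem (hp v hv).1 (hq v hv).1, by rw [(hp v hv).2, (hq v hv).2]⟩
  | monomial n a =>
    intro v hv
    rw [aeval_monomial, aeval_monomial, Module.algebraMap_end_eq_smul_id,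
      Module.algebraMap_end_eq_smul_id, Module.End.mul_apply, Module.End.mul_apply]
    simp only [LinearMap.smul_apply, LinearMap.id_apply, map_smul]
    exact ⟨A.smul_mem _ (hpow n v hv).1, by rw [(hpow n v hv).2]⟩

private theorem itv_notMem {N M : ℕ} (hNM : N ∣ M) {𝔓 : Ideal (Zb k)}
    (h : (M : Zb k) ∉ 𝔓) : (N : Zb k) ∉ 𝔓 := by
  intro hmem
  apply h
  obtain ⟨c, rfl⟩ := hNM
  rw [Nat.cast_mul]
  exact Ideal.mul_mem_right _ _ hmem

private theorem itv_mixedP {V : RepG k ℓ} (hfin : FiniteDimensional ℚ_[ℓ] V)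
    {W : ℤ → Submodule ℚ_[ℓ] V} (hmono : Monotone W) {a b : ℤ} (ha : W a = ⊥) (hb : W b = ⊤)
    (hst : ∀ m (g : GG k), ∀ v ∈ W m, V.ρ g v ∈ W m)
    (hgr : ∀ m, ∃ P : RepG k ℓ, IsPure P m ∧ IsGr V (W m) (W (m - 1)) P) :
    ∃ N : ℕ, N ≠ 0 ∧ MixedP V N W := by
  choose P hP hG using hgr
  choose n hn0 hnu hnF using hP
  have hlow : ∀ m, m ≤ a → W m = ⊥ := fun m hm => le_bot_iff.mp (ha ▸ hmono hm)
  have hhigh : ∀ m, b ≤ m → W m = ⊤ := fun m hm => top_le_iff.mp (hb ▸ hmono hm)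
  refine ⟨∏ m ∈ Finset.Icc a (b + 1), n m, Finset.prod_ne_zero_iff.mpr fun m _ => hn0 m,
    hmono, ⟨a, ha⟩, ⟨b, hb⟩, hst, ?_⟩
  intro 𝔓 hmax hN σ hσ m
  by_cases hm : m ∈ Finset.Icc a (b + 1)
  · have hN' : (n m : Zb k) ∉ 𝔓 := itv_notMem (Finset.dvd_prod_of_mem n hm) hN
    obtain ⟨π, hsurj, hker, heq⟩ := hG m
    have hfinP : FiniteDimensional ℚ_[ℓ] (P m) := by
      refine Module.Finite.of_surjective π fun y => ?_
      obtain ⟨v, -, hv⟩ := hsurj y
      exact ⟨v, hv⟩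
    refine ⟨minpoly ℚ_[ℓ] ((P m).ρ σ⁻¹), minpoly.ne_zero (Algebra.IsIntegral.isIntegral _),
      fun μ hμ => hnF m 𝔓 hmax hN' σ hσ μ hμ, fun v hv => ?_⟩
    have h1 := itv_aeval_map π (W m) (V.ρ σ⁻¹) ((P m).ρ σ⁻¹) (hst m σ⁻¹) (heq σ⁻¹)
      (minpoly ℚ_[ℓ] ((P m).ρ σ⁻¹)) v hv
    rw [minpoly.aeval, LinearMap.zero_apply] at h1
    exact (hker _ h1.1).mp h1.2
  · refine ⟨1, one_ne_zero, fun μ hμ => ?_, fun v hv => ?_⟩
    · rw [map_one] at hμ
      exact absurd hμ one_ne_zero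
    · rw [map_one, Module.End.one_apply]
      rw [Finset.mem_Icc, not_and_or, not_le, not_le] at hm
      rcases hm with hm | hm
      · rw [hlow m hm.le] at hv
        rw [(Submodule.mem_bot _).mp hv]
        exact Submodule.zero_mem _
      · rw [hhigh (m - 1) (by omega)]
        exact Submodule.mem_top

private theorem itv_comm {X Y : RepG k ℓ} (f : X ⟶ Y) (g : GG k) (x : X) :
    f.hom.toLinearMap (X.ρ g x) = Y.ρ g (f.hom.toLinearMap x) :=
  Rep.hom_comm_apply f g x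

private theorem itv_sub_eq_bot {V : RepG k ℓ} [FiniteDimensional ℚ_[ℓ] V] {N : ℕ}
    {W : ℤ → Submodule ℚ_[ℓ] V} (hN : N ≠ 0) (hV : MixedP V N W) {a : ℤ} (h : WtGT V a) :
    W a = ⊥ := by
  have hS : ∀ g : GG k, W a ≤ (W a).comap (V.ρ g) := fun g v hv => hV.2.2.2.1 a g v hv
  have h1 : WtLE (Rep.subrepresentation V (W a) hS : RepG k ℓ) a := wtLE_sub hN hV a
  have h2 : WtGT (Rep.subrepresentation V (W a) hS : RepG k ℓ) a :=
    wtGT_of_injective (Rep.subtype V (W a) hS).hom.toLinearMap (itv_comm _)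
      (Submodule.subtype_injective (W a)) h
  have hfin : FiniteDimensional ℚ_[ℓ] (Rep.subrepresentation V (W a) hS : RepG k ℓ) :=
    inferInstanceAs (FiniteDimensional ℚ_[ℓ] (W a))
  have h3 : Subsingleton (W a) := subsingleton_of_wt h1 h2
  exact Submodule.eq_bot_of_subsingleton

private theorem itv_quot_eq_top {V : RepG k ℓ} [FiniteDimensional ℚ_[ℓ] V] {N : ℕ}
    {W : ℤ → Submodule ℚ_[ℓ] V} (hN : N ≠ 0) (hV : MixedP V N W) {a : ℤ} (h : WtLE V a) :
    W a = ⊤ := by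
  have hS : ∀ g : GG k, W a ≤ (W a).comap (V.ρ g) := fun g v hv => hV.2.2.2.1 a g v hv
  have h1 : WtGT (Rep.quotient V (W a) hS : RepG k ℓ) a := wtGT_quot hN hV a
  have h2 : WtLE (Rep.quotient V (W a) hS : RepG k ℓ) a :=
    wtLE_of_surjective (Rep.mkQ V (W a) hS).hom.toLinearMap (itv_comm _)
      (Submodule.mkQ_surjective (W a)) h
  have hfin : FiniteDimensional ℚ_[ℓ] (Rep.quotient V (W a) hS : RepG k ℓ) :=
    inferInstanceAs (FiniteDimensional ℚ_[ℓ] (V ⧸ (W a)))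
  have h3 : Subsingleton (V ⧸ (W a)) := subsingleton_of_wt h2 h1
  exact Submodule.Quotient.subsingleton_iff.mp h3

/-- The graded pieces of a filtration as in `MixedP` are pure. -/
private theorem itv_gr {V : RepG k ℓ} (hfin : FiniteDimensional ℚ_[ℓ] V)
    (hur : ∃ N : ℕ, N ≠ 0 ∧ UnramOutside V N) {N : ℕ}
    {W : ℤ → Submodule ℚ_[ℓ] V} (hN : N ≠ 0) (hV : MixedP V N W) (m : ℤ) :
    ∃ P : RepG k ℓ, IsPure P m ∧ IsGr V (W m) (W (m - 1)) P := by
  have hS : ∀ g : GG k, W m ≤ (W m).comap (V.ρ g) := fun g v hv => hV.2.2.2.1 m g v hv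
  let A : RepG k ℓ := Rep.subrepresentation V (W m) hS
  let T : Submodule ℚ_[ℓ] A := (W (m - 1)).comap (W m).subtype
  have hT : ∀ g : GG k, T ≤ T.comap (A.ρ g) := fun g v hv => hV.2.2.2.1 (m - 1) g v hv
  let P : RepG k ℓ := Rep.quotient A T hT
  have hfinA : FiniteDimensional ℚ_[ℓ] A := inferInstanceAs (FiniteDimensional ℚ_[ℓ] (W m))
  have hfinP : FiniteDimensional ℚ_[ℓ] P := inferInstanceAs (FiniteDimensional ℚ_[ℓ] (A ⧸ T))
  obtain ⟨N₀, hN₀, hu⟩ := hur
  have hA1 := unram_of_injective (Rep.subtype V (W m) hS).hom.toLinearMap (itv_comm _)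
      (Submodule.subtype_injective (W m)) hu
  have hP1 := unram_of_surjective (Rep.mkQ A T hT).hom.toLinearMap (itv_comm _)
      (Submodule.mkQ_surjective T) hA1
  have hA2 := mixedP_of_injective (Rep.subtype V (W m) hS).hom.toLinearMap (itv_comm _)
      (Submodule.subtype_injective (W m)) hV
  have hP2 := mixedP_of_surjective (Rep.mkQ A T hT).hom.toLinearMap (itv_comm _)
      (Submodule.mkQ_surjective T) hA2
  refine ⟨P, (isPure_iff P hfinP m).mpr ⟨⟨N₀, hN₀, hP1⟩, N, _, hN, hP2, ?_, ?_⟩, ?_⟩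
  · rw [Submodule.eq_top_iff']
    intro x
    obtain ⟨y, rfl⟩ := Submodule.mkQ_surjective T x
    exact ⟨y, y.2, rfl⟩
  · rw [Submodule.eq_bot_iff]
    rintro _ ⟨y, hy, rfl⟩
    exact (Submodule.Quotient.mk_eq_zero T).mpr hy
  · obtain ⟨π, hπ⟩ := LinearMap.exists_extend T.mkQ
    have hπ' : ∀ v (hv : v ∈ W m), π v = Submodule.Quotient.mk (p := T) ⟨v, hv⟩ := by
      intro v hv
      have := LinearMap.congr_fun hπ ⟨v, hv⟩
      exact this
    refine ⟨π, ?_, ?_, ?_⟩
    · intro y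
      obtain ⟨v, rfl⟩ := Submodule.mkQ_surjective T y
      exact ⟨v, v.2, hπ' v v.2⟩
    · intro v hv
      rw [hπ' v hv]
      exact Submodule.Quotient.mk_eq_zero _
    · intro g v hv
      rw [hπ' v hv, hπ' _ (hV.2.2.2.1 m g v hv)]
      rfl

private theorem itv_wtLE_prod {X Y : RepG k ℓ} {a : ℤ} (hX : WtLE X a) (hY : WtLE Y a) :
    WtLE (Rep.of (X.ρ.prod Y.ρ) : RepG k ℓ) a := by
  obtain ⟨N, W, hN, hW, h1⟩ := hX
  obtain ⟨N', W', hN', hW', h1'⟩ := hY
  refine ⟨N * N', _, Nat.mul_ne_zero hN hN', mixedP_prod (hW.congr_N (dvd_mul_right _ _))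
    (hW'.congr_N (dvd_mul_left _ _)), ?_⟩
  dsimp only
  rw [h1, h1', Submodule.prod_top]

private theorem itv_wtGT_prod {X Y : RepG k ℓ} {a : ℤ} (hX : WtGT X a) (hY : WtGT Y a) :
    WtGT (Rep.of (X.ρ.prod Y.ρ) : RepG k ℓ) a := by
  obtain ⟨N, W, hN, hW, h1⟩ := hX
  obtain ⟨N', W', hN', hW', h1'⟩ := hY
  refine ⟨N * N', _, Nat.mul_ne_zero hN hN', mixedP_prod (hW.congr_N (dvd_mul_right _ _))
    (hW'.congr_N (dvd_mul_left _ _)), ?_⟩
  dsimp only
  rw [h1, h1', Submodule.prod_bot]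

/-- A property of representations, closed under subobjects and products. -/
private structure ItvNice (R : RepG k ℓ → Prop) : Prop where
  sub : ∀ {X Y : RepG k ℓ} (f : X ⟶ Y), Mono f → R Y → R X
  quot : ∀ {X Y : RepG k ℓ} (f : X ⟶ Y), Epi f → R X → R Y
  prod : ∀ X Y : RepG k ℓ, R X → R Y → R (Rep.of (X.ρ.prod Y.ρ))
  zero : ∀ X : RepG k ℓ, InC k ℓ X → Subsingleton X → R X

private theorem itv_nice_le (a : ℤ) : ItvNice (k := k) (ℓ := ℓ) (fun V => WtLE V a) where
  sub f hf hY := wtLE_of_injective f.hom.toLinearMap (itv_comm f)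
    ((Rep.mono_iff_injective f).mp hf) hY
  quot f hf hX := wtLE_of_surjective f.hom.toLinearMap (itv_comm f)
    ((Rep.epi_iff_surjective f).mp hf) hX
  prod X Y hX hY := itv_wtLE_prod hX hY
  zero X hX hs := by
    obtain ⟨N, F, hN, hF⟩ := (isMixed_iff X hX.1 hX.2.2.1).mp hX.2.2.2.1
    exact ⟨N, F, hN, hF, Subsingleton.elim _ _⟩

private theorem itv_nice_gt (a : ℤ) : ItvNice (k := k) (ℓ := ℓ) (fun V => WtGT V a) where
  sub f hf hY := wtGT_of_injective f.hom.toLinearMap (itv_comm f)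
    ((Rep.mono_iff_injective f).mp hf) hY
  quot f hf hX := wtGT_of_surjective f.hom.toLinearMap (itv_comm f)
    ((Rep.epi_iff_surjective f).mp hf) hX
  prod X Y hX hY := itv_wtGT_prod hX hY
  zero X hX hs := by
    obtain ⟨N, F, hN, hF⟩ := (isMixed_iff X hX.1 hX.2.2.1).mp hX.2.2.2.1
    exact ⟨N, F, hN, hF, Subsingleton.elim _ _⟩

private theorem ItvNice.and {R R' : RepG k ℓ → Prop} (h : ItvNice R) (h' : ItvNice R') :
    ItvNice (fun V => R V ∧ R' V) where
  sub f hf hY := ⟨h.sub f hf hY.1, h'.sub f hf hY.2⟩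
  quot f hf hY := ⟨h.quot f hf hY.1, h'.quot f hf hY.2⟩
  prod X Y hX hY := ⟨h.prod X Y hX.1 hY.1, h'.prod X Y hX.2 hY.2⟩
  zero X hX hs := ⟨h.zero X hX hs, h'.zero X hX hs⟩

private theorem itv_sub {R : RepG k ℓ → Prop} (h : ItvNice R) :
    ObjectProperty.IsClosedUnderSubobjects (fun V : RepG k ℓ => InC k ℓ V ∧ R V) where
  prop_of_mono f hf hY := ⟨(InC k ℓ).prop_of_mono f hY.1, h.sub f hf hY.2⟩

private theorem itv_quot {R : RepG k ℓ → Prop} (h : ItvNice R) :
    ObjectProperty.IsClosedUnderQuotients (fun V : RepG k ℓ => InC k ℓ V ∧ R V) where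
  prop_of_epi f hf hX := ⟨(InC k ℓ).prop_of_epi f hX.1, h.quot f hf hX.2⟩

private theorem itv_zero {R : RepG k ℓ → Prop} (h : ItvNice R) :
    ObjectProperty.ContainsZero (fun V : RepG k ℓ => InC k ℓ V ∧ R V) where
  exists_zero := by
    obtain ⟨Z, hZ, hZ'⟩ := (InC k ℓ).exists_prop_of_containsZero
    exact ⟨Z, hZ, hZ', h.zero Z hZ' ((Rep.isZero_iff _ _ Z).mp hZ)⟩

private theorem itv_binprod {R : RepG k ℓ → Prop} (h : ItvNice R) :
    ObjectProperty.IsClosedUnderBinaryProducts (fun V : RepG k ℓ => InC k ℓ V ∧ R V) where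
  limitsOfShape_le := by
    rintro X ⟨p⟩
    constructor
    · refine (InC k ℓ).prop_of_isLimit p.isLimit ?_
      intro j
      exact (p.prop_diag_obj j).1
    · let f : X ⟶ (Rep.of ((p.diag.obj ⟨WalkingPair.left⟩).ρ.prod
          (p.diag.obj ⟨WalkingPair.right⟩).ρ) : RepG k ℓ) :=
        Rep.ofHom ⟨(p.π.app ⟨WalkingPair.left⟩).hom.toLinearMap.prod
          (p.π.app ⟨WalkingPair.right⟩).hom.toLinearMap, by
            intro g
            ext x
            · exact itv_comm (p.π.app ⟨WalkingPair.left⟩) g x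
            · exact itv_comm (p.π.app ⟨WalkingPair.right⟩) g x⟩
      have hf : Mono f := by
        constructor
        intro Z u v huv
        apply p.isLimit.hom_ext
        have hx : ∀ z : Z, f.hom (u.hom z) = f.hom (v.hom z) := by
          intro z
          have := congrArg (fun w : Z ⟶ _ => w.hom z) huv
          exact this
        rintro ⟨_ | _⟩
        · apply Rep.hom_ext
          ext z
          exact congrArg Prod.fst (hx z)
        · apply Rep.hom_ext
          ext z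
          exact congrArg Prod.snd (hx z)
      exact h.sub f hf (h.prod _ _ (p.prop_diag_obj _).2 (p.prop_diag_obj _).2)

private theorem itv_finprod {R : RepG k ℓ → Prop} (h : ItvNice R) :
    ObjectProperty.IsClosedUnderFiniteProducts (fun V : RepG k ℓ => InC k ℓ V ∧ R V) := by
  have := itv_sub h
  have := itv_zero h
  have := itv_binprod h
  exact ObjectProperty.IsClosedUnderFiniteProducts.mk'

section incl

variable {P Q : ObjectProperty (RepG k ℓ)} [P.IsClosedUnderSubobjects] [P.IsClosedUnderQuotients]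
  [P.ContainsZero] [P.IsClosedUnderFiniteProducts] [Q.IsClosedUnderSubobjects]
  [Q.IsClosedUnderQuotients] [Q.ContainsZero] [Q.IsClosedUnderFiniteProducts]

private theorem itv_additive (h : P ≤ Q) : (ObjectProperty.ιOfLE h).Additive := by
  constructor
  intro X Y f g
  rfl

private theorem itv_finLim (h : P ≤ Q) : PreservesFiniteLimits (ObjectProperty.ιOfLE h) := by
  have h2 : PreservesFiniteLimits (ObjectProperty.ιOfLE h ⋙ Q.ι) := incl_finLim P
  constructor
  intro J _ _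
  exact preservesLimitsOfShape_of_reflects_of_preserves (ObjectProperty.ιOfLE h) Q.ι

private theorem itv_finColim (h : P ≤ Q) :
    PreservesFiniteColimits (ObjectProperty.ιOfLE h) := by
  have h2 : PreservesFiniteColimits (ObjectProperty.ιOfLE h ⋙ Q.ι) := incl_finColim P
  constructor
  intro J _ _
  exact preservesColimitsOfShape_of_reflects_of_preserves (ObjectProperty.ιOfLE h) Q.ι

private theorem itv_mono {X Y : P.FullSubcategory} (f : X ⟶ Y) :
    Mono f ↔ Function.Injective f.hom.hom := by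
  have := incl_finLim P
  constructor
  · intro hf
    have : Mono (P.ι.map f) := inferInstance
    exact (Rep.mono_iff_injective _).mp this
  · intro hf
    have : Mono (P.ι.map f) := (Rep.mono_iff_injective _).mpr hf
    exact P.ι.mono_of_mono_map this

private theorem itv_epi {X Y : P.FullSubcategory} (f : X ⟶ Y) :
    Epi f ↔ Function.Surjective f.hom.hom := by
  have := incl_finColim P
  constructor
  · intro hf
    have : Epi (P.ι.map f) := inferInstance
    exact (Rep.epi_iff_surjective _).mp this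
  · intro hf
    have : Epi (P.ι.map f) := (Rep.epi_iff_surjective _).mpr hf
    exact P.ι.epi_of_epi_map this

end incl

end aux

variable (k : Type) [Field k] [NumberField k] (ℓ : ℕ) [Fact ℓ.Prime]

/-- For an object of the category, membership in `InCI` in terms of `WtLE` and `WtGT` (the step
`W (a - 1)` of a filtration with `W b = ⊤` has weights `≤ a - 1` and `> a - 1`, so is zero). -/
theorem inCI_iff {V : RepG k ℓ} {a b : ℤ} :
    InCI k ℓ a b V ↔ InC k ℓ V ∧ WtLE V b ∧ WtGT V (a - 1) := by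
  constructor
  · rintro ⟨hV, W, hmono, ha, hb, hst, hgr⟩
    obtain ⟨N, hN, hW⟩ := itv_mixedP hV.1 hmono ha hb hst hgr
    exact ⟨hV, ⟨N, W, hN, hW, hb⟩, ⟨N, W, hN, hW, ha⟩⟩
  · rintro ⟨hV, ⟨N, W, hN, hW, hb⟩, hgt⟩
    have hfin : FiniteDimensional ℚ_[ℓ] V := hV.1
    exact ⟨hV, W, hW.1, itv_sub_eq_bot hN hW hgt, hb, hW.2.2.2.1, itv_gr hV.1 hV.2.2.1 hN hW⟩

private theorem itv_inCI (a b : ℤ) :
    InCI k ℓ a b = fun V => InC k ℓ V ∧ (WtLE V b ∧ WtGT V (a - 1)) := by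
  funext V
  exact propext (inCI_iff k ℓ)

private theorem itv_nice (a b : ℤ) :
    ItvNice (k := k) (ℓ := ℓ) (fun V => WtLE V b ∧ WtGT V (a - 1)) :=
  (itv_nice_le b).and (itv_nice_gt (a - 1))

instance inCI_sub (a b : ℤ) : (InCI k ℓ a b).IsClosedUnderSubobjects := by
  rw [itv_inCI]
  exact itv_sub (itv_nice k ℓ a b)

instance inCI_quot (a b : ℤ) : (InCI k ℓ a b).IsClosedUnderQuotients := by
  rw [itv_inCI]
  exact itv_quot (itv_nice k ℓ a b)

instance inCI_zero (a b : ℤ) : (InCI k ℓ a b).ContainsZero := by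
  rw [itv_inCI]
  exact itv_zero (itv_nice k ℓ a b)

instance inCI_prod (a b : ℤ) : (InCI k ℓ a b).IsClosedUnderFiniteProducts := by
  rw [itv_inCI]
  exact itv_finprod (itv_nice k ℓ a b)

/-- The category `C_{k,ℓ}^{[a,b]}`. -/
abbrev MixCatI (a b : ℤ) : Type 1 := (InCI k ℓ a b).FullSubcategory

instance instHasExtMixCatI (a b : ℤ) : HasExt.{1} (MixCatI k ℓ a b) := HasExt.standard _

/-- The inclusion of `C_{k,ℓ}^{[a,b]}` in `C_{k,ℓ}`. -/
noncomputable abbrev inclI (a b : ℤ) : MixCatI k ℓ a b ⥤ MixCat k ℓ :=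
  ObjectProperty.ιOfLE (inCI_le k ℓ a b)

instance inclI_additive (a b : ℤ) : (inclI k ℓ a b).Additive :=
  itv_additive _

instance inclI_finLim (a b : ℤ) : PreservesFiniteLimits (inclI k ℓ a b) :=
  itv_finLim _

instance inclI_finColim (a b : ℤ) : PreservesFiniteColimits (inclI k ℓ a b) :=
  itv_finColim _

/-- The objects with weights `≤ b`. -/
private def itvLE (b : ℤ) : ObjectProperty (RepG k ℓ) := fun V => InC k ℓ V ∧ WtLE V b

private theorem itvLE_sub (b : ℤ) : (itvLE k ℓ b).IsClosedUnderSubobjects :=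
  itv_sub (itv_nice_le b)

private theorem itvLE_quot (b : ℤ) : (itvLE k ℓ b).IsClosedUnderQuotients :=
  itv_quot (itv_nice_le b)

private theorem itvLE_zero (b : ℤ) : (itvLE k ℓ b).ContainsZero :=
  itv_zero (itv_nice_le b)

private theorem itvLE_prod (b : ℤ) : (itvLE k ℓ b).IsClosedUnderFiniteProducts :=
  itv_finprod (itv_nice_le b)

private theorem itvLE_le (b : ℤ) : itvLE k ℓ b ≤ InC k ℓ := fun _ h => h.1

private theorem inCI_le_itvLE (a b : ℤ) : InCI k ℓ a b ≤ itvLE k ℓ b := fun _ h =>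
  ⟨h.1, ((inCI_iff k ℓ).mp h).2.1⟩

attribute [local instance] itvLE_sub itvLE_quot itvLE_zero itvLE_prod

private theorem itv_hasExt (b : ℤ) : HasExt.{1} (itvLE k ℓ b).FullSubcategory :=
  HasExt.standard _

attribute [local instance] itv_hasExt

private theorem itv_J2 (b : ℤ) (X : (itvLE k ℓ b).FullSubcategory) (P : MixCat k ℓ)
    (p : P ⟶ (ObjectProperty.ιOfLE (itvLE_le k ℓ b)).obj X) (hp : Epi p) :
    ∃ (X' : (itvLE k ℓ b).FullSubcategory)
      (q : (ObjectProperty.ιOfLE (itvLE_le k ℓ b)).obj X' ⟶ P), Epi (q ≫ p) := by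
  obtain ⟨N, F, hN, hF⟩ := (isMixed_iff P.obj P.property.1 P.property.2.2.1).mp P.property.2.2.2.1
  have hS : ∀ g : GG k, F b ≤ (F b).comap (P.obj.ρ g) := fun g v hv => hF.2.2.2.1 b g v hv
  have hm : Mono (Rep.subtype P.obj (F b) hS) :=
    (Rep.mono_iff_injective _).mpr (Submodule.subtype_injective (F b))
  let X' : (itvLE k ℓ b).FullSubcategory := ⟨Rep.subrepresentation P.obj (F b) hS,
    (InC k ℓ).prop_of_mono (Rep.subtype P.obj (F b) hS) P.property, wtLE_sub hN hF b⟩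
  let q : (ObjectProperty.ιOfLE (itvLE_le k ℓ b)).obj X' ⟶ P :=
    ObjectProperty.homMk (Rep.subtype P.obj (F b) hS)
  refine ⟨X', q, (itv_epi _).mpr ?_⟩
  have hs : Function.Surjective p.hom.hom := (itv_epi p).mp hp
  have hF' := mixedP_of_surjective (Y := X.obj) p.hom.hom.toLinearMap (itv_comm p.hom) hs hF
  have hfin : FiniteDimensional ℚ_[ℓ] X.obj := X.property.1.1
  have htop := itv_quot_eq_top hN hF' X.property.2
  intro x
  have hx : x ∈ (F b).map p.hom.hom.toLinearMap := by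
    have : (F b).map p.hom.hom.toLinearMap = ⊤ := htop
    rw [this]
    exact Submodule.mem_top
  obtain ⟨y, hy, rfl⟩ := hx
  exact ⟨(⟨y, hy⟩ : F b), rfl⟩

private theorem itv_J1 (a b : ℤ) (Y : MixCatI k ℓ a b) (Q : (itvLE k ℓ b).FullSubcategory)
    (i : (ObjectProperty.ιOfLE (inCI_le_itvLE k ℓ a b)).obj Y ⟶ Q) (hi : Mono i) :
    ∃ (Y' : MixCatI k ℓ a b)
      (r : Q ⟶ (ObjectProperty.ιOfLE (inCI_le_itvLE k ℓ a b)).obj Y'), Mono (i ≫ r) := by
  have hQ : InC k ℓ Q.obj := Q.property.1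
  obtain ⟨N, F, hN, hF⟩ := (isMixed_iff Q.obj hQ.1 hQ.2.2.1).mp hQ.2.2.2.1
  have hS : ∀ g : GG k, F (a - 1) ≤ (F (a - 1)).comap (Q.obj.ρ g) :=
    fun g v hv => hF.2.2.2.1 (a - 1) g v hv
  have he : Epi (Rep.mkQ Q.obj (F (a - 1)) hS) :=
    (Rep.epi_iff_surjective _).mpr (Submodule.mkQ_surjective (F (a - 1)))
  let Y' : MixCatI k ℓ a b := ⟨Rep.quotient Q.obj (F (a - 1)) hS, (inCI_iff k ℓ).mpr
    ⟨(InC k ℓ).prop_of_epi (Rep.mkQ Q.obj (F (a - 1)) hS) hQ,
      (itv_nice_le b).quot (Rep.mkQ Q.obj (F (a - 1)) hS) he Q.property.2,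
      wtGT_quot hN hF (a - 1)⟩⟩
  let r : Q ⟶ (ObjectProperty.ιOfLE (inCI_le_itvLE k ℓ a b)).obj Y' :=
    ObjectProperty.homMk (Rep.mkQ Q.obj (F (a - 1)) hS)
  refine ⟨Y', r, (itv_mono _).mpr ?_⟩
  have hs : Function.Injective i.hom.hom := (itv_mono i).mp hi
  have hF' := mixedP_of_injective (X := Y.obj) i.hom.hom.toLinearMap (itv_comm i.hom) hs hF
  have hfin : FiniteDimensional ℚ_[ℓ] Y.obj := Y.property.1.1
  have hbot : (F (a - 1)).comap i.hom.hom.toLinearMap = ⊥ :=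
    itv_sub_eq_bot hN hF' ((inCI_iff k ℓ).mp Y.property).2.2
  have hker : LinearMap.ker (i ≫ r).hom.hom.toLinearMap = ⊥ := by
    rw [LinearMap.ker_eq_bot']
    intro x hx
    have h1 : i.hom.hom.toLinearMap x ∈ F (a - 1) :=
      (Submodule.Quotient.mk_eq_zero (F (a - 1))).mp hx
    have h2 : x ∈ (F (a - 1)).comap i.hom.hom.toLinearMap := h1
    rw [hbot] at h2
    exact (Submodule.mem_bot _).mp h2
  exact LinearMap.ker_eq_bot.mp hker

/-- The inclusion induces isomorphisms on all `Ext` groups. Factor through the category of objects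
of weights `≤ b`: `mapExt_bijective_of_epi` for its inclusion in `C` (part of weight `≤ b`),
`mapExt_bijective_of_mono` for the inclusion of `C^{[a,b]}` in it (quotient by the part of
weight `< a`), and `mapExact_comp`. -/
theorem interval_bijective (a b : ℤ) (X Y : MixCatI k ℓ a b) (n : ℕ) :
    Function.Bijective ((inclI k ℓ a b).mapExtAddHom X Y n :
      Ext.{1} X Y n →+ Ext.{1} ((inclI k ℓ a b).obj X) ((inclI k ℓ a b).obj Y) n) := by
  have i1 := itv_additive (inCI_le_itvLE k ℓ a b)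
  have i2 := itv_finLim (inCI_le_itvLE k ℓ a b)
  have i3 := itv_finColim (inCI_le_itvLE k ℓ a b)
  have i4 := itv_additive (itvLE_le k ℓ b)
  have i5 := itv_finLim (itvLE_le k ℓ b)
  have i6 := itv_finColim (itvLE_le k ℓ b)
  have e1 := mapExt_bijective_of_mono.{1, 0, 1, 1, 0, 1}
    (ObjectProperty.ιOfLE (inCI_le_itvLE k ℓ a b)) (itv_J1 k ℓ a b) X Y n
  have e2 := mapExt_bijective_of_epi.{1, 0, 1, 1, 0, 1}
    (ObjectProperty.ιOfLE (itvLE_le k ℓ b)) (itv_J2 k ℓ b)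
    ((ObjectProperty.ιOfLE (inCI_le_itvLE k ℓ a b)).obj X)
    ((ObjectProperty.ιOfLE (inCI_le_itvLE k ℓ a b)).obj Y) n
  have e3 := e2.comp e1
  have i7 : PreservesFiniteLimits (ObjectProperty.ιOfLE (inCI_le_itvLE k ℓ a b) ⋙
    ObjectProperty.ιOfLE (itvLE_le k ℓ b)) := inclI_finLim k ℓ a b
  have i8 : PreservesFiniteColimits (ObjectProperty.ιOfLE (inCI_le_itvLE k ℓ a b) ⋙
    ObjectProperty.ιOfLE (itvLE_le k ℓ b)) := inclI_finColim k ℓ a b
  have e4 : (fun x : Ext.{1} X Y n => (inclI k ℓ a b).mapExtAddHom X Y n x) =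
      fun x => ((ObjectProperty.ιOfLE (itvLE_le k ℓ b)).mapExtAddHom _ _ n
        ((ObjectProperty.ιOfLE (inCI_le_itvLE k ℓ a b)).mapExtAddHom X Y n x) : Ext.{1}
          ((inclI k ℓ a b).obj X) ((inclI k ℓ a b).obj Y) n) :=
    funext fun x => mapExact_comp (ObjectProperty.ιOfLE (inCI_le_itvLE k ℓ a b))
      (ObjectProperty.ιOfLE (itvLE_le k ℓ b)) x
  change Function.Bijective (fun x : Ext.{1} X Y n => (inclI k ℓ a b).mapExtAddHom X Y n x)
  rw [e4]
  exact e3

end Pool.Agent.FRC
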