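import Mathlib
import Pool.Agent.FRC.SC
import Pool.Agent.FRC.ITV

open CategoryTheory CategoryTheory.Limits CategoryTheory.Abelian

set_option warn.classDefReducibility false

namespace Pool.Agent.FRS

noncomputable section

variable (k : Type) [Field k] [NumberField k] (ℓ : ℕ) [Fact ℓ.Prime] (a b : ℤ)

theorem inCI_le : InCI k ℓ a b ≤ InC k ℓ := fun _ h => h.1

theorem inCI_zero : (InCI k ℓ a b).ContainsZero := FRC.inCI_zero k ℓ a b

theorem inCI_sub : (InCI k ℓ a b).IsClosedUnderSubobjects := FRC.inCI_sub k ℓ a b

theorem inCI_quot : (InCI k ℓ a b).IsClosedUnderQuotients := FRC.inCI_quot k ℓ a b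

theorem inCI_prod : (InCI k ℓ a b).IsClosedUnderFiniteProducts := FRC.inCI_prod k ℓ a b

attribute [local instance] inCI_zero inCI_sub inCI_quot inCI_prod

/-- The category of the objects with weights in `[a, b]` is abelian (as a full subcategory). -/
def abCatI : Abelian (CatI k ℓ a b) := (inferInstance : Abelian (InCI k ℓ a b).FullSubcategory)

attribute [instance] abCatI

theorem hasExtCatI : HasExt.{1} (CatI k ℓ a b) := HasExt.standard _

attribute [instance] hasExtCatI

/-- The inclusion functor. -/
def incl : CatI k ℓ a b ⥤ Cat k ℓ := ObjectProperty.ιOfLE (inCI_le k ℓ a b)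

theorem incl_additive : (incl k ℓ a b).Additive := FRC.inclI_additive k ℓ a b

theorem incl_finLim : PreservesFiniteLimits (incl k ℓ a b) := FRC.inclI_finLim k ℓ a b

theorem incl_finColim : PreservesFiniteColimits (incl k ℓ a b) := FRC.inclI_finColim k ℓ a b

attribute [instance] incl_additive incl_finLim incl_finColim

/-- The map on `Ext` groups given by the inclusion functor. -/
def extMap (X Y : CatI k ℓ a b) (n : ℕ) :
    Ext.{1} X Y n → Ext.{1} ((incl k ℓ a b).obj X) ((incl k ℓ a b).obj Y) n :=
  fun x => (incl k ℓ a b).mapExtAddHom X Y n x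

theorem extMap_bijective (X Y : CatI k ℓ a b) (n : ℕ) :
    Function.Bijective (extMap k ℓ a b X Y n) :=
  FRC.interval_bijective k ℓ a b X Y n

end

end Pool.Agent.FRS
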